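import Pool.Agent.H49.CP.Good

set_option autoImplicit false

namespace Pool.Agent.H49.CP

open Finset MeasureTheory Filter Topology Pool.Agent.H45.Chain Pool.Agent.H43.RW
  Pool.Agent.H49.CP.Walk
open scoped ENNReal

/-- the arc of the unit circle between the angles `a` and `b` -/
def arc (a b : ℝ) : Set ℂ := (fun t : ℝ => Complex.exp (t * Complex.I)) '' Set.Icc a b

/-- paths which end in a set -/
def EvS (S : Set V) : Set (ℕ → V) := {x | ∀ᶠ n in atTop, x n ∈ S}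

lemma meas_EvS (S : Set V) : MeasurableSet (EvS S) := by
  have : EvS S = ⋃ N : ℕ, ⋂ n ∈ Set.Ici N, {x : ℕ → V | x n ∈ S} := by
    ext x
    simp only [EvS, Set.mem_setOf_eq, eventually_atTop, Set.mem_iUnion, Set.mem_iInter,
      Set.mem_Ici]
  rw [this]
  exact MeasurableSet.iUnion fun N => MeasurableSet.biInter (Set.to_countable _) fun n _ =>
    meas_at' n S

/-- probability of ending in a set -/
noncomputable def hS (D : L → ℕ) (S : Set V) (v : V) : ℝ :=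
  (pathLaw (srw (Gr D)) v (EvS S)).toReal

lemma harm_hS (D : L → ℕ) (S : Set V) : Harm D (hS D S) := by
  refine ⟨fun v => ENNReal.toReal_nonneg, fun v => ?_⟩
  have h1 : pathLaw (srw (Gr D)) v (EvS S) =
      ∑' w, srw (Gr D) v {w} * pathLaw (srw (Gr D)) w (EvS S) := by
    rw [measure_first_step _ v _ (meas_EvS S)]
    have e : cons v ⁻¹' EvS S = EvS S := by
      ext x
      simp only [Set.mem_preimage, EvS, Set.mem_setOf_eq, eventually_atTop]
      constructor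
      · rintro ⟨N, hN⟩
        exact ⟨N, fun n hn => hN (n + 1) (by omega)⟩
      · rintro ⟨N, hN⟩
        refine ⟨N + 1, fun n hn => ?_⟩
        obtain ⟨m, rfl⟩ : ∃ m, n = m + 1 := ⟨n - 1, by omega⟩
        exact hN m (by omega)
    rw [e]
  have h2 := deg_step (Gr D) locfin_graph v fun w => pathLaw (srw (Gr D)) w (EvS S)
  rw [← h1] at h2
  have h3 := congrArg ENNReal.toReal h2
  rw [ENNReal.toReal_mul, ENNReal.toReal_natCast,
    ENNReal.toReal_sum fun w _ => measure_ne_top _ _] at h3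
  exact h3

lemma stp_le_hS (D : L → ℕ) (S : Set V) (v : V) : stp D S v ≤ ENNReal.ofReal (hS D S v) := by
  unfold hS stp
  rw [ENNReal.ofReal_toReal (measure_ne_top _ _)]
  refine measure_mono ?_
  intro x hx
  exact Eventually.of_forall hx

/-- paths whose positions converge to a point of an arc -/
def LimS (D : L → ℕ) (a b : ℝ) : Set (ℕ → V) :=
  {x | ∃ ξ ∈ arc a b, Tendsto (fun n => pos D (x n)) atTop (𝓝 ξ)}

lemma hS_le_arc {D : L → ℕ} (hE : Ec D ≠ ⊤) {ν : L} (hν : Nu ν) (hz : 0 < ν.2.2) {p : L}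
    (hp : Ctr p) :
    ENNReal.ofReal (hS D (Sd ν) (bv p)) ≤ pathLaw (srw (Gr D)) (bv p)
      (LimS D ((hc (ι ν)).arg - 1 / ν.2.2) ((hc (ι ν)).arg + 1 / ν.2.2)) := by
  unfold hS
  rw [ENNReal.ofReal_toReal (measure_ne_top _ _)]
  refine measure_mono_ae ?_
  filter_upwards [conv_ctr hE hp, act_ae (act_ctr (D := D) hp)] with x hx hact hev
  obtain ⟨z, hz1, hlim⟩ := hx
  have h1 := side_ev hact hz1 hlim hν hev
  obtain ⟨t, ht, hzt⟩ := arc_of hν.norm hz hz1 h1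
  rw [abs_le] at ht
  exact ⟨z, ⟨t, ⟨by linarith, by linarith⟩, hzt.symm⟩, hlim⟩

/-- the good event gives a short arc of large harmonic measure -/
theorem good_arc {ε : ℝ≥0∞} {r : ℕ} {ω : Om} {w : Fin (8 * r) → Bool} (hr : 1 ≤ r)
    (hlarge : 2 * (14 + 10 * 2 ^ r) ≤ (1 / (2 * r : ℝ)) ^ 2 * (2 ^ (2 * r) - 1 / 2))
    (hG : GoodEv ε r ω (gw (8 * r) w)) (hE : Ec (DD ω) ≠ ⊤) (hε : ε ≠ ⊤) :
    ∃ a b : ℝ, a < b ∧ b - a ≤ 2 / 5 ^ ((2 * r) ^ 3) ∧
      ENNReal.ofReal ((1 - 1 / (2 * r : ℝ)) ^ ((2 * r) ^ 3) * ε.toReal / MB r ^ (8 * r + 1)) ≤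
        pathLaw (srw (Gr (DD ω))) (bv p0) (LimS (DD ω) a b) := by
  set k := gw (8 * r) w * XT ^ ((2 * r) ^ 3 + 1) with hk
  have hnz : 0 ≤ nz (gw (8 * r) w) := by
    have h1 := nz_gw (8 * r) w 1
    rw [one_mul] at h1
    have h2 : nz (1 : Γ) = -1 := by
      unfold nz; rw [one_smul]; rfl
    rw [h2] at h1
    push_cast at h1
    have : (1:ℤ) ≤ r := by exact_mod_cast hr
    linarith
  have hz : 5 ^ ((2 * r) ^ 3) ≤ nz k := nz_pow hnz _
  have hz0 : (0:ℤ) < nz k := lt_of_lt_of_le (by positivity) hz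
  have hν : Nu (-(k • n0)) := (show Nu (k • n0) from ⟨k, rfl⟩).neg
  have hzR : (5:ℝ) ^ ((2 * r) ^ 3) ≤ nz k := by exact_mod_cast hz
  have hzR0 : (0:ℝ) < nz k := by exact_mod_cast hz0
  refine ⟨(hc (ι (-(k • n0)))).arg - 1 / nz k, (hc (ι (-(k • n0)))).arg + 1 / nz k, ?_, ?_, ?_⟩
  · have : (0:ℝ) < 1 / nz k := by positivity
    linarith
  · have h1 : (2:ℝ) / nz k ≤ 2 / 5 ^ ((2 * r) ^ 3) :=
      div_le_div_of_nonneg_left (by norm_num) (by positivity) hzR
    calc _ = 2 / (nz k : ℝ) := by ring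
      _ ≤ _ := h1
  · refine le_trans (ENNReal.ofReal_le_ofReal ?_) (hS_le_arc hE hν hz0 ctr_p0)
    rw [div_le_iff₀ (pow_pos (MB_pos r) _), mul_comm (hS _ _ _)]
    exact good_bound hr hlarge hG (harm_hS (DD ω) _) hε fun v => stp_le_hS _ _ v

end Pool.Agent.H49.CP
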