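import Pool.Agent.H49.CP.Prob2

set_option autoImplicit false

namespace Pool.Agent.H49.CP

open Finset MeasureTheory Filter Topology Pool.Agent.H45.Chain
open scoped ENNReal

lemma pow_big {r : ℕ} (h : 18 ≤ r) : 384 * r ^ 2 ≤ 2 ^ r := by
  induction r, h using Nat.le_induction with
  | base => norm_num
  | succ r hr ih =>
    rw [pow_succ 2 r]
    have h1 : (r + 1) ^ 2 ≤ 2 * r ^ 2 := by nlinarith
    calc 384 * (r + 1) ^ 2 ≤ 384 * (2 * r ^ 2) := Nat.mul_le_mul_left _ h1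
      _ = (384 * r ^ 2) * 2 := by ring
      _ ≤ _ := Nat.mul_le_mul_right _ ih

lemma hlarge {r : ℕ} (h : 18 ≤ r) :
    2 * (14 + 10 * (2:ℝ) ^ r) ≤ (1 / (2 * r : ℝ)) ^ 2 * (2 ^ (2 * r) - 1 / 2) := by
  have h1 : (384:ℝ) * r ^ 2 ≤ 2 ^ r := by exact_mod_cast pow_big h
  have hr : (18:ℝ) ≤ r := by exact_mod_cast h
  have h2 : (1:ℝ) ≤ 2 ^ r := one_le_pow₀ (by norm_num)
  have e1 : (1 / (2 * r : ℝ)) ^ 2 * (2 ^ (2 * r) - 1 / 2) = (2 ^ (2 * r) - 1 / 2) / (4 * r ^ 2) := by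
    field_simp; ring
  rw [e1, le_div_iff₀ (by positivity)]
  have e2 : (2:ℝ) ^ (2 * r) = 2 ^ r * 2 ^ r := by rw [← pow_add]; congr 1; ring
  rw [e2]
  have h3 : (14 + 10 * (2:ℝ) ^ r) ≤ 24 * 2 ^ r := by linarith
  have h4 : 2 * (14 + 10 * (2:ℝ) ^ r) * (4 * r ^ 2) ≤ 2 * (24 * 2 ^ r) * (4 * r ^ 2) := by
    apply mul_le_mul_of_nonneg_right _ (by positivity)
    linarith
  have h5 : 2 * (24 * (2:ℝ) ^ r) * (4 * r ^ 2) = (192 * r ^ 2) * 2 ^ r := by ring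
  have h6 : (192 * (r:ℝ) ^ 2) * 2 ^ r ≤ (2 ^ r / 2) * 2 ^ r :=
    mul_le_mul_of_nonneg_right (by linarith) (by positivity)
  nlinarith

lemma exp_neg_two {x : ℝ} (h0 : 0 ≤ x) (h1 : x ≤ 1 / 2) : Real.exp (-(2 * x)) ≤ 1 - x := by
  rw [Real.exp_neg]
  have h2 : 1 + 2 * x ≤ Real.exp (2 * x) := by
    have := Real.add_one_le_exp (2 * x); linarith
  calc (Real.exp (2 * x))⁻¹ ≤ (1 + 2 * x)⁻¹ := inv_anti₀ (by linarith) h2
    _ ≤ 1 - x := by
        rw [inv_le_iff_one_le_mul₀ (by linarith)]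
        nlinarith

lemma MB_le {r : ℕ} (h : 1 ≤ r) : MB r ^ (8 * r + 1) ≤ Real.exp (72 * r ^ 2) := by
  have hr : (1:ℝ) ≤ r := by exact_mod_cast h
  have h1 : MB r ≤ Real.exp (8 * r) := by
    unfold MB
    have e1 : (24:ℝ) ≤ Real.exp 4 := by
      have := Real.exp_one_gt_d9
      calc (24:ℝ) ≤ 2.7182818283 ^ 4 := by norm_num
        _ ≤ Real.exp 1 ^ 4 := pow_le_pow_left₀ (by norm_num) this.le 4
        _ = Real.exp 4 := by rw [← Real.exp_nat_mul]; norm_num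
    have e2 : (2:ℝ) ^ (4 * r) ≤ Real.exp (4 * r) := by
      have := Real.add_one_le_exp (1:ℝ)
      calc (2:ℝ) ^ (4 * r) ≤ Real.exp 1 ^ (4 * r) := pow_le_pow_left₀ (by norm_num) (by linarith) _
        _ = Real.exp (4 * r) := by rw [← Real.exp_nat_mul]; push_cast; ring_nf
    calc 24 * (2:ℝ) ^ (4 * r) ≤ Real.exp 4 * Real.exp (4 * r) :=
          mul_le_mul e1 e2 (by positivity) (by positivity)
      _ = Real.exp (4 + 4 * r) := (Real.exp_add _ _).symm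
      _ ≤ _ := Real.exp_le_exp.2 (by linarith)
  calc MB r ^ (8 * r + 1) ≤ Real.exp (8 * r) ^ (8 * r + 1) :=
        pow_le_pow_left₀ (MB_pos r).le h1 _
    _ = Real.exp ((8 * r + 1) * (8 * r)) := by rw [← Real.exp_nat_mul]; push_cast; rfl
    _ ≤ _ := Real.exp_le_exp.2 (by nlinarith)

/-- the harmonic measure bound beats every power of the length -/
lemma beats {ε C κ : ℝ} (hε : 0 < ε) (hC : 0 < C) (hκ : 0 < κ) : ∃ R : ℕ, ∀ r ≥ R,
    C * (2 / 5 ^ ((2 * r) ^ 3)) ^ κ <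
      (1 - 1 / (2 * r : ℝ)) ^ ((2 * r) ^ 3) * ε / MB r ^ (8 * r + 1) := by
  obtain ⟨R1, hR1⟩ := exists_nat_gt (81 / (8 * κ))
  obtain ⟨R2, hR2⟩ := exists_nat_gt (C * 2 ^ κ / ε)
  refine ⟨max 1 (max R1 R2), fun r hr => ?_⟩
  have hr1 : 1 ≤ r := (le_max_left _ _).trans hr
  have hrR1 : (R1:ℝ) ≤ r := by exact_mod_cast (le_max_left _ _).trans ((le_max_right _ _).trans hr)
  have hrR2 : (R2:ℝ) ≤ r := by exact_mod_cast (le_max_right _ _).trans ((le_max_right _ _).trans hr)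
  have hr : (1:ℝ) ≤ r := by exact_mod_cast hr1
  have hk : 81 ≤ 8 * κ * r := by
    have h1 : 81 / (8 * κ) < r := hR1.trans_le hrR1
    rw [div_lt_iff₀ (by positivity)] at h1
    linarith
  have hC2 : C * 2 ^ κ < ε * r := by
    have h1 : C * 2 ^ κ / ε < r := hR2.trans_le hrR2
    rw [div_lt_iff₀ hε] at h1
    linarith
  -- lower bound of the right side
  have a1 : Real.exp (-(8 * r ^ 2)) ≤ (1 - 1 / (2 * r : ℝ)) ^ ((2 * r) ^ 3) := by
    have h1 := exp_neg_two (x := 1 / (2 * r : ℝ)) (by positivity) (by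
      rw [div_le_div_iff₀ (by positivity) (by norm_num)]; linarith)
    calc Real.exp (-(8 * r ^ 2)) = Real.exp (-(2 * (1 / (2 * r)))) ^ ((2 * r) ^ 3) := by
          rw [← Real.exp_nat_mul]
          congr 1
          push_cast
          field_simp
          ring
      _ ≤ _ := pow_le_pow_left₀ (by positivity) h1 _
  have a2 := MB_le hr1
  have a3 : Real.exp (-(80 * r ^ 2)) * ε ≤
      (1 - 1 / (2 * r : ℝ)) ^ ((2 * r) ^ 3) * ε / MB r ^ (8 * r + 1) := by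
    rw [le_div_iff₀ (pow_pos (MB_pos r) _)]
    calc Real.exp (-(80 * r ^ 2)) * ε * MB r ^ (8 * r + 1)
        ≤ Real.exp (-(80 * r ^ 2)) * ε * Real.exp (72 * r ^ 2) :=
          mul_le_mul_of_nonneg_left a2 (by positivity)
      _ = (Real.exp (-(80 * r ^ 2)) * Real.exp (72 * r ^ 2)) * ε := by ring
      _ = Real.exp (-(8 * r ^ 2)) * ε := by rw [← Real.exp_add]; ring_nf
      _ ≤ _ := mul_le_mul_of_nonneg_right a1 hε.le
  refine lt_of_lt_of_le ?_ a3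
  -- upper bound of the left side
  have b1 : ((2:ℝ) / 5 ^ ((2 * r) ^ 3)) ^ κ ≤ 2 ^ κ * Real.exp (-(8 * κ * r ^ 3)) := by
    rw [Real.div_rpow (by norm_num) (by positivity), div_eq_mul_inv]
    refine mul_le_mul_of_nonneg_left ?_ (by positivity)
    rw [Real.exp_neg]
    refine inv_anti₀ (by positivity) ?_
    have h5 : Real.exp 1 ≤ 5 := by linarith [Real.exp_one_lt_d9]
    have h6 : Real.exp ((2 * r) ^ 3) ≤ (5:ℝ) ^ ((2 * r) ^ 3) := by
      calc Real.exp ((2 * r) ^ 3) = Real.exp 1 ^ ((2 * r) ^ 3) := by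
            rw [← Real.exp_nat_mul]; push_cast; ring_nf
        _ ≤ _ := pow_le_pow_left₀ (by positivity) h5 _
    calc Real.exp (8 * κ * r ^ 3) = Real.exp ((2 * r) ^ 3) ^ κ := by
          rw [← Real.exp_mul]; ring_nf
      _ ≤ _ := Real.rpow_le_rpow (by positivity) h6 hκ.le
  calc C * ((2:ℝ) / 5 ^ ((2 * r) ^ 3)) ^ κ ≤ C * (2 ^ κ * Real.exp (-(8 * κ * r ^ 3))) :=
        mul_le_mul_of_nonneg_left b1 hC.le
    _ = (C * 2 ^ κ) * Real.exp (-(8 * κ * r ^ 3)) := by ring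
    _ < (ε * r) * Real.exp (-(8 * κ * r ^ 3)) := mul_lt_mul_of_pos_right hC2 (by positivity)
    _ ≤ (ε * Real.exp (r ^ 2)) * Real.exp (-(8 * κ * r ^ 3)) := by
        refine mul_le_mul_of_nonneg_right (mul_le_mul_of_nonneg_left ?_ hε.le) (by positivity)
        have := Real.add_one_le_exp ((r:ℝ) ^ 2)
        nlinarith
    _ = Real.exp (r ^ 2 + -(8 * κ * r ^ 3)) * ε := by rw [Real.exp_add]; ring
    _ ≤ Real.exp (-(80 * r ^ 2)) * ε := by
        refine mul_le_mul_of_nonneg_right (Real.exp_le_exp.2 ?_) hε.le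
        nlinarith [mul_le_mul_of_nonneg_right hk (sq_nonneg (r:ℝ))]

/-- on a set of positive probability the harmonic measure from `p0` is not Hoelder -/
theorem not_holder : ∃ A : Set Om, MeasurableSet A ∧ Pm A ≠ 0 ∧ ∀ ω ∈ A, ∀ C κ : ℝ, 0 < C →
    0 < κ → ∃ a b : ℝ, a < b ∧ b ≤ a + 2 * Real.pi ∧ ENNReal.ofReal (C * (b - a) ^ κ) <
      pathLaw (srw (Gr (DD ω))) (bv p0) (LimS (DD ω) a b) := by
  obtain ⟨ε, hε0, hε1, A, hA, hPA, hAl⟩ := limsup_pos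
  have hεt : ε ≠ ⊤ := (hε1.trans ENNReal.one_lt_top).ne
  -- intersect with a measurable set of full measure
  obtain ⟨T, hT1, hT2, hT3⟩ := exists_measurable_superset_of_null
    (ae_iff.1 (Ec_ae.and SS_ae_lt))
  refine ⟨A \ T, hA.diff hT2, ?_, ?_⟩
  · intro h0
    apply hPA
    refine measure_mono_null (t := (A \ T) ∪ T) ?_ (measure_union_null h0 hT3)
    intro ω hω
    by_cases h : ω ∈ T
    · exact Or.inr h
    · exact Or.inl ⟨hω, h⟩
  · rintro ω ⟨hωA, hωT⟩ C κ hC hκ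
    have hgood : Ec (DD ω) ≠ ⊤ ∧ ∀ u, SS ω u ≠ ⊤ := by
      by_contra hcon
      exact hωT (hT1 hcon)
    obtain ⟨R, hR⟩ := beats (ENNReal.toReal_pos hε0.ne' hεt) hC hκ
    obtain ⟨r, hr, hGr⟩ := hAl ω hωA (max 18 R)
    have hr18 : 18 ≤ r := (le_max_left _ _).trans hr
    have hrR : R ≤ r := (le_max_right _ _).trans hr
    obtain ⟨w, hw⟩ := Gd_good hGr hgood.2
    obtain ⟨a, b, hab, hlen, hP⟩ := good_arc (by omega) (hlarge hr18) hw hgood.1 hεt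
    have h5 : (1:ℝ) ≤ 5 ^ ((2 * r) ^ 3) := one_le_pow₀ (by norm_num)
    have h2 : (2:ℝ) / 5 ^ ((2 * r) ^ 3) ≤ 2 := div_le_self (by norm_num) h5
    refine ⟨a, b, hab, by linarith [Real.pi_gt_three], lt_of_lt_of_le ?_ hP⟩
    rw [ENNReal.ofReal_lt_ofReal_iff_of_nonneg (by
      have : 0 < b - a := by linarith
      positivity)]
    refine lt_of_le_of_lt ?_ (hR r hrR)
    refine mul_le_mul_of_nonneg_left ?_ hC.le
    exact Real.rpow_le_rpow (by linarith) hlen hκ.le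

end Pool.Agent.H49.CP
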