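import Pool.Agent.H49.CP.ChainH

set_option autoImplicit false

namespace Pool.Agent.H49.CP

open Finset Pool.Agent.H49.CP.Walk

variable {D : L → ℕ}

lemma nf_ctr (g : Γ) : nf (Gr D) locfin_graph (bv (g • p0)) = nbF D g := by
  have h := nbr_ctr (D := D) g
  ext w
  rw [mem_nf, ← SimpleGraph.mem_neighborSet, h, mem_coe]

lemma nq_inj : Function.Injective nq := by decide

lemma fan_sum (g : Γ) (i k : ZMod 6) (h : V → ℝ) : ∑ w ∈ fanF D g i k, h w =
    ∑ l ∈ Icc 1 (D (g • p0 + g • nb i)), h (g • p0 + g • nb i, g • nq k, l) := by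
  rw [fanF, sum_image]
  intro l _ m _ e
  simpa using e

/-- lower bound for the sum over the neighbours of a centre -/
lemma ctr_sum {h : V → ℝ} (hh : Harm D h) (g : Γ) (I : Finset (ZMod 6)) :
    ∑ i ∈ I, (h (bv (g • nb i)) + ((D (g • p0 + g • nb i) : ℝ) - 1 / 2) *
      (h (bv (g • p0)) + h (bv (g • nb i)))) ≤
    ((nf (Gr D) locfin_graph (bv (g • p0))).card : ℝ) * h (bv (g • p0)) := by
  classical
  rw [hh.2, nf_ctr]
  set A := I.image fun i : ZMod 6 => bv (g • nb i) with hA
  set C := I.biUnion fun i : ZMod 6 => fanF D g i i ∪ fanF D g i (i - 1) with hC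
  have hsub : A ∪ C ⊆ nbF D g := by
    intro w hw
    unfold nbF
    rcases mem_union.1 hw with h | h
    · obtain ⟨i, -, rfl⟩ := mem_image.1 h
      exact mem_union_left _ (mem_union_left _ (mem_image.2 ⟨i, mem_univ _, rfl⟩))
    · obtain ⟨i, -, h'⟩ := mem_biUnion.1 h
      exact mem_union_right _ (mem_biUnion.2 ⟨i, mem_univ _, h'⟩)
  have hd : Disjoint A C := by
    rw [Finset.disjoint_left]
    intro w h1 h2
    obtain ⟨i, -, rfl⟩ := mem_image.1 h1
    obtain ⟨j, -, h3⟩ := mem_biUnion.1 h2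
    rcases mem_union.1 h3 with h4 | h4
    · obtain ⟨l, hl, -, e⟩ := mem_fanF.1 h4
      exact bv_ne_fan hl e
    · obtain ⟨l, hl, -, e⟩ := mem_fanF.1 h4
      exact bv_ne_fan hl e
  have hd2 : ∀ i, Disjoint (fanF D g i i) (fanF D g i (i - 1)) := by
    intro i
    rw [Finset.disjoint_left]
    intro w h1 h2
    obtain ⟨l, hl, -, e⟩ := mem_fanF.1 h1
    obtain ⟨l', hl', -, e'⟩ := mem_fanF.1 h2
    rw [e] at e'
    simp only [Prod.mk.injEq] at e'
    have h3 := nq_inj (MulAction.injective g e'.2.1)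
    have key : ∀ i : ZMod 6, i ≠ i - 1 := by decide
    exact key i h3
  have hd3 : (I : Set (ZMod 6)).PairwiseDisjoint fun i => fanF D g i i ∪ fanF D g i (i - 1) := by
    intro i _ j _ hij
    simp only [Function.onFun]
    rw [Finset.disjoint_left]
    intro w h1 h2
    have key : ∀ i, w ∈ fanF D g i i ∪ fanF D g i (i - 1) → w.1 = g • p0 + g • nb i := by
      intro i h
      rcases mem_union.1 h with h4 | h4
      · obtain ⟨l, hl, -, e⟩ := mem_fanF.1 h4; rw [e]
      · obtain ⟨l, hl, -, e⟩ := mem_fanF.1 h4; rw [e]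
    have h3 := (key i h1).symm.trans (key j h2)
    exact hij (nb_inj (MulAction.injective g (add_left_cancel h3)))
  refine le_trans ?_ (sum_le_sum_of_subset_of_nonneg hsub fun w _ _ => hh.1 w)
  rw [sum_union hd, hA, sum_image (fun i _ j _ e => nb_inj (MulAction.injective g (bv_inj.1 e))),
    hC, sum_biUnion hd3, ← sum_add_distrib]
  refine sum_le_sum fun i _ => ?_
  rw [sum_union (hd2 i), fan_sum, fan_sum]
  have h1 := chain_sum (D := D) ((fc_nb i).act g) hh
  have h2 := chain_sum (D := D) ((fc_nb' i).act g) hh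
  linarith

lemma card_ctr_le (g : Γ) : ((nf (Gr D) locfin_graph (bv (g • p0))).card : ℝ) ≤
    12 + ∑ i : ZMod 6, 2 * (D (g • p0 + g • nb i) : ℝ) := by
  have h1 := ncard_ctr_le (D := D) g
  rw [← nf_card] at h1
  exact_mod_cast h1

end Pool.Agent.H49.CP
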