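import Pool.Agent.H49.CP.Half

set_option autoImplicit false

namespace Pool.Agent.H49.CP

open Finset Pool.Agent.H49.CP.Walk

variable {D : L → ℕ}

/-- lower bound along a chain -/
lemma chain_real (n : ℕ) (hn : 1 ≤ n) (f : ℕ → ℝ) (m : ℝ) (hm : 0 ≤ m) (h0 : 0 ≤ f 0)
    (h1 : ∀ l, 1 ≤ l → l < n → 4 * f l = 2 * m + f (l - 1) + f (l + 1))
    (h2 : 3 * f n = 2 * m + f (n - 1)) :
    ((n:ℝ) - 1 / 2) * m ≤ ∑ l ∈ Icc 1 n, f l := by
  set e : ℕ → ℝ := fun l => f l - m * (1 - (1/3) ^ l) with he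
  have hpos : ∀ l ∈ range (n + 1), 0 ≤ e l := by
    obtain ⟨k, hk, hmin⟩ := exists_min_image (range (n + 1)) e ⟨0, by simp⟩
    have hek : 0 ≤ e k := by
      rcases Nat.eq_zero_or_pos k with rfl | hk0
      · simp only [he]; simpa using h0
      · rcases lt_or_eq_of_le (Nat.lt_succ_iff.1 (mem_range.1 hk)) with hkn | rfl
        · have a1 := hmin (k - 1) (mem_range.2 (by omega))
          have a2 := hmin (k + 1) (mem_range.2 (by omega))
          have a3 := h1 k hk0 hkn
          obtain ⟨l, rfl⟩ : ∃ l, k = l + 1 := ⟨k - 1, by omega⟩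
          simp only [he, Nat.add_sub_cancel] at a1 a2 a3 ⊢
          have p0 : (0:ℝ) ≤ m * (1/3) ^ l := by positivity
          have e1 : (1/3:ℝ) ^ (l + 1) = (1/3) ^ l / 3 := by rw [pow_succ]; ring
          have e2 : (1/3:ℝ) ^ (l + 1 + 1) = (1/3) ^ l / 9 := by rw [pow_succ, pow_succ]; ring
          rw [e1] at a1 a2 ⊢
          rw [e2] at a2
          nlinarith
        · have a1 := hmin (k - 1) (mem_range.2 (by omega))
          obtain ⟨l, rfl⟩ : ∃ l, k = l + 1 := ⟨k - 1, by omega⟩
          simp only [he, Nat.add_sub_cancel] at a1 h2 ⊢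
          have p0 : (0:ℝ) ≤ m * (1/3) ^ l := by positivity
          have e1 : (1/3:ℝ) ^ (l + 1) = (1/3) ^ l / 3 := by rw [pow_succ]; ring
          rw [e1] at a1 ⊢
          nlinarith
    intro l hl
    exact hek.trans (hmin l hl)
  have h3 : ∑ l ∈ Icc 1 n, m * (1 - (1/3:ℝ) ^ l) ≤ ∑ l ∈ Icc 1 n, f l := by
    refine sum_le_sum fun l hl => ?_
    have := hpos l (by rw [mem_Icc] at hl; rw [mem_range]; omega)
    simp only [he] at this
    linarith
  refine le_trans ?_ h3
  rw [← mul_sum, sum_sub_distrib]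
  simp only [sum_const, Nat.card_Icc, Nat.add_sub_cancel, nsmul_eq_mul, mul_one]
  have h4 : ∀ n : ℕ, ∑ l ∈ Icc 1 n, (1/3:ℝ) ^ l ≤ 1/2 := by
    have h5 : ∀ n : ℕ, ∑ l ∈ Icc 1 n, (1/3:ℝ) ^ l = 1/2 - (1/2) * (1/3) ^ n := by
      intro n
      induction n with
      | zero => simp
      | succ n ih =>
        rw [sum_Icc_succ_top (by omega), ih, pow_succ]; ring
    intro n
    rw [h5]
    have : (0:ℝ) ≤ (1/3) ^ n := by positivity
    linarith
  have := h4 n
  nlinarith

lemma xv_ne {u q : L} {l m : ℕ} (h : l ≠ m) (hl : 1 ≤ l ∨ 1 ≤ m) : xv u q l ≠ xv u q m := by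
  unfold xv
  split_ifs with h1 h2 h2
  · omega
  · exact bv_ne_fan (by omega)
  · exact (bv_ne_fan (by omega)).symm
  · intro h'
    simp only [Prod.mk.injEq] at h'
    exact h h'.2.2

lemma xv_pos {u q : L} {l : ℕ} (h : 1 ≤ l) : xv u q l = (u, q, l) := by
  simp only [xv, if_neg (by omega : ¬ l = 0)]

/-- neighbours of an inner chain vertex -/
lemma nf_inner {p p' q : L} (F : Fc p p' q) {l : ℕ} (hl : 1 ≤ l) (hD : l + 1 ≤ D (p + p')) :
    nf (Gr D) locfin_graph (xv (p + p') q l) =
      {bv p, bv p', xv (p + p') q (l - 1), xv (p + p') q (l + 1)} := by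
  ext w
  rw [mem_nf]
  simp only [mem_insert, mem_singleton]
  constructor
  · intro h
    rw [xv_pos hl] at h
    have hw := h.2.2.1
    rcases hw.cases with ⟨r, hr, rfl⟩ | ⟨k, hk, rfl⟩ | ⟨r, r', k, m, G, hm, hD', rfl⟩
    · rw [SimpleGraph.adj_comm, adj_cf F hr] at h
      rcases h.1 with rfl | rfl
      · exact Or.inl rfl
      · exact Or.inr (Or.inl rfl)
    · rw [SimpleGraph.adj_comm] at h
      obtain ⟨rfl, rfl⟩ := adj_qf F hk hl h
      right; right; left
      rfl
    · obtain ⟨e1, e2, e3⟩ := adj_ff F G hl hm h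
      right; right
      rw [xv_pos (by omega : 1 ≤ l + 1)]
      rcases e3 with e3 | e3
      · right; rw [e1, e2, e3]
      · left
        rw [xv_pos (by omega : 1 ≤ l - 1), e1, e2]
        congr 2
        omega
  · rintro (rfl | rfl | rfl | rfl)
    · exact (adj_cx F (by omega)).symm
    · rw [add_comm p p']
      exact (adj_cx F.symm (by rw [add_comm p' p]; omega)).symm
    · have := adj_chain (D := D) F (l := l - 1) (by omega)
      rw [show l - 1 + 1 = l by omega] at this
      exact this.symm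
    · exact adj_chain F hD

/-- neighbours of the last chain vertex -/
lemma nf_last {p p' q : L} (F : Fc p p' q) {l : ℕ} (hl : 1 ≤ l) (hD : l = D (p + p')) :
    nf (Gr D) locfin_graph (xv (p + p') q l) = {bv p, bv p', xv (p + p') q (l - 1)} := by
  ext w
  rw [mem_nf]
  simp only [mem_insert, mem_singleton]
  constructor
  · intro h
    rw [xv_pos hl] at h
    have hw := h.2.2.1
    rcases hw.cases with ⟨r, hr, rfl⟩ | ⟨k, hk, rfl⟩ | ⟨r, r', k, m, G, hm, hD', rfl⟩
    · rw [SimpleGraph.adj_comm, adj_cf F hr] at h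
      rcases h.1 with rfl | rfl
      · exact Or.inl rfl
      · exact Or.inr (Or.inl rfl)
    · rw [SimpleGraph.adj_comm] at h
      obtain ⟨rfl, rfl⟩ := adj_qf F hk hl h
      right; right
      rfl
    · obtain ⟨e1, e2, e3⟩ := adj_ff F G hl hm h
      right; right
      rcases e3 with e3 | e3
      · rw [← e1] at hD'; omega
      · rw [xv_pos (by omega : 1 ≤ l - 1), e1, e2]
        congr 2
        omega
  · rintro (rfl | rfl | rfl)
    · exact (adj_cx F (by omega)).symm
    · rw [add_comm p p']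
      exact (adj_cx F.symm (by rw [add_comm p' p]; omega)).symm
    · have := adj_chain (D := D) F (l := l - 1) (by omega)
      rw [show l - 1 + 1 = l by omega] at this
      exact this.symm

/-- nonnegative harmonic functions -/
def Harm (D : L → ℕ) (h : V → ℝ) : Prop := (∀ v, 0 ≤ h v) ∧
  ∀ v, ((nf (Gr D) locfin_graph v).card : ℝ) * h v = ∑ w ∈ nf (Gr D) locfin_graph v, h w

/-- sum over a chain -/
lemma chain_sum {p p' q : L} (F : Fc p p' q) {h : V → ℝ} (hh : Harm D h) :
    ((D (p + p') : ℝ) - 1 / 2) * ((h (bv p) + h (bv p')) / 2) ≤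
      ∑ l ∈ Icc 1 (D (p + p')), h (p + p', q, l) := by
  classical
  obtain ⟨h0, hs⟩ := hh
  have hm : 0 ≤ (h (bv p) + h (bv p')) / 2 := by
    have := h0 (bv p); have := h0 (bv p'); linarith
  rcases Nat.eq_zero_or_pos (D (p + p')) with hD | hD
  · rw [hD]
    simp only [Nat.cast_zero, Icc_eq_empty (by norm_num : ¬ (1:ℕ) ≤ 0), sum_empty]
    nlinarith
  · have e : ∑ l ∈ Icc 1 (D (p + p')), h (p + p', q, l) =
        ∑ l ∈ Icc 1 (D (p + p')), h (xv (p + p') q l) :=
      sum_congr rfl fun l hl => by rw [xv_pos (mem_Icc.1 hl).1]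
    rw [e]
    have hpp : bv p ≠ bv p' := fun e => F.ne (bv_inj.1 e)
    have hpx : ∀ l ≤ D (p + p'), bv p ≠ xv (p + p') q l := fun l hl => (adj_cx F hl).ne
    have hpx' : ∀ l ≤ D (p + p'), bv p' ≠ xv (p + p') q l := fun l hl => by
      rw [add_comm p p'] at hl ⊢
      exact (adj_cx F.symm hl).ne
    refine chain_real _ hD (fun l => h (xv (p + p') q l)) _ hm (h0 _) ?_ ?_
    · intro l hl hl'
      have h1 := hs (xv (p + p') q l)
      have hx : xv (p + p') q (l - 1) ≠ xv (p + p') q (l + 1) := xv_ne (by omega) (by omega)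
      rw [nf_inner F hl (by omega)] at h1
      rw [card_insert_of_notMem, card_insert_of_notMem, card_pair hx, sum_insert, sum_insert,
        sum_pair hx] at h1
      · push_cast at h1; linarith
      all_goals simp only [mem_insert, mem_singleton, not_or]
      · exact ⟨hpx' _ (by omega), hpx' _ (by omega)⟩
      · exact ⟨hpp, hpx _ (by omega), hpx _ (by omega)⟩
      · exact ⟨hpx' _ (by omega), hpx' _ (by omega)⟩
      · exact ⟨hpp, hpx _ (by omega), hpx _ (by omega)⟩
    · have h1 := hs (xv (p + p') q (D (p + p')))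
      rw [nf_last F hD rfl] at h1
      have hx : bv p' ≠ xv (p + p') q (D (p + p') - 1) := hpx' _ (by omega)
      rw [card_insert_of_notMem, card_pair hx, sum_insert, sum_pair hx] at h1
      · push_cast at h1; linarith
      all_goals simp only [mem_insert, mem_singleton, not_or]
      · exact ⟨hpp, hpx _ (by omega)⟩
      · exact ⟨hpp, hpx _ (by omega)⟩

end Pool.Agent.H49.CP
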