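import Pool.Agent.H49.CP.Red

set_option autoImplicit false

namespace Pool.Agent.H49.CP

/-- four-vectors -/
abbrev W := E × ℝ

noncomputable def B4 (X Y : W) : ℝ := BR X.1 Y.1 + X.2 * Y.2

lemma B4_comm (X Y : W) : B4 X Y = B4 Y X := by simp only [B4, BR]; ring
lemma B4_add_left (X Y Z : W) : B4 (X + Y) Z = B4 X Z + B4 Y Z := by
  simp only [B4, BR, Prod.fst_add, Prod.snd_add]; ring
lemma B4_add_right (X Y Z : W) : B4 X (Y + Z) = B4 X Y + B4 X Z := by
  simp only [B4, BR, Prod.fst_add, Prod.snd_add]; ring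
lemma B4_sub_left (X Y Z : W) : B4 (X - Y) Z = B4 X Z - B4 Y Z := by
  simp only [B4, BR, Prod.fst_sub, Prod.snd_sub]; ring
lemma B4_sub_right (X Y Z : W) : B4 X (Y - Z) = B4 X Y - B4 X Z := by
  simp only [B4, BR, Prod.fst_sub, Prod.snd_sub]; ring
lemma B4_smul_left (t : ℝ) (X Y : W) : B4 (t • X) Y = t * B4 X Y := by
  simp only [B4, BR, Prod.smul_fst, Prod.smul_snd, smul_eq_mul]; ring
lemma B4_smul_right (t : ℝ) (X Y : W) : B4 X (t • Y) = t * B4 X Y := by
  simp only [B4, BR, Prod.smul_fst, Prod.smul_snd, smul_eq_mul]; ring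

/-- curvature -/
noncomputable def cv (X : W) : ℝ := X.1.2.2 + X.2
/-- complex coordinate -/
noncomputable def hc (x : E) : ℂ := ⟨Real.sqrt 2 * (x.1 + x.2.1 / 2), Real.sqrt 2 * (Real.sqrt 3 / 2) * x.2.1⟩
/-- Euclidean centre -/
noncomputable def cen (X : W) : ℂ := hc X.1 / (cv X : ℂ)
/-- Euclidean radius -/
noncomputable def rad (X : W) : ℝ := 1 / cv X

lemma cv_add (X Y : W) : cv (X + Y) = cv X + cv Y := by
  simp only [cv, Prod.fst_add, Prod.snd_add]; ring
lemma cv_smul (t : ℝ) (X : W) : cv (t • X) = t * cv X := by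
  simp only [cv, Prod.smul_fst, Prod.smul_snd, smul_eq_mul]; ring
lemma hc_add (x y : E) : hc (x + y) = hc x + hc y := by
  apply Complex.ext <;> simp [hc] <;> ring
lemma hc_smul (t : ℝ) (x : E) : hc (t • x) = t * hc x := by
  apply Complex.ext <;> simp [hc] <;> ring

lemma normSq_hc (x : E) : Complex.normSq (hc x) = BR x x + x.2.2 ^ 2 := by
  have h2 : Real.sqrt 2 ^ 2 = 2 := Real.sq_sqrt (by norm_num)
  have h3 : Real.sqrt 3 ^ 2 = 3 := Real.sq_sqrt (by norm_num)
  rw [Complex.normSq_apply]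
  simp only [hc, BR]
  linear_combination ((x.1 + x.2.1 / 2) ^ 2 + Real.sqrt 3 ^ 2 / 4 * x.2.1 ^ 2) * h2 +
    (1 / 2) * x.2.1 ^ 2 * h3

lemma re_hc (x y : E) : (hc x * (starRingEnd ℂ) (hc y)).re = BR x y + x.2.2 * y.2.2 := by
  have h2 : Real.sqrt 2 ^ 2 = 2 := Real.sq_sqrt (by norm_num)
  have h3 : Real.sqrt 3 ^ 2 = 3 := Real.sq_sqrt (by norm_num)
  simp only [hc, BR, Complex.mul_re, Complex.conj_re, Complex.conj_im]
  linear_combination ((x.1 + x.2.1 / 2) * (y.1 + y.2.1 / 2) +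
    Real.sqrt 3 ^ 2 / 4 * x.2.1 * y.2.1) * h2 + (1 / 2) * x.2.1 * y.2.1 * h3

/-- distance formula -/
lemma normSq_sub (X Y : W) (m m' : ℝ) (hX : B4 X X = m) (hY : B4 Y Y = m') (bX : 0 < cv X)
    (bY : 0 < cv Y) : Complex.normSq (cen X - cen Y) =
      m / cv X ^ 2 + m' / cv Y ^ 2 - 2 * B4 X Y / (cv X * cv Y) := by
  have e : Complex.normSq (cen X - cen Y) = Complex.normSq (hc X.1) / cv X ^ 2 +
      Complex.normSq (hc Y.1) / cv Y ^ 2 - 2 * (hc X.1 * (starRingEnd ℂ) (hc Y.1)).re /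
        (cv X * cv Y) := by
    rw [Complex.normSq_sub]
    simp only [cen, Complex.normSq_div, Complex.normSq_ofReal, map_div₀, Complex.conj_ofReal]
    have : (hc X.1 / (cv X : ℂ) * ((starRingEnd ℂ) (hc Y.1) / (cv Y : ℂ))).re =
        (hc X.1 * (starRingEnd ℂ) (hc Y.1)).re / (cv X * cv Y) := by
      rw [div_mul_div_comm, ← Complex.ofReal_mul, Complex.div_ofReal_re]
    rw [this]
    ring
  rw [e, normSq_hc, normSq_hc, re_hc, ← hX, ← hY]
  simp only [B4] at *
  have h1 : cv X ≠ 0 := bX.ne'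
  have h2 : cv Y ≠ 0 := bY.ne'
  field_simp
  simp only [cv]
  ring

lemma dist_sq (X Y : W) (hX : B4 X X = 1) (hY : B4 Y Y = 1) (bX : 0 < cv X)
    (bY : 0 < cv Y) : dist (cen X) (cen Y) ^ 2 =
      (rad X + rad Y) ^ 2 + 2 * (-B4 X Y - 1) / (cv X * cv Y) := by
  rw [Complex.dist_eq, ← Complex.normSq_eq_norm_sq, normSq_sub X Y 1 1 hX hY bX bY]
  simp only [rad]
  have h1 : cv X ≠ 0 := bX.ne'
  have h2 : cv Y ≠ 0 := bY.ne'
  field_simp
  ring

lemma tangent_iff (X Y : W) (hX : B4 X X = 1) (hY : B4 Y Y = 1) (bX : 0 < cv X)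
    (bY : 0 < cv Y) : dist (cen X) (cen Y) = rad X + rad Y ↔ B4 X Y = -1 := by
  have h := dist_sq X Y hX hY bX bY
  have h0 : 0 ≤ rad X + rad Y := by simp only [rad]; positivity
  have hb : 0 < cv X * cv Y := mul_pos bX bY
  constructor
  · intro h1
    rw [h1] at h
    have : 2 * (-B4 X Y - 1) / (cv X * cv Y) = 0 := by linarith
    rw [div_eq_zero_iff] at this
    rcases this with h2 | h2
    · linarith
    · exact absurd h2 hb.ne'
  · intro h1
    rw [h1] at h
    have h2 : dist (cen X) (cen Y) ^ 2 = (rad X + rad Y) ^ 2 := by rw [h]; ring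
    exact (pow_left_inj₀ dist_nonneg h0 (by norm_num)).1 h2

lemma disjoint_of (X Y : W) (hX : B4 X X = 1) (hY : B4 Y Y = 1) (bX : 0 < cv X)
    (bY : 0 < cv Y) (h : B4 X Y ≤ -1) : rad X + rad Y ≤ dist (cen X) (cen Y) := by
  have h1 := dist_sq X Y hX hY bX bY
  have h0 : 0 ≤ rad X + rad Y := by simp only [rad]; positivity
  have h2 : 0 ≤ 2 * (-B4 X Y - 1) / (cv X * cv Y) :=
    div_nonneg (by linarith) (mul_pos bX bY).le
  exact le_of_sq_le_sq (by linarith) dist_nonneg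

lemma disjoint_lt (X Y : W) (hX : B4 X X = 1) (hY : B4 Y Y = 1) (bX : 0 < cv X)
    (bY : 0 < cv Y) (h : B4 X Y < -1) : rad X + rad Y < dist (cen X) (cen Y) :=
  lt_of_le_of_ne (disjoint_of X Y hX hY bX bY h.le)
    fun e => h.ne ((tangent_iff X Y hX hY bX bY).1 e.symm)

def toV (X : W) : Fin 4 → ℝ := ![X.1.1, X.1.2.1, X.1.2.2, X.2]

def MJ : Matrix (Fin 4) (Fin 4) ℝ := !![2, 1, 0, 0; 1, 2, 0, 0; 0, 0, -1, 0; 0, 0, 0, 1]

lemma B4_eq (X Y : W) : B4 X Y = toV X ⬝ᵥ (MJ.mulVec (toV Y)) := by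
  simp [B4, BR, toV, MJ, Matrix.mulVec, dotProduct, Fin.sum_univ_four]
  ring

lemma nondeg {X1 X2 X3 D Y : W} (h11 : B4 X1 X1 = 1) (h22 : B4 X2 X2 = 1) (h33 : B4 X3 X3 = 1)
    (h12 : B4 X1 X2 = -1) (h13 : B4 X1 X3 = -1) (h23 : B4 X2 X3 = -1)
    (hD : B4 D D = 1) (hD1 : B4 D X1 = 0) (hD2 : B4 D X2 = 0) (hD3 : B4 D X3 = 0)
    (y1 : B4 X1 Y = 0) (y2 : B4 X2 Y = 0) (y3 : B4 X3 Y = 0) (yD : B4 D Y = 0) : Y = 0 := by
  set Xs : Fin 4 → W := ![X1, X2, X3, D] with hXs
  set A : Matrix (Fin 4) (Fin 4) ℝ := fun i => toV (Xs i) with hA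
  have hG : A * MJ * A.transpose = !![1, -1, -1, 0; -1, 1, -1, 0; -1, -1, 1, 0; 0, 0, 0, 1] := by
    have e : ∀ i j, (A * MJ * A.transpose) i j = B4 (Xs i) (Xs j) := by
      intro i j
      rw [Matrix.mul_assoc, Matrix.mul_apply, B4_eq]
      rfl
    ext i j
    rw [e]
    fin_cases i <;> fin_cases j <;>
    simp [hXs, h11, h22, h33, h12, h13, h23, hD, hD1, hD2, hD3, B4_comm X2 X1,
      B4_comm X3 X1, B4_comm X3 X2, B4_comm X1 D, B4_comm X2 D, B4_comm X3 D]
  have hdet : (A * MJ * A.transpose).det = -4 := by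
    rw [hG]
    simp [Matrix.det_succ_row_zero, Fin.sum_univ_succ, Fin.succAbove]
    norm_num
  have hA0 : A.det ≠ 0 := by
    intro h0
    rw [Matrix.det_mul, Matrix.det_mul, h0] at hdet
    norm_num at hdet
  have h1 : A.mulVec (MJ.mulVec (toV Y)) = 0 := by
    ext i
    have : A.mulVec (MJ.mulVec (toV Y)) i = B4 (Xs i) Y := by rw [B4_eq]; rfl
    rw [this]
    fin_cases i <;> simp [hXs, y1, y2, y3, yD]
  have h2 := Matrix.eq_zero_of_mulVec_eq_zero hA0 h1
  have e0 := congrFun h2 0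
  have e1 := congrFun h2 1
  have e2 := congrFun h2 2
  have e3 := congrFun h2 3
  simp [MJ, toV, Matrix.mulVec, dotProduct, Fin.sum_univ_four] at e0 e1 e2 e3
  ext
  · simp; linarith
  · simp; linarith
  · simp; linarith
  · simp; linarith

/-- three mutually tangent unit vectors and a dual vector -/
structure Tri (X1 X2 X3 D : W) : Prop where
  h11 : B4 X1 X1 = 1
  h22 : B4 X2 X2 = 1
  h33 : B4 X3 X3 = 1
  h12 : B4 X1 X2 = -1
  h13 : B4 X1 X3 = -1
  h23 : B4 X2 X3 = -1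
  hD : B4 D D = 1
  hD1 : B4 D X1 = 0
  hD2 : B4 D X2 = 0
  hD3 : B4 D X3 = 0

lemma Tri.expand {X1 X2 X3 D : W} (T : Tri X1 X2 X3 D) (N : W) :
    N = (-(B4 N X2 + B4 N X3) / 2) • X1 + (-(B4 N X1 + B4 N X3) / 2) • X2 +
      (-(B4 N X1 + B4 N X2) / 2) • X3 + B4 N D • D := by
  rw [← sub_eq_zero]
  obtain ⟨h11, h22, h33, h12, h13, h23, hD, hD1, hD2, hD3⟩ := T
  apply nondeg h11 h22 h33 h12 h13 h23 hD hD1 hD2 hD3 <;>
  simp only [B4_sub_right, B4_add_right, B4_smul_right, h11, h22, h33, h12, h13, h23, hD, hD1,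
    hD2, hD3, B4_comm X2 X1, B4_comm X3 X1, B4_comm X3 X2, B4_comm X1 D, B4_comm X2 D,
    B4_comm X3 D, B4_comm X1 N, B4_comm X2 N, B4_comm X3 N, B4_comm D N] <;> ring

lemma Tri.null {X1 X2 X3 D : W} (T : Tri X1 X2 X3 D) {N : W} (hN : B4 N N = 0) :
    B4 N D ^ 2 = B4 N X1 * B4 N X2 + B4 N X2 * B4 N X3 + B4 N X1 * B4 N X3 := by
  have h := T.expand N
  have h1 : B4 N N = B4 N ((-(B4 N X2 + B4 N X3) / 2) • X1 + (-(B4 N X1 + B4 N X3) / 2) • X2 +
      (-(B4 N X1 + B4 N X2) / 2) • X3 + B4 N D • D) := by rw [← h]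
  simp only [B4_add_right, B4_smul_right] at h1
  rw [hN] at h1
  linarith

noncomputable def KK : W := ((0, 0, 1), -1)

lemma B4_KK (X : W) : B4 KK X = -cv X := by simp [B4, BR, KK, cv]; ring
lemma KK_null : B4 KK KK = 0 := by simp [B4, BR, KK]

lemma Tri.cvD {X1 X2 X3 D : W} (T : Tri X1 X2 X3 D) :
    cv D ^ 2 = cv X1 * cv X2 + cv X2 * cv X3 + cv X1 * cv X3 := by
  have := T.null KK_null
  simp only [B4_KK] at this
  nlinarith

lemma Tri.hcD {X1 X2 X3 D : W} (T : Tri X1 X2 X3 D) :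
    (cv D : ℂ) * hc D.1 = ((cv X2 + cv X3) / 2 : ℝ) * hc X1.1 + ((cv X1 + cv X3) / 2 : ℝ) * hc X2.1 +
      ((cv X1 + cv X2) / 2 : ℝ) * hc X3.1 := by
  have h := congrArg (fun X : W => hc X.1) (T.expand KK)
  simp only [B4_KK, Prod.fst_add, Prod.smul_fst, hc_add, hc_smul] at h
  have h0 : hc KK.1 = 0 := by apply Complex.ext <;> simp [hc, KK]
  rw [h0] at h
  push_cast at h ⊢
  linear_combination h

/-- a point outside the three discs and inside the dual disc lies in the triangle of centres -/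
lemma Tri.mem_hull {X1 X2 X3 D N : W} (T : Tri X1 X2 X3 D) (hN : B4 N N = 0) (bN : 0 < cv N)
    (b1 : 0 < cv X1) (b2 : 0 < cv X2) (b3 : 0 < cv X3) (bD : 0 < cv D)
    (x1 : B4 N X1 ≤ 0) (x2 : B4 N X2 ≤ 0) (x3 : B4 N X3 ≤ 0) (d : 0 ≤ B4 N D) :
    cen N ∈ convexHull ℝ {cen X1, cen X2, cen X3} := by
  have h := congrArg (fun X : W => hc X.1) (T.expand N)
  simp only [Prod.fst_add, Prod.smul_fst, hc_add, hc_smul] at h
  have hb := congrArg cv (T.expand N)
  simp only [cv_add, cv_smul] at hb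
  have hD2 := T.cvD
  have hDc := T.hcD
  have hbD : (cv D : ℂ) ≠ 0 := by exact_mod_cast bD.ne'
  have hb1 : (cv X1 : ℂ) ≠ 0 := by exact_mod_cast b1.ne'
  have hb2 : (cv X2 : ℂ) ≠ 0 := by exact_mod_cast b2.ne'
  have hb3 : (cv X3 : ℂ) ≠ 0 := by exact_mod_cast b3.ne'
  have hbN : (cv N : ℂ) ≠ 0 := by exact_mod_cast bN.ne'
  set t1 := (-(B4 N X2 + B4 N X3) / 2 + B4 N D * ((cv X2 + cv X3) / 2) / cv D) * cv X1 / cv N with ht1
  set t2 := (-(B4 N X1 + B4 N X3) / 2 + B4 N D * ((cv X1 + cv X3) / 2) / cv D) * cv X2 / cv N with ht2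
  set t3 := (-(B4 N X1 + B4 N X2) / 2 + B4 N D * ((cv X1 + cv X2) / 2) / cv D) * cv X3 / cv N with ht3
  have p1 : 0 ≤ t1 := by
    apply div_nonneg (mul_nonneg (add_nonneg (by linarith) _) b1.le) bN.le
    exact div_nonneg (mul_nonneg d (by linarith)) bD.le
  have p2 : 0 ≤ t2 := by
    apply div_nonneg (mul_nonneg (add_nonneg (by linarith) _) b2.le) bN.le
    exact div_nonneg (mul_nonneg d (by linarith)) bD.le
  have p3 : 0 ≤ t3 := by
    apply div_nonneg (mul_nonneg (add_nonneg (by linarith) _) b3.le) bN.le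
    exact div_nonneg (mul_nonneg d (by linarith)) bD.le
  have hs : t1 + t2 + t3 = 1 := by
    have hb' : cv N * cv D = (-(B4 N X2 + B4 N X3) / 2 * cv X1 + -(B4 N X1 + B4 N X3) / 2 * cv X2 +
      -(B4 N X1 + B4 N X2) / 2 * cv X3 + B4 N D * cv D) * cv D := by rw [← hb]
    rw [ht1, ht2, ht3]
    field_simp
    linear_combination (-2) * hb' + (-2) * B4 N D * hD2
  have hc' : cen N = t1 • cen X1 + t2 • cen X2 + t3 • cen X3 := by
    simp only [cen, Complex.real_smul, ht1, ht2, ht3]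
    push_cast
    field_simp
    rw [h]
    push_cast at hDc ⊢
    linear_combination (2 * (B4 N D : ℂ)) * hDc
  rw [hc']
  have hconv := convex_convexHull ℝ ({cen X1, cen X2, cen X3} : Set ℂ)
  have m1 : cen X1 ∈ convexHull ℝ ({cen X1, cen X2, cen X3} : Set ℂ) :=
    subset_convexHull _ _ (by simp)
  have m2 : cen X2 ∈ convexHull ℝ ({cen X1, cen X2, cen X3} : Set ℂ) :=
    subset_convexHull _ _ (by simp)
  have m3 : cen X3 ∈ convexHull ℝ ({cen X1, cen X2, cen X3} : Set ℂ) :=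
    subset_convexHull _ _ (by simp)
  have := hconv.sum_mem (t := Finset.univ) (w := ![t1, t2, t3])
    (z := ![cen X1, cen X2, cen X3]) (by intro i _; fin_cases i <;> simp [p1, p2, p3])
    (by simp [Fin.sum_univ_three, hs]) (by intro i _; fin_cases i <;> simp [m1, m2, m3])
  simpa [Fin.sum_univ_three] using this

lemma orth_dist (X D : W) (hX : B4 X X = 1) (hD : B4 D D = 1) (bX : 0 < cv X) (bD : 0 < cv D)
    (h : B4 D X = 0) : dist (cen X) (cen D) ^ 2 = rad X ^ 2 + rad D ^ 2 := by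
  rw [Complex.dist_eq, ← Complex.normSq_eq_norm_sq, normSq_sub X D 1 1 hX hD bX bD, B4_comm, h]
  simp only [rad]
  ring

/-- a disc disjoint from the three discs and the dual disc has its centre outside the triangle -/
lemma Tri.not_mem_hull {X1 X2 X3 D Y : W} (T : Tri X1 X2 X3 D) (hY : B4 Y Y = 1) (bY : 0 < cv Y)
    (b1 : 0 < cv X1) (b2 : 0 < cv X2) (b3 : 0 < cv X3) (bD : 0 < cv D)
    (y1 : B4 Y X1 ≤ -1) (y2 : B4 Y X2 ≤ -1) (y3 : B4 Y X3 ≤ -1) (yD : B4 Y D ≤ -1) :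
    cen Y ∉ convexHull ℝ {cen X1, cen X2, cen X3} := by
  intro hmem
  set ζ := cen Y
  set K := Complex.normSq ζ - Complex.normSq (cen D) + rad D ^ 2 with hK
  have hlin : IsLinearMap ℝ fun p : ℂ => 2 * ((ζ - cen D) * (starRingEnd ℂ) p).re := by
    constructor
    · intro x y; simp; ring
    · intro c x; simp; ring
  have hconv := convex_halfSpace_le hlin K
  have key : ∀ X : W, B4 X X = 1 → 0 < cv X → B4 D X = 0 → B4 Y X ≤ -1 →
      cen X ∈ {w : ℂ | 2 * ((ζ - cen D) * (starRingEnd ℂ) w).re ≤ K} := by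
    intro X hX bX hDX hYX
    have h1 := orth_dist X D hX T.hD bX bD hDX
    have h2 := disjoint_of Y X hY hX bY bX hYX
    have h3 : rad X ^ 2 ≤ dist ζ (cen X) ^ 2 := by
      have : 0 < rad Y := by simp only [rad]; positivity
      have : 0 < rad X := by simp only [rad]; positivity
      apply pow_le_pow_left₀ this.le
      linarith
    rw [Complex.dist_eq, ← Complex.normSq_eq_norm_sq] at h1 h3
    simp only [Set.mem_ofPred_eq, hK]
    simp only [Complex.normSq_apply, Complex.sub_re, Complex.sub_im, Complex.mul_re,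
      Complex.conj_re, Complex.conj_im] at *
    nlinarith
  have hsub : convexHull ℝ {cen X1, cen X2, cen X3} ⊆
      {w : ℂ | 2 * ((ζ - cen D) * (starRingEnd ℂ) w).re ≤ K} := by
    apply convexHull_min _ hconv
    intro x hx
    simp only [Set.mem_insert_iff, Set.mem_singleton_iff] at hx
    rcases hx with rfl | rfl | rfl
    · exact key X1 T.h11 b1 T.hD1 y1
    · exact key X2 T.h22 b2 T.hD2 y2
    · exact key X3 T.h33 b3 T.hD3 y3
  have h4 := hsub hmem
  have h5 := disjoint_of Y D hY T.hD bY bD yD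
  have h6 : 0 < rad Y := by simp only [rad]; positivity
  have h7 : 0 < rad D := by simp only [rad]; positivity
  have h8 : rad D ^ 2 < dist ζ (cen D) ^ 2 := by
    apply pow_lt_pow_left₀ _ h7.le (by norm_num)
    linarith
  rw [Complex.dist_eq, ← Complex.normSq_eq_norm_sq] at h8
  simp only [Set.mem_ofPred_eq, hK] at h4
  simp only [Complex.normSq_apply, Complex.sub_re, Complex.sub_im, Complex.mul_re,
      Complex.conj_re, Complex.conj_im] at *
  nlinarith

/-- a point is in the closed disc of `X` iff the pairing is nonnegative -/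
lemma mem_disc_iff {N X : W} (hN : B4 N N = 0) (bN : 0 < cv N) (hX : B4 X X = 1) (bX : 0 < cv X) :
    dist (cen N) (cen X) ≤ rad X ↔ 0 ≤ B4 N X := by
  have h : dist (cen N) (cen X) ^ 2 = rad X ^ 2 - 2 * B4 N X / (cv N * cv X) := by
    rw [Complex.dist_eq, ← Complex.normSq_eq_norm_sq, normSq_sub N X 0 1 hN hX bN bX]
    simp only [rad]; ring
  have h0 : 0 < rad X := by simp only [rad]; positivity
  have hb : 0 < cv N * cv X := mul_pos bN bX
  constructor
  · intro h1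
    have h2 : dist (cen N) (cen X) ^ 2 ≤ rad X ^ 2 := pow_le_pow_left₀ dist_nonneg h1 2
    have h3 : 0 ≤ 2 * B4 N X / (cv N * cv X) := by linarith
    rw [div_nonneg_iff] at h3
    rcases h3 with h3 | h3 <;> linarith
  · intro h1
    have h3 : 0 ≤ 2 * B4 N X / (cv N * cv X) := by positivity
    exact le_of_sq_le_sq (by linarith) h0.le

/-- the point of the disc with given hyperboloid vector -/
noncomputable def pt (x : E) : W := (x, 1)

lemma pt_null {x : E} (h : BR x x = -1) : B4 (pt x) (pt x) = 0 := by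
  simp [B4, pt, h]

/-- every point of the unit disc is the image of a point of the hyperboloid -/
lemma exists_pt {ζ : ℂ} (h : ‖ζ‖ < 1) : ∃ x : E, BR x x = -1 ∧ 0 < x.2.2 ∧ cen (pt x) = ζ := by
  have h2 : Real.sqrt 2 ^ 2 = 2 := Real.sq_sqrt (by norm_num)
  have h3 : Real.sqrt 3 ^ 2 = 3 := Real.sq_sqrt (by norm_num)
  have h20 : Real.sqrt 2 ≠ 0 := by positivity
  have h30 : Real.sqrt 3 ≠ 0 := by positivity
  have hn : Complex.normSq ζ < 1 := by
    rw [Complex.normSq_eq_norm_sq]; nlinarith [norm_nonneg ζ]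
  have hn0 := Complex.normSq_nonneg ζ
  set n := Complex.normSq ζ with hnn
  have hnpos : 0 < 1 - n := by linarith
  set t := 2 / (1 - n) with ht
  have htpos : 0 < t := by positivity
  set y : ℝ := 2 * ζ.im * t / (Real.sqrt 2 * Real.sqrt 3) with hy
  set x : ℝ := ζ.re * t / Real.sqrt 2 - y / 2 with hx
  have hcv : cv (pt (x, y, t - 1)) = t := by simp [cv, pt]
  have hhc : hc (x, y, t - 1) = t * ζ := by
    apply Complex.ext
    · simp [hc, hx]
      field_simp
    · simp [hc, hy]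
      field_simp
  refine ⟨(x, y, t - 1), ?_, ?_, ?_⟩
  · have h4 := normSq_hc (x, y, t - 1)
    rw [hhc, Complex.normSq_mul, Complex.normSq_ofReal, ← hnn] at h4
    simp only at h4
    have h5 : t * (1 - n) = 2 := by rw [ht]; field_simp
    nlinarith
  · simp only
    have : 2 ≤ t := by
      rw [ht, le_div_iff₀ hnpos]; linarith
    linarith
  · rw [cen, hcv]
    simp only [pt]
    rw [hhc]
    have : (t : ℂ) ≠ 0 := by exact_mod_cast htpos.ne'
    field_simp

/-- discs with `C > 1` lie in the unit disc -/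
lemma in_disc {X : W} (hX : B4 X X = 1) (h1 : 1 < X.2) (h2 : 0 < X.1.2.2) :
    ‖cen X‖ + rad X < 1 := by
  have hb : 1 < cv X := by simp only [cv]; linarith
  have h3 : ‖cen X‖ ^ 2 = (X.1.2.2 ^ 2 - X.2 ^ 2 + 1) / cv X ^ 2 := by
    rw [← Complex.normSq_eq_norm_sq]
    simp only [cen, Complex.normSq_div, Complex.normSq_ofReal, normSq_hc]
    simp only [B4] at hX
    rw [show BR X.1 X.1 = 1 - X.2 * X.2 by linarith]
    ring
  have h4 : ‖cen X‖ < 1 - rad X := by
    have h5 : rad X < 1 := by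
      simp only [rad]; rw [div_lt_one (by linarith)]; exact hb
    apply lt_of_pow_lt_pow_left₀ 2 (by linarith)
    rw [h3]
    have h6 : (1 - rad X) ^ 2 - (X.1.2.2 ^ 2 - X.2 ^ 2 + 1) / cv X ^ 2 = 2 * (X.2 - 1) / cv X := by
      simp only [rad]
      have : cv X ≠ 0 := by linarith
      field_simp
      simp only [cv]; ring
    have h7 : 0 < 2 * (X.2 - 1) / cv X := div_pos (by linarith) (by linarith)
    linarith
  linarith

end Pool.Agent.H49.CP
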