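import Pool.Agent.H49.CP.Walk

set_option autoImplicit false

namespace Pool.Agent.H49.CP.Walk

open MeasureTheory ProbabilityTheory Finset Filter Topology Pool.Agent.H45.Chain
  Pool.Agent.H43.RW Pool.Agent.H49.CP.Net
open scoped ENNReal

variable {V : Type} [MeasurableSpace V] [Countable V] [MeasurableSingletonClass V]

/-- shifted path -/
def sh (s : ℕ) (x : ℕ → V) : ℕ → V := fun t => x (s + t)

omit [Countable V] [MeasurableSingletonClass V] in
lemma meas_sh (s : ℕ) : Measurable (sh (V := V) s) :=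
  measurable_pi_lambda _ fun t => measurable_pi_apply (s + t)

lemma markov (K : Kernel V V) [IsMarkovKernel K] (E : Set (ℕ → V)) (hE : MeasurableSet E)
    (s : ℕ) : ∀ o : V, pathLaw K o (sh s ⁻¹' E) = ∑' v, pn K s o v * pathLaw K v E := by
  induction s with
  | zero =>
    intro o
    rw [tsum_eq_single o fun v hv => by rw [pn_zero_ne K hv.symm, zero_mul], pn_zero_self, one_mul]
    congr 1
    ext x
    have : sh 0 x = x := by funext t; simp [sh]
    rw [Set.mem_preimage, this]
  | succ s ih =>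
    intro o
    rw [measure_first_step K o _ (meas_sh _ hE)]
    have e : cons o ⁻¹' (sh (s + 1) ⁻¹' E) = sh s ⁻¹' E := by
      ext x
      simp only [Set.mem_preimage]
      have : sh (s + 1) (cons o x) = sh s x := by
        funext t
        simp only [sh]
        rw [show s + 1 + t = (s + t) + 1 by ring, cons_succ]
      rw [this]
    rw [e]
    simp only [ih, pn_succ]
    calc ∑' w, K o {w} * ∑' v, pn K s w v * pathLaw K v E
        = ∑' w, ∑' v, K o {w} * (pn K s w v * pathLaw K v E) := by
          refine tsum_congr fun w => ?_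
          rw [ENNReal.tsum_mul_left]
      _ = ∑' v, ∑' w, K o {w} * (pn K s w v * pathLaw K v E) := ENNReal.tsum_comm
      _ = _ := by
          refine tsum_congr fun v => ?_
          rw [← ENNReal.tsum_mul_right]
          exact tsum_congr fun w => by ring

/-- hit `B` within `n` steps, before `A` -/
def HB (A B : Set V) (n : ℕ) : Set (ℕ → V) := {x | ∃ t ≤ n, x t ∈ B ∧ ∀ r < t, x r ∉ A}

/-- a step, then hit `B` within `n` steps, before `A` -/
def CB (A B : Set V) (n : ℕ) : Set (ℕ → V) := {x | x 0 ∈ A ∧ sh 1 x ∈ HB A B n}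

lemma meas_HB (A B : Set V) (n : ℕ) : MeasurableSet (HB A B n) := by
  have hm : ∀ (t : ℕ) (S : Set V), MeasurableSet {x : ℕ → V | x t ∈ S} := fun t S =>
    (measurable_pi_apply t) (Set.to_countable S).measurableSet
  have : HB A B n = ⋃ t ∈ Set.Iic n, ({x : ℕ → V | x t ∈ B} ∩ ⋂ r ∈ Set.Iio t, {x | x r ∈ Aᶜ}) := by
    ext x
    simp only [HB, Set.mem_setOf_eq, Set.mem_iUnion, Set.mem_Iic, Set.mem_inter_iff,
      Set.mem_iInter, Set.mem_Iio, Set.mem_compl_iff, exists_prop]
  rw [this]
  refine MeasurableSet.biUnion (Set.to_countable _) fun t _ => (hm t B).inter ?_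
  exact MeasurableSet.biInter (Set.to_countable _) fun r _ => hm r Aᶜ

lemma meas_CB (A B : Set V) (n : ℕ) : MeasurableSet (CB A B n) := by
  have hm : ∀ (t : ℕ) (S : Set V), MeasurableSet {x : ℕ → V | x t ∈ S} := fun t S =>
    (measurable_pi_apply t) (Set.to_countable S).measurableSet
  exact (hm 0 A).inter (meas_sh 1 (meas_HB A B n))

omit [MeasurableSpace V] [Countable V] [MeasurableSingletonClass V] in
lemma HB_mono (A B : Set V) {m n : ℕ} (h : m ≤ n) : HB A B m ⊆ HB A B n := by
  rintro x ⟨t, ht, h1⟩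
  exact ⟨t, ht.trans h, h1⟩

variable (G : SimpleGraph V) (hfin : ∀ v, (G.neighborSet v).Finite)

open Classical in
/-- finite time hitting probabilities -/
noncomputable def Psi (A B : Set V) : ℕ → V → ℝ
  | 0, w => if w ∈ B then 1 else 0
  | n + 1, w => if w ∈ B then 1 else if w ∈ A then 0 else
      (∑ y ∈ nf G hfin w, Psi A B n y) / (nf G hfin w).card

omit [MeasurableSpace V] [Countable V] [MeasurableSingletonClass V] in
lemma Psi_nonneg (A B : Set V) (n : ℕ) : ∀ w, 0 ≤ Psi G hfin A B n w := by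
  induction n with
  | zero => intro w; simp only [Psi]; split_ifs <;> norm_num
  | succ n ih =>
    intro w
    simp only [Psi]
    split_ifs
    · norm_num
    · norm_num
    · exact div_nonneg (sum_nonneg fun y _ => ih y) (Nat.cast_nonneg _)

omit [MeasurableSpace V] [Countable V] [MeasurableSingletonClass V] in
lemma Psi_iso (A B : Set V) {w : V} (h : ¬ (nf G hfin w).Nonempty) (hB : w ∉ B) (n : ℕ) :
    Psi G hfin A B n w = 0 := by
  rw [not_nonempty_iff_eq_empty] at h
  cases n with
  | zero => simp [Psi, hB]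
  | succ n => simp [Psi, hB, h]

lemma HB_le (A B : Set V) (n : ℕ) : ∀ w, pathLaw (srw G) w (HB A B n) ≤
    ENNReal.ofReal (Psi G hfin A B n w) := by
  induction n with
  | zero =>
    intro w
    by_cases hB : w ∈ B
    · simp only [Psi, if_pos hB, ENNReal.ofReal_one]; exact prob_le_one
    · have : pathLaw (srw G) w (HB A B 0) = 0 := by
        have h := ae_start (srw G) w
        rw [ae_iff] at h
        refine measure_mono_null ?_ h
        rintro x ⟨t, ht, h1, _⟩ hx
        have : t = 0 := by omega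
        rw [this, hx] at h1
        exact hB h1
      rw [this]; exact zero_le
  | succ n ih =>
    intro w
    by_cases hB : w ∈ B
    · simp only [Psi, if_pos hB, ENNReal.ofReal_one]; exact prob_le_one
    by_cases hA : w ∈ A
    · have : pathLaw (srw G) w (HB A B (n + 1)) = 0 := by
        have h := ae_start (srw G) w
        rw [ae_iff] at h
        refine measure_mono_null ?_ h
        rintro x ⟨t, ht, h1, h2⟩ hx
        rcases Nat.eq_zero_or_pos t with h0 | h0
        · rw [h0, hx] at h1
          exact hB h1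
        · exact h2 0 h0 (by rw [hx]; exact hA)
      rw [this]; exact zero_le
    rw [measure_first_step _ w _ (meas_HB A B (n + 1))]
    have e : cons w ⁻¹' HB A B (n + 1) = HB A B n := by
      ext x
      simp only [Set.mem_preimage, HB, Set.mem_setOf_eq]
      constructor
      · rintro ⟨t, ht, h1, h2⟩
        cases t with
        | zero => exact absurd h1 hB
        | succ t =>
          exact ⟨t, by omega, h1, fun r hr => h2 (r + 1) (by omega)⟩
      · rintro ⟨t, ht, h1, h2⟩
        refine ⟨t + 1, by omega, h1, fun r hr => ?_⟩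
        cases r with
        | zero => exact hA
        | succ r => exact h2 r (by omega)
    rw [e]
    calc ∑' y, srw G w {y} * pathLaw (srw G) y (HB A B n)
        ≤ ∑' y, srw G w {y} * ENNReal.ofReal (Psi G hfin A B n y) :=
          ENNReal.tsum_le_tsum fun y => mul_le_mul_right (ih y) _
      _ ≤ ENNReal.ofReal (Psi G hfin A B (n + 1) w) := by
          by_cases hne : (nf G hfin w).Nonempty
          · rw [srw_step_sum G hfin hne, ← ENNReal.ofReal_sum_of_nonneg fun y _ =>
              Psi_nonneg G hfin A B n y]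
            have hc : (0:ℝ) < (nf G hfin w).card := by exact_mod_cast card_pos.2 hne
            rw [← ENNReal.ofReal_natCast, ← ENNReal.ofReal_div_of_pos hc]
            simp only [Psi, if_neg hB, if_neg hA]
            exact le_rfl
          · rw [srw_step_iso G hfin hne, Psi_iso G hfin A B hne hB, Psi_iso G hfin A B hne hB]

/-- iterated closure -/
noncomputable def clN (S : Finset V) : ℕ → Finset V
  | 0 => S
  | n + 1 => cl G hfin (clN S n)

lemma clN_mono (S : Finset V) {m n : ℕ} (h : m ≤ n) : clN G hfin S m ⊆ clN G hfin S n := by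
  induction n, h using Nat.le_induction with
  | base => exact subset_rfl
  | succ n _ ih => exact ih.trans (subset_cl G hfin _)

/-- the crossing flux is bounded by the energy -/
lemma flux_le (A B : Set V) (hAB : Disjoint A B) (φ : V → ℝ)
    (h0 : ∀ x, 0 ≤ φ x) (h1 : ∀ x, φ x ≤ 1) (hA : ∀ x ∈ A, φ x = 0) (hB : ∀ x ∈ B, φ x = 1)
    (E : ℝ) (hE : ∀ K : Finset V, DK G K φ φ ≤ E) (A0 : Finset V) (hA0 : ∀ x ∈ A0, x ∈ A) (n : ℕ) :
    2 * ∑ v ∈ A0, ∑ w ∈ nf G hfin v, Psi G hfin A B n w ≤ E := by
  obtain ⟨f, hf0, hf1, hfB, hharm, hflux⟩ :=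
    flux_finite G (clN G hfin A0 (n + 2)) A B hAB φ h0 h1 hA hB
  set K := clN G hfin A0 (n + 2) with hK
  have hfA : ∀ x ∈ K, x ∈ A → f x = 0 := fun x hx ha =>
    (hflux {x} (by simpa using hx) (by simpa using ha)).2 x (by simp)
  have key : ∀ m j, m + j ≤ n + 1 → ∀ w ∈ clN G hfin A0 j, Psi G hfin A B m w ≤ f w := by
    intro m
    induction m with
    | zero =>
      intro j hj w hw
      simp only [Psi]
      split_ifs with hb
      · exact (hfB w (clN_mono G hfin A0 (by omega) hw) hb).ge
      · exact hf0 w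
    | succ m ih =>
      intro j hj w hw
      have hwK : w ∈ K := clN_mono G hfin A0 (by omega) hw
      have hsub : nf G hfin w ⊆ clN G hfin A0 (j + 1) := nf_sub_cl G hfin hw
      simp only [Psi]
      split_ifs with hb ha
      · exact (hfB w hwK hb).ge
      · exact hf0 w
      · have hL := hharm w hwK ha hb
        rw [LK_full G hfin (hsub.trans (clN_mono G hfin A0 (by omega))), sum_sub_distrib,
          sum_const, nsmul_eq_mul] at hL
        rcases Nat.eq_zero_or_pos (nf G hfin w).card with hc | hc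
        · rw [hc]; simp [hf0 w]
        · have hc' : (0:ℝ) < (nf G hfin w).card := by exact_mod_cast hc
          rw [div_le_iff₀ hc']
          have : ∑ y ∈ nf G hfin w, Psi G hfin A B m y ≤ ∑ y ∈ nf G hfin w, f y :=
            sum_le_sum fun y hy => ih (j + 1) (by omega) y (hsub hy)
          linarith
  have h2 := (hflux A0 (clN_mono G hfin A0 (Nat.zero_le _)) hA0).1
  refine le_trans ?_ (h2.trans (hE K))
  have h3 : ∑ v ∈ A0, ∑ w ∈ nf G hfin v, Psi G hfin A B n w ≤ ∑ v ∈ A0, LK G K f v := by
    refine sum_le_sum fun v hv => ?_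
    have hv1 : v ∈ clN G hfin A0 0 := hv
    have hsub : nf G hfin v ⊆ clN G hfin A0 1 := nf_sub_cl G hfin hv1
    rw [LK_full G hfin (hsub.trans (clN_mono G hfin A0 (by omega)))]
    refine sum_le_sum fun w hw => ?_
    rw [hfA v (clN_mono G hfin A0 (Nat.zero_le _) hv1) (hA0 v hv), sub_zero]
    exact key n 1 (by omega) w (hsub hw)
  linarith

lemma CB_ap (A B : Set V) (n : ℕ) (v : V) (hv : v ∈ A) :
    ((nf G hfin v).card : ℝ≥0∞) * pathLaw (srw G) v (CB A B n) ≤
      ENNReal.ofReal (∑ w ∈ nf G hfin v, Psi G hfin A B n w) := by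
  rw [measure_first_step _ v _ (meas_CB A B n)]
  have e : cons v ⁻¹' CB A B n = HB A B n := by
    ext x
    simp only [Set.mem_preimage, CB, Set.mem_setOf_eq, cons_zero]
    have : sh 1 (cons v x) = x := by
      funext t
      simp only [sh]
      rw [add_comm 1 t, cons_succ]
    rw [this]
    exact ⟨fun h => h.2, fun h => ⟨hv, h⟩⟩
  rw [e, deg_step, ENNReal.ofReal_sum_of_nonneg fun y _ => Psi_nonneg G hfin A B n y]
  exact sum_le_sum fun y _ => HB_le G hfin A B n y

/-- crossings from `A` to `B` of the network, total flux -/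
lemma flux_tsum (A B : Set V) (hAB : Disjoint A B) (φ : V → ℝ)
    (h0 : ∀ x, 0 ≤ φ x) (h1 : ∀ x, φ x ≤ 1) (hA : ∀ x ∈ A, φ x = 0) (hB : ∀ x ∈ B, φ x = 1)
    (E : ℝ) (hE : ∀ K : Finset V, DK G K φ φ ≤ E) :
    ∑' v, ((nf G hfin v).card : ℝ≥0∞) * pathLaw (srw G) v (⋃ n, CB A B n) ≤ ENNReal.ofReal E := by
  classical
  rw [ENNReal.tsum_eq_iSup_sum]
  refine iSup_le fun S => ?_
  have hmono : ∀ v, Monotone fun n => pathLaw (srw G) v (CB A B n) := by
    intro v m n hmn
    refine measure_mono ?_
    rintro x ⟨h1, h2⟩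
    exact ⟨h1, HB_mono A B hmn h2⟩
  have hU : ∀ v, pathLaw (srw G) v (⋃ n, CB A B n) = ⨆ n, pathLaw (srw G) v (CB A B n) := by
    intro v
    refine Monotone.measure_iUnion fun m n hmn => ?_
    rintro x ⟨h1, h2⟩
    exact ⟨h1, HB_mono A B hmn h2⟩
  have e : ∀ v, ((nf G hfin v).card : ℝ≥0∞) * pathLaw (srw G) v (⋃ n, CB A B n) =
      ⨆ n, ((nf G hfin v).card : ℝ≥0∞) * pathLaw (srw G) v (CB A B n) := by
    intro v
    rw [hU, ENNReal.mul_iSup]
  simp only [e]
  rw [ENNReal.finsetSum_iSup_of_monotone (f := fun v n =>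
    ((nf G hfin v).card : ℝ≥0∞) * pathLaw (srw G) v (CB A B n))
    fun v m n hmn => mul_le_mul_right (hmono v hmn) _]
  refine iSup_le fun n => ?_
  have e2 : ∀ v ∈ S, ((nf G hfin v).card : ℝ≥0∞) * pathLaw (srw G) v (CB A B n) ≤
      if v ∈ A then ENNReal.ofReal (∑ w ∈ nf G hfin v, Psi G hfin A B n w) else 0 := by
    intro v _
    split_ifs with hv
    · exact CB_ap G hfin A B n v hv
    · have : pathLaw (srw G) v (CB A B n) = 0 := by
        have h := ae_start (srw G) v
        rw [ae_iff] at h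
        refine measure_mono_null ?_ h
        rintro x ⟨h1, _⟩ hx
        rw [hx] at h1
        exact hv h1
      rw [this, mul_zero]
  refine (sum_le_sum e2).trans ?_
  rw [← sum_filter, ← ENNReal.ofReal_sum_of_nonneg fun v _ => sum_nonneg fun w _ =>
    Psi_nonneg G hfin A B n w]
  refine ENNReal.ofReal_le_ofReal ?_
  have := flux_le G hfin A B hAB φ h0 h1 hA hB E hE (S.filter (· ∈ A))
    (fun x hx => (mem_filter.1 hx).2) n
  have hE0 : 0 ≤ E := by
    have := hE ∅
    simpa [DK] using this
  linarith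

/-- two level sets of a function of finite energy are not both visited infinitely often -/
theorem no_cross (o : V) (ho : (nf G hfin o).Nonempty) (κ : ℝ) (hκ : 0 ≤ κ)
    (HK : ∀ (φ : V → ℝ) (S : Finset V), (∀ x, x ∉ S → φ x = 0) →
      φ o ^ 2 ≤ κ * DK G (cl G hfin S) φ φ) (A B : Set V) (hAB : Disjoint A B) (φ : V → ℝ)
    (h0 : ∀ x, 0 ≤ φ x) (h1 : ∀ x, φ x ≤ 1) (hA : ∀ x ∈ A, φ x = 0) (hB : ∀ x ∈ B, φ x = 1)
    (E : ℝ) (hE : ∀ K : Finset V, DK G K φ φ ≤ E) :
    ∀ᵐ x ∂pathLaw (srw G) o, ¬ ((∃ᶠ n in atTop, x n ∈ A) ∧ ∃ᶠ n in atTop, x n ∈ B) := by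
  have hmU : MeasurableSet (⋃ n, CB A B n) := MeasurableSet.iUnion fun n => meas_CB A B n
  have hsum : ∑' s, pathLaw (srw G) o (sh s ⁻¹' (⋃ n, CB A B n)) ≠ ⊤ := by
    simp only [markov (srw G) _ hmU]
    rw [ENNReal.tsum_comm]
    simp only [ENNReal.tsum_mul_right]
    have h2 : ((nf G hfin o).card : ℝ≥0∞) *
        ∑' v, (∑' s, pn (srw G) s o v) * pathLaw (srw G) v (⋃ n, CB A B n) ≤
        ENNReal.ofReal (2 * κ * (nf G hfin o).card) * ENNReal.ofReal E := by
      rw [← ENNReal.tsum_mul_left]
      calc ∑' v, ((nf G hfin o).card : ℝ≥0∞) *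
              ((∑' s, pn (srw G) s o v) * pathLaw (srw G) v (⋃ n, CB A B n))
          ≤ ∑' v, ENNReal.ofReal (2 * κ * (nf G hfin o).card) *
              (((nf G hfin v).card : ℝ≥0∞) * pathLaw (srw G) v (⋃ n, CB A B n)) := by
            refine ENNReal.tsum_le_tsum fun v => ?_
            rw [← mul_assoc]
            calc _ ≤ (((nf G hfin v).card : ℝ≥0∞) *
                    ENNReal.ofReal (2 * κ * (nf G hfin o).card)) *
                    pathLaw (srw G) v (⋃ n, CB A B n) :=
                  mul_le_mul_left (green_tsum G hfin o κ hκ HK v) _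
              _ = _ := by ring
        _ ≤ _ := by
            rw [ENNReal.tsum_mul_left]
            exact mul_le_mul_right (flux_tsum G hfin A B hAB φ h0 h1 hA hB E hE) _
    intro htop
    rw [htop, ENNReal.mul_top (by simpa using ho.ne_empty)] at h2
    exact (ENNReal.mul_ne_top ENNReal.ofReal_ne_top ENNReal.ofReal_ne_top) (top_le_iff.1 h2)
  filter_upwards [ae_eventually_notMem hsum] with x hx
  rintro ⟨hfa, hfb⟩
  obtain ⟨N, hN⟩ := eventually_atTop.1 hx
  obtain ⟨n, hn, hna⟩ := (frequently_atTop.1 hfa) N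
  obtain ⟨m, hm, hmb⟩ := (frequently_atTop.1 hfb) (n + 1)
  classical
  -- last visit to `A` before `m`
  have hex : ∃ k, k < m ∧ x (m - 1 - k) ∈ A := ⟨m - 1 - n, by omega, by
    rw [show m - 1 - (m - 1 - n) = n by omega]; exact hna⟩
  set k := Nat.find hex with hk
  obtain ⟨hk1, hk2⟩ := Nat.find_spec hex
  have hmin : ∀ j < k, ¬ (j < m ∧ x (m - 1 - j) ∈ A) := fun j hj => Nat.find_min hex hj
  have hkle : k ≤ m - 1 - n := Nat.find_min' hex ⟨by omega, by
    rw [show m - 1 - (m - 1 - n) = n by omega]; exact hna⟩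
  refine hN (m - 1 - k) (by omega) ?_
  rw [Set.mem_preimage, Set.mem_iUnion]
  refine ⟨k, by simpa [sh] using hk2, k, le_rfl, ?_, ?_⟩
  · simp only [sh]
    rw [show m - 1 - k + (1 + k) = m by omega]; exact hmb
  · intro r hr hra
    simp only [sh] at hra
    refine hmin (k - 1 - r) (by omega) ⟨by omega, ?_⟩
    rw [show m - 1 - (k - 1 - r) = m - 1 - k + (1 + r) by omega]; exact hra

/-- a bounded function of finite energy converges along the walk -/
theorem converge (o : V) (ho : (nf G hfin o).Nonempty) (κ : ℝ) (hκ : 0 ≤ κ)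
    (HK : ∀ (φ : V → ℝ) (S : Finset V), (∀ x, x ∉ S → φ x = 0) →
      φ o ^ 2 ≤ κ * DK G (cl G hfin S) φ φ) (u : V → ℝ) (M : ℝ) (hM : ∀ v, |u v| ≤ M) (E : ℝ)
    (hE : ∀ K : Finset V, DK G K u u ≤ E) :
    ∀ᵐ x ∂pathLaw (srw G) o, ∃ c, Tendsto (fun n => u (x n)) atTop (𝓝 c) := by
  have key : ∀ a b : ℚ, (a:ℝ) < b → ∀ᵐ x ∂pathLaw (srw G) o,
      ¬ ((∃ᶠ n in atTop, u (x n) < a) ∧ ∃ᶠ n in atTop, (b:ℝ) < u (x n)) := by
    intro a b hab
    have hba : (0:ℝ) < b - a := by linarith
    have := no_cross G hfin o ho κ hκ HK {v | u v ≤ a} {v | (b:ℝ) ≤ u v}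
      (by
        rw [Set.disjoint_left]
        intro v h1 h2
        simp only [Set.mem_setOf_eq] at h1 h2
        linarith)
      (fun v => max 0 (min 1 ((u v - a) / (b - a)))) (fun v => le_max_left _ _)
      (fun v => max_le zero_le_one (min_le_left _ _))
      (fun v hv => by
        have : (u v - a) / (b - a) ≤ 0 := div_nonpos_of_nonpos_of_nonneg
          (by simp only [Set.mem_setOf_eq] at hv; linarith) hba.le
        exact max_eq_left ((min_le_right _ _).trans this))
      (fun v hv => by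
        have : 1 ≤ (u v - a) / (b - a) := by
          rw [le_div_iff₀ hba]; simp only [Set.mem_setOf_eq] at hv; linarith
        rw [min_eq_left this]; exact max_eq_right zero_le_one)
      (E / (b - a) ^ 2) (by
        intro K
        rw [le_div_iff₀ (by positivity)]
        refine le_trans ?_ (hE K)
        unfold DK
        rw [sum_mul]
        refine sum_le_sum fun x _ => ?_
        rw [sum_mul]
        refine sum_le_sum fun w _ => ?_
        split_ifs
        · have hL : ∀ s t : ℝ, |max 0 (min 1 s) - max 0 (min 1 t)| ≤ |s - t| := by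
            intro s t
            calc |max 0 (min 1 s) - max 0 (min 1 t)| ≤ |min 1 s - min 1 t| := by
                  have := abs_max_sub_max_le_max (0:ℝ) (min 1 s) 0 (min 1 t)
                  simpa using this
              _ ≤ |s - t| := by
                  have := abs_min_sub_min_le_max (1:ℝ) s 1 t
                  simpa using this
          have h3 := hL ((u w - a) / (b - a)) ((u x - a) / (b - a))
          rw [← sub_div, abs_div, abs_of_pos hba, le_div_iff₀ hba] at h3
          set D := max 0 (min 1 ((u w - a) / (b - a))) - max 0 (min 1 ((u x - a) / (b - a)))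
            with hD
          have h4 : |u w - a - (u x - a)| = |u w - u x| := by congr 1; ring
          rw [h4] at h3
          calc D * D * (b - a) ^ 2 = (|D| * (b - a)) ^ 2 := by
                rw [mul_pow, sq_abs]; ring
            _ ≤ |u w - u x| ^ 2 := by
                exact pow_le_pow_left₀ (mul_nonneg (abs_nonneg _) hba.le) h3 2
            _ = _ := by rw [sq_abs]; ring
        · simp)
    filter_upwards [this] with x hx
    rintro ⟨h1, h2⟩
    exact hx ⟨h1.mono fun n hn => le_of_lt hn, h2.mono fun n hn => le_of_lt hn⟩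
  have key2 : ∀ᵐ x ∂pathLaw (srw G) o, ∀ a b : ℚ, (a:ℝ) < b →
      ¬ ((∃ᶠ n in atTop, u (x n) < a) ∧ ∃ᶠ n in atTop, (b:ℝ) < u (x n)) := by
    rw [ae_all_iff]; intro a
    rw [ae_all_iff]; intro b
    by_cases hab : (a:ℝ) < b
    · filter_upwards [key a b hab] with x hx _ using hx
    · exact Eventually.of_forall fun x h => absurd h hab
  filter_upwards [key2] with x hx
  refine tendsto_of_no_upcrossings (s := Set.range ((↑) : ℚ → ℝ)) Rat.denseRange_cast ?_ ?_ ?_
  · rintro _ ⟨a, rfl⟩ _ ⟨b, rfl⟩ hab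
    exact hx a b hab
  · exact isBoundedUnder_of ⟨M, fun n => (abs_le.1 (hM _)).2⟩
  · exact isBoundedUnder_of ⟨-M, fun n => (abs_le.1 (hM _)).1⟩

end Pool.Agent.H49.CP.Walk
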