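import Pool.Agent.H49.CP.Stay

set_option autoImplicit false

namespace Pool.Agent.H49.CP

open Finset MeasureTheory Filter Topology Pool.Agent.H45.Chain Pool.Agent.H43.RW
  Pool.Agent.H49.CP.Walk
open scoped ENNReal

variable {D : L → ℕ}

/-- every active vertex that is not a centre has a centre as neighbour -/
lemma has_ctr {v : V} (h : Act D v) (hC : ¬ IsC v) : ∃ p, Ctr p ∧ (Gr D).Adj v (bv p) := by
  rcases h.cases with ⟨p, hp, rfl⟩ | ⟨q, hq, rfl⟩ | ⟨p, p', q, l, F, h1, h2, rfl⟩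
  · exact absurd ⟨p, hp, rfl⟩ hC
  · obtain ⟨g, rfl⟩ := cor_trans hq
    refine ⟨g • p0, ctr_p0.act g, ?_⟩
    rw [SimpleGraph.adj_comm, adj_cq (ctr_p0.act g) hq, B_act]; decide
  · exact ⟨p, F.hp, ((adj_cf F F.hp).2 ⟨Or.inl rfl, h1, h2⟩).symm⟩

/-- the walk avoids the centres only for a geometric time -/
lemma avoid (n : ℕ) : ∀ v, Act D v → stn D {v | ¬ IsC v} n v ≤ (19 / 20 : ℝ≥0∞) ^ n := by
  classical
  induction n with
  | zero =>
    intro v _
    simp only [stn, pow_zero]
    split_ifs <;> simp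
  | succ n ih =>
    intro v hv
    simp only [stn]
    split_ifs with hC
    · obtain ⟨p, hp, hvp⟩ := has_ctr hv hC
      have hne : (nf (Gr D) locfin_graph v).Nonempty := ⟨bv p, (mem_nf _ _).2 hvp⟩
      rw [srw_step_sum (Gr D) locfin_graph hne]
      have hcard : (nf (Gr D) locfin_graph v).card ≤ 20 := by
        rw [nf_card]; exact nc_20 hv hC
      have hpos : 0 < (nf (Gr D) locfin_graph v).card := card_pos.2 hne
      have hmem : bv p ∈ nf (Gr D) locfin_graph v := (mem_nf _ _).2 hvp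
      have h0 : stn D {v | ¬ IsC v} n (bv p) = 0 := by
        have : bv p ∉ {v : V | ¬ IsC v} := fun h => h ⟨p, hp, rfl⟩
        cases n with
        | zero => simp only [stn, if_neg this]
        | succ n => simp only [stn, if_neg this]
      rw [← add_sum_erase _ _ hmem, h0, zero_add]
      set m := (nf (Gr D) locfin_graph v).card with hm
      have h1 : ∑ w ∈ (nf (Gr D) locfin_graph v).erase (bv p), stn D {v | ¬ IsC v} n w ≤
          ((m - 1 : ℕ) : ℝ≥0∞) * (19 / 20 : ℝ≥0∞) ^ n := by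
        calc _ ≤ ∑ w ∈ (nf (Gr D) locfin_graph v).erase (bv p), (19 / 20 : ℝ≥0∞) ^ n := by
              refine sum_le_sum fun w hw => ih w ?_
              exact ((mem_nf _ _).1 (mem_of_mem_erase hw)).2.2.1
          _ = _ := by rw [sum_const, card_erase_of_mem hmem, nsmul_eq_mul]
      refine (ENNReal.div_le_div_right h1 _).trans ?_
      have e5 : ((m - 1 : ℕ) : ℝ≥0∞) * (19 / 20 : ℝ≥0∞) ^ n / m =
          (((m - 1 : ℕ) : ℝ≥0∞) / m) * (19 / 20 : ℝ≥0∞) ^ n := by
        simp only [div_eq_mul_inv]; ring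
      rw [e5, pow_succ, mul_comm ((19 / 20 : ℝ≥0∞) ^ n) (19 / 20)]
      refine mul_le_mul_left ?_ _
      -- (m-1)/m ≤ 19/20
      rw [ENNReal.div_le_iff (by exact_mod_cast hpos.ne') (ENNReal.natCast_ne_top _)]
      have h2 : ((m - 1 : ℕ) : ℝ≥0∞) = ENNReal.ofReal (m - 1) := by
        rw [← ENNReal.ofReal_natCast, Nat.cast_sub hpos]; norm_num
      have h3 : (19 / 20 : ℝ≥0∞) * (m : ℝ≥0∞) = ENNReal.ofReal (19 / 20 * m) := by
        rw [ENNReal.ofReal_mul (by norm_num), ENNReal.ofReal_natCast,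
          ENNReal.ofReal_div_of_pos (by norm_num)]
        norm_num
      rw [h2, h3]
      apply ENNReal.ofReal_le_ofReal
      have : (m:ℝ) ≤ 20 := by exact_mod_cast hcard
      linarith
    · exact zero_le

/-- the walk started at any active vertex converges to the circle -/
theorem conv_all (hE : Ec D ≠ ⊤) {v : V} (hv : Act D v) :
    ∀ᵐ x ∂pathLaw (srw (Gr D)) v, ∃ z : ℂ, ‖z‖ = 1 ∧
      Tendsto (fun n => pos D (x n)) atTop (𝓝 z) := by
  set Cv : Set (ℕ → V) := {x | ∃ z : ℂ, ‖z‖ = 1 ∧ Tendsto (fun n => pos D (x n)) atTop (𝓝 z)}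
    with hCv
  -- null sets for centres
  have hnull : ∀ p : L, ∃ T : Set (ℕ → V), Cvᶜ ⊆ T ∧ MeasurableSet T ∧
      (Ctr p → pathLaw (srw (Gr D)) (bv p) T = 0) := by
    intro p
    by_cases hp : Ctr p
    · obtain ⟨T, h1, h2, h3⟩ := exists_measurable_superset_of_null (ae_iff.1 (conv_ctr hE hp))
      exact ⟨T, h1, h2, fun _ => h3⟩
    · exact ⟨Set.univ, Set.subset_univ _, MeasurableSet.univ, fun h => absurd h hp⟩
  choose T hT1 hT2 hT3 using hnull
  -- avoiding centres forever
  have havoid : stp D {v | ¬ IsC v} v = 0 := by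
    rw [stp_eq]
    have h1 : Tendsto (fun n : ℕ => (19 / 20 : ℝ≥0∞) ^ n) atTop (𝓝 0) :=
      ENNReal.tendsto_pow_atTop_nhds_zero_of_lt_one (by
        rw [ENNReal.div_lt_iff (Or.inl (by norm_num)) (Or.inl (by norm_num))]
        norm_num)
    refine le_antisymm ?_ zero_le
    refine ge_of_tendsto' h1 fun n => (iInf_le _ n).trans (avoid n v hv)
  have hpiece : ∀ (n : ℕ) (p : L), Ctr p →
      pathLaw (srw (Gr D)) v (sh n ⁻¹' (T p ∩ {x | x 0 = bv p})) = 0 := by
    intro n p hp
    have hm : MeasurableSet (T p ∩ {x : ℕ → V | x 0 = bv p}) :=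
      (hT2 p).inter (meas_at' 0 {bv p})
    rw [markov _ _ hm, ENNReal.tsum_eq_zero]
    intro u
    by_cases hu : u = bv p
    · rw [hu, measure_mono_null (Set.inter_subset_left) (hT3 p hp), mul_zero]
    · refine mul_eq_zero_of_right _ ?_
      refine measure_mono_null ?_ (ae_iff.1 (ae_start (srw (Gr D)) u))
      rintro x ⟨-, h1⟩ h2
      exact hu (h2.symm.trans h1)
  rw [ae_iff]
  refine measure_mono_null (t := StS {v | ¬ IsC v} ∪ ⋃ n : ℕ, ⋃ p : L, ⋃ (_ : Ctr p),
    sh n ⁻¹' (T p ∩ {x | x 0 = bv p})) ?_ ?_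
  · intro x hx
    by_cases h : x ∈ StS {v : V | ¬ IsC v}
    · exact Or.inl h
    · right
      simp only [StS, Set.mem_setOf_eq, not_forall, not_not] at h
      obtain ⟨n, p, hp, hn⟩ := h
      simp only [Set.mem_iUnion]
      refine ⟨n, p, hp, hT1 p ?_, ?_⟩
      · intro hc
        apply hx
        obtain ⟨z, hz, hlim⟩ := hc
        refine ⟨z, hz, ?_⟩
        have h2 : Tendsto (fun m => pos D (x (m + n))) atTop (𝓝 z) := by
          refine hlim.congr fun m => ?_
          simp only [sh]; rw [add_comm]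
        exact (tendsto_add_atTop_iff_nat n).1 h2
      · simpa [sh] using hn
  · refine measure_union_null havoid ?_
    exact measure_iUnion_null fun n => measure_iUnion_null fun p =>
      measure_iUnion_null fun hp => hpiece n p hp

end Pool.Agent.H49.CP
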