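import Pool.Agent.H49.CP.CSum

set_option autoImplicit false

namespace Pool.Agent.H49.CP

open Finset Pool.Agent.H49.CP.Walk

variable {D : L → ℕ}

/-- crossing the side `i` -/
def Xs (i : ZMod 6) : Γ := rot ^ i.val * sig

lemma Xs_p0 (i : ZMod 6) : Xs i • p0 = nb i := by
  have h : sig • p0 = nb 0 := rfl
  rw [Xs, mul_smul, h, rot_pow_nb]
  simp
lemma Xs_n0 (i : ZMod 6) : Xs i • n0 = -nn i := by
  rw [Xs, mul_smul, sig_n0, act_neg, ← nn_zero, rot_pow_nn]
  simp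

/-- going straight -/
def XT : Γ := Xs 3

lemma XT_p0 : XT • p0 = nb 3 := Xs_p0 3
lemma XT_nb0 : XT • nb 0 = p0 := by
  have h1 : nb 0 = p0 + (2:ℤ) • n0 := rfl
  rw [h1, act_add, act_zsmul, XT, Xs_p0, Xs_n0]
  rfl

lemma st_next (k : Γ) (s : ℕ) : (k * XT ^ s) • nb 3 = (k * XT ^ (s + 1)) • p0 := by
  rw [pow_succ, ← mul_assoc, mul_smul (k * XT ^ s), XT_p0]
lemma st_prev (k : Γ) (s : ℕ) : (k * XT ^ (s + 1)) • nb 0 = (k * XT ^ s) • p0 := by
  rw [pow_succ, ← mul_assoc, mul_smul (k * XT ^ s), XT_nb0]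

/-- the corridor estimate -/
theorem corridor {h : V → ℝ} (hh : Harm D h) (k : Γ) (K : ℕ) (c μ δ : ℝ) (hμ : 0 ≤ μ) (hδ : 0 < δ)
    (hδ1 : δ ≤ 1)
    (h1 : ∀ s < K, c ≤ D ((k * XT ^ s) • p0 + (k * XT ^ (s + 1)) • p0) ∧
      (D ((k * XT ^ s) • p0 + (k * XT ^ (s + 1)) • p0) : ℝ) ≤ c + μ)
    (h2 : ∀ s < K, ∀ i : ZMod 6, i ≠ 3 → (i = 0 → s = 0) →
      (D ((k * XT ^ s) • p0 + (k * XT ^ s) • nb i) : ℝ) ≤ μ)
    (h3 : 2 * (14 + 10 * μ) ≤ δ ^ 2 * (c - 1 / 2)) :
    (1 - δ) ^ K * h (bv ((k * XT ^ K) • p0)) ≤ h (bv (k • p0)) := by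
  set a : ℕ → ℝ := fun s => h (bv ((k * XT ^ s) • p0)) with ha
  set d : ℕ → ℝ := fun s => D ((k * XT ^ s) • p0 + (k * XT ^ (s + 1)) • p0) with hd
  have ha0 : ∀ s, 0 ≤ a s := fun s => hh.1 _
  have hc : 1 / 2 < c := by
    by_contra hcon
    push Not at hcon
    nlinarith [mul_nonneg (sq_nonneg δ) (sub_nonneg.2 hcon)]
  have hM : 2 * (14 + 10 * μ) ≤ δ * (c - 1 / 2) := by
    have : δ ^ 2 * (c - 1 / 2) ≤ δ * (c - 1 / 2) := by
      apply mul_le_mul_of_nonneg_right _ (by linarith)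
      nlinarith
    linarith
  -- the key inequality
  have key : ∀ s < K, (1 - δ) * a (s + 1) ≤ a s := by
    intro s
    induction s with
    | zero =>
      intro hs
      have e1 := ctr_sum (D := D) hh (k * XT ^ 0) {3}
      rw [sum_singleton] at e1
      have e2 := card_ctr_le (D := D) (k * XT ^ 0)
      rw [sum_zmod6] at e2
      have b0 := h2 0 hs 0 (by decide) (fun _ => rfl)
      have b1 := h2 0 hs 1 (by decide) (fun h => absurd h (by decide))
      have b2 := h2 0 hs 2 (by decide) (fun h => absurd h (by decide))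
      have b4 := h2 0 hs 4 (by decide) (fun h => absurd h (by decide))
      have b5 := h2 0 hs 5 (by decide) (fun h => absurd h (by decide))
      have b3 := h1 0 hs
      rw [st_next] at e1 e2
      set d0 : ℝ := ((D ((k * XT ^ 0) • p0 + (k * XT ^ (0 + 1)) • p0) : ℕ) : ℝ) with hd0
      have e3 : ((nf (Gr D) locfin_graph (bv ((k * XT ^ 0) • p0))).card : ℝ) * a 0 ≤
          (12 + 2 * d0 + 10 * μ) * a 0 := mul_le_mul_of_nonneg_right (by linarith) (ha0 0)
      change a (0 + 1) + (d0 - 1 / 2) * (a 0 + a (0 + 1)) ≤ _ * a 0 at e1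
      have x0 := ha0 0
      have x1 := ha0 (0 + 1)
      have e4 : (d0 - 1 / 2) * a (0 + 1) ≤ (13 + 10 * μ + (d0 - 1 / 2)) * a 0 := by nlinarith
      have e5 : (1 - δ) * (13 + 10 * μ + (d0 - 1 / 2)) ≤ d0 - 1 / 2 := by
        have : δ * (c - 1 / 2) ≤ δ * (d0 - 1 / 2) :=
          mul_le_mul_of_nonneg_left (by linarith [b3.1]) hδ.le
        nlinarith
      have e6 : 0 < d0 - 1 / 2 := by linarith [b3.1]
      have e7 : (1 - δ) * ((d0 - 1 / 2) * a (0 + 1)) ≤ (d0 - 1 / 2) * a 0 := by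
        calc (1 - δ) * ((d0 - 1 / 2) * a (0 + 1)) ≤
              (1 - δ) * ((13 + 10 * μ + (d0 - 1 / 2)) * a 0) :=
              mul_le_mul_of_nonneg_left e4 (by linarith)
          _ = ((1 - δ) * (13 + 10 * μ + (d0 - 1 / 2))) * a 0 := by ring
          _ ≤ _ := mul_le_mul_of_nonneg_right e5 x0
      have e8 : (d0 - 1 / 2) * ((1 - δ) * a (0 + 1)) ≤ (d0 - 1 / 2) * a 0 := by linarith
      exact le_of_mul_le_mul_left e8 e6
    | succ s ih =>
      intro hs
      have hs' := ih (by omega)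
      have e1 := ctr_sum (D := D) hh (k * XT ^ (s + 1)) {0, 3}
      rw [sum_pair (by decide)] at e1
      have e2 := card_ctr_le (D := D) (k * XT ^ (s + 1))
      rw [sum_zmod6] at e2
      have b1 := h2 (s + 1) hs 1 (by decide) (fun h => absurd h (by decide))
      have b2 := h2 (s + 1) hs 2 (by decide) (fun h => absurd h (by decide))
      have b4 := h2 (s + 1) hs 4 (by decide) (fun h => absurd h (by decide))
      have b5 := h2 (s + 1) hs 5 (by decide) (fun h => absurd h (by decide))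
      have b3 := h1 (s + 1) hs
      have b0 := h1 s (by omega)
      rw [st_next, st_prev, add_comm ((k * XT ^ (s + 1)) • p0) ((k * XT ^ s) • p0)] at e1 e2
      set d0 : ℝ := ((D ((k * XT ^ s) • p0 + (k * XT ^ (s + 1)) • p0) : ℕ) : ℝ) with hd0
      set d1 : ℝ := ((D ((k * XT ^ (s + 1)) • p0 + (k * XT ^ (s + 1 + 1)) • p0) : ℕ) : ℝ) with hd1
      have e3 : ((nf (Gr D) locfin_graph (bv ((k * XT ^ (s + 1)) • p0))).card : ℝ) * a (s + 1) ≤
          (12 + 2 * d0 + 2 * d1 + 8 * μ) * a (s + 1) :=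
        mul_le_mul_of_nonneg_right (by linarith) (ha0 _)
      change a s + (d0 - 1 / 2) * (a (s + 1) + a s) +
        (a (s + 1 + 1) + (d1 - 1 / 2) * (a (s + 1) + a (s + 1 + 1))) ≤ _ * a (s + 1) at e1
      have x0 := ha0 s
      have x1 := ha0 (s + 1)
      have x2 := ha0 (s + 1 + 1)
      have c0 : 0 < d0 - 1 / 2 := by linarith [b0.1]
      have c1 : 0 < d1 - 1 / 2 := by linarith [b3.1]
      have e4 : (d1 - 1 / 2) * a (s + 1 + 1) + (d0 - 1 / 2) * ((1 - δ) * a (s + 1)) ≤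
          (14 + 8 * μ + (d0 - 1 / 2) + (d1 - 1 / 2)) * a (s + 1) := by
        have := mul_le_mul_of_nonneg_left hs' c0.le
        nlinarith
      have e4' : (d1 - 1 / 2) * a (s + 1 + 1) ≤
          (14 + 8 * μ + δ * (d0 - 1 / 2) + (d1 - 1 / 2)) * a (s + 1) := by nlinarith
      have e5 : (1 - δ) * (14 + 8 * μ + δ * (d0 - 1 / 2) + (d1 - 1 / 2)) ≤ d1 - 1 / 2 := by
        have f1 : δ ^ 2 * (c - 1 / 2) ≤ δ ^ 2 * (d0 - 1 / 2) :=
          mul_le_mul_of_nonneg_left (by linarith [b0.1]) (sq_nonneg δ)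
        have f2 : δ * (d0 - d1) ≤ δ * μ := mul_le_mul_of_nonneg_left (by linarith [b0.2, b3.1]) hδ.le
        have f3 : δ * μ ≤ μ := by nlinarith
        have f4 : 0 ≤ δ * (14 + 8 * μ) := by positivity
        nlinarith
      have e7 : (1 - δ) * ((d1 - 1 / 2) * a (s + 1 + 1)) ≤ (d1 - 1 / 2) * a (s + 1) := by
        calc (1 - δ) * ((d1 - 1 / 2) * a (s + 1 + 1)) ≤
              (1 - δ) * ((14 + 8 * μ + δ * (d0 - 1 / 2) + (d1 - 1 / 2)) * a (s + 1)) :=
              mul_le_mul_of_nonneg_left e4' (by linarith)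
          _ = ((1 - δ) * (14 + 8 * μ + δ * (d0 - 1 / 2) + (d1 - 1 / 2))) * a (s + 1) := by ring
          _ ≤ _ := mul_le_mul_of_nonneg_right e5 x1
      have e8 : (d1 - 1 / 2) * ((1 - δ) * a (s + 1 + 1)) ≤ (d1 - 1 / 2) * a (s + 1) := by linarith
      exact le_of_mul_le_mul_left e8 c1
  have fin : ∀ s ≤ K, (1 - δ) ^ s * a s ≤ a 0 := by
    intro s
    induction s with
    | zero => intro _; simp
    | succ s ih =>
      intro hs
      have e1 := ih (by omega)
      have e2 := key s (by omega)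
      calc (1 - δ) ^ (s + 1) * a (s + 1) = (1 - δ) ^ s * ((1 - δ) * a (s + 1)) := by ring
        _ ≤ (1 - δ) ^ s * a s := mul_le_mul_of_nonneg_left e2 (pow_nonneg (by linarith) s)
        _ ≤ _ := e1
  have := fin K le_rfl
  simp only [ha, pow_zero, mul_one] at this
  exact this

/-- one step -/
lemma step_le {h : V → ℝ} (hh : Harm D h) {v w : V} (ha : (Gr D).Adj v w) {M : ℝ}
    (hM : ((nf (Gr D) locfin_graph v).card : ℝ) ≤ M) : h w ≤ M * h v := by
  calc h w ≤ ∑ w ∈ nf (Gr D) locfin_graph v, h w :=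
        single_le_sum (f := h) (fun w _ => hh.1 w) ((mem_nf _ _).2 ha)
    _ = _ := (hh.2 v).symm
    _ ≤ _ := mul_le_mul_of_nonneg_right hM (hh.1 v)

/-- letters -/
def lt (b : Bool) : ZMod 6 := if b then 2 else 4

/-- state of a word -/
def gw : (n : ℕ) → (Fin n → Bool) → Γ
  | 0, _ => 1
  | n + 1, w => Xs (lt (w 0)) * gw n (Fin.tail w)

lemma adj_Xs (k : Γ) (i : ZMod 6) : (Gr D).Adj (bv (k • p0)) (bv ((k * Xs i) • p0)) := by
  rw [mul_smul, Xs_p0, adj_cc (ctr_p0.act k) ((ctr_nb i).act k), B_act]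
  exact B_p0_nb i

lemma path_bound {h : V → ℝ} (hh : Harm D h) {M : ℝ} (hM : 0 ≤ M) (n : ℕ) : ∀ (w : Fin n → Bool)
    (k : Γ), (∀ i < n, ∀ w' : Fin i → Bool,
      ((nf (Gr D) locfin_graph (bv ((k * gw i w') • p0))).card : ℝ) ≤ M) →
    h (bv ((k * gw n w) • p0)) ≤ M ^ n * h (bv (k • p0)) := by
  induction n with
  | zero => intro w k _; simp [gw]
  | succ n ih =>
    intro w k hk
    have h1 := ih (Fin.tail w) (k * Xs (lt (w 0))) (by
      intro i hi w'
      have := hk (i + 1) (by omega) (Fin.cons (w 0) w')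
      simp only [gw, Fin.cons_zero, Fin.tail_cons, ← mul_assoc] at this
      exact this)
    have h2 := hk 0 (by omega) Fin.elim0
    simp only [gw, mul_one] at h2
    have h3 := step_le hh (adj_Xs (D := D) k (lt (w 0))) h2
    simp only [gw, ← mul_assoc]
    calc h (bv ((k * Xs (lt (w 0)) * gw n (Fin.tail w)) • p0)) ≤
          M ^ n * h (bv ((k * Xs (lt (w 0))) • p0)) := h1
      _ ≤ M ^ n * (M * h (bv (k • p0))) := mul_le_mul_of_nonneg_left h3 (pow_nonneg hM n)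
      _ = _ := by ring

end Pool.Agent.H49.CP
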