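import Pool.Agent.H49.CP.Face

set_option autoImplicit false

namespace Pool.Agent.H49.CP

variable {D : L → ℕ}

/-- a point is covered by a disc or by the interstice of a face -/
def Cov (D : L → ℕ) (N : W) : Prop := (∃ v, Act D v ∧ 0 ≤ B4 N (Xv v)) ∨
  ∃ v1 v2 v3 δ, Good D v1 v2 v3 δ ∧ B4 N (Xv v1) ≤ 0 ∧ B4 N (Xv v2) ≤ 0 ∧ B4 N (Xv v3) ≤ 0 ∧
    0 ≤ B4 N δ

lemma F_succ (p p' q : L) (l : ℕ) : Fn (p + p') q (l + 1) =
    Fn (p + p') q l + (2 : ℝ) • dA p p' q l + (P p + P p') := by
  rw [← N_eq]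
  simp only [Fn, dA]
  push_cast
  module

lemma dA_succ (p p' q : L) (l : ℕ) : dA p p' q (l + 1) =
    (1/2 : ℝ) • (P p + P p' + Fn (p + p') q (l + 1) - Fn (p + p') q l) := by
  rw [F_succ, ← N_eq]
  simp only [dA]
  push_cast
  module

lemma Fc.triA {p p' q : L} (F : Fc p p' q) (l : ℕ) :
    Tri (P p) (P p') (Fn (p + p') q l) (dA p p' q l) := by
  have h := (F.goodA (D := fun _ => l)).tri
  rwa [Xv_ctr F.hp, Xv_ctr F.hp', Xv_xv F.hq] at h

lemma Fc.triB {p p' q : L} (F : Fc p p' q) (l : ℕ) :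
    Tri (P p) (Fn (p + p') q l) (Fn (p + p') q (l + 1)) (dB p p' q l) := by
  have h := (F.goodB (D := fun _ => l + 1) (l := l) le_rfl).tri
  rwa [Xv_ctr F.hp, Xv_xv F.hq, Xv_xv F.hq] at h

lemma cover_chain {p p' q : L} (F : Fc p p' q) {N : W} (hN : B4 N N = 0) (k : ℕ) :
    ∀ l, l + k = D (p + p') → B4 N (P p) ≤ 0 → B4 N (P p') ≤ 0 →
      B4 N (Fn (p + p') q l) ≤ 0 → 0 ≤ B4 N (dA p p' q l) → Cov D N := by
  induction k with
  | zero =>
    intro l hl h1 h2 h3 h4
    rw [add_zero] at hl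
    subst hl
    right
    refine ⟨_, _, _, _, F.goodA, ?_, ?_, ?_, h4⟩
    · rwa [Xv_ctr F.hp]
    · rwa [Xv_ctr F.hp']
    · rwa [Xv_xv F.hq]
  | succ k ih =>
    intro l hl h1 h2 h3 h4
    by_cases h5 : 0 ≤ B4 N (Fn (p + p') q (l + 1))
    · left
      exact ⟨xv (p + p') q (l + 1), act_xv F (by omega), by rwa [Xv_xv F.hq]⟩
    push Not at h5
    set a := -B4 N (P p) with ha
    set b := -B4 N (P p') with hb
    set c := -B4 N (Fn (p + p') q l) with hc
    set d := -B4 N (Fn (p + p') q (l + 1)) with hd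
    have eB : B4 N (dB p p' q l) = (b - a - c - d) / 2 := by
      rw [dB_eq]
      simp only [B4_smul_right, B4_add_right, B4_sub_right]
      rw [ha, hb, hc, hd]; ring
    have eB' : B4 N (dB p' p q l) = (a - b - c - d) / 2 := by
      rw [dB_eq, add_comm p' p]
      simp only [B4_smul_right, B4_add_right, B4_sub_right]
      rw [ha, hb, hc, hd]; ring
    have eA : B4 N (dA p p' q (l + 1)) = (c - a - b - d) / 2 := by
      rw [dA_succ]
      simp only [B4_smul_right, B4_add_right, B4_sub_right]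
      rw [ha, hb, hc, hd]; ring
    have eF : d = c + a + b - 2 * B4 N (dA p p' q l) := by
      have := congrArg (B4 N) (F_succ p p' q l)
      simp only [B4_smul_right, B4_add_right] at this
      rw [hd, this, ha, hb, hc]; ring
    have hB := (F.triB l).null hN
    have hA := (F.triA l).null hN
    rw [eB] at hB
    have hquad : 2 * (a ^ 2 + b ^ 2 + c ^ 2 + d ^ 2) = (a + b + c + d) ^ 2 := by
      have e1 : B4 N (P p) = -a := by rw [ha]; ring
      have e3 : B4 N (Fn (p + p') q l) = -c := by rw [hc]; ring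
      have e4 : B4 N (Fn (p + p') q (l + 1)) = -d := by rw [hd]; ring
      rw [e1, e3, e4] at hB
      nlinarith
    have a0 : 0 ≤ a := by rw [ha]; linarith
    have b0 : 0 ≤ b := by rw [hb]; linarith
    have c0 : 0 ≤ c := by rw [hc]; linarith
    have d0 : 0 < d := by rw [hd]; linarith
    have key : b + c + d ≤ a ∨ a + c + d ≤ b ∨ a + b + d ≤ c := by
      rcases descartes a0 b0 c0 d0.le hquad with h | h | h | h
      · exact Or.inl h
      · exact Or.inr (Or.inl h)
      · exact Or.inr (Or.inr h)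
      · have h6 : B4 N (dA p p' q l) = 0 := by linarith
        have h7 : d = a + b + c := by rw [eF, h6]; ring
        rw [h6] at hA
        have e1 : B4 N (P p) = -a := by rw [ha]; ring
        have e2 : B4 N (P p') = -b := by rw [hb]; ring
        have e3 : B4 N (Fn (p + p') q l) = -c := by rw [hc]; ring
        rw [e1, e2, e3] at hA
        have hab := mul_nonneg a0 b0
        have hbc := mul_nonneg b0 c0
        have hac := mul_nonneg a0 c0
        have h8 : a * b = 0 := by nlinarith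
        have h9 : b * c = 0 := by nlinarith
        have h10 : a * c = 0 := by nlinarith
        rcases mul_eq_zero.1 h8 with h11 | h11
        · rcases mul_eq_zero.1 h9 with h12 | h12
          · right; right; linarith
          · right; left; linarith
        · rcases mul_eq_zero.1 h10 with h12 | h12
          · right; right; linarith
          · left; linarith
    rcases key with h | h | h
    · right
      have G := F.symm.goodB (D := D) (l := l) (by rw [add_comm p' p]; omega)
      refine ⟨_, _, _, _, G, ?_, ?_, ?_, ?_⟩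
      · rwa [Xv_ctr F.hp']
      · rw [Xv_xv F.hq, add_comm]; exact h3
      · rw [Xv_xv F.hq, add_comm p' p]; exact h5.le
      · rw [eB']; linarith
    · right
      have G := F.goodB (D := D) (l := l) (by omega)
      refine ⟨_, _, _, _, G, ?_, ?_, ?_, ?_⟩
      · rwa [Xv_ctr F.hp]
      · rw [Xv_xv F.hq]; exact h3
      · rw [Xv_xv F.hq]; exact h5.le
      · rw [eB]; linarith
    · exact ih (l + 1) (by omega) h1 h2 h5.le (by rw [eA]; linarith)

/-- every point of the disc is covered -/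
theorem cover {x : E} (hx : BR x x = -1) (hz : 0 < x.2.2) : Cov D (pt x) := by
  obtain ⟨g, h1, h2, h3⟩ := reduce ⟨by rw [hx]; norm_num, hz⟩
  have F := fc0.act g
  have hN := pt_null hx
  have hdec := decomp_R g x
  set α := -BR x (ι (g • n0)) + 1/2 * BR x (ι (g • rW)) with hα
  set β := 1/2 * BR x (ι (g • rW)) with hβ
  set γ := 1/3 * BR x (ι (g • rT)) with hγ
  have α0 : 0 ≤ α := by rw [hα]; linarith
  have β0 : 0 ≤ β := by rw [hβ]; linarith
  have γ0 : 0 ≤ γ := by rw [hγ]; linarith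
  set p := g • p0 with hp
  set p' := g • p1 with hp'
  set q := g • q0 with hq
  have eP : BR x (ι p) = -(α + 3 * β + 3 * γ) := by
    rw [hdec]
    simp only [BR_add_left, BR_smul_left, BR_ι]
    rw [F.hp.1, B_comm p' p, F.hpp, B_comm q p, F.hpq]; push_cast; ring
  have eP' : BR x (ι p') = -(3 * α + β + 3 * γ) := by
    rw [hdec]
    simp only [BR_add_left, BR_smul_left, BR_ι]
    rw [F.hp'.1, F.hpp, B_comm q p', F.hpq']; push_cast; ring
  have eQ : BR x (ι q) = -(3 * (α + β + γ)) := by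
    rw [hdec]
    simp only [BR_add_left, BR_smul_left, BR_ι]
    rw [F.hq.1, F.hpq, F.hpq']; push_cast; ring
  have hnorm : α * (α + 3 * β + 3 * γ) + β * (3 * α + β + 3 * γ) + γ * (3 * (α + β + γ)) = 1 := by
    have e : BR x x = BR x (α • ι p + β • ι p' + γ • ι q) := by rw [← hdec]
    rw [BR_add_right, BR_add_right, BR_smul_right, BR_smul_right, BR_smul_right, eP, eP', eQ, hx]
      at e
    linarith
  have nP : B4 (pt x) (P p) = s2 - (α + 3 * β + 3 * γ) := by
    simp only [B4, pt, P]; rw [eP]; ring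
  have nP' : B4 (pt x) (P p') = s2 - (3 * α + β + 3 * γ) := by
    simp only [B4, pt, P]; rw [eP']; ring
  have nQ : B4 (pt x) (Q q) = s2 * (1 + s3) - (1 + 2 * s3 / 3) * (3 * (α + β + γ)) := by
    simp only [B4, pt, Q, BR_smul_right]; rw [eQ]; ring
  have nD : B4 (pt x) (dA p p' q 0) = 2 + s3 - s2 * (2 + s3) * (α + β) - s2 * (3 + s3) * γ := by
    simp only [B4, pt, dA, dl, Nv, BR_smul_right, BR_add_right, Prod.fst_add, Prod.smul_fst,
      Prod.snd_add, Prod.smul_snd, ι_add, smul_eq_mul]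
    rw [eP, eP', eQ]
    push_cast; ring
  by_cases c1 : 0 ≤ B4 (pt x) (P p)
  · exact Or.inl ⟨bv p, act_ctr F.hp, by rwa [Xv_ctr F.hp]⟩
  by_cases c2 : 0 ≤ B4 (pt x) (P p')
  · exact Or.inl ⟨bv p', act_ctr F.hp', by rwa [Xv_ctr F.hp']⟩
  by_cases c3 : 0 ≤ B4 (pt x) (Q q)
  · exact Or.inl ⟨bv q, act_cor F.hq, by rwa [Xv_cor F.hq]⟩
  push Not at c1 c2 c3
  refine cover_chain F hN (D (p + p')) 0 (by omega) c1.le c2.le (by rw [Fn_zero]; exact c3.le) ?_
  rw [nD]
  rw [nP] at c1
  rw [nP'] at c2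
  rw [nQ] at c3
  have g3 := s3_gt
  have g2 := s2_gt
  have k1 : s2 * α ≤ α * (α + 3 * β + 3 * γ) := by
    rw [mul_comm]; exact mul_le_mul_of_nonneg_left (by linarith) α0
  have k2 : s2 * β ≤ β * (3 * α + β + 3 * γ) := by
    rw [mul_comm]; exact mul_le_mul_of_nonneg_left (by linarith) β0
  have k3 : s2 * (3 + s3) * γ ≤ (2 + s3) * (γ * (3 * (α + β + γ))) := by
    have k4 : γ * (s2 * (1 + s3)) ≤ γ * ((1 + 2 * s3 / 3) * (3 * (α + β + γ))) :=
      mul_le_mul_of_nonneg_left (by linarith) γ0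
    have k5 : (1 + 2 * s3 / 3) * (s2 * (3 + s3) * γ) ≤
        (1 + 2 * s3 / 3) * ((2 + s3) * (γ * (3 * (α + β + γ)))) := by
      have k6 : (2 + s3) * (γ * (s2 * (1 + s3))) ≤
          (2 + s3) * (γ * ((1 + 2 * s3 / 3) * (3 * (α + β + γ)))) :=
        mul_le_mul_of_nonneg_left k4 (by linarith)
      have e : (1 + 2 * s3 / 3) * (s2 * (3 + s3) * γ) = (2 + s3) * (γ * (s2 * (1 + s3))) := by
        linear_combination (-(1/3) * s2 * γ) * e3
      rw [e]
      linarith
    exact le_of_mul_le_mul_left k5 (by linarith)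
  have k7 : (2 + s3) * (s2 * α + s2 * β + γ * (3 * (α + β + γ))) ≤ (2 + s3) * 1 :=
    mul_le_mul_of_nonneg_left (by linarith) (by linarith)
  nlinarith

end Pool.Agent.H49.CP
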