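import Mathlib

set_option autoImplicit false

namespace Pool.Agent.H49.CP

open MeasureTheory
open scoped ENNReal

/-- The component of `x` in `H`, doubly rooted at `(x, y)`, is isomorphic to the component of `x'`
in `H'`, doubly rooted at `(x', y')`. -/
def SameRooted {V : Type} (H : SimpleGraph V) (x y : V) (H' : SimpleGraph V) (x' y' : V) : Prop :=
  ∃ φ : H.induce {z | H.Reachable x z} ≃g H'.induce {z | H'.Reachable x' z},
    ∃ hy : H.Reachable x y,
      (φ ⟨x, SimpleGraph.Reachable.refl x⟩ : V) = x' ∧ (φ ⟨y, hy⟩ : V) = y'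

open Classical in
/-- The random rooted graph given by the component of `ρ` in `G` is unimodular. -/
def Unimodular {Ω V : Type} [MeasurableSpace Ω] (μ : Measure Ω) (G : Ω → SimpleGraph V)
    (ρ : Ω → V) : Prop :=
  ∀ f : SimpleGraph V → V → V → ℝ≥0∞,
    (∀ x y, Measurable[MeasurableSpace.comap SimpleGraph.Adj inferInstance] fun H => f H x y) →
    (∀ H x y H' x' y', SameRooted H x y H' x' y' → f H x y = f H' x' y') →
    ∫⁻ ω, ∑' v, (if (G ω).Reachable (ρ ω) v then f (G ω) (ρ ω) v else 0) ∂μ =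
      ∫⁻ ω, ∑' v, (if (G ω).Reachable (ρ ω) v then f (G ω) v (ρ ω) else 0) ∂μ

end Pool.Agent.H49.CP
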