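import Pool.Agent.H49.CP.Mom

set_option autoImplicit false

namespace Pool.Agent.H49.CP

open Finset MeasureTheory Filter Topology
open scoped ENNReal

open Classical in
/-- an isometry taking `p0` to a centre -/
noncomputable def cg (p : L) : Γ := if h : Ctr p then (ctr_trans h).choose else 1

lemma cg_spec {p : L} (h : Ctr p) : cg p • p0 = p := by
  unfold cg
  rw [dif_pos h]
  exact (ctr_trans h).choose_spec

/-- bound for the squared degree -/
noncomputable def w2 (D : L → ℕ) (g : Γ) : ℝ≥0∞ :=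
  288 + 48 * ∑ i : ZMod 6, (D (g • p0 + g • nb i) : ℝ≥0∞) ^ 2

lemma deg2_le (D : L → ℕ) (g : Γ) :
    (((Gr D).neighborSet (bv (g • p0))).ncard : ℝ≥0∞) ^ 2 ≤ w2 D g := by
  have h := ncard_ctr_le (D := D) g
  set n := ((Gr D).neighborSet (bv (g • p0))).ncard
  set a : ZMod 6 → ℕ := fun i => D (g • p0 + g • nb i) with ha
  have h1 : n ^ 2 ≤ 288 + 48 * ∑ i, a i ^ 2 := by
    have h2 : ∑ i : ZMod 6, 2 * a i = 2 * ∑ i, a i := (mul_sum ..).symm
    have h3 : (∑ i, a i) ^ 2 ≤ 6 * ∑ i, a i ^ 2 := by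
      have := sq_sum_le_card_mul_sum_sq (s := (univ : Finset (ZMod 6))) (f := a)
      simpa using this
    have h4 : n ≤ 12 + 2 * ∑ i, a i := by
      rw [← h2]; exact h
    have h5 : n ^ 2 ≤ (12 + 2 * ∑ i, a i) ^ 2 := Nat.pow_le_pow_left h4 2
    zify at h3 h5 ⊢
    nlinarith [sq_nonneg ((12:ℤ) - 2 * ∑ i, (a i : ℤ))]
  calc (n : ℝ≥0∞) ^ 2 = ((n ^ 2 : ℕ) : ℝ≥0∞) := by push_cast; rfl
    _ ≤ ((288 + 48 * ∑ i, a i ^ 2 : ℕ) : ℝ≥0∞) := by exact_mod_cast h1
    _ = _ := by
        unfold w2; push_cast; rfl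

lemma meas_w2 (g : Γ) : Measurable fun ω => w2 (DD ω) g := by
  unfold w2
  refine Measurable.const_add (Measurable.const_mul ?_ _) _
  refine Finset.measurable_sum _ fun i _ => ?_
  have h : Measurable fun n : ℕ => (n : ℝ≥0∞) ^ 2 := measurable_of_countable _
  exact h.comp (meas_DD (g • p0 + g • nb i))

/-- the constant bounding the second moment of the degree -/
noncomputable def C0 : ℝ≥0∞ := 288 + 48 * (6 * (8 * c1 ^ 2))

lemma C0_ne_top : C0 ≠ ⊤ := by
  unfold C0
  have := c1_ne_top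
  finiteness

lemma int_w2 (g : Γ) : ∫⁻ ω, w2 (DD ω) g ∂Pm ≤ C0 := by
  unfold w2 C0
  have hm : ∀ i : ZMod 6, Measurable fun ω => (DD ω (g • p0 + g • nb i) : ℝ≥0∞) ^ 2 := by
    intro i
    have h : Measurable fun n : ℕ => (n : ℝ≥0∞) ^ 2 := measurable_of_countable _
    exact h.comp (meas_DD (g • p0 + g • nb i))
  rw [lintegral_add_left measurable_const, lintegral_const, measure_univ, mul_one,
    lintegral_const_mul _ (Finset.measurable_sum _ fun i _ => hm i),
    lintegral_finset_sum _ fun i _ => hm i]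
  gcongr
  calc ∑ i : ZMod 6, ∫⁻ ω, (DD ω (g • p0 + g • nb i) : ℝ≥0∞) ^ 2 ∂Pm
      ≤ ∑ i : ZMod 6, 8 * c1 ^ 2 := sum_le_sum fun i _ =>
        int_DD2 (ctr_p0.act g) ((ctr_nb i).act g) (by rw [B_act]; exact B_p0_nb i)
    _ = _ := by simp

/-- the squared radii of the centre circles have a finite sum -/
lemma sum_rad : (∑' p : L, open Classical in if Ctr p then ENNReal.ofReal (rad (P p) ^ 2) else 0) ≤ 1 := by
  classical
  rw [ENNReal.tsum_eq_iSup_sum]
  refine iSup_le fun s => ?_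
  rw [← sum_filter, ← ENNReal.ofReal_sum_of_nonneg fun p _ => sq_nonneg _, ENNReal.ofReal_le_one]
  have h := area (D := fun _ => 0) ((s.filter fun p => Ctr p).image bv) (by
    intro v hv
    obtain ⟨p, hp, rfl⟩ := mem_image.1 hv
    exact act_ctr (mem_filter.1 hp).2)
  rw [sum_image fun p _ q _ h => bv_inj.1 h] at h
  refine le_trans (le_of_eq ?_) h
  refine sum_congr rfl fun p hp => ?_
  rw [Xv_ctr (mem_filter.1 hp).2]

theorem Ec_ae : ∀ᵐ ω ∂Pm, Ec (DD ω) ≠ ⊤ := by
  classical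
  set F : Om → ℝ≥0∞ := fun ω => ∑' p : L, if Ctr p then w2 (DD ω) (cg p) *
    ENNReal.ofReal (rad (P p) ^ 2) else 0 with hF
  have hmt : ∀ p : L, Measurable fun ω => (if Ctr p then w2 (DD ω) (cg p) *
      ENNReal.ofReal (rad (P p) ^ 2) else 0) := by
    intro p
    split_ifs
    · exact (meas_w2 (cg p)).mul_const _
    · exact measurable_const
  have hm : Measurable F := Measurable.tsum fun p => hmt p
  have hint : ∫⁻ ω, F ω ∂Pm ≤ C0 := by
    rw [hF, lintegral_tsum fun p => (hmt p).aemeasurable]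
    calc _ ≤ ∑' p : L, C0 * (if Ctr p then ENNReal.ofReal (rad (P p) ^ 2) else 0) := by
          refine ENNReal.tsum_le_tsum fun p => ?_
          by_cases hp : Ctr p
          · simp only [if_pos hp]
            rw [lintegral_mul_const _ (meas_w2 (cg p))]
            exact mul_le_mul_left (int_w2 (cg p)) _
          · simp only [if_neg hp]
            simp
      _ ≤ C0 * 1 := by
          rw [ENNReal.tsum_mul_left]
          exact mul_le_mul_right sum_rad _
      _ = C0 := mul_one _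
  filter_upwards [ae_lt_top hm (ne_top_of_le_ne_top C0_ne_top hint)] with ω hω
  refine ne_top_of_le_ne_top hω.ne ?_
  refine ENNReal.tsum_le_tsum fun p => ?_
  split_ifs with hp
  · refine mul_le_mul_left ?_ _
    have h := deg2_le (DD ω) (cg p)
    rw [cg_spec hp] at h
    refine le_trans ?_ h
    have : ∀ n : ℕ, (n : ℝ≥0∞) ≤ (n : ℝ≥0∞) ^ 2 := fun n => by
      exact_mod_cast Nat.le_self_pow two_ne_zero n
    exact this _
  · exact le_rfl

end Pool.Agent.H49.CP
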