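import Pool.Agent.H49.CP.Red

set_option autoImplicit false

namespace Pool.Agent.H49.CP

open Relation

/-- move a vector to the fundamental sector of the stabiliser of `p0` -/
lemma sector (v : L) : ∃ s : Γ, s • p0 = p0 ∧ 0 ≤ (s • v).2.1 ∧ (s • v).2.1 ≤ (s • v).1 := by
  have h1 : ∀ v : L, 0 ≤ v.1 → 0 ≤ v.2.1 →
      ∃ s : Γ, s • p0 = p0 ∧ 0 ≤ (s • v).2.1 ∧ (s • v).2.1 ≤ (s • v).1 := by
    intro v ha hb
    rcases le_total v.2.1 v.1 with h | h
    · exact ⟨1, one_smul _ _, by rw [one_smul]; exact hb, by rw [one_smul]; exact h⟩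
    · exact ⟨sw, rfl, ha, h⟩
  have h2 : ∀ v : L, 0 ≤ v.2.1 →
      ∃ s : Γ, s • p0 = p0 ∧ 0 ≤ (s • v).2.1 ∧ (s • v).2.1 ≤ (s • v).1 := by
    intro v hb
    rcases le_total 0 v.1 with ha | ha
    · exact h1 v ha hb
    have e1 : ∀ u : L, rot⁻¹ • u = (u.1 + u.2.1, -u.1, u.2.2) := fun u => by
      rw [inv_smul_eq_iff, rot_smul]; ext <;> simp
    rcases le_total 0 (v.1 + v.2.1) with hc | hc
    · obtain ⟨s, hs, h3, h4⟩ := h1 (rot⁻¹ • v) (by rw [e1]; exact hc) (by rw [e1]; simpa using ha)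
      refine ⟨s * rot⁻¹, ?_, ?_, ?_⟩
      · rw [mul_smul, e1]; exact hs
      · rw [mul_smul]; exact h3
      · rw [mul_smul]; exact h4
    · obtain ⟨s, hs, h3, h4⟩ := h1 (rot⁻¹ • rot⁻¹ • v) (by rw [e1, e1]; simpa using hb)
        (by rw [e1, e1]; simp only; linarith)
      refine ⟨s * rot⁻¹ * rot⁻¹, ?_, ?_, ?_⟩
      · rw [mul_smul, mul_smul, e1, e1]; exact hs
      · rw [mul_smul, mul_smul]; exact h3
      · rw [mul_smul, mul_smul]; exact h4
  rcases le_total 0 v.2.1 with hb | hb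
  · exact h2 v hb
  · obtain ⟨s, hs, h3, h4⟩ := h2 (tau • v) (by rw [tau_smul]; simpa using hb)
    refine ⟨s * tau, ?_, ?_, ?_⟩
    · rw [mul_smul]; exact hs
    · rw [mul_smul]; exact h3
    · rw [mul_smul]; exact h4

lemma ctr_sector {p : L} (hp : Ctr p) : ∃ g : Γ, g • p0 = p ∧ 0 ≤ (g⁻¹ • p0).2.1 ∧
    (g⁻¹ • p0).2.1 ≤ (g⁻¹ • p0).1 := by
  obtain ⟨g, rfl⟩ := ctr_trans hp
  obtain ⟨s, hs, h1, h2⟩ := sector (g⁻¹ • p0)
  refine ⟨g * s⁻¹, ?_, ?_, ?_⟩
  · rw [mul_smul, inv_smul_eq_iff.2 hs.symm]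
  · rw [mul_inv_rev, inv_inv, mul_smul]; exact h1
  · rw [mul_inv_rev, inv_inv, mul_smul]; exact h2

def Base (p : L) : Prop := Ctr p ∨ Cor p

open Classical in
/-- height -/
noncomputable def ht (p : L) : ℤ := if Ctr p then 2 * p.2.2 else p.2.2

lemma ht_ctr {p : L} (h : Ctr p) : ht p = 2 * p.2.2 := by simp [ht, h]
lemma ht_cor {p : L} (h : Cor p) : ht p = p.2.2 := by
  have : ¬ Ctr p := fun h' => h'.ne_cor h
  simp [ht, this]

/-- adjacency of base vertices -/
def Ha (p q : L) : Prop := Base p ∧ Base q ∧ p ≠ q ∧ B p q = -3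

lemma Ha.symm {p q : L} (h : Ha p q) : Ha q p := ⟨h.2.1, h.1, h.2.2.1.symm, by
  rw [B_comm]; exact h.2.2.2⟩

lemma Ha.act {p q : L} (h : Ha p q) (g : Γ) : Ha (g • p) (g • q) := by
  refine ⟨?_, ?_, ?_, ?_⟩
  · exact h.1.imp (fun h => h.act g) (fun h => h.act g)
  · exact h.2.1.imp (fun h => h.act g) (fun h => h.act g)
  · intro e
    exact h.2.2.1 (MulAction.injective g e)
  · rw [B_act]; exact h.2.2.2

/-- step above level `N` -/
def St (N : ℤ) (p q : L) : Prop := Ha p q ∧ N < ht p ∧ N < ht q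

lemma St.symm {N : ℤ} {p q : L} (h : St N p q) : St N q p := ⟨h.1.symm, h.2.2, h.2.1⟩

lemma rtg_symm {N : ℤ} {p q : L} (h : ReflTransGen (St N) p q) : ReflTransGen (St N) q p := by
  induction h with
  | refl => exact .refl
  | tail _ h2 ih => exact .head h2.symm ih

lemma z_act (g : Γ) (v : L) : (g • v).2.2 = -B (g⁻¹ • p0) v := by
  rw [← B_act g, smul_inv_smul]
  simp [B, p0]

lemma ha_nb (i : ZMod 6) : Ha p0 (nb i) :=
  ⟨Or.inl ctr_p0, Or.inl (ctr_nb i), by revert i; decide, B_p0_nb i⟩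
lemma ha_nq (i : ZMod 6) : Ha p0 (nq i) :=
  ⟨Or.inl ctr_p0, Or.inr (cor_nq i), by revert i; decide, B_p0_nq i⟩
lemma ha_nbq (i : ZMod 6) : Ha (nb i) (nq i) :=
  ⟨Or.inl (ctr_nb i), Or.inr (cor_nq i), by revert i; decide, by revert i; decide⟩
lemma ha_nqb (i : ZMod 6) : Ha (nq i) (nb (i + 1)) :=
  ⟨Or.inr (cor_nq i), Or.inl (ctr_nb _), by revert i; decide, by revert i; decide⟩

/-- neighbours of a centre -/
lemma Ha.of_ctr {g : Γ} {c : L} (h : Ha (g • p0) c) : ∃ i, c = g • nb i ∨ c = g • nq i := by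
  have h1 : B p0 (g⁻¹ • c) = -3 := by rw [← B_act g, smul_inv_smul]; exact h.2.2.2
  rcases h.2.1 with hc | hc
  · obtain ⟨i, hi⟩ := nb_of (hc.act g⁻¹) h1
    exact ⟨i, Or.inl (by rw [← hi, smul_inv_smul])⟩
  · obtain ⟨i, hi⟩ := nq_of (hc.act g⁻¹) h1
    exact ⟨i, Or.inr (by rw [← hi, smul_inv_smul])⟩

def cc (j : Fin 4) : L := match j with
  | 0 => (0, 0, 1)
  | 1 => (2, 0, 3)
  | 2 => (2, 2, 5)
  | 3 => (0, 2, 3)

lemma ctr_cc (j : Fin 4) : Ctr (cc j) := by
  fin_cases j <;> (constructor <;> decide)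

lemma cc_of {c : L} (hc : Ctr c) (h : B c q0 = -3) : ∃ j, c = cc j := by
  obtain ⟨⟨a, ha⟩, ⟨b, hb⟩, -⟩ := hc.parity
  obtain ⟨x, y, z⟩ := c
  obtain ⟨h2, -⟩ := hc
  simp only [B, q0] at h h2 ha hb
  have hz : z = 2 * a + 2 * b + 1 := by linarith
  subst hz ha hb
  have e : a * a + b * b - a - b = 0 := by nlinarith
  have ha1 : a * (a - 1) = 0 ∧ b * (b - 1) = 0 := by
    have h3 : 0 ≤ a * (a - 1) := by
      rcases le_or_gt a 0 with h | h
      · nlinarith
      · exact mul_nonneg (by omega) (by omega)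
    have h4 : 0 ≤ b * (b - 1) := by
      rcases le_or_gt b 0 with h | h
      · nlinarith
      · exact mul_nonneg (by omega) (by omega)
    constructor <;> nlinarith
  rcases mul_eq_zero.1 ha1.1 with h3 | h3 <;> rcases mul_eq_zero.1 ha1.2 with h4 | h4
  · have h3' : a = 0 := h3
    have h4' : b = 0 := h4
    subst h3' h4'; exact ⟨0, rfl⟩
  · have h3' : a = 0 := h3
    have h4' : b = 1 := by omega
    subst h3' h4'; exact ⟨3, rfl⟩
  · have h3' : a = 1 := by omega
    have h4' : b = 0 := h4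
    subst h3' h4'; exact ⟨1, rfl⟩
  · have h3' : a = 1 := by omega
    have h4' : b = 1 := by omega
    subst h3' h4'; exact ⟨2, rfl⟩

lemma Ha.of_cor {g : Γ} {c : L} (h : Ha (g • q0) c) : ∃ j, c = g • cc j := by
  have h1 : B (g⁻¹ • c) q0 = -3 := by rw [← B_act g, smul_inv_smul, B_comm]; exact h.2.2.2
  rcases h.2.1 with hc | hc
  · obtain ⟨j, hj⟩ := cc_of (hc.act g⁻¹) h1
    exact ⟨j, by rw [← hj, smul_inv_smul]⟩
  · exfalso
    have := (cor_q0.act g).cor hc h.2.2.1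
    rw [h.2.2.2] at this
    norm_num at this

lemma ht_act_ctr {v : L} (h : Ctr v) (g : Γ) : ht (g • v) = -2 * B (g⁻¹ • p0) v := by
  rw [ht_ctr (h.act g), z_act]; ring
lemma ht_act_cor {v : L} (h : Cor v) (g : Γ) : ht (g • v) = -B (g⁻¹ • p0) v := by
  rw [ht_cor (h.act g), z_act]

lemma St.mk' {N : ℤ} {p q : L} (g : Γ) (h : Ha p q) (h1 : N < ht (g • p)) (h2 : N < ht (g • q)) :
    ReflTransGen (St N) (g • p) (g • q) := .single ⟨h.act g, h1, h2⟩

/-- link lemma for corners -/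
lemma link_cor {q c e : L} (hq : Cor q) (hc : Ha q c) (he : Ha q e) (h1 : ht q < ht c)
    (h2 : ht q < ht e) : ReflTransGen (St (ht q)) c e := by
  obtain ⟨g, rfl⟩ := cor_trans hq
  obtain ⟨i, rfl⟩ := hc.of_cor
  obtain ⟨j, rfl⟩ := he.of_cor
  set N := ht (g • q0) with hN
  have e0 : N = -B (g⁻¹ • p0) q0 := ht_act_cor cor_q0 g
  have hpos : 0 < N := by rw [hN, ht_cor hq]; exact hq.2
  have eh : ∀ k, ht (g • cc k) = -2 * B (g⁻¹ • p0) (cc k) := fun k => ht_act_ctr (ctr_cc k) g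
  have s1 : ht (g • cc 0) + ht (g • cc 2) = 4 * N := by
    rw [eh, eh, e0]; simp only [B, cc, q0]; ring
  have s2 : ht (g • cc 1) + ht (g • cc 3) = 4 * N := by
    rw [eh, eh, e0]; simp only [B, cc, q0]; ring
  have a01 : Ha (cc 0) (cc 1) := ⟨Or.inl (ctr_cc 0), Or.inl (ctr_cc 1), by decide, by decide⟩
  have a12 : Ha (cc 1) (cc 2) := ⟨Or.inl (ctr_cc 1), Or.inl (ctr_cc 2), by decide, by decide⟩
  have a23 : Ha (cc 2) (cc 3) := ⟨Or.inl (ctr_cc 2), Or.inl (ctr_cc 3), by decide, by decide⟩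
  have a30 : Ha (cc 3) (cc 0) := ⟨Or.inl (ctr_cc 3), Or.inl (ctr_cc 0), by decide, by decide⟩
  have key02 : N < ht (g • cc 0) → N < ht (g • cc 2) →
      ReflTransGen (St N) (g • cc 0) (g • cc 2) := by
    intro k0 k2
    rcases lt_or_ge N (ht (g • cc 1)) with h | h
    · exact (St.mk' g a01 k0 h).trans (St.mk' g a12 h k2)
    · have h' : N < ht (g • cc 3) := by linarith
      exact (St.mk' g a30.symm k0 h').trans (St.mk' g a23.symm h' k2)
  have key13 : N < ht (g • cc 1) → N < ht (g • cc 3) →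
      ReflTransGen (St N) (g • cc 1) (g • cc 3) := by
    intro k0 k2
    rcases lt_or_ge N (ht (g • cc 0)) with h | h
    · exact (St.mk' g a01.symm k0 h).trans (St.mk' g a30.symm h k2)
    · have h' : N < ht (g • cc 2) := by linarith
      exact (St.mk' g a12 k0 h').trans (St.mk' g a23 h' k2)
  fin_cases i <;> fin_cases j
  · exact .refl
  · exact St.mk' g a01 h1 h2
  · exact key02 h1 h2
  · exact St.mk' g a30.symm h1 h2
  · exact St.mk' g a01.symm h1 h2
  · exact .refl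
  · exact St.mk' g a12 h1 h2
  · exact key13 h1 h2
  · exact rtg_symm (key02 h2 h1)
  · exact St.mk' g a12.symm h1 h2
  · exact .refl
  · exact St.mk' g a23 h1 h2
  · exact St.mk' g a30 h1 h2
  · exact rtg_symm (key13 h2 h1)
  · exact St.mk' g a23.symm h1 h2
  · exact .refl

/-- link lemma for centres -/
lemma link_ctr {p c e : L} (hp : Ctr p) (hc : Ha p c) (he : Ha p e) (h1 : ht p < ht c)
    (h2 : ht p < ht e) : ReflTransGen (St (ht p)) c e := by
  obtain ⟨g, rfl, hs1, hs2⟩ := ctr_sector hp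
  set N := ht (g • p0) with hN
  have hy : Ctr (g⁻¹ • p0) := ctr_p0.act _
  have eh : ∀ k, ht (g • nb k) = -2 * B (g⁻¹ • p0) (nb k) := fun k => ht_act_ctr (ctr_nb k) g
  have eq : ∀ k, ht (g • nq k) = - B (g⁻¹ • p0) (nq k) := fun k => ht_act_cor (cor_nq k) g
  have e0 : N = -2 * B (g⁻¹ • p0) p0 := ht_act_ctr ctr_p0 g
  generalize g⁻¹ • p0 = y at *
  obtain ⟨a, b, z⟩ := y
  obtain ⟨hy1, hy2⟩ := hy
  simp only at hs1 hs2 hy2
  simp only [B, p0] at hy1 e0
  have N2 : N = 2 * z := by rw [e0]; ring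
  have hnorm : 2 * (a * a + a * b + b * b) = z * z - 1 := by linarith
  have az : a < z := by nlinarith
  have H2 : N < ht (g • nb 2) := by rw [eh, N2]; simp only [B, nb]; linarith
  have H3 : N < ht (g • nb 3) := by rw [eh, N2]; simp only [B, nb]; linarith
  have H4 : N < ht (g • nb 4) := by rw [eh, N2]; simp only [B, nb]; linarith
  have H5 : N < ht (g • nb 5) := by rw [eh, N2]; simp only [B, nb]; linarith
  have K2 : N < ht (g • nq 2) := by rw [eq, N2]; simp only [B, nq]; linarith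
  have K3 : N < ht (g • nq 3) := by rw [eq, N2]; simp only [B, nq]; linarith
  have K4 : N < ht (g • nq 4) := by rw [eq, N2]; simp only [B, nq]; linarith
  have r3 : ReflTransGen (St N) (g • nb 3) (g • nb 3) := .refl
  have k3 : ReflTransGen (St N) (g • nq 3) (g • nb 3) := St.mk' g (ha_nbq 3).symm K3 H3
  have r4 : ReflTransGen (St N) (g • nb 4) (g • nb 3) :=
    (St.mk' g (ha_nqb 3).symm H4 K3).trans k3
  have k4 : ReflTransGen (St N) (g • nq 4) (g • nb 3) :=
    (St.mk' g (ha_nbq 4).symm K4 H4).trans r4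
  have r5 : ReflTransGen (St N) (g • nb 5) (g • nb 3) :=
    (St.mk' g (ha_nqb 4).symm H5 K4).trans k4
  have k2 : ReflTransGen (St N) (g • nq 2) (g • nb 3) := St.mk' g (ha_nqb 2) K2 H3
  have r2 : ReflTransGen (St N) (g • nb 2) (g • nb 3) := (St.mk' g (ha_nbq 2) H2 K2).trans k2
  have k1 : N < ht (g • nq 1) → ReflTransGen (St N) (g • nq 1) (g • nb 3) := fun h =>
    (St.mk' g (ha_nqb 1) h H2).trans r2
  have r1 : N < ht (g • nb 1) → ReflTransGen (St N) (g • nb 1) (g • nb 3) := fun h => by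
    have K1 : N < ht (g • nq 1) := by
      rw [eq, N2]; rw [eh, N2] at h
      simp only [B, nb] at h
      simp only [B, nq]; linarith
    exact (St.mk' g (ha_nbq 1) h K1).trans (k1 K1)
  have triv : 2 * a + b < z → a = 0 ∧ b = 0 ∧ z = 1 := by
    intro h
    have hz1 : z ≤ 1 := by nlinarith
    have hz2 : z = 1 := by omega
    subst hz2
    refine ⟨?_, ?_, rfl⟩ <;> nlinarith
  have small : a = 0 ∧ b = 0 ∧ z = 1 → ReflTransGen (St N) (g • nq 0) (g • nb 3) ∧
      ReflTransGen (St N) (g • nb 0) (g • nb 3) ∧ ReflTransGen (St N) (g • nq 5) (g • nb 3) := by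
    rintro ⟨rfl, rfl, rfl⟩
    have K0 : N < ht (g • nq 0) := by rw [eq, N2]; simp [B, nq]
    have H0 : N < ht (g • nb 0) := by rw [eh, N2]; simp [B, nb]
    have H1 : N < ht (g • nb 1) := by rw [eh, N2]; simp [B, nb]
    have K5 : N < ht (g • nq 5) := by rw [eq, N2]; simp [B, nq]
    have l0 := (St.mk' g (ha_nqb 0) K0 H1).trans (r1 H1)
    exact ⟨l0, (St.mk' g (ha_nbq 0) H0 K0).trans l0, (St.mk' g (ha_nbq 5).symm K5 H5).trans r5⟩
  have k0 : N < ht (g • nq 0) → ReflTransGen (St N) (g • nq 0) (g • nb 3) := fun h => by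
    rw [eq, N2] at h; simp only [B, nq] at h
    exact (small (triv (by linarith))).1
  have r0 : N < ht (g • nb 0) → ReflTransGen (St N) (g • nb 0) (g • nb 3) := fun h => by
    rw [eh, N2] at h; simp only [B, nb] at h
    exact (small (triv (by linarith))).2.1
  have k5 : N < ht (g • nq 5) → ReflTransGen (St N) (g • nq 5) (g • nb 3) := fun h => by
    rw [eq, N2] at h; simp only [B, nq] at h
    exact (small (triv (by linarith))).2.2
  have all : ∀ d, Ha (g • p0) d → N < ht d → ReflTransGen (St N) d (g • nb 3) := by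
    intro d hd hh
    obtain ⟨i, rfl | rfl⟩ := hd.of_ctr
    · fin_cases i
      exacts [r0 hh, r1 hh, r2, r3, r4, r5]
    · fin_cases i
      exacts [k0 hh, k1 hh, k2, k3, k4, k5 hh]
  exact (all c hc h1).trans (rtg_symm (all e he h2))

lemma ht_pos {p : L} (h : Base p) : 1 < ht p := by
  rcases h with h | h
  · rw [ht_ctr h]; have := h.2; omega
  · rw [ht_cor h]
    obtain ⟨-, ⟨c, hc⟩⟩ := h.mod3
    have := h.2; omega

lemma link {p c e : L} (hp : Base p) (hc : Ha p c) (he : Ha p e) (h1 : ht p < ht c)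
    (h2 : ht p < ht e) : ReflTransGen (St (ht p)) c e := by
  rcases hp with h | h
  · exact link_ctr h hc he h1 h2
  · exact link_cor h hc he h1 h2

/-- adjacent base vertices have different heights -/
lemma ht_ne {p q : L} (h : Ha p q) : ht p ≠ ht q := by
  obtain ⟨h1, h2, h3, h4⟩ := h
  rcases h1 with h1 | h1 <;> rcases h2 with h2 | h2
  · rw [ht_ctr h1, ht_ctr h2]
    intro e
    have e' : p.2.2 = q.2.2 := by linarith
    obtain ⟨⟨a, ha⟩, ⟨b, hb⟩, -⟩ := h1.parity
    obtain ⟨⟨c, hc⟩, ⟨d, hd⟩, hz⟩ := h2.parity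
    simp only [B, ha, hb, hc, hd, e'] at h4
    obtain ⟨k, hk⟩ : ∃ k, q.2.2 = 2 * k + 1 := ⟨q.2.2 / 2, by omega⟩
    rw [hk] at h4
    ring_nf at h4
    omega
  · rw [ht_ctr h1, ht_cor h2]
    intro e
    have : q.2.2 % 2 = 1 := by
      have h5 := h2.1
      simp only [B] at h5
      rcases Int.even_or_odd' q.2.2 with ⟨k, hk | hk⟩
      · rw [hk] at h5; ring_nf at h5; omega
      · omega
    omega
  · rw [ht_cor h1, ht_ctr h2]
    intro e
    have : p.2.2 % 2 = 1 := by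
      have h5 := h1.1
      simp only [B] at h5
      rcases Int.even_or_odd' p.2.2 with ⟨k, hk | hk⟩
      · rw [hk] at h5; ring_nf at h5; omega
      · omega
    omega
  · exfalso
    have := h1.cor h2 h3
    rw [h4] at this; norm_num at this

/-- every centre other than `p0` has an adjacent centre of smaller height -/
lemma descend {p : L} (hp : Ctr p) (hne : p ≠ p0) : ∃ p', Ctr p' ∧ B p p' = -3 ∧
    p'.2.2 < p.2.2 := by
  obtain ⟨g, rfl, hs1, hs2⟩ := ctr_sector hp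
  refine ⟨g • nb 0, (ctr_nb 0).act g, by rw [B_act]; exact B_p0_nb 0, ?_⟩
  rw [z_act, z_act]
  have hy : Ctr (g⁻¹ • p0) := ctr_p0.act _
  have hne' : g⁻¹ • p0 ≠ p0 := fun e => hne (by rw [inv_smul_eq_iff] at e; exact e.symm)
  generalize g⁻¹ • p0 = y at *
  obtain ⟨a, b, z⟩ := y
  obtain ⟨hy1, hy2⟩ := hy
  simp only at hs1 hs2 hy2
  simp only [B, nb, p0] at hy1 ⊢
  by_contra hcon
  have h : 2 * a + b ≤ z := by linarith
  have hz1 : z ≤ 1 := by nlinarith
  have hz2 : z = 1 := by omega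
  subst hz2
  apply hne'
  have ha : a = 0 := by nlinarith
  have hb : b = 0 := by nlinarith
  rw [ha, hb]; rfl

lemma conn_ctr (n : ℕ) : ∀ p, Ctr p → p.2.2 ≤ n → ReflTransGen (St 1) p p0 := by
  induction n with
  | zero => intro p hp h; have := hp.2; simp only [Nat.cast_zero] at h; omega
  | succ n ih =>
    intro p hp h
    by_cases hne : p = p0
    · rw [hne]
    obtain ⟨p', hp', h1, h2⟩ := descend hp hne
    have h3 : ReflTransGen (St 1) p p' := .single ⟨⟨Or.inl hp, Or.inl hp', fun e => by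
      rw [e] at h2; exact lt_irrefl _ h2, h1⟩, ht_pos (Or.inl hp), ht_pos (Or.inl hp')⟩
    exact h3.trans (ih p' hp' (by push_cast at h; omega))

lemma conn_base {p : L} (hp : Base p) : ReflTransGen (St 1) p p0 := by
  rcases hp with h | h
  · exact conn_ctr p.2.2.toNat p h (by have := h.2; omega)
  · obtain ⟨g, rfl⟩ := cor_trans h
    have hc : Ctr (g • p0) := ctr_p0.act g
    refine .head ⟨⟨Or.inr h, Or.inl hc, fun e => ?_, by rw [B_act]; decide⟩, ht_pos (Or.inr h),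
      ht_pos (Or.inl hc)⟩ (conn_ctr (g • p0).2.2.toNat _ hc (by have := hc.2; omega))
    rw [e] at h; exact hc.ne_cor h

/-- the base graph stays connected above any level -/
theorem conn_above (n : ℕ) : ∀ p q, Base p → Base q → (n : ℤ) + 1 < ht p → (n : ℤ) + 1 < ht q →
    ReflTransGen (St (n + 1)) p q := by
  induction n with
  | zero =>
    intro p q hp hq _ _
    simp only [Nat.cast_zero, zero_add]
    exact (conn_base hp).trans (rtg_symm (conn_base hq))
  | succ n ih =>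
    intro p q hp hq h1 h2
    push_cast at h1 h2 ⊢
    have hpath := ih p q hp hq (by omega) (by omega)
    have key : ∀ c, ReflTransGen (St ((n:ℤ) + 1)) p c →
        ((n:ℤ) + 1 + 1 < ht c → ReflTransGen (St ((n:ℤ) + 1 + 1)) p c) ∧
        (ht c = (n:ℤ) + 1 + 1 → ∀ d, Ha c d → (n:ℤ) + 1 + 1 < ht d →
          ReflTransGen (St ((n:ℤ) + 1 + 1)) p d) := by
      intro c hc
      induction hc with
      | refl => exact ⟨fun _ => .refl, fun h => by omega⟩
      | tail _ hst ih2 =>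
        rename_i c d _
        obtain ⟨hcd, hc1, hd1⟩ := hst
        rcases lt_or_ge ((n:ℤ) + 1 + 1) (ht c) with hc2 | hc2
        · have hpc := ih2.1 hc2
          refine ⟨fun hd2 => hpc.tail ⟨hcd, hc2, hd2⟩, fun hd2 e hde he => ?_⟩
          have hl := link hcd.2.1 hcd.symm hde (by omega) (by omega)
          rw [hd2] at hl
          exact hpc.trans hl
        · have hc3 : ht c = (n:ℤ) + 1 + 1 := by omega
          have hne := ht_ne hcd
          refine ⟨fun hd2 => ih2.2 hc3 d hcd hd2, fun hd2 => by omega⟩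
    exact (key q hpath).1 h2

end Pool.Agent.H49.CP
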