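import Pool.Agent.H49.CP.Hardy

set_option autoImplicit false

namespace Pool.Agent.H49.CP

open Finset MeasureTheory Filter Topology Pool.Agent.H49.CP.Net Pool.Agent.H49.CP.Walk
  Pool.Agent.H45.Chain
open scoped ENNReal

variable {D : L → ℕ}

lemma rad_pos {v : V} (h : Act D v) : 0 < rad (Xv v) := by
  have := h.cv
  simp only [rad]; positivity

/-- disjoint discs in the unit disc have total squared radius at most one -/
lemma area (S : Finset V) (hS : ∀ v ∈ S, Act D v) : ∑ v ∈ S, rad (Xv v) ^ 2 ≤ 1 := by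
  have hd : (S : Set V).PairwiseDisjoint fun v => Metric.ball (cen (Xv v)) (rad (Xv v)) := by
    intro v hv w hw hne
    exact Metric.ball_disjoint_ball
      (disjoint_of _ _ (hS v hv).unit (hS w hw).unit (hS v hv).cv (hS w hw).cv
        ((hS v hv).pair (hS w hw) hne))
  have hsub : (⋃ v ∈ S, Metric.ball (cen (Xv v)) (rad (Xv v))) ⊆ Metric.ball (0:ℂ) 1 := by
    intro ζ hζ
    simp only [Set.mem_iUnion, exists_prop] at hζ
    obtain ⟨v, hv, h⟩ := hζ
    have h1 := in_disc (hS v hv).unit (hS v hv).C (hS v hv).z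
    rw [Metric.mem_ball] at h
    rw [mem_ball_zero_iff]
    calc ‖ζ‖ = ‖cen (Xv v) + (ζ - cen (Xv v))‖ := by congr 1; ring
      _ ≤ ‖cen (Xv v)‖ + ‖ζ - cen (Xv v)‖ := norm_add_le _ _
      _ < 1 := by rw [← dist_eq_norm]; linarith
  have h1 : ∑ v ∈ S, volume (Metric.ball (cen (Xv v)) (rad (Xv v))) ≤
      volume (Metric.ball (0:ℂ) 1) := by
    rw [← measure_biUnion_finset hd fun v _ => measurableSet_ball]
    exact measure_mono hsub
  simp only [Complex.volume_ball] at h1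
  rw [← sum_mul, ENNReal.ofReal_one, one_pow, one_mul] at h1
  have h2 : ∑ v ∈ S, ENNReal.ofReal (rad (Xv v)) ^ 2 ≤ 1 := by
    by_contra hcon
    push Not at hcon
    have hpi : (0:ℝ≥0∞) < (NNReal.pi : ℝ≥0∞) := by
      simpa using NNReal.pi_pos
    have := ENNReal.mul_lt_mul_left hpi.ne' ENNReal.coe_ne_top hcon
    rw [one_mul] at this
    exact absurd h1 (not_le.2 this)
  have h3 : ∑ v ∈ S, ENNReal.ofReal (rad (Xv v)) ^ 2 = ENNReal.ofReal (∑ v ∈ S, rad (Xv v) ^ 2) := by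
    rw [ENNReal.ofReal_sum_of_nonneg fun v _ => sq_nonneg _]
    refine sum_congr rfl fun v hv => ?_
    rw [ENNReal.ofReal_pow (rad_pos (hS v hv)).le]
  rw [h3, ENNReal.ofReal_le_one] at h2
  exact h2

open Classical in
/-- total weight of the centres -/
noncomputable def Ec (D : L → ℕ) : ℝ≥0∞ :=
  ∑' p : L, if Ctr p then (((Gr D).neighborSet (bv p)).ncard : ℝ≥0∞) *
    ENNReal.ofReal (rad (P p) ^ 2) else 0

lemma nf_card (v : V) : (nf (Gr D) locfin_graph v).card = ((Gr D).neighborSet v).ncard := by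
  rw [nf, Set.ncard_eq_toFinset_card _ (locfin_graph v)]

lemma nc_20 {v : V} (h : Act D v) (hC : ¬ IsC v) : ((Gr D).neighborSet v).ncard ≤ 20 := by
  rcases h.cases with ⟨p, hp, rfl⟩ | ⟨q, hq, rfl⟩ | ⟨p, p', q, l, F, h1, h2, rfl⟩
  · exact absurd ⟨p, hp, rfl⟩ hC
  · exact (nbr_cor hq).2
  · exact (nbr_fan_card F h1).2

/-- the energy of a function which is Lipschitz in the packing -/
theorem energy (hE : Ec D ≠ ⊤) (u : V → ℝ)
    (hu : ∀ v w, |u v - u w| ≤ dist (cen (Xv v)) (cen (Xv w))) (K : Finset V) :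
    DK (Gr D) K u u ≤ 4 * (20 + (Ec D).toReal) := by
  classical
  have hterm : ∀ x w, (Gr D).Adj x w → (u w - u x) * (u w - u x) ≤
      2 * rad (Xv x) ^ 2 + 2 * rad (Xv w) ^ 2 := by
    intro x w h
    have h1 := hu w x
    have h2 : dist (cen (Xv w)) (cen (Xv x)) = rad (Xv w) + rad (Xv x) := by
      rw [tangent_iff _ _ h.2.2.1.unit h.2.1.unit h.2.2.1.cv h.2.1.cv, B4_comm]
      exact h.2.2.2
    rw [h2] at h1
    have h3 : (u w - u x) ^ 2 ≤ (rad (Xv w) + rad (Xv x)) ^ 2 := by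
      rw [← sq_abs]
      exact pow_le_pow_left₀ (abs_nonneg _) h1 2
    nlinarith [sq_nonneg (rad (Xv w) - rad (Xv x))]
  have h1 : DK (Gr D) K u u ≤ ∑ x ∈ K, ∑ w ∈ K, (if (Gr D).Adj x w then
      2 * rad (Xv x) ^ 2 + 2 * rad (Xv w) ^ 2 else 0) := by
    unfold DK
    refine sum_le_sum fun x _ => sum_le_sum fun w _ => ?_
    split_ifs with h
    · exact hterm x w h
    · exact le_rfl
  set A : ℝ := ∑ x ∈ K, ∑ w ∈ K, (if (Gr D).Adj x w then 2 * rad (Xv x) ^ 2 else 0) with hA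
  have e1 : ∑ x ∈ K, ∑ w ∈ K, (if (Gr D).Adj x w then 2 * rad (Xv w) ^ 2 else 0) = A := by
    rw [sum_comm]
    refine sum_congr rfl fun x _ => sum_congr rfl fun w _ => ?_
    simp only [(Gr D).adj_comm x w]
  have e2 : ∑ x ∈ K, ∑ w ∈ K, (if (Gr D).Adj x w then
      2 * rad (Xv x) ^ 2 + 2 * rad (Xv w) ^ 2 else 0) = A +
      ∑ x ∈ K, ∑ w ∈ K, (if (Gr D).Adj x w then 2 * rad (Xv w) ^ 2 else 0) := by
    rw [hA, ← sum_add_distrib]
    refine sum_congr rfl fun x _ => ?_
    rw [← sum_add_distrib]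
    refine sum_congr rfl fun w _ => ?_
    split_ifs <;> ring
  rw [e2, e1] at h1
  have h3 : A ≤ ∑ x ∈ K, if Act D x then
      2 * ((((Gr D).neighborSet x).ncard : ℝ) * rad (Xv x) ^ 2) else 0 := by
    refine sum_le_sum fun x _ => ?_
    by_cases hx : Act D x
    · rw [if_pos hx, ← sum_filter, sum_const, nsmul_eq_mul]
      have h4 : (K.filter fun w => (Gr D).Adj x w).card ≤ ((Gr D).neighborSet x).ncard := by
        rw [← nf_card]
        refine card_le_card fun w hw => (mem_nf _ _).2 (mem_filter.1 hw).2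
      have h5 : ((K.filter fun w => (Gr D).Adj x w).card : ℝ) ≤ ((Gr D).neighborSet x).ncard := by
        exact_mod_cast h4
      nlinarith [mul_le_mul_of_nonneg_right h5 (sq_nonneg (rad (Xv x)))]
    · rw [if_neg hx]
      refine sum_nonpos fun w _ => ?_
      rw [if_neg fun h => hx h.2.1]
  set KN := K.filter fun x => Act D x ∧ ¬ IsC x with hKN
  set KC := K.filter fun x => Act D x ∧ IsC x with hKC
  have h6 : ∑ x ∈ K, (if Act D x then
      2 * ((((Gr D).neighborSet x).ncard : ℝ) * rad (Xv x) ^ 2) else 0) =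
      ∑ x ∈ KN, 2 * ((((Gr D).neighborSet x).ncard : ℝ) * rad (Xv x) ^ 2) +
      ∑ x ∈ KC, 2 * ((((Gr D).neighborSet x).ncard : ℝ) * rad (Xv x) ^ 2) := by
    rw [hKN, hKC, sum_filter, sum_filter, ← sum_add_distrib]
    refine sum_congr rfl fun x _ => ?_
    by_cases h : Act D x <;> by_cases h' : IsC x <;> simp [h, h']
  have h7 : ∑ x ∈ KN, 2 * ((((Gr D).neighborSet x).ncard : ℝ) * rad (Xv x) ^ 2) ≤ 40 := by
    have h8 := area (D := D) KN fun v hv => (mem_filter.1 hv).2.1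
    have h9 : ∑ x ∈ KN, 2 * ((((Gr D).neighborSet x).ncard : ℝ) * rad (Xv x) ^ 2) ≤
        ∑ x ∈ KN, 40 * rad (Xv x) ^ 2 := by
      refine sum_le_sum fun x hx => ?_
      have h10 := nc_20 (mem_filter.1 hx).2.1 (mem_filter.1 hx).2.2
      have h11 : (((Gr D).neighborSet x).ncard : ℝ) ≤ 20 := by exact_mod_cast h10
      nlinarith [mul_le_mul_of_nonneg_right h11 (sq_nonneg (rad (Xv x)))]
    refine h9.trans ?_
    rw [← mul_sum]
    linarith
  have h8 : ∑ x ∈ KC, (((Gr D).neighborSet x).ncard : ℝ) * rad (Xv x) ^ 2 ≤ (Ec D).toReal := by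
    rw [← ENNReal.ofReal_le_iff_le_toReal hE, ENNReal.ofReal_sum_of_nonneg fun x _ => by positivity]
    have hinj : Set.InjOn (fun x : V => x.1) ↑KC := by
      intro x hx y hy hxy
      obtain ⟨p, hp, rfl⟩ := (mem_filter.1 (mem_coe.1 hx)).2.2
      obtain ⟨q, hq, rfl⟩ := (mem_filter.1 (mem_coe.1 hy)).2.2
      simp only [bv] at hxy ⊢
      rw [hxy]
    calc ∑ x ∈ KC, ENNReal.ofReal ((((Gr D).neighborSet x).ncard : ℝ) * rad (Xv x) ^ 2)
        = ∑ p ∈ KC.image (fun x => x.1), (if Ctr p then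
            (((Gr D).neighborSet (bv p)).ncard : ℝ≥0∞) * ENNReal.ofReal (rad (P p) ^ 2) else 0) := by
          rw [sum_image hinj]
          refine sum_congr rfl fun x hx => ?_
          obtain ⟨p, hp, rfl⟩ := (mem_filter.1 hx).2.2
          rw [Xv_ctr hp, if_pos (show Ctr (bv p).1 from hp),
            ENNReal.ofReal_mul (Nat.cast_nonneg _), ENNReal.ofReal_natCast]
          rfl
      _ ≤ Ec D := ENNReal.sum_le_tsum _
  have h10 : ∑ x ∈ KC, 2 * ((((Gr D).neighborSet x).ncard : ℝ) * rad (Xv x) ^ 2) =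
      2 * ∑ x ∈ KC, (((Gr D).neighborSet x).ncard : ℝ) * rad (Xv x) ^ 2 := (mul_sum ..).symm
  linarith

lemma re_lip (z w : ℂ) : |z.re - w.re| ≤ dist z w := by
  rw [dist_eq_norm, ← Complex.sub_re]; exact Complex.abs_re_le_norm _
lemma im_lip (z w : ℂ) : |z.im - w.im| ≤ dist z w := by
  rw [dist_eq_norm, ← Complex.sub_im]; exact Complex.abs_im_le_norm _

open Classical in
/-- position of a vertex, zero when it is not active -/
noncomputable def pos (D : L → ℕ) (v : V) : ℂ := if Act D v then cen (Xv v) else 0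

lemma pos_act {v : V} (h : Act D v) : pos D v = cen (Xv v) := if_pos h

lemma norm_pos (v : V) : ‖pos D v‖ < 1 := by
  unfold pos
  split_ifs with h
  · have := in_disc h.unit h.C h.z
    have := rad_pos h
    linarith
  · simp

lemma energy_pos (hE : Ec D ≠ ⊤) (ℓ : ℂ → ℝ) (hℓ : ∀ z w, |ℓ z - ℓ w| ≤ dist z w)
    (K : Finset V) : DK (Gr D) K (fun v => ℓ (pos D v)) (fun v => ℓ (pos D v)) ≤
      4 * (20 + (Ec D).toReal) := by
  have h := energy hE (fun v => ℓ (cen (Xv v))) (fun v w => hℓ _ _) K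
  refine le_trans (le_of_eq ?_) h
  unfold DK
  refine sum_congr rfl fun x _ => sum_congr rfl fun w _ => ?_
  split_ifs with h
  · simp only [pos_act h.2.1, pos_act h.2.2.1]
  · rfl

lemma act_ae {v : V} (hv : Act D v) : ∀ᵐ x ∂pathLaw (srw (Gr D)) v, ∀ n, Act D (x n) := by
  have h1 := Pool.Agent.H43.RW.ae_step (srw (Gr D)) (fun a b => Act D a → Act D b) (by
    intro a b hab ha
    rw [srw_ap (Gr D) locfin_graph] at hab
    by_contra hb
    have h2 : ¬ (Gr D).Adj a b := fun h => hb h.2.2.1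
    have h3 : a ≠ b := fun h => hb (h ▸ ha)
    simp [h2, h3] at hab) v
  filter_upwards [h1, Pool.Agent.H43.RW.ae_start (srw (Gr D)) v] with x h2 h3
  intro n
  induction n with
  | zero => rw [h3]; exact hv
  | succ n ih => exact h2 n ih

/-- the walk started at a centre converges to the circle -/
theorem conv_ctr (hE : Ec D ≠ ⊤) {p : L} (hp : Ctr p) :
    ∀ᵐ x ∂pathLaw (srw (Gr D)) (bv p), ∃ z : ℂ, ‖z‖ = 1 ∧
      Tendsto (fun n => pos D (x n)) atTop (𝓝 z) := by
  classical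
  have hne : (nf (Gr D) locfin_graph (bv p)).Nonempty := by
    obtain ⟨g, rfl⟩ := ctr_trans hp
    refine ⟨bv (g • nb 0), (mem_nf _ _).2 ?_⟩
    rw [adj_cc hp ((ctr_nb 0).act g), B_act]; exact B_p0_nb 0
  have HK : ∀ (φ : V → ℝ) (S : Finset V), (∀ x, x ∉ S → φ x = 0) →
      φ (bv p) ^ 2 ≤ 6 * DK (Gr D) (cl (Gr D) locfin_graph S) φ φ := fun φ S hS => hardy φ S hS hp
  have hre := converge (Gr D) locfin_graph (bv p) hne 6 (by norm_num) HK
    (fun v => (pos D v).re) 1 (fun v => (Complex.abs_re_le_norm _).trans (norm_pos v).le) _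
    (energy_pos hE Complex.re re_lip)
  have him := converge (Gr D) locfin_graph (bv p) hne 6 (by norm_num) HK
    (fun v => (pos D v).im) 1 (fun v => (Complex.abs_im_le_norm _).trans (norm_pos v).le) _
    (energy_pos hE Complex.im im_lip)
  have htr := transient (Gr D) locfin_graph (bv p) hne 6 (by norm_num) HK
  filter_upwards [hre, him, htr, act_ae (act_ctr (D := D) hp)] with x h1 h2 h3 h4
  obtain ⟨a, ha⟩ := h1
  obtain ⟨b, hb⟩ := h2
  have hz : Tendsto (fun n => pos D (x n)) atTop (𝓝 (⟨a, b⟩ : ℂ)) := by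
    have := (Complex.continuous_ofReal.tendsto a).comp ha
    have h' := (Complex.continuous_ofReal.tendsto b).comp hb
    have h'' := this.add (h'.mul_const Complex.I)
    have e : ((a:ℂ) + (b:ℂ) * Complex.I) = ⟨a, b⟩ := by
      apply Complex.ext <;> simp
    rw [e] at h''
    refine h''.congr fun n => ?_
    simp only [Function.comp]
    exact Complex.re_add_im _
  refine ⟨⟨a, b⟩, ?_, hz⟩
  have hnorm := hz.norm
  refine le_antisymm (le_of_tendsto' hnorm fun n => (norm_pos _).le) ?_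
  refine le_of_forall_lt_imp_le_of_dense fun ρ hρ => ?_
  rcases le_or_gt ρ 0 with h0 | h0
  · exact h0.trans (norm_nonneg _)
  refine ge_of_tendsto hnorm ?_
  have hfin := locfin (D := D) h0.le hρ
  have : ∀ᶠ n in atTop, ∀ v ∈ {v | Act D v ∧ ∃ ζ : ℂ, ‖ζ‖ ≤ ρ ∧ dist ζ (cen (Xv v)) ≤ rad (Xv v)},
      x n ≠ v := (Filter.eventually_all_finite hfin).2 fun v _ => h3 v
  filter_upwards [this] with n hn
  by_contra hcon
  push Not at hcon
  refine hn (x n) ⟨h4 n, pos D (x n), hcon.le, ?_⟩ rfl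
  rw [pos_act (h4 n), dist_self]
  exact (rad_pos (h4 n)).le

end Pool.Agent.H49.CP
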