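import Pool.Agent.H49.CP.Energy

set_option autoImplicit false

namespace Pool.Agent.H49.CP

open Finset MeasureTheory Filter Topology
open scoped ENNReal

/-- index of an environment variable: layer, starting directed edge -/
abbrev Ix := ℕ × L × L
/-- environments -/
abbrev Om := Ix → Bool

/-- probability of layer `i` -/
noncomputable def qq (i : ℕ) : ℝ≥0∞ := (16 ^ i)⁻¹

lemma qq_le (i : ℕ) : qq i ≤ 1 := by
  unfold qq
  rw [ENNReal.inv_le_one]
  exact one_le_pow₀ (by norm_num)

noncomputable def bern (i : ℕ) : Measure Bool :=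
  qq i • Measure.dirac true + (1 - qq i) • Measure.dirac false

lemma bern_true (i : ℕ) : bern i {true} = qq i := by
  simp [bern]
lemma bern_false (i : ℕ) : bern i {false} = 1 - qq i := by
  simp [bern]

instance (i : ℕ) : IsProbabilityMeasure (bern i) := ⟨by
  simp only [bern, Measure.coe_add, Measure.coe_smul, Pi.add_apply, Pi.smul_apply, measure_univ,
    smul_eq_mul, mul_one]
  exact add_tsub_cancel_of_le (qq_le i)⟩

/-- the law of the environment -/
noncomputable def Pm : Measure Om := Measure.infinitePi fun k : Ix => bern k.1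

instance : IsProbabilityMeasure Pm := by unfold Pm; infer_instance

lemma meas_coord (k : Ix) (b : Bool) : MeasurableSet {ω : Om | ω k = b} := by
  have h : Measurable fun ω : Om => ω k := measurable_pi_apply k
  exact h (measurableSet_singleton b)

lemma Pm_cyl (s : Finset Ix) (t : Ix → Bool) : Pm {ω | ∀ k ∈ s, ω k = t k} =
    ∏ k ∈ s, bern k.1 {t k} := by
  have h := Measure.infinitePi_pi (μ := fun k : Ix => bern k.1) (s := s) (t := fun k => {t k})
    fun k _ => measurableSet_singleton _
  rw [← h]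
  congr 1

lemma Pm_true (k : Ix) : Pm {ω | ω k = true} = qq k.1 := by
  have := Pm_cyl {k} fun _ => true
  simpa [bern_true] using this

/-- one step back along the geodesic -/
def bk (e : L × L) : L × L := ((6 : ℤ) • e.1 - e.2, e.1)
/-- one step forward along the geodesic -/
def fw (e : L × L) : L × L := (e.2, (6 : ℤ) • e.2 - e.1)

lemma bk_fw (e : L × L) : bk (fw e) = e := by
  obtain ⟨a, b⟩ := e
  simp [bk, fw]
lemma fw_bk (e : L × L) : fw (bk e) = e := by
  obtain ⟨a, b⟩ := e
  simp [bk, fw]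

lemma bk_act (g : Γ) (e : L × L) : bk (g • e.1, g • e.2) = (g • (bk e).1, g • (bk e).2) := by
  simp only [bk, act_sub, act_zsmul]

lemma bk_act_iter (g : Γ) (s : ℕ) (e : L × L) :
    bk^[s] (g • e.1, g • e.2) = (g • (bk^[s] e).1, g • (bk^[s] e).2) := by
  induction s with
  | zero => rfl
  | succ s ih => rw [Function.iterate_succ_apply', Function.iterate_succ_apply', ih, bk_act]

noncomputable def ind (b : Bool) : ℝ≥0∞ := if b then 1 else 0

/-- total weight of the corridors through a directed edge -/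
noncomputable def TT (ω : Om) (e : L × L) : ℝ≥0∞ :=
  ∑' i : ℕ, ∑ s ∈ range (i ^ 3), 2 ^ i * ind (ω (i, bk^[s] e))

/-- a directed edge of centres with given sum -/
def Dir (u p : L) : Prop := Ctr p ∧ Ctr (u - p) ∧ B p (u - p) = -3

/-- layer `i` covers the edge with sum `u` -/
def Lay (ω : Om) (u : L) (i : ℕ) : Prop :=
  ∃ p, Dir u p ∧ ∃ s < i ^ 3, ω (i, bk^[s] (p, u - p)) = true

open Classical in
noncomputable def SS (ω : Om) (u : L) : ℝ≥0∞ := ∑' i : ℕ, if Lay ω u i then 2 ^ i else 0

/-- number of circles in a chain -/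
noncomputable def DD (ω : Om) (u : L) : ℕ := ⌊(SS ω u).toReal⌋₊

lemma meas_ind : Measurable ind := measurable_of_countable _

lemma meas_TT (e : L × L) : Measurable fun ω => TT ω e := by
  unfold TT
  refine Measurable.tsum fun i => ?_
  refine Finset.measurable_sum _ fun s _ => ?_
  exact (meas_ind.comp (measurable_pi_apply _)).const_mul _

lemma meas_Lay (u : L) (i : ℕ) : MeasurableSet {ω | Lay ω u i} := by
  have : {ω | Lay ω u i} = ⋃ p : L, ⋃ s : ℕ, ({ω | Dir u p ∧ s < i ^ 3} ∩
      {ω : Om | ω (i, bk^[s] (p, u - p)) = true}) := by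
    ext ω
    simp only [Lay, Set.mem_setOf_eq, Set.mem_iUnion, Set.mem_inter_iff]
    constructor
    · rintro ⟨p, h1, s, h2, h3⟩; exact ⟨p, s, ⟨h1, h2⟩, h3⟩
    · rintro ⟨p, s, ⟨h1, h2⟩, h3⟩; exact ⟨p, h1, s, h2, h3⟩
  rw [this]
  exact MeasurableSet.iUnion fun p => MeasurableSet.iUnion fun s =>
    (MeasurableSet.const _).inter (meas_coord (i, bk^[s] (p, u - p)) true)

lemma meas_SS (u : L) : Measurable fun ω => SS ω u := by
  classical
  unfold SS
  exact Measurable.tsum fun i => Measurable.ite (meas_Lay u i) measurable_const measurable_const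

lemma meas_DD (u : L) : Measurable fun ω => DD ω u :=
  Nat.measurable_floor.comp (meas_SS u).ennreal_toReal

/-- translation of environments -/
def tr (g : Γ) (ω : Om) : Om := fun k => ω (k.1, g⁻¹ • k.2.1, g⁻¹ • k.2.2)

lemma TT_tr (g : Γ) (ω : Om) (e : L × L) : TT (tr g ω) (g • e.1, g • e.2) = TT ω e := by
  unfold TT
  refine tsum_congr fun i => sum_congr rfl fun s _ => ?_
  rw [bk_act_iter]
  simp only [tr, inv_smul_smul]

lemma Dir_act (g : Γ) (u p : L) : Dir (g • u) (g • p) ↔ Dir u p := by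
  unfold Dir
  rw [← act_sub, ctr_act, ctr_act, B_act]

lemma Lay_tr (g : Γ) (ω : Om) (u : L) (i : ℕ) : Lay (tr g ω) (g • u) i ↔ Lay ω u i := by
  have key : ∀ (p : L) (s : ℕ), tr g ω (i, bk^[s] (g • p, g • u - g • p)) =
      ω (i, bk^[s] (p, u - p)) := by
    intro p s
    have := bk_act_iter g s (p, u - p)
    simp only at this
    rw [← act_sub, this]
    simp only [tr, inv_smul_smul]
  constructor
  · rintro ⟨p, h1, s, h2, h3⟩
    refine ⟨g⁻¹ • p, ?_, s, h2, ?_⟩
    · rw [← Dir_act g, smul_inv_smul]; exact h1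
    · rw [← key, smul_inv_smul]; exact h3
  · rintro ⟨p, h1, s, h2, h3⟩
    exact ⟨g • p, (Dir_act g u p).2 h1, s, h2, by rw [key]; exact h3⟩

lemma SS_tr (g : Γ) (ω : Om) (u : L) : SS (tr g ω) (g • u) = SS ω u := by
  unfold SS
  refine tsum_congr fun i => ?_
  by_cases h : Lay ω u i
  · rw [if_pos h, if_pos ((Lay_tr g ω u i).2 h)]
  · rw [if_neg h, if_neg fun h' => h ((Lay_tr g ω u i).1 h')]

lemma DD_tr (g : Γ) (ω : Om) (u : L) : DD (tr g ω) (g • u) = DD ω u := by
  unfold DD; rw [SS_tr]

lemma meas_tr (g : Γ) : Measurable (tr g) :=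
  measurable_pi_lambda _ fun k => measurable_pi_apply _

/-- invariance of the law -/
theorem Pm_tr (g : Γ) : Pm.map (tr g) = Pm := by
  classical
  refine Measure.eq_infinitePi (μ := fun k : Ix => bern k.1) fun s t ht => ?_
  set σ : Ix ≃ Ix := ⟨fun k => (k.1, g⁻¹ • k.2.1, g⁻¹ • k.2.2), fun k => (k.1, g • k.2.1, g • k.2.2),
    fun k => by simp, fun k => by simp⟩ with hσ
  rw [Measure.map_apply (meas_tr g) (MeasurableSet.pi s.countable_toSet fun k _ => ht k)]
  have e : tr g ⁻¹' (Set.pi ↑s t) = Set.pi ↑(s.image σ) (fun k => t (σ.symm k)) := by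
    ext ω
    simp only [Set.mem_preimage, Set.mem_pi, mem_coe, mem_image, forall_exists_index, and_imp,
      forall_apply_eq_imp_iff₂, Equiv.symm_apply_apply]
    rfl
  rw [e]
  have h := Measure.infinitePi_pi (μ := fun k : Ix => bern k.1) (s := s.image σ)
    (t := fun k => t (σ.symm k)) fun k _ => ht _
  refine h.trans ?_
  rw [prod_image σ.injective.injOn]
  refine prod_congr rfl fun k _ => ?_
  rw [Equiv.symm_apply_apply]
  rfl

/-- splitting the coordinates -/
theorem indep (T : Set Ix) {A C : Set Om} (hA : MeasurableSet A) (hC : MeasurableSet C)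
    (dA : ∀ ω ω' : Om, (∀ k ∈ T, ω k = ω' k) → (ω ∈ A ↔ ω' ∈ A))
    (dC : ∀ ω ω' : Om, (∀ k, k ∉ T → ω k = ω' k) → (ω ∈ C ↔ ω' ∈ C)) :
    Pm (A ∩ C) = Pm A * Pm C := by
  classical
  set φ : Om × Om → Om := fun z k => if k ∈ T then z.1 k else z.2 k with hφ
  have hm : Measurable φ := by
    refine measurable_pi_lambda _ fun k => ?_
    by_cases hk : k ∈ T
    · simp only [hφ, hk, if_true]
      exact (measurable_pi_apply k).comp measurable_fst
    · simp only [hφ, hk, if_false]
      exact (measurable_pi_apply k).comp measurable_snd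
  have hmap : (Pm.prod Pm).map φ = Pm := by
    refine Measure.eq_infinitePi (μ := fun k : Ix => bern k.1) fun s t ht => ?_
    rw [Measure.map_apply hm (MeasurableSet.pi s.countable_toSet fun k _ => ht k)]
    have e : φ ⁻¹' (Set.pi ↑s t) = (Set.pi ↑(s.filter (· ∈ T)) t) ×ˢ
        (Set.pi ↑(s.filter (· ∉ T)) t) := by
      ext z
      simp only [Set.mem_preimage, Set.mem_pi, mem_coe, Set.mem_prod, mem_filter, and_imp, hφ]
      constructor
      · intro h
        refine ⟨fun k hk hT => ?_, fun k hk hT => ?_⟩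
        · have := h k hk; rwa [if_pos hT] at this
        · have := h k hk; rwa [if_neg hT] at this
      · rintro ⟨h1, h2⟩ k hk
        split_ifs with hT
        · exact h1 k hk hT
        · exact h2 k hk hT
    rw [e, Measure.prod_prod]
    have h1 := Measure.infinitePi_pi (μ := fun k : Ix => bern k.1) (s := s.filter (· ∈ T))
      (t := t) fun k _ => ht _
    have h2 := Measure.infinitePi_pi (μ := fun k : Ix => bern k.1) (s := s.filter (· ∉ T))
      (t := t) fun k _ => ht _
    rw [show Pm (Set.pi ↑(s.filter (· ∈ T)) t) = _ from h1,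
      show Pm (Set.pi ↑(s.filter (· ∉ T)) t) = _ from h2, prod_filter_mul_prod_filter_not]
  have e1 : φ ⁻¹' (A ∩ C) = A ×ˢ C := by
    ext z
    simp only [Set.mem_preimage, Set.mem_inter_iff, Set.mem_prod]
    rw [dA (φ z) z.1 fun k hk => by simp [hφ, hk], dC (φ z) z.2 fun k hk => by simp [hφ, hk]]
  calc Pm (A ∩ C) = (Pm.prod Pm).map φ (A ∩ C) := by rw [hmap]
    _ = _ := by rw [Measure.map_apply hm (hA.inter hC), e1, Measure.prod_prod]

end Pool.Agent.H49.CP
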