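import Pool.Agent.H49.CP.Limit

set_option autoImplicit false

namespace Pool.Agent.H49.CP

open Finset MeasureTheory Filter Topology Pool.Agent.H45.Chain Pool.Agent.H43.RW
  Pool.Agent.H49.CP.Walk
open scoped ENNReal

variable {D : L → ℕ}

lemma act_inj : Function.Injective fun g : Γ => (g • p0, g • p1, g • q0) := by
  intro g h e
  simp only [Prod.mk.injEq] at e
  obtain ⟨e1, e2, e3⟩ := e
  apply Subtype.ext
  apply LinearEquiv.ext
  intro w
  have h1 := congrArg (fun x => g • x) (decomp w)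
  have h2 := congrArg (fun x => h • x) (decomp w)
  simp only [act_add, act_zsmul, e1, e2, e3] at h1 h2
  have h3 : (6:ℤ) • (g • w) = (6:ℤ) • (h • w) := h1.trans h2.symm
  have h4 : g • w = h • w := smul_right_injective L (show (6:ℤ) ≠ 0 by norm_num) h3
  exact h4

instance : Countable Γ := act_inj.countable

/-- a step outside, then staying inside -/
def Ent (S : Set V) : Set (ℕ → V) := {x | x 0 ∉ S ∧ sh 1 x ∈ StS S}

lemma meas_Ent (S : Set V) : MeasurableSet (Ent S) :=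
  (meas_at' 0 S).compl.inter (meas_sh 1 (meas_StS S))

lemma ent_pos {S : Set V} {v : V} (h : pathLaw (srw (Gr D)) v (Ent S) ≠ 0) :
    v ∉ S ∧ ∃ w, srw (Gr D) v {w} ≠ 0 ∧ stp D S w ≠ 0 := by
  have hv : v ∉ S := by
    intro hv
    apply h
    refine measure_mono_null ?_ (ae_iff.1 (ae_start (srw (Gr D)) v))
    rintro x ⟨h1, -⟩ hx
    rw [hx] at h1
    exact h1 hv
  refine ⟨hv, ?_⟩
  rw [measure_first_step _ v _ (meas_Ent S)] at h
  have e : cons v ⁻¹' Ent S = StS S := by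
    ext x
    simp only [Set.mem_preimage, Ent, Set.mem_setOf_eq, cons_zero]
    have : sh 1 (cons v x) = x := by
      funext t
      simp only [sh]
      rw [add_comm 1 t, cons_succ]
    rw [this]
    exact ⟨fun h => h.2, fun h => ⟨hv, h⟩⟩
  rw [e] at h
  by_contra hcon
  push Not at hcon
  apply h
  rw [ENNReal.tsum_eq_zero]
  intro w
  by_cases hw : srw (Gr D) v {w} = 0
  · rw [hw, zero_mul]
  · have := hcon w hw
    unfold stp at this
    rw [this, mul_zero]

/-- some escape probability is positive -/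
theorem exists_escape (hE : Ec D ≠ ⊤) : ∃ g : Γ, Es D g ≠ 0 := by
  have h1 : ∀ᵐ x ∂pathLaw (srw (Gr D)) (bv p0), x ∈ ⋃ i : ZMod 6, ⋃ n : ℕ, sh n ⁻¹' Ent (Sd (nn i)) := by
    filter_upwards [conv_ctr hE ctr_p0, act_ae (act_ctr (D := D) ctr_p0),
      ae_start (srw (Gr D)) (bv p0)] with x hx hact h0
    obtain ⟨z, hz, hlim⟩ := hx
    obtain ⟨i, hi⟩ := six_sides hz
    have hev := ev_side hact hz hlim (nu_nn i) hi
    have hx0 : x 0 ∉ Sd (nn i) := by
      have key : ∀ i : ZMod 6, ¬ 0 < B (bv p0).1 (nn i) := by decide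
      rw [h0, mem_Sd]
      exact key i
    obtain ⟨N, hN⟩ := eventually_atTop.1 hev
    classical
    have hex : ∃ N, ∀ n ≥ N, x n ∈ Sd (nn i) := ⟨N, hN⟩
    set M := Nat.find hex with hM
    have hM1 := Nat.find_spec hex
    have hM0 : M ≠ 0 := by
      intro h
      rw [← hM, h] at hM1
      exact hx0 (hM1 0 le_rfl)
    have hM2 := Nat.find_min hex (m := M - 1) (by omega)
    push Not at hM2
    obtain ⟨n, hn1, hn2⟩ := hM2
    have hn3 : n = M - 1 := by
      by_contra hcon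
      exact hn2 (hM1 n (by omega))
    simp only [Set.mem_iUnion, Set.mem_preimage, Ent, Set.mem_setOf_eq]
    refine ⟨i, n, ?_, ?_⟩
    · simpa [sh] using hn2
    · intro m
      simp only [sh]
      exact hM1 _ (by omega)
  have h2 : pathLaw (srw (Gr D)) (bv p0) (⋃ i : ZMod 6, ⋃ n : ℕ, sh n ⁻¹' Ent (Sd (nn i))) ≠ 0 := by
    have : pathLaw (srw (Gr D)) (bv p0) (⋃ i : ZMod 6, ⋃ n : ℕ, sh n ⁻¹' Ent (Sd (nn i))) = 1 := by
      rw [← mem_ae_iff_prob_eq_one]
      · exact h1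
      · exact MeasurableSet.iUnion fun i => MeasurableSet.iUnion fun n => meas_sh n (meas_Ent _)
    rw [this]; exact one_ne_zero
  obtain ⟨i, n, h3⟩ : ∃ (i : ZMod 6) (n : ℕ),
      pathLaw (srw (Gr D)) (bv p0) (sh n ⁻¹' Ent (Sd (nn i))) ≠ 0 := by
    by_contra hcon
    push Not at hcon
    exact h2 (measure_iUnion_null fun i => measure_iUnion_null fun n => hcon i n)
  rw [markov _ _ (meas_Ent _)] at h3
  obtain ⟨v, hv⟩ : ∃ v, pathLaw (srw (Gr D)) v (Ent (Sd (nn i))) ≠ 0 := by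
    by_contra hcon
    push Not at hcon
    apply h3
    rw [ENNReal.tsum_eq_zero]
    intro v
    rw [hcon v, mul_zero]
  obtain ⟨hvS, w, hw1, hw2⟩ := ent_pos hv
  have hwS := stp_pos_mem hw2
  have hadj : (Gr D).Adj v w := by
    classical
    rw [srw_ap (Gr D) locfin_graph] at hw1
    by_contra hcon
    have hne : v ≠ w := fun e => hvS (e ▸ hwS)
    simp [hcon, hne] at hw1
  obtain ⟨c, hc, hcν, hcw⟩ := entry (nu_nn i) hwS hvS hadj.symm
  have hcS : bv c ∈ Sd (nn i) := by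
    rw [mem_Sd]; simp only [bv]; omega
  have h4 : stp D (Sd (nn i)) (bv c) ≠ 0 := by
    rcases hcw with rfl | hcw
    · exact hw2
    · intro h0
      have h5 := stp_step (D := D) (w := w) hcS
      rw [h0, nonpos_iff_eq_zero, mul_eq_zero] at h5
      rcases h5 with h5 | h5
      · classical
        rw [srw_ap (Gr D) locfin_graph, if_pos ⟨w, (mem_nf _ _).2 hcw⟩, if_pos hcw] at h5
        exact ENNReal.natCast_ne_top _ (ENNReal.inv_eq_zero.1 h5)
      · exact hw2 h5
  obtain ⟨g, hg1, hg2⟩ := state_of (nu_nn i).norm hc hcν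
  refine ⟨g, ?_⟩
  unfold Es
  rw [hg1, hg2]
  exact h4

lemma Es_law (g : Γ) (a : ℝ≥0∞) : Pm {ω | a < Es (DD ω) g} = Pm {ω | a < Es (DD ω) 1} := by
  have hm : MeasurableSet {ω | a < Es (DD ω) g} := measurableSet_lt measurable_const (meas_Es g)
  conv_lhs => rw [← Pm_tr g]
  rw [Measure.map_apply (meas_tr g) hm]
  congr 1
  ext ω
  simp only [Set.mem_preimage, Set.mem_setOf_eq]
  have := Es_tr g 1 ω
  rw [mul_one] at this
  rw [this]

/-- the escape probability is bounded below with positive probability -/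
theorem esc_pos : ∃ ε : ℝ≥0∞, 0 < ε ∧ ε < 1 ∧ Pm {ω | ε < Es (DD ω) 1} ≠ 0 := by
  by_contra hcon
  push Not at hcon
  have h1 : ∀ g : Γ, Pm {ω | 0 < Es (DD ω) g} = 0 := by
    intro g
    rw [Es_law]
    have : {ω : Om | 0 < Es (DD ω) 1} ⊆ ⋃ n : ℕ, {ω | ((n : ℝ≥0∞) + 2)⁻¹ < Es (DD ω) 1} := by
      intro ω hω
      simp only [Set.mem_setOf_eq] at hω
      obtain ⟨n, hn⟩ := ENNReal.exists_inv_nat_lt hω.ne'
      simp only [Set.mem_iUnion, Set.mem_setOf_eq]
      refine ⟨n, lt_of_le_of_lt ?_ hn⟩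
      rw [ENNReal.inv_le_inv]
      exact le_self_add
    refine measure_mono_null this (measure_iUnion_null fun n => ?_)
    refine hcon _ ?_ ?_
    · rw [ENNReal.inv_pos]
      finiteness
    · rw [ENNReal.inv_lt_one]
      calc (1:ℝ≥0∞) < 2 := by norm_num
        _ ≤ _ := le_add_self
  have h2 : Pm (⋃ g : Γ, {ω | 0 < Es (DD ω) g}) = 0 := measure_iUnion_null h1
  have h3 : ∀ᵐ ω ∂Pm, ω ∈ ⋃ g : Γ, {ω | 0 < Es (DD ω) g} := by
    filter_upwards [Ec_ae] with ω hω
    obtain ⟨g, hg⟩ := exists_escape hω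
    exact Set.mem_iUnion.2 ⟨g, pos_iff_ne_zero.2 hg⟩
  rw [ae_iff] at h3
  have h4 : Pm (Set.univ : Set Om) = 0 := by
    refine measure_mono_null (t := (⋃ g : Γ, {ω | 0 < Es (DD ω) g}) ∪
      {ω | ¬ ω ∈ ⋃ g : Γ, {ω | 0 < Es (DD ω) g}}) ?_ (measure_union_null h2 h3)
    intro ω _
    by_cases h : ω ∈ ⋃ g : Γ, {ω | 0 < Es (DD ω) g}
    · exact Or.inl h
    · exact Or.inr h
  rw [measure_univ] at h4
  exact one_ne_zero h4

end Pool.Agent.H49.CP
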