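import Pool.Agent.H49.CP.Pack

set_option autoImplicit false

namespace Pool.Agent.H49.CP

variable {D : L → ℕ}

/-- a face of the packing with its dual circle -/
structure Good (D : L → ℕ) (v1 v2 v3 : V) (δ : W) : Prop where
  a1 : Act D v1
  a2 : Act D v2
  a3 : Act D v3
  n12 : v1 ≠ v2
  n13 : v1 ≠ v3
  n23 : v2 ≠ v3
  tri : Tri (Xv v1) (Xv v2) (Xv v3) δ
  cvd : 0 < cv δ
  out : ∀ w, Act D w → w ≠ v1 → w ≠ v2 → w ≠ v3 → B4 (Xv w) δ ≤ -1

lemma Good.swap {v1 v2 v3 : V} {δ : W} (G : Good D v1 v2 v3 δ) : Good D v2 v1 v3 δ where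
  a1 := G.a2
  a2 := G.a1
  a3 := G.a3
  n12 := G.n12.symm
  n13 := G.n23
  n23 := G.n13
  tri := ⟨G.tri.h22, G.tri.h11, G.tri.h33, by rw [B4_comm]; exact G.tri.h12, G.tri.h23, G.tri.h13,
    G.tri.hD, G.tri.hD2, G.tri.hD1, G.tri.hD3⟩
  cvd := G.cvd
  out := fun w h h1 h2 h3 => G.out w h h2 h1 h3

/-- positions of a vertex with respect to a base face -/
lemma Fc.classify {p p' q : L} (F : Fc p p' q) {w : V} (hw : Act D w) :
    w = bv p ∨ w = bv p' ∨ (∃ m ≤ D (p + p'), w = xv (p + p') q m) ∨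
    (B4 (Xv w) (Q q) ≤ -1 ∧ B4 (Xv w) (dl (p + p') q) ≤ -1 ∧ B4 (Xv w) (P p) ≤ -1 ∧
      B4 (Xv w) (P p') ≤ -1) := by
  have h2 := s2_gt
  rcases hw.cases with ⟨r, hr, rfl⟩ | ⟨k, hk, rfl⟩ | ⟨r, r', k, m, G, h3, h4, rfl⟩
  · by_cases a : r = p
    · left; rw [a]
    by_cases b : r = p'
    · right; left; rw [b]
    right; right; right
    rw [Xv_ctr hr]
    have := F.Pd_le hr a b
    exact ⟨PQ_le hr F.hq, by linarith, PP_le hr F.hp a, PP_le hr F.hp' b⟩
  · by_cases a : k = q
    · right; right; left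
      exact ⟨0, Nat.zero_le _, by simp [xv, a]⟩
    right; right; right
    rw [Xv_cor hk]
    have := F.Qd_le hk a
    refine ⟨(QQ_le hk F.hq a).le, by linarith, ?_, ?_⟩
    · rw [B4_comm]; exact PQ_le F.hp hk
    · rw [B4_comm]; exact PQ_le F.hp' hk
  · by_cases a : p + p' = r + r' ∧ q = k
    · right; right; left
      refine ⟨m, by rw [a.1]; exact h4, ?_⟩
      rw [a.1, a.2]; simp only [xv, if_neg (by omega : ¬ m = 0)]
    right; right; right
    have a' : p + p' ≠ r + r' ∨ q ≠ k := by tauto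
    rw [Xv_fan h3]
    have hm : (1:ℝ) ≤ m := by exact_mod_cast h3
    refine ⟨?_, ?_, ?_, ?_⟩
    · rw [B4_comm]
      by_cases b : q = k
      · rw [b, G.QF_self]; nlinarith
      · exact (G.QF_lt F.hq b m).le
    · rw [B4_comm]; exact F.dF_lt G a' h3
    · rw [B4_comm]
      by_cases c : p = r
      · rw [c, G.PF]
      by_cases d : p = r'
      · rw [d, G.PF']
      exact (G.PF_lt F.hp c d h3).le
    · rw [B4_comm]
      by_cases c : p' = r
      · rw [c, G.PF]
      by_cases d : p' = r'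
      · rw [d, G.PF']
      exact (G.PF_lt F.hp' c d h3).le

noncomputable def dA (p p' q : L) (l : ℕ) : W := dl (p + p') q + (l : ℝ) • Nv (p + p')

noncomputable def dB (p p' q : L) (l : ℕ) : W :=
  Q q + (2 * (l:ℝ) + 1) • dl (p + p') q + ((l:ℝ) ^ 2 + l + 1) • P p + ((l:ℝ) ^ 2 + l) • P p'

lemma xv_ne_bv {p p' q : L} (F : Fc p p' q) (l : ℕ) {y : L} (hy : Ctr y) :
    bv y ≠ xv (p + p') q l := by
  intro h
  rcases Nat.eq_zero_or_pos l with rfl | h0
  · simp only [xv, if_pos rfl] at h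
    rw [bv_inj.1 h] at hy
    exact hy.ne_cor F.hq
  · simp only [xv, if_neg (by omega : ¬ l = 0)] at h
    exact bv_ne_fan h0 h

lemma xv_inj {u q : L} {l m : ℕ} (h : xv u q l = xv u q m) : l = m := by
  unfold xv at h
  split_ifs at h with h1 h2 h2
  · rw [h1, h2]
  · exact absurd h (bv_ne_fan (by omega))
  · exact absurd h.symm (bv_ne_fan (by omega))
  · simpa using h

lemma Fc.goodA {p p' q : L} (F : Fc p p' q) :
    Good D (bv p) (bv p') (xv (p + p') q (D (p + p'))) (dA p p' q (D (p + p'))) where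
  a1 := act_ctr F.hp
  a2 := act_ctr F.hp'
  a3 := act_xv F le_rfl
  n12 := fun h => F.ne (bv_inj.1 h)
  n13 := xv_ne_bv F _ F.hp
  n23 := xv_ne_bv F _ F.hp'
  tri := by
    set l := D (p + p')
    rw [Xv_ctr F.hp, Xv_ctr F.hp', Xv_xv F.hq]
    have hN1 : B4 (Nv (p + p')) (P p) = 0 := by
      rw [N_eq, B4_add_left, PP_self F.hp, B4_comm, PP_iff.2 F.hpp]; ring
    have hN2 : B4 (Nv (p + p')) (P p') = 0 := by
      rw [N_eq, B4_add_left, PP_self F.hp', PP_iff.2 F.hpp]; ring
    refine ⟨PP_self F.hp, PP_self F.hp', Fn_self F _, PP_iff.2 F.hpp, F.PF _, F.PF' _, ?_, ?_, ?_,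
      ?_⟩
    · simp only [dA, B4_add_right, B4_add_left, B4_smul_left, B4_smul_right]
      rw [F.d_self, F.Nd_self, B4_comm (dl _ _), F.Nd_self, F.NN_self]; ring
    · simp only [dA, B4_add_left, B4_smul_left]
      rw [B4_comm, F.Pd0, hN1]; ring
    · simp only [dA, B4_add_left, B4_smul_left]
      rw [B4_comm, F.Pd0', hN2]; ring
    · simp only [dA, B4_add_left, B4_smul_left, F.dF, Fn, B4_add_right, B4_smul_right]
      rw [F.NQ_self, F.Nd_self, F.NN_self, B4_comm _ (Q q), F.Qd0, F.d_self, B4_comm _ (Nv _),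
        F.Nd_self]
      ring
  cvd := by
    have h1 := z_d F
    have h2 := C_d (p + p') q
    have h3 := z_N F
    have h4 := C_N (p + p')
    rw [dA, cv_add, cv_smul]
    simp only [cv]
    have : 0 ≤ (D (p + p') : ℝ) * ((Nv (p + p')).1.2.2 + (Nv (p + p')).2) := by positivity
    linarith
  out := by
    intro w hw n1 n2 n3
    set l := D (p + p') with hl
    simp only [dA, B4_add_right, B4_smul_right]
    rcases F.classify hw with h | h | ⟨m, hm, h⟩ | ⟨h1, h2, h3, h4⟩
    · exact absurd h n1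
    · exact absurd h n2
    · rw [h, Xv_xv F.hq, B4_comm, F.dF, B4_comm _ (Nv _)]
      have hml : m ≠ l := fun e => n3 (by rw [h, e])
      have hml' : (m:ℝ) + 1 ≤ l := by
        have : m + 1 ≤ l := by omega
        exact_mod_cast this
      have : B4 (Nv (p + p')) (Fn (p + p') q m) = -2 := by
        simp only [Fn, B4_add_right, B4_smul_right]
        rw [F.NQ_self, F.Nd_self, F.NN_self]; ring
      rw [this]
      linarith
    · rw [N_eq, B4_add_right]
      have : (l:ℝ) * (B4 (Xv w) (P p) + B4 (Xv w) (P p')) ≤ 0 :=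
        mul_nonpos_of_nonneg_of_nonpos (by positivity) (by linarith)
      linarith

lemma dB_eq {p p' q : L} (l : ℕ) : dB p p' q l =
    (1/2 : ℝ) • (P p + Fn (p + p') q l + Fn (p + p') q (l + 1) - P p') := by
  simp only [dB, Fn, N_eq]
  push_cast
  module

lemma desc4 {A B C E : W} (hA : B4 A A = 1) (hB : B4 B B = 1) (hC : B4 C C = 1) (hE : B4 E E = 1)
    (hAB : B4 A B = -1) (hAC : B4 A C = -1) (hAE : B4 A E = -1) (hBC : B4 B C = -1)
    (hBE : B4 B E = -1) (hCE : B4 C E = -1) : Tri A C E ((1/2 : ℝ) • (A + C + E - B)) := by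
  have hBA : B4 B A = -1 := by rw [B4_comm]; exact hAB
  have hCA : B4 C A = -1 := by rw [B4_comm]; exact hAC
  have hEA : B4 E A = -1 := by rw [B4_comm]; exact hAE
  have hCB : B4 C B = -1 := by rw [B4_comm]; exact hBC
  have hEB : B4 E B = -1 := by rw [B4_comm]; exact hBE
  have hEC : B4 E C = -1 := by rw [B4_comm]; exact hCE
  refine ⟨hA, hC, hE, hAC, hAE, hCE, ?_, ?_, ?_, ?_⟩ <;>
  simp only [B4_add_right, B4_add_left, B4_smul_left, B4_smul_right, B4_sub_left, B4_sub_right,
    hA, hB, hC, hE, hAB, hAC, hAE, hBC, hBE, hCE, hBA, hCA, hEA, hCB, hEB, hEC] <;> norm_num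

lemma Fc.goodB {p p' q : L} (F : Fc p p' q) {l : ℕ} (hl : l + 1 ≤ D (p + p')) :
    Good D (bv p) (xv (p + p') q l) (xv (p + p') q (l + 1)) (dB p p' q l) where
  a1 := act_ctr F.hp
  a2 := act_xv F (by omega)
  a3 := act_xv F hl
  n12 := xv_ne_bv F _ F.hp
  n13 := xv_ne_bv F _ F.hp
  n23 := fun h => by have := xv_inj h; omega
  tri := by
    rw [Xv_ctr F.hp, Xv_xv F.hq, Xv_xv F.hq]
    rw [dB_eq]
    refine desc4 (PP_self F.hp) (PP_self F.hp') (Fn_self F l) (Fn_self F (l + 1))
      (PP_iff.2 F.hpp) (F.PF l) (F.PF (l + 1)) (F.PF' l) (F.PF' (l + 1)) ?_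
    rw [F.FF_self]; push_cast; ring
  cvd := by
    have h1 := z_d F
    have h2 := C_d (p + p') q
    have h3 := z_P F.hp
    have h4 := C_P p
    have h5 := z_P F.hp'
    have h6 := C_P p'
    have h7 := z_Q F.hq
    have h8 := C_Q q
    rw [dB]
    simp only [cv_add, cv_smul]
    simp only [cv]
    have a1 : 0 < (dl (p + p') q).1.2.2 + (dl (p + p') q).2 := by linarith
    have a2 : 0 < (P p).1.2.2 + (P p).2 := by linarith
    have a3 : 0 < (P p').1.2.2 + (P p').2 := by linarith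
    have a4 : 0 < (Q q).1.2.2 + (Q q).2 := by linarith
    positivity
  out := by
    intro w hw n1 n2 n3
    rcases F.classify hw with h | h | ⟨m, hm, h⟩ | ⟨h1, h2, h3, h4⟩
    · exact absurd h n1
    · rw [h, Xv_ctr F.hp', dB_eq]
      simp only [B4_add_right, B4_smul_right, B4_sub_right, F.PF', PP_self F.hp']
      rw [B4_comm, PP_iff.2 F.hpp]
      norm_num
    · have hml : m ≠ l := fun e => n2 (by rw [h, e])
      have hml' : m ≠ l + 1 := fun e => n3 (by rw [h, e])
      rw [h, Xv_xv F.hq, dB_eq]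
      simp only [B4_add_right, B4_smul_right, B4_sub_right, F.FF_self]
      rw [B4_comm, F.PF, B4_comm, F.PF']
      push_cast
      rcases Nat.lt_or_gt_of_ne hml with h' | h'
      · have : (m:ℝ) + 1 ≤ l := by exact_mod_cast h'
        nlinarith
      · have : (l:ℝ) + 2 ≤ m := by
          have : l + 2 ≤ m := by omega
          exact_mod_cast this
        nlinarith
    · simp only [dB, B4_add_right, B4_smul_right]
      have a1 : (2 * (l:ℝ) + 1) * B4 (Xv w) (dl (p + p') q) ≤ 0 :=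
        mul_nonpos_of_nonneg_of_nonpos (by positivity) (by linarith)
      have a2 : ((l:ℝ) ^ 2 + l + 1) * B4 (Xv w) (P p) ≤ 0 :=
        mul_nonpos_of_nonneg_of_nonpos (by positivity) (by linarith)
      have a3 : ((l:ℝ) ^ 2 + l) * B4 (Xv w) (P p') ≤ 0 :=
        mul_nonpos_of_nonneg_of_nonpos (by positivity) (by linarith)
      linarith

/-- Descartes: among the four pairings with mutually tangent circles the largest is at least the
sum of the others -/
lemma descartes {a b c d : ℝ} (ha : 0 ≤ a) (hb : 0 ≤ b) (hc : 0 ≤ c) (hd : 0 ≤ d)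
    (h : 2 * (a ^ 2 + b ^ 2 + c ^ 2 + d ^ 2) = (a + b + c + d) ^ 2) :
    b + c + d ≤ a ∨ a + c + d ≤ b ∨ a + b + d ≤ c ∨ a + b + c ≤ d := by
  by_contra hcon
  push Not at hcon
  obtain ⟨h1, h2, h3, h4⟩ := hcon
  -- take the largest
  have key : ∀ x y z t : ℝ, 0 ≤ x → 0 ≤ y → 0 ≤ z → 0 ≤ t → x ≤ t → y ≤ t → z ≤ t →
      2 * (x ^ 2 + y ^ 2 + z ^ 2 + t ^ 2) = (x + y + z + t) ^ 2 → t < x + y + z → False := by
    intro x y z t hx hy hz ht hxt hyt hzt h hlt
    have e : (x + y + z - t) ^ 2 = 4 * (x * y + y * z + x * z) := by nlinarith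
    have e1 : 0 < x + y + z - t := by linarith
    have e2 : x + y + z - t ≤ y + z := by linarith
    have e3 : x + y + z - t ≤ x + z := by linarith
    have e4 : x + y + z - t ≤ x + y := by linarith
    nlinarith [mul_nonneg hx hy, mul_nonneg hy hz, mul_nonneg hx hz, sq_nonneg (x - y),
      mul_le_mul e2 e3 e1.le (by linarith : 0 ≤ y + z), mul_le_mul e3 e4 e1.le (by linarith : 0 ≤ x + z),
      mul_le_mul e2 e4 e1.le (by linarith : 0 ≤ y + z)]
  rcases le_total a b with hab | hab <;> rcases le_total c d with hcd | hcd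
  · rcases le_total b d with hbd | hbd
    · exact key a b c d ha hb hc hd (hab.trans hbd) hbd hcd (by linarith) (by linarith)
    · exact key a c d b ha hc hd hb hab (hcd.trans hbd) hbd (by linarith) (by linarith)
  · rcases le_total b c with hbd | hbd
    · exact key a b d c ha hb hd hc (hab.trans hbd) hbd hcd (by linarith) (by linarith)
    · exact key a c d b ha hc hd hb hab hbd (hcd.trans hbd) (by linarith) (by linarith)
  · rcases le_total a d with hbd | hbd
    · exact key a b c d ha hb hc hd hbd (hab.trans hbd) hcd (by linarith) (by linarith)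
    · exact key b c d a hb hc hd ha hab (hcd.trans hbd) hbd (by linarith) (by linarith)
  · rcases le_total a c with hbd | hbd
    · exact key a b d c ha hb hd hc hbd (hab.trans hbd) hcd (by linarith) (by linarith)
    · exact key b c d a hb hc hd ha hab hbd (hcd.trans hbd) (by linarith) (by linarith)

end Pool.Agent.H49.CP
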