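import Pool.Agent.H49.CP.Cover

set_option autoImplicit false

namespace Pool.Agent.H49.CP

variable {D : L → ℕ}

/-- comparison of heights -/
lemma height_le {u v : L} {m m' c : ℤ} (hu : B u u = -m) (hv : B v v = -m') (hm : 0 < m)
    (hm' : 0 < m') (hc : B u v = -c) (hc0 : 0 < c) (hzu : 0 < u.2.2) (hzv : 0 < v.2.2) :
    m' * u.2.2 ≤ 2 * c * v.2.2 := by
  have h := cs u v
  simp only [B] at hu hv hc
  set s := 2 * u.1 * v.1 + u.1 * v.2.1 + u.2.1 * v.1 + 2 * u.2.1 * v.2.1 with hs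
  have e1 : 2 * u.1 * u.1 + 2 * u.1 * u.2.1 + 2 * u.2.1 * u.2.1 = u.2.2 * u.2.2 - m := by linarith
  have e2 : 2 * v.1 * v.1 + 2 * v.1 * v.2.1 + 2 * v.2.1 * v.2.1 = v.2.2 * v.2.2 - m' := by linarith
  rw [e1, e2] at h
  have e3 : s = u.2.2 * v.2.2 - c := by linarith
  rw [e3] at h
  have h4 : 0 ≤ v.2.2 * v.2.2 - m' := by rw [← e2]; exact n_nonneg _ _
  have h5 : m' * (u.2.2 * u.2.2) ≤ 2 * c * (u.2.2 * v.2.2) := by
    nlinarith [mul_nonneg hm.le h4, sq_nonneg c]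
  have h6 : (m' * u.2.2) * u.2.2 ≤ (2 * c * v.2.2) * u.2.2 := by nlinarith
  exact le_of_mul_le_mul_right h6 hzu

lemma Fc.zp_le {p p' q : L} (F : Fc p p' q) : p.2.2 ≤ 2 * q.2.2 := by
  have := height_le F.hp.1 F.hq.1 (by norm_num) (by norm_num) F.hpq (by norm_num) F.hp.2 F.hq.2
  linarith
lemma Fc.zq_le {p p' q : L} (F : Fc p p' q) : q.2.2 ≤ 6 * p.2.2 := by
  have := height_le F.hq.1 F.hp.1 (by norm_num) (by norm_num) (by rw [B_comm]; exact F.hpq)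
    (by norm_num) F.hq.2 F.hp.2
  linarith
lemma Fc.zpp_le {p p' q : L} (F : Fc p p' q) : p.2.2 ≤ 6 * p'.2.2 := by
  have := height_le F.hp.1 F.hp'.1 (by norm_num) (by norm_num) F.hpp (by norm_num) F.hp.2 F.hp'.2
  linarith

/-- vertices below a given height -/
def low (D : L → ℕ) (M : ℤ) : Set V := {v | Act D v ∧
  ((∃ p, Ctr p ∧ v = bv p ∧ p.2.2 ≤ M) ∨ (∃ q, Cor q ∧ v = bv q ∧ q.2.2 ≤ M) ∨
    ∃ p p' q l, Fc p p' q ∧ 1 ≤ l ∧ l ≤ D (p + p') ∧ v = (p + p', q, l) ∧ q.2.2 ≤ M)}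

lemma fin_ctr (M : ℤ) : {p : L | Ctr p ∧ p.2.2 ≤ M}.Finite :=
  (finite_box M).subset fun p ⟨h, h'⟩ => ⟨by rw [h.1]; norm_num, h.2.le, h'⟩
lemma fin_cor (M : ℤ) : {p : L | Cor p ∧ p.2.2 ≤ M}.Finite :=
  (finite_box M).subset fun p ⟨h, h'⟩ => ⟨by rw [h.1]; norm_num, h.2.le, h'⟩

lemma low_finite (M : ℤ) : (low D M).Finite := by
  have h1 : (bv '' {p : L | Ctr p ∧ p.2.2 ≤ M}).Finite := (fin_ctr M).image _
  have h2 : (bv '' {p : L | Cor p ∧ p.2.2 ≤ M}).Finite := (fin_cor M).image _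
  have h3 : (⋃ x ∈ ({p : L | Ctr p ∧ p.2.2 ≤ 2 * M} ×ˢ {p : L | Ctr p ∧ p.2.2 ≤ 2 * M}) ×ˢ
      {p : L | Cor p ∧ p.2.2 ≤ M}, (fun l : ℕ => ((x.1.1 + x.1.2, x.2, l) : V)) ''
        Set.Iic (D (x.1.1 + x.1.2))).Finite := by
    refine Set.Finite.biUnion (((fin_ctr _).prod (fin_ctr _)).prod (fin_cor _)) fun x _ => ?_
    exact (Set.finite_Iic _).image _
  refine ((h1.union h2).union h3).subset ?_
  rintro v ⟨-, ⟨p, hp, rfl, hM⟩ | ⟨q, hq, rfl, hM⟩ | ⟨p, p', q, l, F, hl, hD, rfl, hM⟩⟩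
  · exact Or.inl (Or.inl ⟨p, ⟨hp, hM⟩, rfl⟩)
  · exact Or.inl (Or.inr ⟨q, ⟨hq, hM⟩, rfl⟩)
  · right
    simp only [Set.mem_iUnion]
    have := F.zp_le
    have := F.symm.zp_le
    exact ⟨((p, p'), q), ⟨⟨⟨F.hp, by linarith⟩, ⟨F.hp', by linarith⟩⟩, ⟨F.hq, hM⟩⟩, l, hD, rfl⟩

/-- a disc meeting `‖ζ‖ ≤ ρ` has bounded height -/
lemma height_of_meet {X : W} (hX : B4 X X = 1) (hz : 0 < X.1.2.2) (hC : 0 < X.2) {ρ : ℝ}
    (hρ0 : 0 ≤ ρ) (hρ : ρ < 1) {ζ : ℂ} (h1 : ‖ζ‖ ≤ ρ) (h2 : dist ζ (cen X) ≤ rad X) :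
    X.1.2.2 ≤ (2 * X.2 + 1) / (1 - ρ) := by
  have hb : 0 < cv X := by simp only [cv]; linarith
  have h3 : ‖cen X‖ ^ 2 = (X.1.2.2 ^ 2 - X.2 ^ 2 + 1) / cv X ^ 2 := by
    rw [← Complex.normSq_eq_norm_sq]
    simp only [cen, Complex.normSq_div, Complex.normSq_ofReal, normSq_hc]
    simp only [B4] at hX
    rw [show BR X.1 X.1 = 1 - X.2 * X.2 by linarith]
    ring
  have h4 : ‖cen X‖ ≤ ρ + rad X := by
    have : ‖cen X‖ ≤ ‖ζ‖ + dist ζ (cen X) := by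
      rw [dist_eq_norm, ← norm_neg (ζ - cen X)]
      calc ‖cen X‖ = ‖ζ + -(ζ - cen X)‖ := by congr 1; ring
        _ ≤ _ := norm_add_le _ _
    linarith
  rw [le_div_iff₀ (by linarith)]
  by_contra hcon
  push Not at hcon
  have hzC : X.2 < X.1.2.2 := by nlinarith
  have h5 : (X.1.2.2 - X.2) ^ 2 ≤ (ρ * cv X + 1) ^ 2 := by
    have h6 : ‖cen X‖ * cv X ≤ ρ * cv X + 1 := by
      have : rad X * cv X = 1 := by simp only [rad]; field_simp
      nlinarith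
    have h7 : (‖cen X‖ * cv X) ^ 2 = X.1.2.2 ^ 2 - X.2 ^ 2 + 1 := by
      rw [mul_pow, h3]; field_simp
    have h8 : (‖cen X‖ * cv X) ^ 2 ≤ (ρ * cv X + 1) ^ 2 :=
      pow_le_pow_left₀ (by positivity) h6 2
    nlinarith
  have h9 : X.1.2.2 - X.2 ≤ ρ * cv X + 1 := le_of_sq_le_sq h5 (by positivity)
  simp only [cv] at h9
  nlinarith

/-- local finiteness of the packing in the open disc -/
theorem locfin {ρ : ℝ} (hρ0 : 0 ≤ ρ) (hρ : ρ < 1) :
    {v | Act D v ∧ ∃ ζ : ℂ, ‖ζ‖ ≤ ρ ∧ dist ζ (cen (Xv v)) ≤ rad (Xv v)}.Finite := by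
  have g2 := s2_gt
  have g2' := s2_lt
  have g3 := s3_gt
  have g3' := s3_lt
  set T : ℝ := 13 / (1 - ρ) with hT
  have hT0 : 0 < T := by rw [hT]; apply div_pos <;> linarith
  refine (low_finite (D := D) ⌈12 * T⌉).subset ?_
  rintro v ⟨hv, ζ, h1, h2⟩
  have hP : ∀ p, Ctr p → ∀ η : ℂ, ‖η‖ ≤ ρ → dist η (cen (P p)) ≤ rad (P p) → (p.2.2 : ℝ) ≤ T := by
    intro p hp η h3 h4
    have := height_of_meet (PP_self hp) (z_P hp) (by linarith [C_P p]) hρ0 hρ h3 h4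
    refine this.trans ?_
    rw [hT]
    apply div_le_div_of_nonneg_right _ (by linarith)
    simp only [P]; linarith
  have hQ : ∀ q, Cor q → ∀ η : ℂ, ‖η‖ ≤ ρ → dist η (cen (Q q)) ≤ rad (Q q) → (q.2.2 : ℝ) ≤ T := by
    intro p hp η h3 h4
    have := height_of_meet (QQ_self hp) (z_Q hp) (by linarith [C_Q p]) hρ0 hρ h3 h4
    have h5 : (p.2.2 : ℝ) ≤ (Q p).1.2.2 := by
      simp only [Q, Prod.smul_snd, ι_3, smul_eq_mul]
      have : (0:ℝ) < p.2.2 := by exact_mod_cast hp.2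
      nlinarith
    refine h5.trans (this.trans ?_)
    rw [hT]
    apply div_le_div_of_nonneg_right _ (by linarith)
    simp only [Q]
    nlinarith
  have hceil : ∀ (n : ℤ), (n:ℝ) ≤ 12 * T → n ≤ ⌈12 * T⌉ := fun n hn => by
    exact_mod_cast hn.trans (Int.le_ceil _)
  rcases hv.cases with ⟨p, hp, rfl⟩ | ⟨q, hq, rfl⟩ | ⟨p, p', q, l, F, hl, hD, rfl⟩
  · rw [Xv_ctr hp] at h2
    refine ⟨hv, Or.inl ⟨p, hp, rfl, hceil _ ?_⟩⟩
    have := hP p hp ζ h1 h2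
    linarith
  · rw [Xv_cor hq] at h2
    refine ⟨hv, Or.inr (Or.inl ⟨q, hq, rfl, hceil _ ?_⟩)⟩
    have := hQ q hq ζ h1 h2
    linarith
  · rw [Xv_fan hl] at h2
    refine ⟨hv, Or.inr (Or.inr ⟨p, p', q, l, F, hl, hD, rfl, hceil _ ?_⟩)⟩
    obtain ⟨x, hx, hxz, rfl⟩ := exists_pt (lt_of_le_of_lt h1 hρ)
    have hN := pt_null hx
    have bN : 0 < cv (pt x) := by simp only [cv, pt]; linarith
    have bF : 0 < cv (Fn (p + p') q l) := by
      have := z_F F l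
      have := C_F (p + p') q l
      simp only [cv]; linarith
    rw [mem_disc_iff hN bN (Fn_self F l) bF] at h2
    have zq6 : (q.2.2 : ℝ) ≤ 6 * p.2.2 := by exact_mod_cast F.zq_le
    have zq6' : (q.2.2 : ℝ) ≤ 6 * p'.2.2 := by exact_mod_cast F.symm.zq_le
    by_cases c1 : 0 ≤ B4 (pt x) (P p)
    · have bP : 0 < cv (P p) := by
        have := z_P F.hp
        have := C_P p
        simp only [cv]; linarith
      have := hP p F.hp _ h1 ((mem_disc_iff hN bN (PP_self F.hp) bP).2 c1)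
      linarith
    by_cases c2 : 0 ≤ B4 (pt x) (P p')
    · have bP : 0 < cv (P p') := by
        have := z_P F.hp'
        have := C_P p'
        simp only [cv]; linarith
      have := hP p' F.hp' _ h1 ((mem_disc_iff hN bN (PP_self F.hp') bP).2 c2)
      linarith
    by_cases c3 : 0 ≤ B4 (pt x) (Q q)
    · have bP : 0 < cv (Q q) := by
        have := z_Q F.hq
        have := C_Q q
        simp only [cv]; linarith
      have := hQ q F.hq _ h1 ((mem_disc_iff hN bN (QQ_self F.hq) bP).2 c3)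
      linarith
    by_cases c4 : 0 ≤ B4 (pt x) (dl (p + p') q)
    · have bP : 0 < cv (dl (p + p') q) := by
        have := z_d F
        have := C_d (p + p') q
        simp only [cv]; linarith
      have h5 := height_of_meet F.d_self (z_d F) (by linarith [C_d (p + p') q]) hρ0 hρ h1
        ((mem_disc_iff hN bN F.d_self bP).2 c4)
      have h6 : (dl (p + p') q).1.2.2 ≤ T := by
        refine h5.trans ?_
        rw [hT]
        apply div_le_div_of_nonneg_right _ (by linarith)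
        simp only [dl]; linarith
      simp only [dl, Prod.fst_add, Prod.snd_add, Prod.smul_snd, ι_3, smul_eq_mul] at h6
      push_cast at h6
      have z1 : (0:ℝ) < p.2.2 := by exact_mod_cast F.hp.2
      have z2 : (0:ℝ) < p'.2.2 := by exact_mod_cast F.hp'.2
      have z3 : (0:ℝ) < q.2.2 := by exact_mod_cast F.hq.2
      nlinarith [mul_pos (show 0 < s2 by linarith) z1, mul_pos (show 0 < s2 by linarith) z2,
        mul_pos (mul_pos (show 0 < s2 by linarith) (show 0 < s3 by linarith)) z3]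
    · exfalso
      push Not at c1 c2 c3 c4
      have : B4 (pt x) (Fn (p + p') q l) < 0 := by
        simp only [Fn, B4_add_right, B4_smul_right, N_eq]
        have hl' : (1:ℝ) ≤ l := by exact_mod_cast hl
        have a1 : (2 * (l:ℝ)) * B4 (pt x) (dl (p + p') q) ≤ 0 :=
          mul_nonpos_of_nonneg_of_nonpos (by positivity) c4.le
        have a2 : ((l:ℝ) ^ 2) * (B4 (pt x) (P p) + B4 (pt x) (P p')) ≤ 0 :=
          mul_nonpos_of_nonneg_of_nonpos (by positivity) (by linarith)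
        linarith
      linarith

/-- only finitely many circles have radius above a given positive number -/
theorem rad_finite {ε : ℝ} (hε : 0 < ε) : {v | Act D v ∧ ε ≤ rad (Xv v)}.Finite := by
  refine (low_finite (D := D) ⌈1 / ε⌉).subset ?_
  rintro v ⟨hv, h⟩
  have g3 := s3_gt
  have g2 := s2_gt
  have hceil : ∀ (n : ℤ), (n:ℝ) ≤ 1 / ε → n ≤ ⌈1 / ε⌉ := fun n hn => by
    exact_mod_cast hn.trans (Int.le_ceil _)
  have hb := hv.cv
  have hC := hv.C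
  have h1 : cv (Xv v) ≤ 1 / ε := by
    simp only [rad] at h
    rw [le_div_iff₀ hε]
    rw [le_div_iff₀ hb] at h
    linarith
  simp only [cv] at h1
  rcases hv.cases with ⟨p, hp, rfl⟩ | ⟨q, hq, rfl⟩ | ⟨p, p', q, l, F, hl, hD, rfl⟩
  · refine ⟨hv, Or.inl ⟨p, hp, rfl, hceil _ ?_⟩⟩
    rw [Xv_ctr hp] at h1 hC
    simp only [P, ι_3] at h1
    linarith
  · refine ⟨hv, Or.inr (Or.inl ⟨q, hq, rfl, hceil _ ?_⟩)⟩
    rw [Xv_cor hq] at h1 hC
    simp only [Q, Prod.smul_snd, ι_3, smul_eq_mul] at h1 hC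
    have : (0:ℝ) < q.2.2 := by exact_mod_cast hq.2
    nlinarith
  · refine ⟨hv, Or.inr (Or.inr ⟨p, p', q, l, F, hl, hD, rfl, hceil _ ?_⟩)⟩
    rw [Xv_fan hl] at h1 hC
    have a1 := z_d F
    have a2 := z_N F
    simp only [Fn, Prod.fst_add, Prod.snd_add, Prod.smul_fst, Prod.smul_snd, smul_eq_mul, Q,
      ι_3] at h1 hC
    have : (0:ℝ) < q.2.2 := by exact_mod_cast F.hq.2
    have a3 : 0 ≤ (2 * (l:ℝ)) * (dl (p + p') q).1.2.2 := by positivity
    have a4 : 0 ≤ ((l:ℝ) ^ 2) * (Nv (p + p')).1.2.2 := by positivity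
    nlinarith

end Pool.Agent.H49.CP
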