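import Pool.Agent.H49.CP.Words
import Pool.Agent.H49.CP.Escape

set_option autoImplicit false

namespace Pool.Agent.H49.CP

open Finset MeasureTheory Filter Topology Pool.Agent.H45.Chain Pool.Agent.H43.RW
  Pool.Agent.H49.CP.Walk
open scoped ENNReal

lemma sum_two (r : ℕ) : ∑ i ∈ range r, (2:ℝ≥0∞) ^ i ≤ 2 ^ r := by
  induction r with
  | zero => simp
  | succ r ih =>
    rw [sum_range_succ, pow_succ, mul_two]
    exact add_le_add_left ih _

/-- bound for the chain length when only low layers and layer `j` are present -/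
lemma DD_le_of {ω : Om} {u : L} {r j : ℕ} (h : ∀ i, r ≤ i → i ≠ j → ¬ Lay ω u i) :
    DD ω u ≤ 2 ^ r + 2 ^ j := by
  classical
  have h1 : SS ω u ≤ 2 ^ r + 2 ^ j := by
    unfold SS
    calc ∑' i : ℕ, (if Lay ω u i then (2:ℝ≥0∞) ^ i else 0)
        ≤ ∑' i : ℕ, ((if i < r then (2:ℝ≥0∞) ^ i else 0) + if i = j then (2:ℝ≥0∞) ^ i else 0) := by
          refine ENNReal.tsum_le_tsum fun i => ?_
          by_cases hL : Lay ω u i
          · rw [if_pos hL]
            by_cases h2 : i < r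
            · rw [if_pos h2]; exact le_self_add
            · have h3 : i = j := by
                by_contra h3
                exact h i (not_lt.1 h2) h3 hL
              rw [if_pos h3]; exact le_add_self
          · rw [if_neg hL]; exact zero_le
      _ = (∑' i : ℕ, if i < r then (2:ℝ≥0∞) ^ i else 0) + 2 ^ j := by
          rw [ENNReal.tsum_add, tsum_ite_eq]
      _ ≤ _ := by
          refine add_le_add_left ?_ _
          rw [tsum_eq_sum (s := range r) (fun i hi => by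
            rw [if_neg]; simpa using hi)]
          refine (sum_le_sum fun i _ => ?_).trans (sum_two r)
          split_ifs
          · exact le_rfl
          · exact zero_le
  have h2 := (DD_le ω u).trans h1
  exact_mod_cast h2

lemma DD_le_low {ω : Om} {u : L} {r : ℕ} (h : ∀ i, r ≤ i → ¬ Lay ω u i) : DD ω u ≤ 2 ^ r := by
  classical
  have h1 : SS ω u ≤ 2 ^ r := by
    unfold SS
    rw [tsum_eq_sum (s := range r) (fun i hi => by
      rw [if_neg (h i (by simpa using hi))])]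
    refine (sum_le_sum fun i _ => ?_).trans (sum_two r)
    split_ifs
    · exact le_rfl
    · exact zero_le
  have h2 := (DD_le ω u).trans h1
  exact_mod_cast h2

lemma DD_ge {ω : Om} {u : L} {j : ℕ} (hF : SS ω u ≠ ⊤) (h : Lay ω u j) : 2 ^ j ≤ DD ω u := by
  classical
  have h1 : (2:ℝ≥0∞) ^ j ≤ SS ω u := by
    unfold SS
    calc (2:ℝ≥0∞) ^ j = if Lay ω u j then 2 ^ j else 0 := by rw [if_pos h]
      _ ≤ _ := ENNReal.le_tsum j
  have h2 := ENNReal.toReal_mono hF h1
  unfold DD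
  apply Nat.le_floor
  push_cast
  rw [ENNReal.toReal_pow] at h2
  simpa using h2

/-- the four parts of a good event -/
structure GoodEv (ε : ℝ≥0∞) (r : ℕ) (ω : Om) (g : Γ) : Prop where
  fin : ∀ u, SS ω u ≠ ⊤
  act : ω (2 * r, e0 g) = true
  near : ∀ i < 8 * r, ∀ w' : Fin i → Bool, ∀ a : ZMod 6, ∀ l, 4 * r ≤ l →
    ¬ Lay ω (gw i w' • p0 + gw i w' • nb a) l
  stray : ∀ s ≤ (2 * r) ^ 3, ∀ a : ZMod 6, ∀ i, r ≤ i →
    ∀ p, Dir ((g * XT ^ s) • p0 + (g * XT ^ s) • nb a) p → ∀ t < i ^ 3,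
    ω (i, bk^[t] (p, (g * XT ^ s) • p0 + (g * XT ^ s) • nb a - p)) = true →
    (i, bk^[t] (p, (g * XT ^ s) • p0 + (g * XT ^ s) • nb a - p)) = (2 * r, e0 g)
  esc : ε < Es (DD ω) (g * XT ^ ((2 * r) ^ 3 + 1))

/-- the degree bound along the path -/
noncomputable def MB (r : ℕ) : ℝ := 24 * 2 ^ (4 * r)

lemma card_le_MB {ω : Om} {r : ℕ} (k : Γ)
    (h : ∀ a : ZMod 6, DD ω (k • p0 + k • nb a) ≤ 2 ^ (4 * r)) :
    ((nf (Gr (DD ω)) locfin_graph (bv (k • p0))).card : ℝ) ≤ MB r := by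
  refine (card_ctr_le (D := DD ω) k).trans ?_
  have h1 : ∑ i : ZMod 6, 2 * (DD ω (k • p0 + k • nb i) : ℝ) ≤ ∑ i : ZMod 6, 2 * 2 ^ (4 * r) := by
    refine sum_le_sum fun i _ => ?_
    have : (DD ω (k • p0 + k • nb i) : ℝ) ≤ 2 ^ (4 * r) := by exact_mod_cast h i
    linarith
  have h2 : ∑ i : ZMod 6, (2:ℝ) * 2 ^ (4 * r) = 12 * 2 ^ (4 * r) := by
    rw [sum_const, card_univ, ZMod.card, nsmul_eq_mul]; push_cast; ring
  have h3 : (1:ℝ) ≤ 2 ^ (4 * r) := one_le_pow₀ (by norm_num)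
  unfold MB
  linarith

lemma MB_pos (r : ℕ) : 0 < MB r := by unfold MB; positivity

/-- lower bound for harmonic functions on good events -/
theorem good_bound {ε : ℝ≥0∞} {r : ℕ} {ω : Om} {w : Fin (8 * r) → Bool} (hr : 1 ≤ r)
    (hlarge : 2 * (14 + 10 * 2 ^ r) ≤ (1 / (2 * r : ℝ)) ^ 2 * (2 ^ (2 * r) - 1 / 2))
    (hG : GoodEv ε r ω (gw (8 * r) w)) {h : V → ℝ} (hh : Harm (DD ω) h) (hε : ε ≠ ⊤)
    (hesc : ∀ v, stp (DD ω) (Sd (-((gw (8 * r) w * XT ^ ((2 * r) ^ 3 + 1)) • n0))) v ≤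
      ENNReal.ofReal (h v)) :
    (1 - 1 / (2 * r : ℝ)) ^ ((2 * r) ^ 3) * ε.toReal ≤ MB r ^ (8 * r + 1) * h (bv p0) := by
  set g := gw (8 * r) w with hg
  set K := (2 * r) ^ 3 with hK
  have hnz : 0 ≤ nz g := by
    have h1 := nz_gw (8 * r) w 1
    rw [one_mul] at h1
    have h2 : nz (1 : Γ) = -1 := by
      unfold nz; rw [one_smul]; rfl
    rw [h2] at h1
    push_cast at h1
    have : (1:ℤ) ≤ r := by exact_mod_cast hr
    linarith
  have hr' : (1:ℝ) ≤ r := by exact_mod_cast hr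
  have hMB := MB_pos r
  -- chain lengths in the corridor
  have hdir : ∀ s, Dir ((g * XT ^ s) • p0 + (g * XT ^ (s + 1)) • p0) ((g * XT ^ s) • p0) := by
    intro s
    rw [dir_iff (ctr_p0.act _) (ctr_p0.act _) (B_cor g s)]
    exact Or.inl rfl
  have hlay : ∀ s < K, Lay ω ((g * XT ^ s) • p0 + (g * XT ^ (s + 1)) • p0) (2 * r) := by
    intro s hs
    refine ⟨(g * XT ^ s) • p0, hdir s, s, hs, ?_⟩
    rw [add_sub_cancel_left, bk_cor]
    exact hG.act
  have hno : ∀ s ≤ K, ∀ a : ZMod 6, ∀ i, r ≤ i → i ≠ 2 * r →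
      ¬ Lay ω ((g * XT ^ s) • p0 + (g * XT ^ s) • nb a) i := by
    rintro s hs a i hi hij ⟨p, hp, t, ht, hω⟩
    have := hG.stray s hs a i hi p hp t ht hω
    exact hij (congrArg Prod.fst this)
  have h1 : ∀ s < K, (2:ℝ) ^ (2 * r) ≤ DD ω ((g * XT ^ s) • p0 + (g * XT ^ (s + 1)) • p0) ∧
      (DD ω ((g * XT ^ s) • p0 + (g * XT ^ (s + 1)) • p0) : ℝ) ≤ 2 ^ (2 * r) + 2 ^ r := by
    intro s hs
    constructor
    · exact_mod_cast DD_ge (hG.fin _) (hlay s hs)
    · have := DD_le_of (ω := ω) (r := r) (j := 2 * r) (hno s hs.le 3)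
      rw [st_next] at this
      have h2 : (DD ω ((g * XT ^ s) • p0 + (g * XT ^ (s + 1)) • p0) : ℝ) ≤ 2 ^ r + 2 ^ (2 * r) := by
        exact_mod_cast this
      linarith
  have h2 : ∀ s < K, ∀ i : ZMod 6, i ≠ 3 → (i = 0 → s = 0) →
      (DD ω ((g * XT ^ s) • p0 + (g * XT ^ s) • nb i) : ℝ) ≤ 2 ^ r := by
    intro s hs a ha3 ha0
    have : DD ω ((g * XT ^ s) • p0 + (g * XT ^ s) • nb a) ≤ 2 ^ r := by
      refine DD_le_low ?_
      rintro i hi ⟨p, hp, t, ht, hω⟩
      have h3 := hG.stray s hs.le a i hi p hp t ht hω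
      simp only [Prod.mk.injEq] at h3
      obtain ⟨rfl, h4⟩ := h3
      have h5 := cor_of (k := g) (s := t) (e := (p, (g * XT ^ s) • p0 + (g * XT ^ s) • nb a - p))
        (Prod.ext (by simpa using congrArg Prod.fst (show _ = e0 g from h4))
          (by simpa using congrArg Prod.snd (show _ = e0 g from h4)))
      simp only [Prod.mk.injEq] at h5
      obtain ⟨h6, h7⟩ := h5
      have hadj : B ((g * XT ^ s) • p0) ((g * XT ^ s) • nb a) = -3 := by
        rw [B_act]; exact B_p0_nb a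
      rcases (dir_iff (ctr_p0.act _) ((ctr_nb a).act _) hadj p).1 hp with h8 | h8
      · have h9 := a_inj hnz (h8.symm.trans h6)
        subst h9
        rw [h8, add_sub_cancel_left, ← st_next] at h7
        exact ha3 (nb_inj (MulAction.injective _ h7))
      · rw [h8, add_sub_cancel_right] at h7
        have h9 := a_inj hnz h7
        subst h9
        rw [h8, ← st_prev] at h6
        have h10 := nb_inj (MulAction.injective _ h6)
        have := ha0 h10
        omega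
    exact_mod_cast this
  have hδ : (0:ℝ) < 1 / (2 * r) := by positivity
  have hδ1 : 1 / (2 * r : ℝ) ≤ 1 := by
    rw [div_le_one (by positivity)]; linarith
  have c1 := corridor hh g K (2 ^ (2 * r)) (2 ^ r) (1 / (2 * r)) (by positivity) hδ hδ1 h1 h2 hlarge
  -- the path to the corridor
  have c2 : h (bv (g • p0)) ≤ MB r ^ (8 * r) * h (bv p0) := by
    have := path_bound hh hMB.le (8 * r) w 1 (by
      intro i hi w'
      refine card_le_MB _ fun a => ?_
      rw [one_mul]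
      refine DD_le_low fun l hl => ?_
      exact hG.near i hi w' a l hl)
    rw [one_mul, one_smul] at this
    exact this
  -- the end of the corridor
  have c3 : h (bv ((g * XT ^ (K + 1)) • p0)) ≤ MB r * h (bv ((g * XT ^ K) • p0)) := by
    have hadj : (Gr (DD ω)).Adj (bv ((g * XT ^ K) • p0)) (bv ((g * XT ^ (K + 1)) • p0)) := by
      rw [pow_succ, ← mul_assoc]
      exact adj_Xs (D := DD ω) (g * XT ^ K) 3
    refine step_le hh hadj (card_le_MB _ fun a => ?_)
    refine DD_le_low fun l hl => hno K le_rfl a l (by omega) (by omega)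
  have c4 : ε.toReal ≤ h (bv ((g * XT ^ (K + 1)) • p0)) := by
    have h3 := hG.esc.le.trans (hesc (bv ((g * XT ^ (K + 1)) • p0)))
    exact ENNReal.toReal_le_of_le_ofReal (hh.1 _) h3
  have d0 : 0 ≤ (1 - 1 / (2 * r : ℝ)) ^ K := pow_nonneg (by linarith) _
  calc (1 - 1 / (2 * r : ℝ)) ^ K * ε.toReal
      ≤ (1 - 1 / (2 * r : ℝ)) ^ K * (MB r * h (bv ((g * XT ^ K) • p0))) :=
        mul_le_mul_of_nonneg_left (c4.trans c3) d0
    _ = MB r * ((1 - 1 / (2 * r : ℝ)) ^ K * h (bv ((g * XT ^ K) • p0))) := by ring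
    _ ≤ MB r * h (bv (g • p0)) := mul_le_mul_of_nonneg_left c1 hMB.le
    _ ≤ MB r * (MB r ^ (8 * r) * h (bv p0)) := mul_le_mul_of_nonneg_left c2 hMB.le
    _ = _ := by ring

end Pool.Agent.H49.CP
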