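import Pool.Agent.H49.CP.Trans

set_option autoImplicit false

namespace Pool.Agent.H49.CP

open Finset

variable {D : L → ℕ}

/-- normals of the sides of the hexagon around `p0` -/
def nn (i : ZMod 6) : L := match i with
  | 0 => (1, 0, 1)
  | 1 => (0, 1, 1)
  | 2 => (-1, 1, 1)
  | 3 => (-1, 0, 1)
  | 4 => (0, -1, 1)
  | 5 => (1, -1, 1)

lemma nb_nn (i : ZMod 6) : nb i = p0 + (2:ℤ) • nn i := by
  fin_cases i <;> rfl
lemma rot_nn (i : ZMod 6) : rot • nn i = nn (i + 1) := by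
  fin_cases i <;> rfl
lemma rot_pow_nn (n : ℕ) (i : ZMod 6) : rot ^ n • nn i = nn (i + n) := by
  induction n with
  | zero => simp
  | succ n ih => rw [pow_succ', mul_smul, ih, rot_nn]; push_cast; rw [add_assoc]
lemma nn_zero : nn 0 = n0 := rfl

/-- normals of lines -/
def Nu (ν : L) : Prop := ∃ g : Γ, ν = g • n0

lemma nu_nn (i : ZMod 6) : Nu (nn i) := by
  refine ⟨rot ^ i.val, ?_⟩
  rw [← nn_zero, rot_pow_nn]
  simp

lemma Nu.act {ν : L} (h : Nu ν) (g : Γ) : Nu (g • ν) := by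
  obtain ⟨k, rfl⟩ := h
  exact ⟨g * k, (mul_smul g k n0).symm⟩

lemma sig_n0 : sig • n0 = -n0 := by
  simp [sig_smul, n0]

lemma Nu.neg {ν : L} (h : Nu ν) : Nu (-ν) := by
  obtain ⟨k, rfl⟩ := h
  refine ⟨k * sig, ?_⟩
  rw [mul_smul, sig_n0, act_neg]

lemma Nu.norm {ν : L} (h : Nu ν) : B ν ν = 1 := by
  obtain ⟨k, rfl⟩ := h
  rw [B_act]; decide

lemma Nu.odd {ν p : L} (h : Nu ν) (hp : Ctr p) : B p ν % 2 = 1 := by
  obtain ⟨k, rfl⟩ := h
  have e : B p (k • n0) = B (k⁻¹ • p) n0 := by rw [← B_act k (k⁻¹ • p), smul_inv_smul]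
  rw [e]
  obtain ⟨⟨a, ha⟩, ⟨b, hb⟩, hc⟩ := (hp.act k⁻¹).parity
  simp only [B, n0, ha, hb]
  omega

/-- adjacent centres on different sides of a line -/
lemma opp {x y ν : L} (hx : Ctr x) (hy : Ctr y) (hxy : B x y = -3) (hν : B ν ν = 1)
    (h1 : 1 ≤ B x ν) (h2 : B y ν ≤ -1) : x - y = (2:ℤ) • ν ∧ B x ν = 1 ∧ B y ν = -1 := by
  set a := B x ν with ha
  set b := B y ν with hb
  have hx1 := hx.1
  have hy1 := hy.1
  have hyx : B y x = -3 := by rw [B_comm]; exact hxy
  have hνx : B ν x = a := B_comm _ _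
  have hνy : B ν y = b := B_comm _ _
  set w : L := (32:ℤ) • ν + (4 * (a + b)) • (x + y) - (8 * (a - b)) • (x - y) with hw
  have hww : B w w = -128 * (a ^ 2 + b ^ 2 - 6 * a * b - 8) := by
    rw [hw]
    simp only [B_sub_left, B_sub_right, B_add_left, B_add_right, B_smul_left, B_smul_right, hx1,
      hy1, hxy, hyx, hν, hνx, hνy, ← ha, ← hb]
    ring
  have hwf : B w (x + y) = 0 := by
    rw [hw]
    simp only [B_sub_left, B_sub_right, B_add_left, B_add_right, B_smul_left, B_smul_right, hx1,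
      hy1, hxy, hyx, hν, hνx, hνy, ← ha, ← hb]
    ring
  have hff : B (x + y) (x + y) < 0 := by
    simp only [B_add_left, B_add_right, hx1, hy1, hxy, hyx]; norm_num
  have hle : B w w ≤ 0 := by rw [hww]; nlinarith
  have hw0 := zero_of_orth hff hwf hle
  have h3 : B w w = 0 := by rw [hw0]; simp [B]
  rw [hww] at h3
  have h4 : a ^ 2 + b ^ 2 - 6 * a * b - 8 = 0 := by linarith
  have ha1 : a = 1 := by nlinarith
  have hb1 : b = -1 := by nlinarith
  refine ⟨?_, ha1, hb1⟩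
  rw [hw, ha1, hb1] at hw0
  have h5 : (16:ℤ) • (x - y) = (16:ℤ) • ((2:ℤ) • ν) := by
    have h6 : (32:ℤ) • ν - (16:ℤ) • (x - y) = 0 := by
      rw [← hw0]; norm_num
    rw [smul_smul]
    norm_num
    exact (sub_eq_zero.1 h6).symm
  exact smul_right_injective L (show (16:ℤ) ≠ 0 by norm_num) h5

/-- adjacent centre and corner on different sides of a line -/
lemma opq {x y ν : L} (hx : Ctr x) (hy : Cor y) (hxy : B x y = -3) (hν : B ν ν = 1)
    (h1 : 1 ≤ B x ν) (h2 : B y ν ≤ 0) : B x ν = 1 ∧ B y ν = 0 := by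
  set a := B x ν with ha
  set b := B y ν with hb
  by_contra hcon
  have hpos : 0 < 3 * a ^ 2 + b ^ 2 - 6 * a * b - 6 := by
    rcases lt_or_eq_of_le h2 with h | h
    · nlinarith
    · have ha2 : 2 ≤ a := by
        by_contra h'
        push Not at h'
        exact hcon ⟨by omega, h⟩
      rw [h]; nlinarith
  have hx1 := hx.1
  have hy1 := hy.1
  have hyx : B y x = -3 := by rw [B_comm]; exact hxy
  have hνx : B ν x = a := B_comm _ _
  have hνy : B ν y = b := B_comm _ _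
  set w : L := (6:ℤ) • (ν + a • x) - (b - 3 * a) • (y - (3:ℤ) • x) with hw
  have hww : B w w = -6 * (3 * a ^ 2 + b ^ 2 - 6 * a * b - 6) := by
    rw [hw]
    simp only [B_sub_left, B_sub_right, B_add_left, B_add_right, B_smul_left, B_smul_right, hx1,
      hy1, hxy, hyx, hν, hνx, hνy, ← ha, ← hb]
    ring
  have hwf : B w x = 0 := by
    rw [hw]
    simp only [B_sub_left, B_sub_right, B_add_left, B_add_right, B_smul_left, B_smul_right, hx1,
      hy1, hxy, hyx, hν, hνx, hνy, ← ha, ← hb]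
    ring
  have hw0 := zero_of_orth (by rw [hx1]; norm_num) hwf (by rw [hww]; linarith)
  have h3 : B w w = 0 := by rw [hw0]; simp [B]
  rw [hww] at h3
  linarith

lemma opq' {x y ν : L} (hx : Ctr x) (hy : Cor y) (hxy : B x y = -3) (hν : B ν ν = 1)
    (h1 : B x ν ≤ -1) (h2 : 1 ≤ B y ν) : False := by
  have := opq (ν := -ν) hx hy hxy (by rw [B_neg_left, B_neg_right, hν]; norm_num)
    (by rw [B_neg_right]; linarith) (by rw [B_neg_right]; linarith)
  rw [B_neg_right, B_neg_right] at this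
  omega

/-- vertices on the positive side of a line -/
def Sd (ν : L) : Set V := {v | 0 < B v.1 ν}

lemma mem_Sd {ν : L} {v : V} : v ∈ Sd ν ↔ 0 < B v.1 ν := Iff.rfl

/-- the entrance into a half plane happens next to a centre at distance one -/
lemma entry {ν : L} (hν : Nu ν) {x y : V} (hx : x ∈ Sd ν) (hy : y ∉ Sd ν) (h : (Gr D).Adj x y) :
    ∃ c, Ctr c ∧ B c ν = 1 ∧ (x = bv c ∨ (Gr D).Adj (bv c) x) := by
  have hn := hν.norm
  rw [mem_Sd] at hx hy
  push Not at hy
  have hax := h.2.1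
  have hay := h.2.2.1
  rcases hax.cases with ⟨p, hp, rfl⟩ | ⟨q, hq, rfl⟩ | ⟨p, p', q, l, F, hl, hD, rfl⟩ <;>
  rcases hay.cases with ⟨r, hr, rfl⟩ | ⟨k, hk, rfl⟩ | ⟨r, r', k, m, G, hm, hD', rfl⟩
  · rw [adj_cc hp hr] at h
    have o1 := hν.odd hr
    simp only [bv] at hx hy
    have := (opp hp hr h hn (by omega) (by omega)).2.1
    exact ⟨p, hp, this, Or.inl rfl⟩
  · rw [adj_cq hp hk] at h
    simp only [bv] at hx hy
    exact ⟨p, hp, (opq hp hk h hn (by omega) hy).1, Or.inl rfl⟩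
  · rw [adj_cf G hp] at h
    simp only [bv, B_add_left] at hx hy
    have o1 := hν.odd G.hp
    have o2 := hν.odd G.hp'
    rcases h.1 with rfl | rfl
    · exact ⟨p, hp, (opp hp G.hp' G.hpp hn (by omega) (by omega)).2.1, Or.inl rfl⟩
    · exact ⟨p, hp, (opp hp G.hp (by rw [B_comm]; exact G.hpp) hn (by omega) (by omega)).2.1,
        Or.inl rfl⟩
  · rw [SimpleGraph.adj_comm, adj_cq hr hq] at h
    simp only [bv] at hx hy
    have o1 := hν.odd hr
    exact (opq' hr hq h hn (by omega) (by omega)).elim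
  · exact absurd h (adj_qq hq hk)
  · obtain ⟨e1, e2⟩ := adj_qf G hq hm h
    subst e1
    simp only [bv, B_add_left] at hx hy
    have o1 := hν.odd G.hp
    have o2 := hν.odd G.hp'
    rcases le_or_gt (B r ν) (-1) with h3 | h3
    · exact (opq' G.hp hq G.hpq hn h3 (by omega)).elim
    · exact (opq' G.hp' hq G.hpq' hn (by omega) (by omega)).elim
  · rw [SimpleGraph.adj_comm, adj_cf F hr] at h
    simp only [bv, B_add_left] at hx hy
    have o1 := hν.odd hr
    rcases h.1 with rfl | rfl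
    · have := opp F.hp' F.hp (by rw [B_comm]; exact F.hpp) hn (by omega) (by omega)
      omega
    · have := opp F.hp F.hp' F.hpp hn (by omega) (by omega)
      omega
  · rw [SimpleGraph.adj_comm] at h
    obtain ⟨e1, e2⟩ := adj_qf F hk hl h
    subst e1
    simp only [bv, B_add_left] at hx hy
    have o1 := hν.odd F.hp
    have o2 := hν.odd F.hp'
    rcases le_or_gt 1 (B p ν) with h3 | h3
    · exact ⟨p, F.hp, (opq F.hp hk F.hpq hn h3 hy).1,
        Or.inr ((adj_cf F F.hp).2 ⟨Or.inl rfl, hl, hD⟩)⟩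
    · exact ⟨p', F.hp', (opq F.hp' hk F.hpq' hn (by omega) hy).1,
        Or.inr ((adj_cf F F.hp').2 ⟨Or.inr rfl, hl, hD⟩)⟩
  · obtain ⟨e1, -, -⟩ := adj_ff F G hl hm h
    simp only at hx hy
    rw [e1] at hx
    omega

/-- a centre at distance one from a line is the end of an arc orthogonal to it -/
lemma state_of {ν c : L} (hν : B ν ν = 1) (hc : Ctr c) (h : B c ν = 1) :
    ∃ g : Γ, g • p0 = c ∧ -(g • n0) = ν := by
  have h1 : B (c - (2:ℤ) • ν) (c - (2:ℤ) • ν) = -1 := by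
    simp only [B_sub_left, B_sub_right, B_smul_left, B_smul_right, hν, hc.1, h, B_comm ν c]
    norm_num
  have h2 : B c (c - (2:ℤ) • ν) = -3 := by
    simp only [B_sub_right, B_smul_right, hc.1, h]; norm_num
  have h3 : 0 < (c - (2:ℤ) • ν).2.2 := by
    by_contra hcon
    push Not at hcon
    have hne : (c - (2:ℤ) • ν).2.2 ≠ 0 := by
      intro h0
      have h4 := h1
      simp only [B, h0] at h4
      nlinarith [n_nonneg (c - (2:ℤ) • ν).1 (c - (2:ℤ) • ν).2.1]
    have h5 : Fut (-(c - (2:ℤ) • ν)) := ⟨by rw [B_neg_left, B_neg_right, h1]; norm_num, by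
      simp only [Prod.snd_neg]; omega⟩
    have h6 := hc.fut.neg h5
    rw [B_neg_right, h2] at h6
    norm_num at h6
  obtain ⟨g, h4, h5⟩ := arc_trans hc ⟨h1, h3⟩ h2
  refine ⟨g, h4, ?_⟩
  have h6 : g • p1 = g • p0 + (2:ℤ) • (g • n0) := by
    rw [← act_zsmul, ← act_add]; rfl
  rw [h4, h5] at h6
  have h7 : (2:ℤ) • (-(g • n0)) = (2:ℤ) • ν := by
    have : (2:ℤ) • ν = c - (c - (2:ℤ) • ν) := by abel
    rw [this, h6, smul_neg]; abel
  exact smul_right_injective L (show (2:ℤ) ≠ 0 by norm_num) h7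

/-- sums of edges which touch a half plane -/
def Tch (ν : L) (u : L) : Prop := ∃ p p', Ctr p ∧ Ctr p' ∧ B p p' = -3 ∧ u = p + p' ∧ 0 < B p ν

lemma agree {D' : L → ℕ} {ν : L} (hν : Nu ν) (h : ∀ u, Tch ν u → D u = D' u) {v w : V}
    (hv : v ∈ Sd ν) (ha : (Gr D).Adj v w) : (Gr D').Adj v w := by
  have hn := hν.norm
  rw [mem_Sd] at hv
  have hfan : ∀ {p p' q : L} {l : ℕ}, Fc p p' q → 1 ≤ l → l ≤ D (p + p') →
      (0 < B p ν ∨ 0 < B p' ν) → Act D' (p + p', q, l) := by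
    intro p p' q l F hl hD hpp
    refine act_fan F hl ?_
    rw [← h]
    · exact hD
    · rcases hpp with h' | h'
      · exact ⟨p, p', F.hp, F.hp', F.hpp, rfl, h'⟩
      · exact ⟨p', p, F.hp', F.hp, by rw [B_comm]; exact F.hpp, add_comm _ _, h'⟩
  refine ⟨ha.1, ?_, ?_, ha.2.2.2⟩
  · rcases ha.2.1.cases with ⟨p, hp, rfl⟩ | ⟨q, hq, rfl⟩ | ⟨p, p', q, l, F, hl, hD, rfl⟩
    · exact act_ctr hp
    · exact act_cor hq
    · refine hfan F hl hD ?_
      simp only [B_add_left] at hv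
      omega
  · rcases ha.2.2.1.cases with ⟨r, hr, rfl⟩ | ⟨k, hk, rfl⟩ | ⟨r, r', k, m, G, hm, hD', rfl⟩
    · exact act_ctr hr
    · exact act_cor hk
    · refine hfan G hm hD' ?_
      have o1 := hν.odd G.hp
      have o2 := hν.odd G.hp'
      rcases ha.2.1.cases with ⟨p, hp, rfl⟩ | ⟨q, hq, rfl⟩ | ⟨p, p', q, l, F, hl, hD, rfl⟩
      · rw [adj_cf G hp] at ha
        simp only [bv] at hv
        rcases ha.1 with rfl | rfl
        · exact Or.inl hv
        · exact Or.inr hv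
      · obtain ⟨e1, e2⟩ := adj_qf G hq hm ha
        subst e1
        simp only [bv] at hv
        left
        by_contra hcon
        exact opq' G.hp hq G.hpq hn (by omega) (by omega)
      · obtain ⟨e1, -, -⟩ := adj_ff F G hl hm ha
        simp only at hv
        rw [e1, B_add_left] at hv
        omega

end Pool.Agent.H49.CP
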