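import Pool.Agent.H49.CP.Nbr
import Pool.Agent.H49.CP.Conv

set_option autoImplicit false

namespace Pool.Agent.H49.CP

open Finset Pool.Agent.H49.CP.Net Pool.Agent.H49.CP.Walk

variable {D : L → ℕ}

/-- the divergence bound at a centre -/
lemma div_one {t t' : ℝ} (ht : 0 < t) (ht' : 0 < t') (h : t ≤ 6 * t') :
    (-143 * t ^ 2 + 110 * t * t' - 12 * t' ^ 2) / (175 * t ^ 2) ≤ (t' - t) / (t' + t) := by
  rw [div_le_div_iff₀ (by positivity) (by positivity)]
  nlinarith [mul_nonneg (sub_nonneg.2 h) (sq_nonneg (t' - 4 * t))]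

/-- height as a real number -/
noncomputable def hz (p : L) : ℝ := (p.2.2 : ℝ)

lemma hz_pos {p : L} (h : Ctr p) : 0 < hz p := by
  unfold hz; exact_mod_cast h.2

lemma hz_eq (g : Γ) (u : L) : (g • u).2.2 = -B u (g⁻¹ • p0) := by
  have : (g • u).2.2 = -B (g • u) p0 := by simp [B, p0]
  rw [this]
  congr 1
  rw [← B_act g u (g⁻¹ • p0), smul_inv_smul]

lemma hz_nb (g : Γ) (i : ZMod 6) : hz (g • p0) ≤ 6 * hz (g • nb i) := by
  have hc : Ctr (g⁻¹ • p0) := ctr_p0.act g⁻¹
  have hf : Fut ((6:ℤ) • nb i - p0) := by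
    have : ∀ i : ZMod 6, B ((6:ℤ) • nb i - p0) ((6:ℤ) • nb i - p0) < 0 ∧
      0 < ((6:ℤ) • nb i - p0).2.2 := by decide
    exact this i
  have := hf.neg hc.fut
  rw [B_sub_left, B_smul_left] at this
  have h1 := hz_eq g p0
  have h2 := hz_eq g (nb i)
  unfold hz
  rw [h1, h2]
  push_cast
  have h3 : ((6 * B (nb i) (g⁻¹ • p0) - B p0 (g⁻¹ • p0) : ℤ) : ℝ) < 0 := by exact_mod_cast this
  push_cast at h3
  linarith

lemma sum_zmod6 (f : ZMod 6 → ℝ) : ∑ i, f i = f 0 + f 1 + f 2 + f 3 + f 4 + f 5 :=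
  Fin.sum_univ_six f

lemma sum_hz (g : Γ) : ∑ i, hz (g • nb i) = 18 * hz (g • p0) ∧
    ∑ i, hz (g • nb i) ^ 2 ≤ 78 * hz (g • p0) ^ 2 := by
  have hc : Ctr (g⁻¹ • p0) := ctr_p0.act g⁻¹
  set x := g⁻¹ • p0 with hx
  have h0 := hz_eq g p0
  have hi : ∀ i, hz (g • nb i) = ((-B (nb i) x : ℤ) : ℝ) := fun i => by
    unfold hz; rw [hz_eq g (nb i)]
  have h00 : hz (g • p0) = ((-B p0 x : ℤ) : ℝ) := by
    unfold hz; rw [h0]
  obtain ⟨hc1, -⟩ := hc
  obtain ⟨a, b, c⟩ := x
  rw [h00]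
  simp only [hi, sum_zmod6]
  have hc2 : (2 * a * a + a * b + b * a + 2 * b * b - c * c : ℝ) = -1 := by
    have := hc1
    simp only [B] at this
    exact_mod_cast this
  constructor
  · simp [B, nb, p0]; ring
  · simp [B, nb, p0]
    nlinarith

lemma div_sum (g : Γ) : 1 ≤ ∑ i, (hz (g • nb i) - hz (g • p0)) / (hz (g • nb i) + hz (g • p0)) := by
  obtain ⟨h1, h2⟩ := sum_hz g
  have ht := hz_pos (ctr_p0.act g)
  set t := hz (g • p0) with htd
  calc (1:ℝ) ≤ ∑ i, (-143 * t ^ 2 + 110 * t * hz (g • nb i) - 12 * hz (g • nb i) ^ 2) /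
        (175 * t ^ 2) := by
        rw [← sum_div, sum_sub_distrib, sum_add_distrib, ← mul_sum, ← mul_sum, h1,
          le_div_iff₀ (by positivity)]
        simp only [sum_const, card_univ, ZMod.card, nsmul_eq_mul]
        push_cast
        have e3 : ∑ x, 12 * hz (g • nb x) ^ 2 = 12 * ∑ x, hz (g • nb x) ^ 2 := (mul_sum ..).symm
        rw [e3]
        nlinarith
    _ ≤ _ := sum_le_sum fun i _ => div_one ht (hz_pos ((ctr_nb i).act g)) (hz_nb g i)

lemma nb_inj : Function.Injective nb := by decide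

/-- base centre vertices -/
def IsC (v : V) : Prop := ∃ p, Ctr p ∧ v = bv p

open Classical in
lemma filter_nb (g : Γ) (K : Finset V) :
    K.filter (fun w => (Gr D).Adj (bv (g • p0)) w ∧ IsC w) ⊆
      univ.image fun i : ZMod 6 => bv (g • nb i) := by
  intro w hw
  obtain ⟨-, h1, p, hp, rfl⟩ := mem_filter.1 hw
  have hp0 : Ctr (g • p0) := ctr_p0.act g
  rw [adj_cc hp0 hp] at h1
  have : Ha (g • p0) p := ⟨Or.inl hp0, Or.inl hp, fun e => by
    rw [← e, hp0.1] at h1; norm_num at h1, h1⟩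
  obtain ⟨i, rfl | rfl⟩ := this.of_ctr
  · exact mem_image.2 ⟨i, mem_univ _, rfl⟩
  · exact absurd ((cor_nq i).act g) hp.ne_cor

open Classical in
lemma filter_nb_eq (g : Γ) (K : Finset V) (hK : ∀ w, (Gr D).Adj (bv (g • p0)) w → w ∈ K) :
    K.filter (fun w => (Gr D).Adj (bv (g • p0)) w ∧ IsC w) =
      univ.image fun i : ZMod 6 => bv (g • nb i) := by
  refine (filter_nb g K).antisymm ?_
  intro w hw
  obtain ⟨i, -, rfl⟩ := mem_image.1 hw
  have h : (Gr D).Adj (bv (g • p0)) (bv (g • nb i)) := by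
    rw [adj_cc (ctr_p0.act g) ((ctr_nb i).act g), B_act]; exact B_p0_nb i
  exact mem_filter.2 ⟨hK _ h, h, _, (ctr_nb i).act g, rfl⟩

/-- the Hardy inequality -/
theorem hardy (φ : V → ℝ) (S : Finset V) (hS : ∀ x, x ∉ S → φ x = 0) {p : L} (hp : Ctr p) :
    φ (bv p) ^ 2 ≤ 6 * DK (Gr D) (cl (Gr D) locfin_graph S) φ φ := by
  classical
  set K := cl (Gr D) locfin_graph S with hK
  set t : V → ℝ := fun v => hz v.1 with ht
  set R : V → V → Prop := fun v w => (Gr D).Adj v w ∧ IsC v ∧ IsC w with hR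
  have hRs : ∀ v w, R v w ↔ R w v := fun v w => by
    simp only [hR, (Gr D).adj_comm v w]; tauto
  set θ : V → V → ℝ := fun v w => (t w - t v) / (t w + t v) with hθ
  have hθs : ∀ v w, θ v w = -θ w v := by
    intro v w
    simp only [hθ]
    rw [show t v + t w = t w + t v by ring, ← neg_div]
    congr 1; ring
  have htp : ∀ v, IsC v → 0 < t v := by
    rintro v ⟨q, hq, rfl⟩
    exact hz_pos hq
  set N : ℝ := ∑ v ∈ K, if IsC v then φ v ^ 2 else 0 with hN
  set S1 : ℝ := ∑ v ∈ K, ∑ w ∈ K, if R v w then θ v w * φ v ^ 2 else 0 with hS1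
  set S2 : ℝ := ∑ v ∈ K, ∑ w ∈ K, if R v w then φ v ^ 2 else 0 with hS2
  have claim1 : N ≤ S1 := by
    refine sum_le_sum fun v hv => ?_
    by_cases hC : IsC v
    · rw [if_pos hC]
      by_cases h0 : φ v = 0
      · rw [h0]; simp
      have hvS : v ∈ S := by
        by_contra h; exact h0 (hS v h)
      obtain ⟨q, hq, rfl⟩ := hC
      obtain ⟨g, rfl⟩ := ctr_trans hq
      have e : ∑ w ∈ K, (if R (bv (g • p0)) w then θ (bv (g • p0)) w * φ (bv (g • p0)) ^ 2 else 0) =
          ∑ w ∈ K.filter (fun w => (Gr D).Adj (bv (g • p0)) w ∧ IsC w),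
            θ (bv (g • p0)) w * φ (bv (g • p0)) ^ 2 := by
        rw [sum_filter]
        refine sum_congr rfl fun w _ => ?_
        have : R (bv (g • p0)) w ↔ ((Gr D).Adj (bv (g • p0)) w ∧ IsC w) := by
          simp only [hR]
          exact ⟨fun h => ⟨h.1, h.2.2⟩, fun h => ⟨h.1, ⟨_, hq, rfl⟩, h.2⟩⟩
        simp only [this]
      rw [e, filter_nb_eq g K (fun w hw => nf_sub_cl _ _ hvS ((mem_nf _ _).2 hw)), ← sum_mul,
        sum_image (fun i _ j _ h => nb_inj (MulAction.injective g (bv_inj.1 h)))]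
      have := div_sum g
      have h2 : 1 * φ (bv (g • p0)) ^ 2 ≤ _ := mul_le_mul_of_nonneg_right this (sq_nonneg _)
      rw [one_mul] at h2
      exact h2
    · rw [if_neg hC]
      refine sum_nonneg fun w _ => ?_
      rw [if_neg fun h => hC h.2.1]
  have claim2 : S2 ≤ 6 * N := by
    rw [hN, mul_sum]
    refine sum_le_sum fun v hv => ?_
    by_cases hC : IsC v
    · rw [if_pos hC]
      obtain ⟨q, hq, rfl⟩ := hC
      obtain ⟨g, rfl⟩ := ctr_trans hq
      rw [← sum_filter, sum_const, nsmul_eq_mul]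
      refine mul_le_mul_of_nonneg_right ?_ (sq_nonneg _)
      have h1 : (K.filter fun w => R (bv (g • p0)) w) ⊆
          K.filter (fun w => (Gr D).Adj (bv (g • p0)) w ∧ IsC w) := by
        intro w hw
        obtain ⟨h1, h2⟩ := mem_filter.1 hw
        exact mem_filter.2 ⟨h1, h2.1, h2.2.2⟩
      have h2 := card_le_card (h1.trans (filter_nb g K))
      have h3 := card_image_le (s := (univ : Finset (ZMod 6))) (f := fun i => bv (g • nb i))
      have h5 : (univ : Finset (ZMod 6)).card = 6 := by simp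
      rw [h5] at h3
      exact_mod_cast h2.trans h3
    · rw [if_neg hC, mul_zero]
      refine sum_nonpos fun w _ => ?_
      rw [if_neg fun h => hC h.2.1]
  have swap : ∀ F : V → V → ℝ, ∑ v ∈ K, ∑ w ∈ K, (if R v w then F v w else 0) =
      ∑ v ∈ K, ∑ w ∈ K, (if R v w then F w v else 0) := by
    intro F
    rw [sum_comm]
    refine sum_congr rfl fun v _ => sum_congr rfl fun w _ => ?_
    simp only [hRs w v]
  have e1 : S1 = ∑ v ∈ K, ∑ w ∈ K, if R v w then -(θ v w * φ w ^ 2) else 0 := by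
    rw [hS1, swap]
    refine sum_congr rfl fun v _ => sum_congr rfl fun w _ => ?_
    split_ifs
    · rw [hθs w v]; ring
    · rfl
  have e2 : S2 = ∑ v ∈ K, ∑ w ∈ K, if R v w then φ w ^ 2 else 0 := by
    rw [hS2, swap]
  have claim3 : 2 * S1 ≤ 6 * DK (Gr D) K φ φ + (1/12) * (2 * S2) := by
    have h1 : 2 * S1 = ∑ v ∈ K, ∑ w ∈ K, if R v w then θ v w * (φ v ^ 2 - φ w ^ 2) else 0 := by
      rw [two_mul]
      conv_lhs => rw [show S1 + S1 = (∑ v ∈ K, ∑ w ∈ K, if R v w then θ v w * φ v ^ 2 else 0) +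
        ∑ v ∈ K, ∑ w ∈ K, if R v w then -(θ v w * φ w ^ 2) else 0 by rw [← e1]]
      rw [← sum_add_distrib]
      refine sum_congr rfl fun v _ => ?_
      rw [← sum_add_distrib]
      refine sum_congr rfl fun w _ => ?_
      split_ifs <;> ring
    have h2 : 2 * S2 = ∑ v ∈ K, ∑ w ∈ K, if R v w then (φ v ^ 2 + φ w ^ 2) else 0 := by
      rw [two_mul]
      conv_lhs => rw [show S2 + S2 = (∑ v ∈ K, ∑ w ∈ K, if R v w then φ v ^ 2 else 0) +
        ∑ v ∈ K, ∑ w ∈ K, if R v w then φ w ^ 2 else 0 by rw [← e2]]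
      rw [← sum_add_distrib]
      refine sum_congr rfl fun v _ => ?_
      rw [← sum_add_distrib]
      refine sum_congr rfl fun w _ => ?_
      split_ifs <;> ring
    rw [h1, h2, DK, mul_sum, mul_sum, ← sum_add_distrib]
    refine sum_le_sum fun v _ => ?_
    rw [mul_sum, mul_sum, ← sum_add_distrib]
    refine sum_le_sum fun w _ => ?_
    by_cases hr : R v w
    · rw [if_pos hr, if_pos hr.1, if_pos hr]
      have hv := htp v hr.2.1
      have hw := htp w hr.2.2
      have hb : |θ v w| ≤ 1 := by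
        simp only [hθ]
        rw [abs_div, abs_of_pos (add_pos hw hv), div_le_one (add_pos hw hv), abs_le]
        constructor <;> linarith
      have h3 : θ v w * (φ v ^ 2 - φ w ^ 2) ≤ |φ v - φ w| * |φ v + φ w| := by
        calc θ v w * (φ v ^ 2 - φ w ^ 2) ≤ |θ v w * (φ v ^ 2 - φ w ^ 2)| := le_abs_self _
          _ = |θ v w| * |φ v ^ 2 - φ w ^ 2| := abs_mul _ _
          _ ≤ 1 * |φ v ^ 2 - φ w ^ 2| := mul_le_mul_of_nonneg_right hb (abs_nonneg _)
          _ = |φ v - φ w| * |φ v + φ w| := by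
              rw [one_mul, ← abs_mul]; congr 1; ring
      have h4 : |φ v - φ w| ^ 2 = (φ v - φ w) ^ 2 := sq_abs _
      have h5 : |φ v + φ w| ^ 2 = (φ v + φ w) ^ 2 := sq_abs _
      nlinarith [sq_nonneg (12 * |φ v - φ w| - |φ v + φ w|), sq_nonneg (φ v - φ w)]
    · rw [if_neg hr, if_neg hr]
      split_ifs
      · nlinarith [mul_self_nonneg (φ w - φ v)]
      · norm_num
  have claim4 : N ≤ 6 * DK (Gr D) K φ φ := by linarith
  refine le_trans ?_ claim4
  by_cases h0 : φ (bv p) = 0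
  · rw [h0]
    have : 0 ≤ N := sum_nonneg fun v _ => by split_ifs <;> positivity
    simpa using this
  · have hpS : bv p ∈ S := by
      by_contra h; exact h0 (hS _ h)
    have hpK : bv p ∈ K := subset_cl _ _ S hpS
    have hC : IsC (bv p) := ⟨p, hp, rfl⟩
    calc φ (bv p) ^ 2 = if IsC (bv p) then φ (bv p) ^ 2 else 0 := by rw [if_pos hC]
      _ ≤ N := single_le_sum (f := fun v => if IsC v then φ v ^ 2 else 0)
        (fun v _ => by
          show 0 ≤ if IsC v then φ v ^ 2 else 0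
          split_ifs <;> positivity) hpK

end Pool.Agent.H49.CP
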