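import Mathlib

set_option autoImplicit false

namespace Pool.Agent.H49.CP

/-- lattice -/
abbrev L := ℤ × ℤ × ℤ

/-- the form -/
def B (u v : L) : ℤ :=
  2 * u.1 * v.1 + u.1 * v.2.1 + u.2.1 * v.1 + 2 * u.2.1 * v.2.1 - u.2.2 * v.2.2

lemma B_def (u v : L) : B u v =
  2 * u.1 * v.1 + u.1 * v.2.1 + u.2.1 * v.1 + 2 * u.2.1 * v.2.1 - u.2.2 * v.2.2 := rfl

lemma B_comm (u v : L) : B u v = B v u := by simp only [B]; ring
lemma B_add_left (u v w : L) : B (u + v) w = B u w + B v w := by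
  simp only [B, Prod.fst_add, Prod.snd_add]; ring
lemma B_add_right (u v w : L) : B u (v + w) = B u v + B u w := by
  simp only [B, Prod.fst_add, Prod.snd_add]; ring
lemma B_sub_left (u v w : L) : B (u - v) w = B u w - B v w := by
  simp only [B, Prod.fst_sub, Prod.snd_sub]; ring
lemma B_sub_right (u v w : L) : B u (v - w) = B u v - B u w := by
  simp only [B, Prod.fst_sub, Prod.snd_sub]; ring
lemma B_neg_left (u v : L) : B (-u) v = -B u v := by
  simp only [B, Prod.fst_neg, Prod.snd_neg]; ring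
lemma B_neg_right (u v : L) : B u (-v) = -B u v := by
  simp only [B, Prod.fst_neg, Prod.snd_neg]; ring
lemma B_smul_left (n : ℤ) (u v : L) : B (n • u) v = n * B u v := by
  simp only [B, Prod.smul_fst, Prod.smul_snd, smul_eq_mul]; ring
lemma B_smul_right (n : ℤ) (u v : L) : B u (n • v) = n * B u v := by
  simp only [B, Prod.smul_fst, Prod.smul_snd, smul_eq_mul]; ring

/-- future timelike vectors -/
def Fut (u : L) : Prop := B u u < 0 ∧ 0 < u.2.2

lemma cs (u v : L) : (2 * u.1 * v.1 + u.1 * v.2.1 + u.2.1 * v.1 + 2 * u.2.1 * v.2.1) ^ 2 ≤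
    (2 * u.1 * u.1 + 2 * u.1 * u.2.1 + 2 * u.2.1 * u.2.1) *
      (2 * v.1 * v.1 + 2 * v.1 * v.2.1 + 2 * v.2.1 * v.2.1) := by
  nlinarith [sq_nonneg (u.1 * v.2.1 - u.2.1 * v.1)]

lemma n_nonneg (x y : ℤ) : 0 ≤ 2 * x * x + 2 * x * y + 2 * y * y := by
  nlinarith [sq_nonneg (x + y), sq_nonneg x, sq_nonneg y]

lemma Fut.neg {u v : L} (hu : Fut u) (hv : Fut v) : B u v < 0 := by
  obtain ⟨h1, h2⟩ := hu
  obtain ⟨h3, h4⟩ := hv
  have c := cs u v
  simp only [B] at h1 h3 ⊢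
  set s := 2 * u.1 * v.1 + u.1 * v.2.1 + u.2.1 * v.1 + 2 * u.2.1 * v.2.1 with hs
  set n := 2 * u.1 * u.1 + 2 * u.1 * u.2.1 + 2 * u.2.1 * u.2.1 with hn
  set m := 2 * v.1 * v.1 + 2 * v.1 * v.2.1 + 2 * v.2.1 * v.2.1 with hm
  have hn0 : 0 ≤ n := n_nonneg _ _
  have hm0 : 0 ≤ m := n_nonneg _ _
  have hn1 : n < u.2.2 * u.2.2 := by linarith
  have hm1 : m < v.2.2 * v.2.2 := by linarith
  by_contra hcon
  push Not at hcon
  have hpos : 0 < u.2.2 * v.2.2 := mul_pos h2 h4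
  have h5 : (u.2.2 * v.2.2) ^ 2 ≤ s ^ 2 := by nlinarith
  have h6 : n * m < (u.2.2 * v.2.2) ^ 2 := by
    have : n * m ≤ n * (v.2.2 * v.2.2) := mul_le_mul_of_nonneg_left hm1.le hn0
    have h7 : n * (v.2.2 * v.2.2) < (u.2.2 * u.2.2) * (v.2.2 * v.2.2) :=
      mul_lt_mul_of_pos_right hn1 (mul_pos h4 h4)
    nlinarith
  linarith

lemma n_zero {x y : ℤ} (h : 2 * x * x + 2 * x * y + 2 * y * y ≤ 0) : x = 0 ∧ y = 0 := by
  have h1 : x * x + y * y + (x + y) * (x + y) ≤ 0 := by nlinarith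
  constructor
  · by_contra h0
    have : 0 < x * x := mul_self_pos.2 h0
    nlinarith [mul_self_nonneg y, mul_self_nonneg (x + y)]
  · by_contra h0
    have : 0 < y * y := mul_self_pos.2 h0
    nlinarith [mul_self_nonneg x, mul_self_nonneg (x + y)]

lemma zero_of_orth {p w : L} (hp : B p p < 0) (h1 : B w p = 0) (h2 : B w w ≤ 0) : w = 0 := by
  have c := cs p w
  rw [B_comm] at h1
  simp only [B] at hp h1 h2
  set s := 2 * p.1 * w.1 + p.1 * w.2.1 + p.2.1 * w.1 + 2 * p.2.1 * w.2.1 with hs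
  set n := 2 * p.1 * p.1 + 2 * p.1 * p.2.1 + 2 * p.2.1 * p.2.1 with hn
  set m := 2 * w.1 * w.1 + 2 * w.1 * w.2.1 + 2 * w.2.1 * w.2.1 with hm
  have hn0 : 0 ≤ n := n_nonneg _ _
  have hm0 : 0 ≤ m := n_nonneg _ _
  have hn1 : n < p.2.2 * p.2.2 := by linarith
  have hm1 : m ≤ w.2.2 * w.2.2 := by linarith
  have hs1 : s = p.2.2 * w.2.2 := by linarith
  have hw : w.2.2 = 0 := by
    by_contra h0
    have h3 : 0 < w.2.2 * w.2.2 := mul_self_pos.2 h0
    have h4 : n * m ≤ n * (w.2.2 * w.2.2) := mul_le_mul_of_nonneg_left hm1 hn0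
    have h5 : n * (w.2.2 * w.2.2) < (p.2.2 * p.2.2) * (w.2.2 * w.2.2) :=
      mul_lt_mul_of_pos_right hn1 h3
    rw [hs1] at c
    nlinarith
  have hm2 : m ≤ 0 := by rw [hw] at hm1; simpa using hm1
  obtain ⟨h3, h4⟩ := n_zero hm2
  exact Prod.ext h3 (Prod.ext h4 hw)

/-- centres of hexagons -/
def Ctr (u : L) : Prop := B u u = -1 ∧ 0 < u.2.2
/-- corners of hexagons -/
def Cor (u : L) : Prop := B u u = -3 ∧ 0 < u.2.2

lemma Ctr.fut {u : L} (h : Ctr u) : Fut u := ⟨by rw [h.1]; norm_num, h.2⟩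
lemma Cor.fut {u : L} (h : Cor u) : Fut u := ⟨by rw [h.1]; norm_num, h.2⟩

lemma Ctr.parity {u : L} (h : Ctr u) : 2 ∣ u.1 ∧ 2 ∣ u.2.1 ∧ u.2.2 % 2 = 1 := by
  have h1 := h.1
  simp only [B] at h1
  obtain ⟨x, y, z⟩ := u
  simp only at h1 ⊢
  rcases Int.even_or_odd' x with ⟨a, ha | ha⟩ <;> rcases Int.even_or_odd' y with ⟨b, hb | hb⟩ <;>
  rcases Int.even_or_odd' z with ⟨c, hc | hc⟩ <;> subst ha hb hc <;> ring_nf at h1 <;> omega

lemma Ctr.ctr_odd {p q : L} (hp : Ctr p) (hq : Ctr q) : B p q % 2 = 1 := by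
  obtain ⟨⟨a, ha⟩, ⟨b, hb⟩, hc⟩ := hp.parity
  obtain ⟨-, -, hc'⟩ := hq.parity
  simp only [B, ha, hb]
  have : (p.2.2 * q.2.2) % 2 = 1 := by rw [Int.mul_emod, hc, hc']; rfl
  have e : 2 * (2 * a) * q.1 + 2 * a * q.2.1 + 2 * b * q.1 + 2 * (2 * b) * q.2.1 - p.2.2 * q.2.2 =
    2 * (2 * a * q.1 + a * q.2.1 + b * q.1 + 2 * b * q.2.1) - p.2.2 * q.2.2 := by ring
  rw [e]
  omega

lemma Ctr.ctr {p q : L} (hp : Ctr p) (hq : Ctr q) (h : p ≠ q) : B p q ≤ -3 := by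
  have h1 := hp.fut.neg hq.fut
  have h2 := hp.ctr_odd hq
  by_contra h3
  have h4 : B p q = -1 := by omega
  apply h
  have h5 : p - q = 0 := by
    apply zero_of_orth (p := p) (by rw [hp.1]; norm_num)
    · rw [B_sub_left, hp.1, B_comm q p, h4]; norm_num
    · rw [B_sub_left, B_sub_right, B_sub_right, hp.1, hq.1, B_comm q p, h4]; norm_num
  exact sub_eq_zero.1 h5

lemma Cor.mod3 {u : L} (h : Cor u) : 3 ∣ (u.1 - u.2.1) ∧ 3 ∣ u.2.2 := by
  have h1 := h.1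
  simp only [B] at h1
  obtain ⟨x, y, z⟩ := u
  simp only at h1 ⊢
  obtain ⟨a, r, ha, hr⟩ : ∃ a r : ℤ, x = y + 3 * a + r ∧ (r = 0 ∨ r = 1 ∨ r = 2) :=
    ⟨(x - y) / 3, (x - y) % 3, by omega, by omega⟩
  obtain ⟨c, s, hc, hs⟩ : ∃ c s : ℤ, z = 3 * c + s ∧ (s = 0 ∨ s = 1 ∨ s = 2) :=
    ⟨z / 3, z % 3, by omega, by omega⟩
  rcases hr with rfl | rfl | rfl <;> rcases hs with rfl | rfl | rfl <;> subst ha hc <;>
  ring_nf at h1 <;> omega

lemma Cor.dvd {q : L} (hq : Cor q) (v : L) : 3 ∣ B q v := by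
  obtain ⟨⟨a, ha⟩, ⟨c, hc⟩⟩ := hq.mod3
  have h1 : q.1 = q.2.1 + 3 * a := by linarith
  simp only [B, h1, hc]
  exact ⟨q.2.1 * v.1 + q.2.1 * v.2.1 + 2 * a * v.1 + a * v.2.1 - c * v.2.2, by ring⟩

lemma Cor.le {q v : L} (hq : Cor q) (hv : Fut v) : B q v ≤ -3 := by
  have h1 := hq.fut.neg hv
  obtain ⟨c, hc⟩ := hq.dvd v
  omega

lemma Cor.cor {p q : L} (hp : Cor p) (hq : Cor q) (h : p ≠ q) : B p q ≤ -6 := by
  have h1 := hp.fut.neg hq.fut
  obtain ⟨c, hc⟩ := hp.dvd q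
  by_contra h3
  have h4 : B p q = -3 := by omega
  apply h
  have h5 : p - q = 0 := by
    apply zero_of_orth (p := p) (by rw [hp.1]; norm_num)
    · rw [B_sub_left, hp.1, B_comm q p, h4]; norm_num
    · rw [B_sub_left, B_sub_right, B_sub_right, hp.1, hq.1, B_comm q p, h4]; norm_num
  exact sub_eq_zero.1 h5

lemma Ctr.ne_cor {u : L} (h : Ctr u) : ¬ Cor u := fun h' => by
  have := h.1.symm.trans h'.1
  norm_num at this

/-- The group of isometries of the lattice preserving the future cone. -/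
def Γ : Subgroup (L ≃ₗ[ℤ] L) where
  carrier := {f | (∀ u v, B (f u) (f v) = B u v) ∧ ∀ u, B u u < 0 → (0 < (f u).2.2 ↔ 0 < u.2.2)}
  mul_mem' := by
    rintro f g ⟨hf, hf'⟩ ⟨hg, hg'⟩
    refine ⟨fun u v => ?_, fun u hu => ?_⟩
    · rw [LinearEquiv.mul_apply, LinearEquiv.mul_apply, hf, hg]
    · rw [LinearEquiv.mul_apply, hf' _ (by rw [hg]; exact hu), hg' _ hu]
  one_mem' := ⟨fun _ _ => rfl, fun _ _ => Iff.rfl⟩
  inv_mem' := by
    rintro f ⟨hf, hf'⟩
    have e : ∀ u, f (f⁻¹ u) = u := fun u => f.apply_symm_apply u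
    refine ⟨fun u v => ?_, fun u hu => ?_⟩
    · rw [← hf, e, e]
    · rw [← hf' _ (by rw [← hf, e]; exact hu), e]

instance : MulAction Γ L := inferInstance

lemma B_act (g : Γ) (u v : L) : B (g • u) (g • v) = B u v := g.2.1 u v
lemma fut_act (g : Γ) {u : L} (h : B u u < 0) : 0 < (g • u).2.2 ↔ 0 < u.2.2 := g.2.2 u h
lemma act_add (g : Γ) (u v : L) : g • (u + v) = g • u + g • v := map_add g.1 u v
lemma act_sub (g : Γ) (u v : L) : g • (u - v) = g • u - g • v := map_sub g.1 u v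
lemma act_neg (g : Γ) (u : L) : g • (-u) = -(g • u) := map_neg g.1 u
lemma act_zsmul (g : Γ) (n : ℤ) (u : L) : g • (n • u) = n • (g • u) := map_zsmul g.1 n u
lemma act_zero (g : Γ) : g • (0 : L) = 0 := map_zero g.1

lemma Fut.act {u : L} (h : Fut u) (g : Γ) : Fut (g • u) :=
  ⟨by rw [B_act]; exact h.1, (fut_act g h.1).2 h.2⟩
lemma Ctr.act {u : L} (h : Ctr u) (g : Γ) : Ctr (g • u) :=
  ⟨by rw [B_act]; exact h.1, (fut_act g h.fut.1).2 h.2⟩
lemma Cor.act {u : L} (h : Cor u) (g : Γ) : Cor (g • u) :=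
  ⟨by rw [B_act]; exact h.1, (fut_act g h.fut.1).2 h.2⟩
lemma ctr_act (g : Γ) (u : L) : Ctr (g • u) ↔ Ctr u :=
  ⟨fun h => by have := h.act g⁻¹; rwa [inv_smul_smul] at this, fun h => h.act g⟩
lemma cor_act (g : Γ) (u : L) : Cor (g • u) ↔ Cor u :=
  ⟨fun h => by have := h.act g⁻¹; rwa [inv_smul_smul] at this, fun h => h.act g⟩

/-- make an isometry from explicit data -/
def mk (f g : L → L) (h1 : ∀ u, g (f u) = u) (h2 : ∀ u, f (g u) = u)
    (ha : ∀ u v, f (u + v) = f u + f v) (hB : ∀ u v, B (f u) (f v) = B u v)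
    (h0 : 0 < (f (0, 0, 1)).2.2) : Γ :=
  ⟨{ toFun := f, invFun := g, left_inv := h1, right_inv := h2, map_add' := ha,
     map_smul' := fun n u => by
      have : f (n • u) = n • f u := map_zsmul (AddMonoidHom.mk' f ha) n u
      simpa using this },
   fun u v => hB u v, fun u hu => by
    change 0 < (f u).2.2 ↔ 0 < u.2.2
    have key : ∀ u, B u u < 0 → 0 < u.2.2 → 0 < (f u).2.2 := by
      intro u hu hz
      by_contra hcon
      push Not at hcon
      have hne : (f u).2.2 ≠ 0 := by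
        intro h0
        have h1 : B (f u) (f u) < 0 := by rw [hB]; exact hu
        simp only [B, h0] at h1
        nlinarith [n_nonneg (f u).1 (f u).2.1]
      have h3 : Fut (-(f u)) := ⟨by rw [B_neg_left, B_neg_right, hB]; simpa using hu, by
        simp only [Prod.snd_neg]; omega⟩
      have h4 : Fut (f (0, 0, 1)) := ⟨by rw [hB]; simp [B], h0⟩
      have h5 := h3.neg h4
      rw [B_neg_left, hB] at h5
      have h6 : Fut ((0, 0, 1) : L) := ⟨by simp [B], by simp⟩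
      have h7 := Fut.neg ⟨hu, hz⟩ h6
      omega
    refine ⟨fun h => ?_, key u hu⟩
    by_contra hcon
    push Not at hcon
    have hne : u.2.2 ≠ 0 := by
      intro h0
      simp only [B, h0] at hu
      nlinarith [n_nonneg u.1 u.2.1]
    have h8 := key (-u) (by rw [B_neg_left, B_neg_right]; simpa using hu) (by
      simp only [Prod.snd_neg]; omega)
    have h9 : f (-u) = -f u := map_neg (AddMonoidHom.mk' f ha) u
    rw [h9] at h8
    simp only [Prod.snd_neg] at h8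
    omega⟩

lemma mk_smul (f g : L → L) (h1 h2 ha hB h0) (u : L) : mk f g h1 h2 ha hB h0 • u = f u := rfl

/-- rotation of order six about `p0` -/
def rot : Γ := mk (fun u => (-u.2.1, u.1 + u.2.1, u.2.2)) (fun u => (u.1 + u.2.1, -u.1, u.2.2))
  (fun u => by ext <;> simp) (fun u => by ext <;> simp)
  (fun u v => by ext <;> simp <;> ring) (fun u v => by simp only [B]; ring) (by simp)

/-- reflection fixing `p0` and `p1` -/
def tau : Γ := mk (fun u => (u.1 + u.2.1, -u.2.1, u.2.2)) (fun u => (u.1 + u.2.1, -u.2.1, u.2.2))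
  (fun u => by ext <;> simp) (fun u => by ext <;> simp)
  (fun u v => by ext <;> simp <;> ring) (fun u v => by simp only [B]; ring) (by simp)

/-- reflection fixing `p0` and exchanging the first two coordinates -/
def sw : Γ := mk (fun u => (u.2.1, u.1, u.2.2)) (fun u => (u.2.1, u.1, u.2.2))
  (fun u => by ext <;> simp) (fun u => by ext <;> simp)
  (fun u v => by ext <;> simp) (fun u v => by simp only [B]; ring) (by simp)

/-- reflection in the side between `p0` and `p1` -/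
def sig : Γ := mk (fun u => (-3 * u.1 - 2 * u.2.1 + 2 * u.2.2, u.2.1, -4 * u.1 - 2 * u.2.1 + 3 * u.2.2))
  (fun u => (-3 * u.1 - 2 * u.2.1 + 2 * u.2.2, u.2.1, -4 * u.1 - 2 * u.2.1 + 3 * u.2.2))
  (fun u => by ext <;> simp <;> ring) (fun u => by ext <;> simp <;> ring)
  (fun u v => by ext <;> simp <;> ring) (fun u v => by simp only [B]; ring) (by simp)

lemma rot_smul (u : L) : rot • u = (-u.2.1, u.1 + u.2.1, u.2.2) := rfl
lemma tau_smul (u : L) : tau • u = (u.1 + u.2.1, -u.2.1, u.2.2) := rfl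
lemma sw_smul (u : L) : sw • u = (u.2.1, u.1, u.2.2) := rfl
lemma sig_smul (u : L) : sig • u =
  (-3 * u.1 - 2 * u.2.1 + 2 * u.2.2, u.2.1, -4 * u.1 - 2 * u.2.1 + 3 * u.2.2) := rfl

def p0 : L := (0, 0, 1)
def p1 : L := (2, 0, 3)
def q0 : L := (1, 1, 3)

lemma ctr_p0 : Ctr p0 := ⟨by simp [B, p0], by simp [p0]⟩
lemma ctr_p1 : Ctr p1 := ⟨by simp [B, p1], by simp [p1]⟩
lemma cor_q0 : Cor q0 := ⟨by simp [B, q0], by simp [q0]⟩

end Pool.Agent.H49.CP
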