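import Pool.Agent.H49.CP.Stay

set_option autoImplicit false

namespace Pool.Agent.H49.CP

open Finset MeasureTheory Filter Topology
open scoped ENNReal

variable {D : L → ℕ}

/-- side function on the plane -/
noncomputable def ell (ν : L) (z : ℂ) : ℝ := (z * (starRingEnd ℂ) (hc (ι ν))).re - ν.2.2

lemma Fn_1 (u q : L) (l : ℕ) : (Fn u q l).1 = ((2 * l : ℝ) * (s2 / 2) + (l:ℝ) ^ 2) • ι u +
    ((1 + 2 * s3 / 3) + (2 * l : ℝ) * (s2 * s3 / 3)) • ι q := by
  simp only [Fn, Q, dl, Nv]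
  ext <;> simp <;> ring

lemma side_pos {v : V} (hv : Act D v) {ν : L} (hν : Nu ν) (h : v ∈ Sd ν) :
    0 < BR (Xv v).1 (ι ν) := by
  have g2 := s2_gt
  have g3 := s3_gt
  have hn := hν.norm
  rw [mem_Sd] at h
  rcases hv.cases with ⟨p, hp, rfl⟩ | ⟨q, hq, rfl⟩ | ⟨p, p', q, l, F, hl, hD, rfl⟩
  · rw [Xv_ctr hp]
    simp only [P, BR_ι]
    exact_mod_cast h
  · rw [Xv_cor hq]
    simp only [Q, BR_smul_left, BR_ι]
    have : (0:ℝ) < B q ν := by exact_mod_cast h
    positivity
  · rw [Xv_fan hl, Fn_1, BR_add_left, BR_smul_left, BR_smul_left, BR_ι, BR_ι]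
    have h1 : (0:ℝ) < B (p + p') ν := by exact_mod_cast h
    have h2 : 0 ≤ B q ν := by
      by_contra hcon
      push Not at hcon
      simp only [B_add_left] at h
      have o1 := hν.odd F.hp
      have o2 := hν.odd F.hp'
      rcases le_or_gt 1 (B p ν) with h3 | h3
      · have := (opq F.hp F.hq F.hpq hn h3 hcon.le).2
        omega
      · have := (opq F.hp' F.hq F.hpq' hn (by omega) hcon.le).2
        omega
    have h3 : (0:ℝ) ≤ B q ν := by exact_mod_cast h2
    have h4 : (1:ℝ) ≤ l := by exact_mod_cast hl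
    positivity

lemma side_iff {v : V} (hv : Act D v) {ν : L} (hν : Nu ν) :
    v ∈ Sd ν ↔ 0 < BR (Xv v).1 (ι ν) := by
  refine ⟨side_pos hv hν, fun h => ?_⟩
  have hn := hν.norm
  have hneg : ∀ y : E, BR y (ι (-ν)) = -BR y (ι ν) := by
    intro y
    simp only [BR, ι_neg, Prod.fst_neg, Prod.snd_neg]; ring
  by_contra hcon
  rw [mem_Sd] at hcon
  push Not at hcon
  rcases lt_or_eq_of_le hcon with h1 | h1
  · have h2 : v ∈ Sd (-ν) := by rw [mem_Sd, B_neg_right]; omega
    have := side_pos hv hν.neg h2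
    rw [hneg] at this
    linarith
  · rcases hv.cases with ⟨p, hp, rfl⟩ | ⟨q, hq, rfl⟩ | ⟨p, p', q, l, F, hl, hD, rfl⟩
    · rw [Xv_ctr hp] at h
      simp only [P, BR_ι] at h
      simp only [bv] at h1
      rw [h1] at h; norm_num at h
    · rw [Xv_cor hq] at h
      simp only [Q, BR_smul_left, BR_ι] at h
      simp only [bv] at h1
      rw [h1] at h; norm_num at h
    · rw [Xv_fan hl, Fn_1, BR_add_left, BR_smul_left, BR_smul_left, BR_ι, BR_ι] at h
      simp only at h1
      rw [h1] at h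
      have h2 : B q ν ≠ 0 := by
        intro h0; rw [h0] at h; norm_num at h
      rw [B_add_left] at h1
      have o1 := hν.odd F.hp
      have o2 := hν.odd F.hp'
      have hn' : B (-ν) (-ν) = 1 := by rw [B_neg_left, B_neg_right, hn]; norm_num
      rcases lt_or_gt_of_ne h2 with h3 | h3
      · rcases le_or_gt 1 (B p ν) with h4 | h4
        · have := (opq F.hp F.hq F.hpq hn h4 h3.le).2
          omega
        · have := (opq F.hp' F.hq F.hpq' hn (by omega) h3.le).2
          omega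
      · rcases le_or_gt 1 (B p ν) with h4 | h4
        · have := (opq (ν := -ν) F.hp' F.hq F.hpq' hn' (by rw [B_neg_right]; omega)
            (by rw [B_neg_right]; omega)).2
          rw [B_neg_right] at this; omega
        · have := (opq (ν := -ν) F.hp F.hq F.hpq hn' (by rw [B_neg_right]; omega)
            (by rw [B_neg_right]; omega)).2
          rw [B_neg_right] at this; omega

lemma side_eq {v : V} (hv : Act D v) (ν : L) : ∃ t : ℝ, 0 ≤ t ∧ t ≤ 1 - ‖cen (Xv v)‖ ∧
    BR (Xv v).1 (ι ν) / cv (Xv v) = ell ν (cen (Xv v)) + ν.2.2 * t := by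
  set X := Xv v with hX
  have hz := hv.z
  have hC := hv.C
  have hu := hv.unit
  have hb := hv.cv
  rw [← hX] at hz hC hu hb
  refine ⟨X.2 / cv X, by positivity, ?_, ?_⟩
  · have h1 : ‖cen X‖ ≤ X.1.2.2 / cv X := by
      apply le_of_sq_le_sq _ (by positivity)
      rw [← Complex.normSq_eq_norm_sq]
      simp only [cen, Complex.normSq_div, Complex.normSq_ofReal, normSq_hc]
      rw [div_pow, ← sq]
      apply div_le_div_of_nonneg_right _ (by positivity)
      simp only [B4] at hu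
      nlinarith
    have h2 : X.2 / cv X = 1 - X.1.2.2 / cv X := by
      rw [eq_sub_iff_add_eq, ← add_div, div_eq_one_iff_eq hb.ne']
      simp only [cv]; ring
    linarith
  · have h1 : (cen X * (starRingEnd ℂ) (hc (ι ν))).re =
        (BR X.1 (ι ν) + X.1.2.2 * ν.2.2) / cv X := by
      have h2 := re_hc X.1 (ι ν)
      rw [ι_3] at h2
      rw [← h2]
      simp only [cen]
      rw [div_mul_eq_mul_div, Complex.div_ofReal_re]
    simp only [ell]
    rw [h1]
    have h3 : cv X = X.1.2.2 + X.2 := rfl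
    field_simp
    rw [h3]; ring

lemma ell_cont (ν : L) : Continuous (ell ν) := by
  unfold ell
  fun_prop

lemma side_lim {x : ℕ → V} (hx : ∀ n, Act D (x n)) {z : ℂ} (hz : ‖z‖ = 1)
    (h : Tendsto (fun n => pos D (x n)) atTop (𝓝 z)) (ν : L) :
    Tendsto (fun n => BR (Xv (x n)).1 (ι ν) / cv (Xv (x n))) atTop (𝓝 (ell ν z)) := by
  choose t ht0 ht1 ht2 using fun n => side_eq (hx n) ν
  have h1 : ∀ n, pos D (x n) = cen (Xv (x n)) := fun n => pos_act (hx n)
  have ht : Tendsto t atTop (𝓝 0) := by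
    have h2 : Tendsto (fun n => 1 - ‖cen (Xv (x n))‖) atTop (𝓝 (1 - ‖z‖)) := by
      refine Tendsto.const_sub 1 ?_
      refine h.norm.congr fun n => ?_
      rw [h1]
    rw [hz, sub_self] at h2
    exact squeeze_zero ht0 ht1 h2
  have h3 : Tendsto (fun n => ell ν (cen (Xv (x n))) + ν.2.2 * t n) atTop
      (𝓝 (ell ν z + ν.2.2 * 0)) := by
    refine Tendsto.add ?_ (ht.const_mul _)
    refine (((ell_cont ν).tendsto z).comp h).congr fun n => ?_
    simp only [Function.comp, h1]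
  rw [mul_zero, add_zero] at h3
  exact h3.congr fun n => (ht2 n).symm

lemma ev_side {x : ℕ → V} (hx : ∀ n, Act D (x n)) {z : ℂ} (hz : ‖z‖ = 1)
    (h : Tendsto (fun n => pos D (x n)) atTop (𝓝 z)) {ν : L} (hν : Nu ν) (hl : 0 < ell ν z) :
    ∀ᶠ n in atTop, x n ∈ Sd ν := by
  have h1 := side_lim hx hz h ν
  filter_upwards [h1.eventually_const_lt hl] with n hn
  rw [side_iff (hx n) hν]
  have hb := (hx n).cv
  by_contra hcon
  push Not at hcon
  have := div_nonpos_of_nonpos_of_nonneg hcon hb.le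
  linarith

lemma side_ev {x : ℕ → V} (hx : ∀ n, Act D (x n)) {z : ℂ} (hz : ‖z‖ = 1)
    (h : Tendsto (fun n => pos D (x n)) atTop (𝓝 z)) {ν : L} (hν : Nu ν)
    (he : ∀ᶠ n in atTop, x n ∈ Sd ν) : 0 ≤ ell ν z := by
  have h1 := side_lim hx hz h ν
  refine ge_of_tendsto h1 ?_
  filter_upwards [he] with n hn
  rw [side_iff (hx n) hν] at hn
  exact div_nonneg hn.le (hx n).cv.le

lemma six_sides {z : ℂ} (hz : ‖z‖ = 1) : ∃ i, 0 < ell (nn i) z := by
  by_contra hcon
  push Not at hcon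
  have g2 : Real.sqrt 2 ^ 2 = 2 := Real.sq_sqrt (by norm_num)
  have g3 : Real.sqrt 3 ^ 2 = 3 := Real.sq_sqrt (by norm_num)
  have hn : z.re ^ 2 + z.im ^ 2 = 1 := by
    have : Complex.normSq z = 1 := by rw [Complex.normSq_eq_norm_sq, hz]; norm_num
    rw [Complex.normSq_apply] at this
    nlinarith
  set a := z.re
  set b := z.im
  set r := Real.sqrt 2
  set s := Real.sqrt 3
  have h0 := hcon 0
  have h1 := hcon 1
  have h2 := hcon 2
  have h3 := hcon 3
  have h4 := hcon 4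
  have h5 := hcon 5
  simp only [ell, nn, hc, ι, Complex.mul_re, Complex.conj_re, Complex.conj_im] at h0 h1 h2 h3 h4 h5
  push_cast at h0 h1 h2 h3 h4 h5
  have k0 : (r * a) ^ 2 ≤ 1 := by
    rw [sq_le_one_iff_abs_le_one, abs_le]
    constructor <;> linarith
  have k1 : (r * (a / 2 + s / 2 * b)) ^ 2 ≤ 1 := by
    rw [sq_le_one_iff_abs_le_one, abs_le]
    constructor <;> linarith
  have k2 : (r * (-a / 2 + s / 2 * b)) ^ 2 ≤ 1 := by
    rw [sq_le_one_iff_abs_le_one, abs_le]
    constructor <;> linarith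
  have e0 : (r * a) ^ 2 = 2 * a ^ 2 := by rw [mul_pow, g2]
  have e1 : (r * (a / 2 + s / 2 * b)) ^ 2 = a ^ 2 / 2 + s * a * b + 3 / 2 * b ^ 2 := by
    rw [mul_pow, g2]; linear_combination (b ^ 2 / 2) * g3
  have e2 : (r * (-a / 2 + s / 2 * b)) ^ 2 = a ^ 2 / 2 - s * a * b + 3 / 2 * b ^ 2 := by
    rw [mul_pow, g2]; linear_combination (b ^ 2 / 2) * g3
  rw [e0] at k0
  rw [e1] at k1
  rw [e2] at k2
  have l0 : a ^ 2 = 1 / 2 := by nlinarith
  have l1 : b ^ 2 = 1 / 2 := by linarith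
  have l2 : s * a * b = 0 := by nlinarith
  have l3 : (s * a * b) ^ 2 = 3 / 4 := by
    rw [mul_pow, mul_pow, g3, l0, l1]; norm_num
  rw [l2] at l3
  norm_num at l3

/-- points of the circle on the positive side of a line form a short arc -/
lemma arc_of {ν : L} (hν : B ν ν = 1) (hz : 0 < ν.2.2) {z : ℂ} (hzn : ‖z‖ = 1) (h : 0 ≤ ell ν z) :
    ∃ t : ℝ, |t - (hc (ι ν)).arg| ≤ 1 / ν.2.2 ∧ z = Complex.exp (t * Complex.I) := by
  set w := hc (ι ν) with hw
  have hzR : (0:ℝ) < ν.2.2 := by exact_mod_cast hz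
  have hwn : ‖w‖ ^ 2 = 1 + (ν.2.2 : ℝ) ^ 2 := by
    rw [← Complex.normSq_eq_norm_sq, hw, normSq_hc, BR_ι, hν]
    push_cast; rfl
  have hw0 : 0 < ‖w‖ := by
    by_contra hcon
    have : ‖w‖ = 0 := le_antisymm (not_lt.1 hcon) (norm_nonneg _)
    rw [this] at hwn
    nlinarith
  -- the angle between them
  set θ := (z / w).arg with hθ
  have hwne : w ≠ 0 := norm_pos_iff.1 hw0
  have hzw : z = w * (z / w) := by field_simp
  have hzwn : ‖z / w‖ = 1 / ‖w‖ := by rw [norm_div, hzn]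
  have e1 : z / w = (‖z / w‖ : ℂ) * Complex.exp (θ * Complex.I) :=
    (Complex.norm_mul_exp_arg_mul_I (z / w)).symm
  have e2 : w = (‖w‖ : ℂ) * Complex.exp (w.arg * Complex.I) :=
    (Complex.norm_mul_exp_arg_mul_I w).symm
  refine ⟨θ + w.arg, ?_, ?_⟩
  · rw [add_sub_cancel_right]
    have h1 : Real.cos θ = (z / w).re / ‖z / w‖ := by
      rw [hθ, Complex.cos_arg]
      intro h0
      rw [h0, norm_zero] at hzwn
      have : (0:ℝ) < 1 / ‖w‖ := by positivity
      linarith
    have h2 : (z / w).re = (z * (starRingEnd ℂ) w).re / ‖w‖ ^ 2 := by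
      rw [Complex.div_re, Complex.mul_re, Complex.conj_re, Complex.conj_im, ←
        Complex.normSq_eq_norm_sq, ← add_div]
      congr 1
      ring
    have h3 : (ν.2.2 : ℝ) / ‖w‖ ≤ Real.cos θ := by
      rw [h1, h2, hzwn]
      simp only [ell] at h
      rw [div_div_eq_mul_div, _root_.div_one]
      rw [div_mul_eq_mul_div, div_le_div_iff₀ hw0 (by positivity)]
      nlinarith
    have h4 : Real.cos θ ≤ 1 / Real.sqrt (θ ^ 2 + 1) := by
      refine Real.cos_le_one_div_sqrt_sq_add_one ?_ ?_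
      · have := Complex.neg_pi_lt_arg (z / w)
        have := Real.pi_pos
        linarith
      · have := Complex.arg_le_pi (z / w)
        have := Real.pi_pos
        linarith
    have h5 : 0 < Real.sqrt (θ ^ 2 + 1) := Real.sqrt_pos.2 (by positivity)
    have h6 := h3.trans h4
    rw [div_le_div_iff₀ hw0 h5, one_mul] at h6
    have h7 : ((ν.2.2 : ℝ) * Real.sqrt (θ ^ 2 + 1)) ^ 2 ≤ ‖w‖ ^ 2 :=
      pow_le_pow_left₀ (by positivity) h6 2
    rw [mul_pow, Real.sq_sqrt (by positivity), hwn] at h7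
    have h8 : ((ν.2.2 : ℝ) * θ) ^ 2 ≤ 1 := by nlinarith
    rw [sq_le_one_iff_abs_le_one, abs_mul, abs_of_pos hzR] at h8
    rw [le_div_iff₀ hzR]; linarith
  · push_cast
    rw [add_mul, Complex.exp_add]
    have h1 : z = (‖w‖ * ‖z / w‖ : ℂ) * (Complex.exp (θ * Complex.I) *
        Complex.exp (w.arg * Complex.I)) := by
      calc z = w * (z / w) := hzw
        _ = ((‖w‖ : ℂ) * Complex.exp (w.arg * Complex.I)) *
            ((‖z / w‖ : ℂ) * Complex.exp (θ * Complex.I)) := by rw [← e1, ← e2]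
        _ = _ := by ring
    rw [h1]
    have h2 : ((‖w‖ : ℂ) * (‖z / w‖ : ℂ)) = 1 := by
      have : (‖w‖ : ℂ) ≠ 0 := by exact_mod_cast hw0.ne'
      rw [hzwn]; push_cast; field_simp
    rw [h2, one_mul]

end Pool.Agent.H49.CP
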