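import Pool.Agent.H49.CP.Env

set_option autoImplicit false

namespace Pool.Agent.H49.CP

open Finset MeasureTheory Filter Topology
open scoped ENNReal

lemma dir_iff {p p' : L} (hp : Ctr p) (hp' : Ctr p') (h : B p p' = -3) (y : L) :
    Dir (p + p') y ↔ y = p ∨ y = p' := by
  constructor
  · rintro ⟨h1, h2, h3⟩
    by_contra hcon
    push Not at hcon
    have a1 := h1.ctr hp hcon.1
    have a2 := h1.ctr hp' hcon.2
    rw [B_sub_right, B_add_right, h1.1] at h3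
    linarith
  · rintro (rfl | rfl)
    · rw [Dir, add_sub_cancel_left]; exact ⟨hp, hp', h⟩
    · rw [Dir, add_sub_cancel_right]; exact ⟨hp', hp, by rw [B_comm]; exact h⟩

lemma adj_ne {p p' : L} (hp : Ctr p) (h : B p p' = -3) : p ≠ p' := by
  rintro rfl
  rw [hp.1] at h; norm_num at h

lemma SS_le (ω : Om) {p p' : L} (hp : Ctr p) (hp' : Ctr p') (h : B p p' = -3) :
    SS ω (p + p') ≤ TT ω (p, p') + TT ω (p', p) := by
  classical
  unfold SS TT
  rw [← ENNReal.tsum_add]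
  refine ENNReal.tsum_le_tsum fun i => ?_
  split_ifs with hL
  · obtain ⟨y, hy, s, hs, ht⟩ := hL
    have key : ∀ e : L × L, ω (i, bk^[s] e) = true →
        (2:ℝ≥0∞) ^ i ≤ ∑ s ∈ range (i ^ 3), 2 ^ i * ind (ω (i, bk^[s] e)) := by
      intro e he
      calc (2:ℝ≥0∞) ^ i = 2 ^ i * ind (ω (i, bk^[s] e)) := by rw [he]; simp [ind]
        _ ≤ _ := single_le_sum (f := fun s => (2:ℝ≥0∞) ^ i * ind (ω (i, bk^[s] e)))
          (fun _ _ => zero_le) (mem_range.2 hs)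
    rcases (dir_iff hp hp' h y).1 hy with rfl | rfl
    · rw [add_sub_cancel_left] at ht
      exact (key _ ht).trans le_self_add
    · rw [add_sub_cancel_right] at ht
      exact (key _ ht).trans le_add_self
  · exact zero_le

/-- series constant -/
noncomputable def c1 : ℝ≥0∞ := ∑' i : ℕ, (i ^ 3 : ℕ) * (2 ^ i)⁻¹

lemma c1_ne_top : c1 ≠ ⊤ := by
  have h := summable_pow_mul_geometric_of_norm_lt_one (R := ℝ) 3 (r := 1/2) (by norm_num)
  have e : c1 = ∑' i : ℕ, ENNReal.ofReal ((i:ℝ) ^ 3 * (1 / 2) ^ i) := by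
    unfold c1
    refine tsum_congr fun i => ?_
    rw [ENNReal.ofReal_mul (by positivity), ENNReal.ofReal_pow (by positivity),
      ENNReal.ofReal_natCast, ENNReal.ofReal_pow (by norm_num)]
    push_cast
    congr 1
    rw [one_div, ENNReal.ofReal_inv_of_pos (by norm_num), ENNReal.inv_pow]
    congr 2
    simp
  rw [e]
  exact h.tsum_ofReal_ne_top

lemma int_ind (k : Ix) : ∫⁻ ω, ind (ω k) ∂Pm = qq k.1 := by
  have : (fun ω : Om => ind (ω k)) = ({ω : Om | ω k = true}).indicator 1 := by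
    ext ω
    simp only [ind, Set.indicator, Set.mem_setOf_eq, Pi.one_apply]
  rw [this, lintegral_indicator_one (meas_coord k true), Pm_true]

lemma ind_le (b : Bool) : ind b ≤ 1 := by
  unfold ind; split_ifs <;> simp

lemma int_ind2 (k k' : Ix) : ∫⁻ ω, ind (ω k) * ind (ω k') ∂Pm ≤ (4 ^ k.1)⁻¹ * (4 ^ k'.1)⁻¹ := by
  have key : ∀ k k' : Ix, k'.1 ≤ k.1 → ∫⁻ ω, ind (ω k) * ind (ω k') ∂Pm ≤
      (4 ^ k.1)⁻¹ * (4 ^ k'.1)⁻¹ := by
    intro k k' h
    calc ∫⁻ ω, ind (ω k) * ind (ω k') ∂Pm ≤ ∫⁻ ω, ind (ω k) ∂Pm := by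
          refine lintegral_mono fun ω => ?_
          calc ind (ω k) * ind (ω k') ≤ ind (ω k) * 1 := mul_le_mul_right (ind_le _) _
            _ = _ := mul_one _
      _ = (4 ^ k.1)⁻¹ * (4 ^ k.1)⁻¹ := by
          rw [int_ind, qq, ← ENNReal.mul_inv (Or.inl (by positivity)) (Or.inl (by finiteness)),
            ← mul_pow]
          norm_num
      _ ≤ _ := by
          refine mul_le_mul_right ?_ _
          rw [ENNReal.inv_le_inv]
          exact pow_le_pow_right₀ (by norm_num) h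
  rcases le_total k'.1 k.1 with h | h
  · exact key k k' h
  · have := key k' k h
    rw [mul_comm ((4 ^ k'.1)⁻¹ : ℝ≥0∞)] at this
    refine le_trans (le_of_eq ?_) this
    exact lintegral_congr fun ω => mul_comm _ _

lemma meas_ci (c : ℝ≥0∞) (k : Ix) : Measurable fun ω : Om => c * ind (ω k) :=
  (meas_ind.comp (measurable_pi_apply k)).const_mul c

lemma meas_cc (c d : ℝ≥0∞) (k k' : Ix) :
    Measurable fun ω : Om => c * ind (ω k) * (d * ind (ω k')) :=
  (meas_ci c k).mul (meas_ci d k')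

lemma meas_ik (k : Ix) : Measurable fun ω : Om => ind (ω k) :=
  meas_ind.comp (measurable_pi_apply k)
lemma meas_i2 (k k' : Ix) : Measurable fun ω : Om => ind (ω k) * ind (ω k') :=
  (meas_ik k).mul (meas_ik k')

lemma int_TT2 (e : L × L) : ∫⁻ ω, TT ω e ^ 2 ∂Pm ≤ c1 ^ 2 := by
  set t : ℕ → Om → ℝ≥0∞ := fun i ω => ∑ s ∈ range (i ^ 3), 2 ^ i * ind (ω (i, bk^[s] e)) with ht
  have hmt : ∀ i, Measurable (t i) := fun i => Finset.measurable_sum _ fun s _ =>
    (meas_ind.comp (measurable_pi_apply _)).const_mul _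
  have h1 : ∀ ω, TT ω e ^ 2 = ∑' i, ∑' j, t i ω * t j ω := by
    intro ω
    simp only [ENNReal.tsum_mul_left, ENNReal.tsum_mul_right]
    rw [sq]; rfl
  have hm2 : ∀ i j, Measurable fun ω => t i ω * t j ω := fun i j => (hmt i).mul (hmt j)
  have hm3 : ∀ i, Measurable fun ω => ∑' j, t i ω * t j ω := fun i => Measurable.tsum fun j => hm2 i j
  rw [lintegral_congr h1, lintegral_tsum fun i => (hm3 i).aemeasurable]
  have h2 : c1 ^ 2 = ∑' i : ℕ, ∑' j : ℕ, ((i ^ 3 : ℕ) * (2 ^ i)⁻¹ : ℝ≥0∞) * ((j ^ 3 : ℕ) * (2 ^ j)⁻¹) := by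
    simp only [ENNReal.tsum_mul_left, ENNReal.tsum_mul_right]
    rw [sq]; rfl
  rw [h2]
  refine ENNReal.tsum_le_tsum fun i => ?_
  rw [lintegral_tsum fun j => (hm2 i j).aemeasurable]
  refine ENNReal.tsum_le_tsum fun j => ?_
  simp only [ht, sum_mul_sum]
  rw [lintegral_finset_sum _ fun s _ => Finset.measurable_sum _ fun s' _ => meas_cc _ _ (i, bk^[s] e) (j, bk^[s'] e)]
  have h3 : ∀ s ∈ range (i ^ 3), ∫⁻ ω : Om, ∑ s' ∈ range (j ^ 3),
      2 ^ i * ind (ω (i, bk^[s] e)) * (2 ^ j * ind (ω (j, bk^[s'] e))) ∂Pm ≤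
      (j ^ 3 : ℕ) * ((2 ^ i)⁻¹ * (2 ^ j)⁻¹) := by
    intro s _
    rw [lintegral_finset_sum _ fun s' _ => meas_cc _ _ (i, bk^[s] e) (j, bk^[s'] e)]
    calc _ ≤ ∑ s' ∈ range (j ^ 3), ((2 ^ i)⁻¹ * (2 ^ j)⁻¹ : ℝ≥0∞) := by
          refine sum_le_sum fun s' _ => ?_
          have e3 : ∀ ω : Om, 2 ^ i * ind (ω (i, bk^[s] e)) * (2 ^ j * ind (ω (j, bk^[s'] e))) =
              (2 ^ i * 2 ^ j) * (ind (ω (i, bk^[s] e)) * ind (ω (j, bk^[s'] e))) := fun ω => by ring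
          simp only [e3]
          rw [lintegral_const_mul _ (meas_i2 (i, bk^[s] e) (j, bk^[s'] e))]
          calc _ ≤ (2 ^ i * 2 ^ j) * ((4 ^ i)⁻¹ * (4 ^ j)⁻¹ : ℝ≥0∞) :=
                mul_le_mul_right (int_ind2 (i, bk^[s] e) (j, bk^[s'] e)) _
            _ = ((2:ℝ≥0∞) ^ i * (4 ^ i)⁻¹) * (2 ^ j * (4 ^ j)⁻¹) := by ring
            _ = (2 ^ i)⁻¹ * (2 ^ j)⁻¹ := by
                have key : ∀ n : ℕ, (2:ℝ≥0∞) ^ n * (4 ^ n)⁻¹ = (2 ^ n)⁻¹ := by
                  intro n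
                  rw [show (4:ℝ≥0∞) = 2 * 2 by norm_num, mul_pow,
                    ENNReal.mul_inv (Or.inl (by positivity)) (Or.inl (by finiteness)), ← mul_assoc,
                    ENNReal.mul_inv_cancel (by positivity) (by finiteness), one_mul]
                rw [key, key]
      _ = _ := by rw [sum_const, card_range, nsmul_eq_mul]
  refine (sum_le_sum h3).trans ?_
  rw [sum_const, card_range, nsmul_eq_mul]
  refine le_of_eq ?_
  ring

lemma int_TT (e : L × L) : ∫⁻ ω, TT ω e ∂Pm ≤ c1 := by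
  unfold TT
  have hm : ∀ i : ℕ, Measurable fun ω : Om => ∑ s ∈ range (i ^ 3), 2 ^ i * ind (ω (i, bk^[s] e)) :=
    fun i => Finset.measurable_sum _ fun s _ =>
    (meas_ind.comp (measurable_pi_apply _)).const_mul _
  rw [lintegral_tsum fun i => (hm i).aemeasurable]
  refine ENNReal.tsum_le_tsum fun i => ?_
  rw [lintegral_finset_sum _ fun s _ => meas_ci _ (i, bk^[s] e)]
  calc _ ≤ ∑ s ∈ range (i ^ 3), (2 ^ i : ℝ≥0∞)⁻¹ := by
        refine sum_le_sum fun s _ => ?_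
        rw [lintegral_const_mul _ (meas_ik (i, bk^[s] e)), int_ind, qq]
        rw [show (16:ℝ≥0∞) = 2 * 2 * 4 by norm_num, mul_pow, mul_pow,
          ENNReal.mul_inv (Or.inl (by positivity)) (Or.inl (by finiteness)),
          ENNReal.mul_inv (Or.inl (by positivity)) (Or.inl (by finiteness)), ← mul_assoc,
          ← mul_assoc, ENNReal.mul_inv_cancel (by positivity) (by finiteness), one_mul]
        calc (2 ^ i : ℝ≥0∞)⁻¹ * (4 ^ i)⁻¹ ≤ (2 ^ i)⁻¹ * 1 := by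
              refine mul_le_mul_right ?_ _
              rw [ENNReal.inv_le_one]
              exact one_le_pow₀ (by norm_num)
          _ = _ := mul_one _
    _ = _ := by rw [sum_const, card_range, nsmul_eq_mul]

lemma DD_le (ω : Om) (u : L) : (DD ω u : ℝ≥0∞) ≤ SS ω u := by
  unfold DD
  by_cases h : SS ω u = ⊤
  · rw [h]; exact le_top
  · calc ((⌊(SS ω u).toReal⌋₊ : ℕ) : ℝ≥0∞) = ENNReal.ofReal ((⌊(SS ω u).toReal⌋₊ : ℕ) : ℝ) :=
          (ENNReal.ofReal_natCast _).symm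
      _ ≤ ENNReal.ofReal (SS ω u).toReal :=
          ENNReal.ofReal_le_ofReal (Nat.floor_le ENNReal.toReal_nonneg)
      _ = SS ω u := ENNReal.ofReal_toReal h

lemma SS_zero (ω : Om) {u : L} (h : ∀ y, ¬ Dir u y) : SS ω u = 0 := by
  unfold SS
  rw [ENNReal.tsum_eq_zero]
  intro p
  rw [if_neg]
  rintro ⟨y, hy, -⟩
  exact h y hy

lemma SS_ae_lt : ∀ᵐ ω ∂Pm, ∀ u, SS ω u ≠ ⊤ := by
  rw [ae_all_iff]
  intro u
  by_cases h : ∃ y, Dir u y
  · obtain ⟨y, h1, h2, h3⟩ := h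
    have e : u = y + (u - y) := by abel
    have hlt : ∀ e, ∀ᵐ ω ∂Pm, TT ω e < ⊤ := fun e => ae_lt_top (meas_TT e)
      (ne_top_of_le_ne_top c1_ne_top (int_TT e))
    filter_upwards [hlt (y, u - y), hlt (u - y, y)] with ω a b
    rw [e]
    exact ne_top_of_le_ne_top (ENNReal.add_lt_top.2 ⟨a, b⟩).ne (SS_le ω h1 h2 h3)
  · push Not at h
    refine Eventually.of_forall fun ω => ?_
    rw [SS_zero ω h]; simp

lemma sq_add_le (a b : ℝ≥0∞) : (a + b) ^ 2 ≤ 4 * (a ^ 2 + b ^ 2) := by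
  have key : ∀ a b : ℝ≥0∞, a ≤ b → (a + b) ^ 2 ≤ 4 * (a ^ 2 + b ^ 2) := by
    intro a b h
    calc (a + b) ^ 2 ≤ (b + b) ^ 2 := by gcongr
      _ = 4 * b ^ 2 := by ring
      _ ≤ _ := by gcongr; exact le_add_self
  rcases le_total a b with h | h
  · exact key a b h
  · rw [add_comm a b, add_comm (a ^ 2)]; exact key b a h

/-- second moment of the chain length -/
lemma int_DD2 {p p' : L} (hp : Ctr p) (hp' : Ctr p') (h : B p p' = -3) :
    ∫⁻ ω, (DD ω (p + p') : ℝ≥0∞) ^ 2 ∂Pm ≤ 8 * c1 ^ 2 := by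
  calc ∫⁻ ω, (DD ω (p + p') : ℝ≥0∞) ^ 2 ∂Pm
      ≤ ∫⁻ ω, (4 * TT ω (p, p') ^ 2 + 4 * TT ω (p', p) ^ 2) ∂Pm := by
        refine lintegral_mono fun ω => ?_
        have h1 := (DD_le ω (p + p')).trans (SS_le ω hp hp' h)
        refine (pow_le_pow_left₀ zero_le h1 2).trans ?_
        rw [← mul_add]
        exact sq_add_le _ _
    _ = 4 * (∫⁻ ω, TT ω (p, p') ^ 2 ∂Pm) + 4 * ∫⁻ ω, TT ω (p', p) ^ 2 ∂Pm := by
        rw [lintegral_add_left (((meas_TT _).pow_const 2).const_mul 4),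
          lintegral_const_mul _ ((meas_TT _).pow_const 2),
          lintegral_const_mul _ ((meas_TT _).pow_const 2)]
    _ ≤ 4 * c1 ^ 2 + 4 * c1 ^ 2 := by
        gcongr <;> exact int_TT2 _
    _ = 8 * c1 ^ 2 := by ring

end Pool.Agent.H49.CP
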