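import Pool.Agent.H49.CP.Fin
import Pool.Agent.H49.CP.End

set_option autoImplicit false

namespace Pool.Agent.H49.CP

open Relation Finset

variable {D : L → ℕ}

lemma fc_nb (i : ZMod 6) : Fc p0 (nb i) (nq i) :=
  ⟨ctr_p0, ctr_nb i, cor_nq i, B_p0_nb i, B_p0_nq i, by revert i; decide⟩
lemma fc_nb' (i : ZMod 6) : Fc p0 (nb i) (nq (i - 1)) :=
  ⟨ctr_p0, ctr_nb i, cor_nq _, B_p0_nb i, B_p0_nq _, by revert i; decide⟩

/-- faces containing a given centre -/
lemma Fc.of {g : Γ} {p' q : L} (F : Fc (g • p0) p' q) :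
    ∃ i, p' = g • nb i ∧ (q = g • nq i ∨ q = g • nq (i - 1)) := by
  have F' := F.act g⁻¹
  rw [inv_smul_smul] at F'
  obtain ⟨i, hi⟩ := nb_of F'.hp' F'.hpp
  obtain ⟨k, hk⟩ := nq_of F'.hq F'.hpq
  have h := F'.hpq'
  rw [hi, hk] at h
  have key : ∀ i k : ZMod 6, B (nb i) (nq k) = -3 → k = i ∨ k = i - 1 := by decide
  refine ⟨i, by rw [← hi, smul_inv_smul], ?_⟩
  rcases key i k h with h' | h'
  · left; rw [← h', ← hk, smul_inv_smul]
  · right; rw [← h', ← hk, smul_inv_smul]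

/-- fans at the centre `g • p0` towards `g • nb i` in the face with corner `g • nq k` -/
def fanF (D : L → ℕ) (g : Γ) (i k : ZMod 6) : Finset V :=
  (Icc 1 (D (g • p0 + g • nb i))).image fun l => (g • p0 + g • nb i, g • nq k, l)

def nbF (D : L → ℕ) (g : Γ) : Finset V :=
  (univ.image fun i : ZMod 6 => bv (g • nb i)) ∪ (univ.image fun i : ZMod 6 => bv (g • nq i)) ∪
    univ.biUnion fun i : ZMod 6 => fanF D g i i ∪ fanF D g i (i - 1)

lemma mem_fanF {g : Γ} {i k : ZMod 6} {w : V} : w ∈ fanF D g i k ↔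
    ∃ l, 1 ≤ l ∧ l ≤ D (g • p0 + g • nb i) ∧ w = (g • p0 + g • nb i, g • nq k, l) := by
  simp only [fanF, mem_image, mem_Icc]
  constructor
  · rintro ⟨l, ⟨h1, h2⟩, rfl⟩; exact ⟨l, h1, h2, rfl⟩
  · rintro ⟨l, h1, h2, rfl⟩; exact ⟨l, ⟨h1, h2⟩, rfl⟩

lemma card_fanF (g : Γ) (i k : ZMod 6) : (fanF D g i k).card = D (g • p0 + g • nb i) := by
  rw [fanF, card_image_of_injective]
  · simp
  · intro l m h
    simpa using h

lemma nbr_ctr (g : Γ) : (Gr D).neighborSet (bv (g • p0)) = ↑(nbF D g) := by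
  have hp : Ctr (g • p0) := ctr_p0.act g
  ext w
  rw [SimpleGraph.mem_neighborSet, mem_coe]
  simp only [nbF, mem_union, mem_image, mem_univ, true_and, mem_biUnion, mem_fanF]
  constructor
  · intro h
    have hw := h.2.2.1
    rcases hw.cases with ⟨p, hp', rfl⟩ | ⟨q, hq, rfl⟩ | ⟨p, p', q, l, F, hl, hD, rfl⟩
    · rw [adj_cc hp hp'] at h
      have : Ha (g • p0) p := ⟨Or.inl hp, Or.inl hp', fun e => by
        rw [← e, hp.1] at h; norm_num at h, h⟩
      obtain ⟨i, rfl | rfl⟩ := this.of_ctr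
      · exact Or.inl (Or.inl ⟨i, rfl⟩)
      · exact absurd ((cor_nq i).act g) hp'.ne_cor
    · rw [adj_cq hp hq] at h
      have : Ha (g • p0) q := ⟨Or.inl hp, Or.inr hq, fun e => by
        rw [← e] at hq; exact hp.ne_cor hq, h⟩
      obtain ⟨i, rfl | rfl⟩ := this.of_ctr
      · exact absurd hq ((ctr_nb i).act g).ne_cor
      · exact Or.inl (Or.inr ⟨i, rfl⟩)
    · rw [adj_cf F hp] at h
      right
      rcases h.1 with e | e
      · rw [← e] at F hD ⊢
        obtain ⟨i, rfl, rfl | rfl⟩ := F.of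
        · exact ⟨i, Or.inl ⟨l, hl, hD, rfl⟩⟩
        · exact ⟨i, Or.inr ⟨l, hl, hD, rfl⟩⟩
      · rw [← e, add_comm] at hD
        rw [← e] at F
        rw [← e, add_comm p (g • p0)]
        obtain ⟨i, rfl, rfl | rfl⟩ := F.symm.of
        · exact ⟨i, Or.inl ⟨l, hl, hD, rfl⟩⟩
        · exact ⟨i, Or.inr ⟨l, hl, hD, rfl⟩⟩
  · rintro ((⟨i, rfl⟩ | ⟨i, rfl⟩) | ⟨i, ⟨l, hl, hD, rfl⟩ | ⟨l, hl, hD, rfl⟩⟩)
    · rw [adj_cc hp ((ctr_nb i).act g), B_act]; exact B_p0_nb i
    · rw [adj_cq hp ((cor_nq i).act g), B_act]; exact B_p0_nq i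
    · rw [adj_cf ((fc_nb i).act g) hp]; exact ⟨Or.inl rfl, hl, hD⟩
    · rw [adj_cf ((fc_nb' i).act g) hp]; exact ⟨Or.inl rfl, hl, hD⟩

/-- neighbours of a corner or a fan vertex: at most twenty -/
lemma nbr_cor {q : L} (hq : Cor q) : ((Gr D).neighborSet (bv q)).Finite ∧
    ((Gr D).neighborSet (bv q)).ncard ≤ 20 := by
  obtain ⟨g, rfl⟩ := cor_trans hq
  have hsub : (Gr D).neighborSet (bv (g • q0)) ⊆
      ↑((univ.image fun j : Fin 4 => bv (g • cc j)) ∪
        (univ.image fun x : Fin 4 × Fin 4 => ((g • cc x.1 + g • cc x.2, g • q0, 1) : V))) := by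
    intro w h
    rw [SimpleGraph.mem_neighborSet] at h
    rw [mem_coe]
    simp only [mem_union, mem_image, mem_univ, true_and]
    have hw := h.2.2.1
    have key : ∀ p, Ctr p → B p (g • q0) = -3 → ∃ j, p = g • cc j := by
      intro p hp hB
      have : Ha (g • q0) p := ⟨Or.inr hq, Or.inl hp, fun e => by
        rw [← e] at hp; exact hp.ne_cor hq, by rw [B_comm]; exact hB⟩
      exact this.of_cor
    rcases hw.cases with ⟨p, hp', rfl⟩ | ⟨q, hq', rfl⟩ | ⟨p, p', q, l, F, hl, hD, rfl⟩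
    · rw [SimpleGraph.adj_comm, adj_cq hp' hq] at h
      obtain ⟨j, rfl⟩ := key p hp' h
      exact Or.inl ⟨j, rfl⟩
    · exact absurd h (adj_qq hq hq')
    · obtain ⟨e1, e2⟩ := adj_qf F hq hl h
      subst e2
      rw [← e1] at F
      obtain ⟨j, hj⟩ := key p F.hp F.hpq
      obtain ⟨k, hk⟩ := key p' F.hp' F.hpq'
      exact Or.inr ⟨(j, k), by rw [← hj, ← hk, e1]⟩
  refine ⟨(Finset.finite_toSet _).subset hsub, ?_⟩
  refine (Set.ncard_le_ncard hsub (Finset.finite_toSet _)).trans ?_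
  rw [Set.ncard_coe_finset]
  refine (card_union_le _ _).trans ?_
  have h1 := card_image_le (s := (univ : Finset (Fin 4))) (f := fun j => bv (g • cc j))
  have h2 := card_image_le (s := (univ : Finset (Fin 4 × Fin 4)))
    (f := fun x => ((g • cc x.1 + g • cc x.2, g • q0, 1) : V))
  simp only [card_univ, Fintype.card_fin, Fintype.card_prod] at h1 h2
  omega

lemma nbr_fan {p p' q : L} (F : Fc p p' q) {l : ℕ} (hl : 1 ≤ l) :
    (Gr D).neighborSet (p + p', q, l) ⊆ ({bv p, bv p', bv q, (p + p', q, l + 1),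
      (p + p', q, l - 1)} : Finset V) := by
  intro w h
  rw [SimpleGraph.mem_neighborSet] at h
  rw [mem_coe]
  simp only [mem_insert, mem_singleton]
  have hw := h.2.2.1
  rcases hw.cases with ⟨r, hr, rfl⟩ | ⟨k, hk, rfl⟩ | ⟨r, r', k, m, G, hm, hD, rfl⟩
  · rw [SimpleGraph.adj_comm, adj_cf F hr] at h
    rcases h.1 with e | e
    · left; rw [e]
    · right; left; rw [e]
  · rw [SimpleGraph.adj_comm] at h
    obtain ⟨e, -⟩ := adj_qf F hk hl h
    right; right; left; rw [e]
  · obtain ⟨e1, e2, e3 | e3⟩ := adj_ff F G hl hm h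
    · right; right; right; left; rw [e1, e2, e3]
    · right; right; right; right
      rw [e1, e2, e3]; rfl

lemma nbr_fan_card {p p' q : L} (F : Fc p p' q) {l : ℕ} (hl : 1 ≤ l) :
    ((Gr D).neighborSet (p + p', q, l)).Finite ∧
    ((Gr D).neighborSet (p + p', q, l)).ncard ≤ 20 := by
  have hsub := nbr_fan (D := D) F hl
  refine ⟨(Finset.finite_toSet _).subset hsub, ?_⟩
  refine (Set.ncard_le_ncard hsub (Finset.finite_toSet _)).trans ?_
  rw [Set.ncard_coe_finset]
  exact (card_le_five).trans (by norm_num)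

lemma nbr_inactive {v : V} (h : ¬ Act D v) : (Gr D).neighborSet v = ∅ := by
  ext w
  simp only [SimpleGraph.mem_neighborSet, Set.mem_empty_iff_false, iff_false]
  exact fun h' => h h'.2.1

/-- local finiteness of the graph -/
theorem locfin_graph (v : V) : ((Gr D).neighborSet v).Finite := by
  by_cases h : Act D v
  · rcases h.cases with ⟨p, hp, rfl⟩ | ⟨q, hq, rfl⟩ | ⟨p, p', q, l, F, hl, hD, rfl⟩
    · obtain ⟨g, rfl⟩ := ctr_trans hp
      rw [nbr_ctr]; exact finite_toSet _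
    · exact (nbr_cor hq).1
    · exact (nbr_fan_card F hl).1
  · rw [nbr_inactive h]; exact Set.finite_empty

lemma ncard_ctr_le (g : Γ) : ((Gr D).neighborSet (bv (g • p0))).ncard ≤
    12 + ∑ i : ZMod 6, 2 * D (g • p0 + g • nb i) := by
  rw [nbr_ctr, Set.ncard_coe_finset]
  refine (card_union_le _ _).trans ?_
  have h1 := card_union_le (univ.image fun i : ZMod 6 => bv (g • nb i))
    (univ.image fun i : ZMod 6 => bv (g • nq i))
  have h2 := card_image_le (s := (univ : Finset (ZMod 6))) (f := fun i => bv (g • nb i))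
  have h3 := card_image_le (s := (univ : Finset (ZMod 6))) (f := fun i => bv (g • nq i))
  have h4 : (univ.biUnion fun i : ZMod 6 => fanF D g i i ∪ fanF D g i (i - 1)).card ≤
      ∑ i : ZMod 6, 2 * D (g • p0 + g • nb i) := by
    refine card_biUnion_le.trans (sum_le_sum fun i _ => ?_)
    refine (card_union_le _ _).trans ?_
    rw [card_fanF, card_fanF]; omega
  have h5 : (univ : Finset (ZMod 6)).card = 6 := by simp
  rw [h5] at h2 h3
  omega

/-- active vertices are reachable from each other -/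
lemma reach_St {N : ℤ} {p q : L} (h : ReflTransGen (St N) p q) :
    (Gr D).Reachable (bv p) (bv q) := by
  induction h with
  | refl => exact .refl _
  | tail _ h2 ih =>
    refine ih.trans (SimpleGraph.Adj.reachable ?_)
    obtain ⟨h1, h2, h3, h4⟩ := h2.1
    rcases h1 with h1 | h1 <;> rcases h2 with h2 | h2
    · exact (adj_cc h1 h2).2 h4
    · exact (adj_cq h1 h2).2 h4
    · exact ((adj_cq h2 h1).2 (by rw [B_comm]; exact h4)).symm
    · exfalso
      have := h1.cor h2 h3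
      rw [h4] at this; norm_num at this

lemma reach_p0 {v : V} (h : Act D v) : (Gr D).Reachable v (bv p0) := by
  rcases h.cases with ⟨p, hp, rfl⟩ | ⟨q, hq, rfl⟩ | ⟨p, p', q, l, F, hl, hD, rfl⟩
  · exact reach_St (conn_base (Or.inl hp))
  · exact reach_St (conn_base (Or.inr hq))
  · have h1 : (Gr D).Adj (bv p) (p + p', q, l) := (adj_cf F F.hp).2 ⟨Or.inl rfl, hl, hD⟩
    exact h1.reachable.symm.trans (reach_St (conn_base (Or.inl F.hp)))

lemma reach_act {v w : V} (hv : Act D v) (h : (Gr D).Reachable v w) : Act D w := by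
  obtain ⟨p⟩ := h
  induction p with
  | nil => exact hv
  | cons h _ ih => exact ih h.2.2.1

/-- the component of an active vertex is the set of active vertices -/
theorem reach_iff {v : V} (hv : Act D v) (w : V) : (Gr D).Reachable v w ↔ Act D w :=
  ⟨fun h => reach_act hv h, fun h => (reach_p0 hv).trans (reach_p0 h).symm⟩

end Pool.Agent.H49.CP
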