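import Mathlib

set_option autoImplicit false

namespace Pool.Agent.H49.CP.Net

open Finset

variable {V : Type} (G : SimpleGraph V)

open Classical in
/-- Dirichlet form on a finite set, every edge counted twice -/
noncomputable def DK (K : Finset V) (f g : V → ℝ) : ℝ :=
  ∑ x ∈ K, ∑ w ∈ K, if G.Adj x w then (f w - f x) * (g w - g x) else 0

open Classical in
/-- Laplacian on a finite set -/
noncomputable def LK (K : Finset V) (f : V → ℝ) (x : V) : ℝ :=
  ∑ w ∈ K, if G.Adj x w then (f w - f x) else 0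

lemma sum_LK (K : Finset V) (f : V → ℝ) : ∑ x ∈ K, LK G K f x = 0 := by
  classical
  have h : ∑ x ∈ K, LK G K f x = - ∑ x ∈ K, LK G K f x := by
    unfold LK
    conv_lhs => rw [sum_comm]
    rw [← sum_neg_distrib]
    refine sum_congr rfl fun x _ => ?_
    rw [← sum_neg_distrib]
    refine sum_congr rfl fun w _ => ?_
    by_cases h : G.Adj x w
    · rw [if_pos h, if_pos h.symm]; ring
    · rw [if_neg h, if_neg fun h' => h h'.symm]; ring
  linarith

lemma DK_eq (K : Finset V) (f g : V → ℝ) : DK G K f g = -2 * ∑ x ∈ K, g x * LK G K f x := by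
  classical
  have h1 : DK G K f g = ∑ x ∈ K, ∑ w ∈ K, (if G.Adj x w then (f w - f x) * g w else 0) -
      ∑ x ∈ K, g x * LK G K f x := by
    unfold DK LK
    rw [← sum_sub_distrib]
    refine sum_congr rfl fun x _ => ?_
    rw [mul_sum, ← sum_sub_distrib]
    refine sum_congr rfl fun w _ => ?_
    split_ifs <;> ring
  have h2 : ∑ x ∈ K, ∑ w ∈ K, (if G.Adj x w then (f w - f x) * g w else 0) =
      -∑ x ∈ K, g x * LK G K f x := by
    rw [sum_comm, ← sum_neg_distrib]
    unfold LK
    refine sum_congr rfl fun x _ => ?_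
    rw [mul_sum, ← sum_neg_distrib]
    refine sum_congr rfl fun w _ => ?_
    by_cases h : G.Adj x w
    · rw [if_pos h, if_pos h.symm]; ring
    · rw [if_neg h, if_neg fun h' => h h'.symm]; ring
  rw [h1, h2]; ring

lemma DK_add_smul (K : Finset V) (f η : V → ℝ) (t : ℝ) :
    DK G K (fun x => f x + t * η x) (fun x => f x + t * η x) =
      DK G K f f + 2 * t * DK G K f η + t ^ 2 * DK G K η η := by
  classical
  unfold DK
  simp only [mul_sum]
  rw [← sum_add_distrib, ← sum_add_distrib]
  refine sum_congr rfl fun x _ => ?_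
  rw [← sum_add_distrib, ← sum_add_distrib]
  refine sum_congr rfl fun w _ => ?_
  split_ifs <;> ring

lemma DK_congr {K : Finset V} {f f' g g' : V → ℝ} (hf : ∀ x ∈ K, f x = f' x)
    (hg : ∀ x ∈ K, g x = g' x) : DK G K f g = DK G K f' g' := by
  unfold DK
  refine sum_congr rfl fun x hx => sum_congr rfl fun w hw => ?_
  rw [hf x hx, hf w hw, hg x hx, hg w hw]

/-- the equilibrium potential of a finite network -/
theorem flux_finite (K : Finset V) (A B : Set V) (hAB : Disjoint A B) (φ : V → ℝ)
    (h0 : ∀ x, 0 ≤ φ x) (h1 : ∀ x, φ x ≤ 1) (hA : ∀ x ∈ A, φ x = 0) (hB : ∀ x ∈ B, φ x = 1) :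
    ∃ f : V → ℝ, (∀ x, 0 ≤ f x) ∧ (∀ x, f x ≤ 1) ∧ (∀ x ∈ K, x ∈ B → f x = 1) ∧
      (∀ x ∈ K, x ∉ A → x ∉ B → LK G K f x = 0) ∧
      ∀ A0 : Finset V, A0 ⊆ K → (∀ x ∈ A0, x ∈ A) →
        2 * ∑ x ∈ A0, LK G K f x ≤ DK G K φ φ ∧ ∀ x ∈ A0, f x = 0 := by
  classical
  set lo : V → ℝ := fun x => if x ∈ K ∧ x ∈ B then 1 else 0 with hlo
  set hi : V → ℝ := fun x => if x ∈ K ∧ x ∉ A then 1 else 0 with hhi
  set C : Set (V → ℝ) := Set.pi Set.univ fun x => Set.Icc (lo x) (hi x) with hC
  have hCc : IsCompact C := isCompact_univ_pi fun x => isCompact_Icc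
  set φ' : V → ℝ := fun x => if x ∈ K then φ x else 0 with hφ'
  have hBA : ∀ x, x ∈ B → x ∉ A := fun x hb ha => (Set.disjoint_left.1 hAB) ha hb
  have hφC : φ' ∈ C := by
    intro x _
    simp only [hlo, hhi, hφ', Set.mem_Icc]
    by_cases hx : x ∈ K
    · by_cases hb : x ∈ B
      · simp [hx, hb, hBA x hb, hB x hb]
      · by_cases ha : x ∈ A
        · simp [hx, hb, ha, hA x ha]
        · simp [hx, hb, ha, h0 x, h1 x]
    · simp [hx]
  have hcont : Continuous fun f : V → ℝ => DK G K f f := by
    unfold DK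
    refine continuous_finset_sum _ fun x _ => continuous_finset_sum _ fun w _ => ?_
    split_ifs
    · fun_prop
    · fun_prop
  obtain ⟨f, hfC, hmin⟩ := hCc.exists_isMinOn ⟨φ', hφC⟩ hcont.continuousOn
  have hf : ∀ x, lo x ≤ f x ∧ f x ≤ hi x := fun x => hfC x trivial
  have hlo0 : ∀ x, 0 ≤ lo x := fun x => by simp only [hlo]; split_ifs <;> norm_num
  have hhi1 : ∀ x, hi x ≤ 1 := fun x => by simp only [hhi]; split_ifs <;> norm_num
  have hf0 : ∀ x, 0 ≤ f x := fun x => (hlo0 x).trans (hf x).1
  have hf1 : ∀ x, f x ≤ 1 := fun x => (hf x).2.trans (hhi1 x)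
  have hfB : ∀ x ∈ K, x ∈ B → f x = 1 := by
    intro x hx hb
    have := (hf x).1
    simp only [hlo, hx, hb, and_self, if_true] at this
    linarith [hf1 x]
  have hfA : ∀ x, x ∈ A → f x = 0 := by
    intro x ha
    have := (hf x).2
    simp only [hhi, ha, not_true_eq_false, and_false, if_false] at this
    linarith [hf0 x]
  -- variational inequality
  have hvar : ∀ g ∈ C, 0 ≤ DK G K f (fun x => g x - f x) := by
    intro g hg
    set η : V → ℝ := fun x => g x - f x with hη
    have hineq : ∀ t : ℝ, 0 < t → t ≤ 1 → 0 ≤ 2 * DK G K f η + t * DK G K η η := by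
      intro t ht0 ht1
      have hmem : (fun x => f x + t * η x) ∈ C := by
        intro x _
        have := hf x
        have h2 : lo x ≤ g x ∧ g x ≤ hi x := hg x trivial
        simp only [hη, Set.mem_Icc]
        constructor <;> nlinarith
      have := hmin hmem
      simp only [Set.mem_setOf_eq] at this
      rw [DK_add_smul] at this
      have h3 : 0 ≤ t * (2 * DK G K f η + t * DK G K η η) := by nlinarith
      exact nonneg_of_mul_nonneg_right h3 ht0
    by_contra hcon
    push Not at hcon
    set c := DK G K f η with hc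
    set d := DK G K η η with hd
    have hdpos : 0 ≤ d := by
      rw [hd]; unfold DK
      refine sum_nonneg fun x _ => sum_nonneg fun w _ => ?_
      split_ifs
      · exact mul_self_nonneg _
      · exact le_rfl
    have ht : 0 < min 1 (-c / (d + 1)) := lt_min one_pos (div_pos (by linarith) (by linarith))
    have := hineq _ ht (min_le_left _ _)
    have h4 : min 1 (-c / (d + 1)) * d ≤ -c := by
      have h5 : min 1 (-c / (d + 1)) * d ≤ (-c / (d + 1)) * d :=
        mul_le_mul_of_nonneg_right (min_le_right _ _) hdpos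
      have h6 : (-c / (d + 1)) * d ≤ -c := by
        rw [div_mul_eq_mul_div, div_le_iff₀ (by linarith)]
        nlinarith
      linarith
    linarith
  have hharm : ∀ x ∈ K, x ∉ A → x ∉ B → LK G K f x = 0 := by
    intro x hx ha hb
    set N := (K.filter fun w => G.Adj x w) with hN
    have eL : LK G K f x = ∑ w ∈ N, f w - (N.card : ℝ) * f x := by
      unfold LK
      rw [← sum_filter, sum_sub_distrib, sum_const, nsmul_eq_mul]
    rcases Nat.eq_zero_or_pos N.card with h0 | hpos
    · have : N = ∅ := card_eq_zero.1 h0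
      rw [eL, this]; simp
    have hpos' : (0:ℝ) < N.card := by exact_mod_cast hpos
    set a := (∑ w ∈ N, f w) / N.card with ha'
    have ha0 : 0 ≤ a := div_nonneg (sum_nonneg fun w _ => hf0 w) hpos'.le
    have ha1 : a ≤ 1 := by
      rw [ha', div_le_one hpos']
      calc ∑ w ∈ N, f w ≤ ∑ w ∈ N, 1 := sum_le_sum fun w _ => hf1 w
        _ = N.card := by simp
    set g : V → ℝ := fun y => if y = x then a else f y with hg
    have hgC : g ∈ C := by
      intro y _
      simp only [hg, Set.mem_Icc]
      by_cases hy : y = x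
      · subst hy
        simp only [if_true, hlo, hhi, hx, ha, hb, and_false, if_false, not_false_eq_true, and_self]
        exact ⟨ha0, ha1⟩
      · simp only [if_neg hy]; exact hf y
    have h2 := hvar g hgC
    rw [DK_eq] at h2
    have h3 : ∑ y ∈ K, (g y - f y) * LK G K f y = (a - f x) * LK G K f x := by
      rw [sum_eq_single x]
      · simp [hg]
      · intro y _ hy
        simp [hg, hy]
      · intro h; exact absurd hx h
    rw [h3] at h2
    have h4 : LK G K f x = N.card * (a - f x) := by
      rw [eL, ha']; field_simp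
    rw [h4] at h2 ⊢
    have h5 : (N.card : ℝ) * (a - f x) ^ 2 ≤ 0 := by nlinarith
    have h6 : (a - f x) ^ 2 ≤ 0 := by
      by_contra hcon
      push Not at hcon
      have := mul_pos hpos' hcon
      linarith
    have h7 : a - f x = 0 := by
      have := le_antisymm h6 (sq_nonneg _)
      exact pow_eq_zero_iff (by norm_num) |>.1 this
    rw [h7, mul_zero]
  refine ⟨f, hf0, hf1, hfB, hharm, fun A0 hA0 hA0A => ⟨?_, fun x hx => hfA x (hA0A x hx)⟩⟩
  have hmin' : DK G K f f ≤ DK G K φ φ := by
    have := hmin hφC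
    simp only [Set.mem_setOf_eq] at this
    rw [DK_congr G (f := φ') (f' := φ) (g := φ') (g' := φ) (by intro x hx; simp [hφ', hx])
      (by intro x hx; simp [hφ', hx])] at this
    exact this
  refine le_trans ?_ hmin'
  rw [DK_eq]
  -- split the sums
  have e1 : ∑ x ∈ K, f x * LK G K f x = ∑ x ∈ K, (if x ∈ A then 0 else LK G K f x) := by
    refine sum_congr rfl fun x hx => ?_
    by_cases ha : x ∈ A
    · rw [if_pos ha, hfA x ha, zero_mul]
    rw [if_neg ha]
    by_cases hb : x ∈ B
    · rw [hfB x hx hb, one_mul]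
    · rw [hharm x hx ha hb, mul_zero]
  have e2 : ∑ x ∈ K, (if x ∈ A then 0 else LK G K f x) =
      - ∑ x ∈ K, (if x ∈ A then LK G K f x else 0) := by
    have h := sum_LK G K f
    have : ∑ x ∈ K, LK G K f x = ∑ x ∈ K, (if x ∈ A then 0 else LK G K f x) +
        ∑ x ∈ K, (if x ∈ A then LK G K f x else 0) := by
      rw [← sum_add_distrib]
      refine sum_congr rfl fun x _ => ?_
      split_ifs <;> ring
    linarith
  rw [e1, e2]
  have e3 : ∑ x ∈ A0, LK G K f x ≤ ∑ x ∈ K, (if x ∈ A then LK G K f x else 0) := by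
    rw [← sum_filter]
    refine sum_le_sum_of_subset_of_nonneg (fun x hx => mem_filter.2 ⟨hA0 hx, hA0A x hx⟩) ?_
    intro x hx _
    have ha := (mem_filter.1 hx).2
    unfold LK
    refine sum_nonneg fun w _ => ?_
    split_ifs
    · rw [hfA x ha]; linarith [hf0 w]
    · exact le_rfl
  linarith

end Pool.Agent.H49.CP.Net
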