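import Pool.Agent.H49.CP.Nbr

set_option autoImplicit false

namespace Pool.Agent.H49.CP

open Relation

variable {D : L → ℕ}

/-- exactly one infinite component remains after removing a finite set from the part `A` of `G` -/
def OneEnded {V : Type} (G : SimpleGraph V) (A : Set V) : Prop :=
  ∀ F : Set V, F.Finite → ∃! C : (G.induce (A \ F)).ConnectedComponent, C.supp.Infinite

/-- far base vertices -/
def Far (N : ℕ) (v : V) : Prop := ∃ p, Base p ∧ (N : ℤ) + 1 < ht p ∧ (v = bv p ∨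
  ∃ p' q l, Ctr p ∧ Fc p p' q ∧ 1 ≤ l ∧ v = (p + p', q, l))

lemma straight (n : ℕ) : ∃ p, Ctr p ∧ (n : ℤ) < p.2.2 := by
  have : ∀ n : ℕ, ∃ p p' : L, Ctr p ∧ Ctr p' ∧ B p p' = -3 ∧ p.2.2 ≤ p'.2.2 ∧ (n : ℤ) < p'.2.2 := by
    intro n
    induction n with
    | zero => exact ⟨p0, p1, ctr_p0, ctr_p1, by decide, by decide, by decide⟩
    | succ n ih =>
      obtain ⟨p, p', h1, h2, h3, h4, h5⟩ := ih
      refine ⟨p', (6 : ℤ) • p' - p, h2, ⟨?_, ?_⟩, ?_, ?_, ?_⟩
      · rw [B_sub_left, B_sub_right, B_sub_right, B_smul_left, B_smul_right, B_smul_right,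
          B_smul_left, h2.1, h1.1, B_comm p' p, h3]; norm_num
      · simp only [Prod.snd_sub, Prod.smul_snd, smul_eq_mul]; have := h2.2; linarith
      · rw [B_sub_right, B_smul_right, h2.1, B_comm, h3]; norm_num
      · simp only [Prod.snd_sub, Prod.smul_snd, smul_eq_mul]; have := h2.2; linarith
      · simp only [Prod.snd_sub, Prod.smul_snd, smul_eq_mul]
        have := h2.2; push_cast; linarith
  obtain ⟨p, p', -, h, -, -, h'⟩ := this n
  exact ⟨p', h, h'⟩

theorem one_ended : OneEnded (Gr D) {v | Act D v} := by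
  intro F hF
  -- a level above all base vertices of `F`
  obtain ⟨N, hN⟩ : ∃ N : ℕ, ∀ p, bv p ∈ F → ht p ≤ (N : ℤ) + 1 := by
    have h1 : ((fun v : V => (ht v.1).toNat) '' F).Finite := hF.image _
    obtain ⟨M, hM⟩ := h1.bddAbove
    refine ⟨M, fun p hp => ?_⟩
    have := hM ⟨bv p, hp, rfl⟩
    simp only [bv] at this
    omega
  set A : Set V := {v | Act D v} with hA
  set G := (Gr D).induce (A \ F) with hG
  have hbase : ∀ p, Base p → (N : ℤ) + 1 < ht p → bv p ∈ A \ F := by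
    intro p hp h
    refine ⟨hp.elim act_ctr act_cor, fun h' => ?_⟩
    have := hN p h'
    omega
  have hreach : ∀ p q (hp : Base p) (hq : Base q) (h1 : (N : ℤ) + 1 < ht p)
      (h2 : (N : ℤ) + 1 < ht q), G.Reachable ⟨bv p, hbase p hp h1⟩ ⟨bv q, hbase q hq h2⟩ := by
    intro p q hp hq h1 h2
    have h := conn_above N p q hp hq h1 h2
    induction h with
    | refl => exact .refl _
    | tail _ hst ih =>
      rename_i c d _
      obtain ⟨hcd, hc, hd⟩ := hst
      refine (ih hcd.1 hc).trans (SimpleGraph.Adj.reachable ?_)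
      change (Gr D).Adj (bv c) (bv d)
      obtain ⟨k1, k2, k3, k4⟩ := hcd
      rcases k1 with k1 | k1 <;> rcases k2 with k2 | k2
      · exact (adj_cc k1 k2).2 k4
      · exact (adj_cq k1 k2).2 k4
      · exact ((adj_cq k2 k1).2 (by rw [B_comm]; exact k4)).symm
      · exfalso
        have := k1.cor k2 k3
        rw [k4] at this; norm_num at this
  have hfar : ∀ v (hv : v ∈ A \ F), Far N v → ∃ p, ∃ hp : Base p, ∃ h : (N : ℤ) + 1 < ht p,
      G.Reachable ⟨v, hv⟩ ⟨bv p, hbase p hp h⟩ := by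
    intro v hv hf
    obtain ⟨p, hp, h1, rfl | ⟨p', q, l, hc, Fa, hl, rfl⟩⟩ := hf
    · exact ⟨p, hp, h1, .refl _⟩
    · refine ⟨p, hp, h1, SimpleGraph.Adj.reachable ?_⟩
      change (Gr D).Adj (p + p', q, l) (bv p)
      have hl' : l ≤ D (p + p') := by
        rcases hv.1 with ⟨a, -, -⟩ | ⟨-, b, -⟩
        · simp only at a; omega
        · exact b
      exact ((adj_cf Fa hc).2 ⟨Or.inl rfl, hl, hl'⟩).symm
  -- non-far vertices are finitely many
  have hnf : {v | Act D v ∧ ¬ Far N v}.Finite := by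
    refine (low_finite (D := D) (6 * ((N : ℤ) + 1))).subset ?_
    rintro v ⟨hv, hnot⟩
    rcases hv.cases with ⟨p, hp, rfl⟩ | ⟨q, hq, rfl⟩ | ⟨p, p', q, l, Fa, hl, hD, rfl⟩
    · refine ⟨hv, Or.inl ⟨p, hp, rfl, ?_⟩⟩
      by_contra hcon
      push Not at hcon
      apply hnot
      exact ⟨p, Or.inl hp, by rw [ht_ctr hp]; omega, Or.inl rfl⟩
    · refine ⟨hv, Or.inr (Or.inl ⟨q, hq, rfl, ?_⟩)⟩
      by_contra hcon
      push Not at hcon
      apply hnot
      exact ⟨q, Or.inr hq, by rw [ht_cor hq]; omega, Or.inl rfl⟩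
    · refine ⟨hv, Or.inr (Or.inr ⟨p, p', q, l, Fa, hl, hD, rfl, ?_⟩)⟩
      by_contra hcon
      push Not at hcon
      apply hnot
      have := Fa.zq_le
      refine ⟨p, Or.inl Fa.hp, by rw [ht_ctr Fa.hp]; omega, Or.inr ⟨p', q, l, Fa.hp, Fa, hl, rfl⟩⟩
  -- the distinguished component
  obtain ⟨b, hb, hbz⟩ := straight (N + 1)
  have hbht : (N : ℤ) + 1 < ht b := by rw [ht_ctr hb]; push_cast at hbz; omega
  refine ⟨G.connectedComponentMk ⟨bv b, hbase b (Or.inl hb) hbht⟩, ?_, ?_⟩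
  · -- infinite
    simp only
    intro hfin
    have himg : ((fun x : ↥(A \ F) => x.1.1.2.2) ''
      (G.connectedComponentMk ⟨bv b, hbase b (Or.inl hb) hbht⟩).supp).Finite := hfin.image _
    obtain ⟨M, hM⟩ := himg.bddAbove
    obtain ⟨c, hc, hcz⟩ := straight (max (N + 1) M.toNat)
    have hcz1 : ((N : ℤ) + 1) < c.2.2 := by
      have : ((N + 1 : ℕ) : ℤ) ≤ ((max (N + 1) M.toNat : ℕ) : ℤ) := by
        exact_mod_cast le_max_left _ _
      push_cast at this hcz ⊢
      omega
    have hcz2 : M < c.2.2 := by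
      have : ((M.toNat : ℕ) : ℤ) ≤ ((max (N + 1) M.toNat : ℕ) : ℤ) := by
        exact_mod_cast le_max_right _ _
      have h2 := Int.self_le_toNat M
      omega
    have hcht : (N : ℤ) + 1 < ht c := by rw [ht_ctr hc]; omega
    have := hM ⟨⟨bv c, hbase c (Or.inl hc) hcht⟩, by
      rw [SimpleGraph.ConnectedComponent.mem_supp_iff, SimpleGraph.ConnectedComponent.eq]
      exact hreach c b (Or.inl hc) (Or.inl hb) hcht hbht, rfl⟩
    simp only [bv] at this
    omega
  · intro C hC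
    -- find a far vertex in `C`
    have hex : ∃ v : ↥(A \ F), v ∈ C.supp ∧ Far N v.1 := by
      by_contra hcon
      push Not at hcon
      apply hC
      have : (Subtype.val '' C.supp : Set V) ⊆ {v | Act D v ∧ ¬ Far N v} := by
        rintro _ ⟨v, hv, rfl⟩
        exact ⟨v.2.1, hcon v hv⟩
      exact (hnf.subset this).of_finite_image (Subtype.val_injective.injOn)
    obtain ⟨v, hv, hvf⟩ := hex
    obtain ⟨p, hp, hp1, hr⟩ := hfar v.1 v.2 hvf
    rw [SimpleGraph.ConnectedComponent.mem_supp_iff] at hv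
    rw [← hv, SimpleGraph.ConnectedComponent.eq]
    exact hr.trans (hreach p b hp (Or.inl hb) hp1 hbht)

end Pool.Agent.H49.CP
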