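import Pool.Agent.H49.CP.Prod

set_option autoImplicit false

namespace Pool.Agent.H49.CP

/-- labels of vertices -/
abbrev V := L × L × ℕ

/-- base vertex -/
def bv (p : L) : V := (p, p, 0)

/-- chain vertex -/
def xv (u q : L) (l : ℕ) : V := if l = 0 then bv q else (u, q, l)

/-- active vertices -/
def Act (D : L → ℕ) (v : V) : Prop :=
  (v.2.2 = 0 ∧ v.2.1 = v.1 ∧ (Ctr v.1 ∨ Cor v.1)) ∨
    (1 ≤ v.2.2 ∧ v.2.2 ≤ D v.1 ∧ ∃ p p', Fc p p' v.2.1 ∧ v.1 = p + p')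

open Classical in
/-- the circle of a vertex -/
noncomputable def Xv (v : V) : W :=
  if v.2.2 = 0 then (if Ctr v.1 then P v.1 else Q v.1) else Fn v.1 v.2.1 v.2.2

lemma Xv_ctr {p : L} (h : Ctr p) : Xv (bv p) = P p := by simp [Xv, bv, h]
lemma Xv_cor {p : L} (h : Cor p) : Xv (bv p) = Q p := by
  have : ¬ Ctr p := fun h' => h'.ne_cor h
  simp [Xv, bv, this]
lemma Xv_fan {u q : L} {l : ℕ} (h : 1 ≤ l) : Xv (u, q, l) = Fn u q l := by
  have : l ≠ 0 := by omega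
  simp [Xv, this]
lemma Xv_xv {u q : L} (hq : Cor q) (l : ℕ) : Xv (xv u q l) = Fn u q l := by
  rcases Nat.eq_zero_or_pos l with rfl | h
  · simp [xv, Fn_zero, Xv_cor hq]
  · simp only [xv, if_neg (by omega : ¬ l = 0), Xv_fan h]

variable {D : L → ℕ}

lemma act_ctr {p : L} (h : Ctr p) : Act D (bv p) := Or.inl ⟨rfl, rfl, Or.inl h⟩
lemma act_cor {p : L} (h : Cor p) : Act D (bv p) := Or.inl ⟨rfl, rfl, Or.inr h⟩
lemma act_fan {p p' q : L} (F : Fc p p' q) {l : ℕ} (h : 1 ≤ l) (h' : l ≤ D (p + p')) :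
    Act D (p + p', q, l) := Or.inr ⟨h, h', p, p', F, rfl⟩
lemma act_xv {p p' q : L} (F : Fc p p' q) {l : ℕ} (h' : l ≤ D (p + p')) :
    Act D (xv (p + p') q l) := by
  rcases Nat.eq_zero_or_pos l with rfl | h
  · simp only [xv, if_pos rfl]; exact act_cor F.hq
  · simp only [xv, if_neg (by omega : ¬ l = 0)]; exact act_fan F h h'

lemma Act.cases {v : V} (h : Act D v) : (∃ p, Ctr p ∧ v = bv p) ∨ (∃ q, Cor q ∧ v = bv q) ∨
    ∃ p p' q l, Fc p p' q ∧ 1 ≤ l ∧ l ≤ D (p + p') ∧ v = (p + p', q, l) := by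
  obtain ⟨a, b, l⟩ := v
  rcases h with ⟨h1, h2, h3 | h3⟩ | ⟨h1, h2, p, p', hF, h3⟩
  · simp only at h1 h2 h3
    subst h1 h2
    exact Or.inl ⟨_, h3, rfl⟩
  · simp only at h1 h2 h3
    subst h1 h2
    exact Or.inr (Or.inl ⟨_, h3, rfl⟩)
  · simp only at h1 h2 h3 hF
    subst h3
    exact Or.inr (Or.inr ⟨p, p', b, l, hF, h1, h2, rfl⟩)

lemma Fn_self {p p' q : L} (F : Fc p p' q) (l : ℕ) : B4 (Fn (p + p') q l) (Fn (p + p') q l) = 1 := by
  rw [F.FF_self]; ring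

lemma Act.unit {v : V} (h : Act D v) : B4 (Xv v) (Xv v) = 1 := by
  rcases h.cases with ⟨p, hp, rfl⟩ | ⟨q, hq, rfl⟩ | ⟨p, p', q, l, F, h1, h2, rfl⟩
  · rw [Xv_ctr hp, PP_self hp]
  · rw [Xv_cor hq, QQ_self hq]
  · rw [Xv_fan h1, Fn_self F]

lemma z_P {p : L} (h : Ctr p) : 0 < (P p).1.2.2 := by
  simp only [P, ι_3]; exact_mod_cast h.2
lemma z_Q {p : L} (h : Cor p) : 0 < (Q p).1.2.2 := by
  simp only [Q, Prod.smul_snd, ι_3, smul_eq_mul]
  have : (0:ℝ) < p.2.2 := by exact_mod_cast h.2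
  have := s3_gt
  positivity
lemma C_P (p : L) : 1 < (P p).2 := s2_gt
lemma C_Q (p : L) : 1 < (Q p).2 := by
  simp only [Q]; nlinarith [s2_gt, s3_gt]
lemma z_d {p p' q : L} (F : Fc p p' q) : 0 < (dl (p + p') q).1.2.2 := by
  simp only [dl, Prod.fst_add, Prod.snd_add, Prod.smul_snd, ι_3, smul_eq_mul]
  have h1 : (0:ℝ) < p.2.2 := by exact_mod_cast F.hp.2
  have h2 : (0:ℝ) < p'.2.2 := by exact_mod_cast F.hp'.2
  have h3 : (0:ℝ) < q.2.2 := by exact_mod_cast F.hq.2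
  have := s2_gt
  have := s3_gt
  push_cast
  positivity
lemma C_d (u q : L) : 1 < (dl u q).2 := by
  simp only [dl]; linarith [s3_gt]
lemma z_N {p p' q : L} (F : Fc p p' q) : 0 < (Nv (p + p')).1.2.2 := by
  rw [N_eq]
  have := z_P F.hp
  have := z_P F.hp'
  simp only [Prod.fst_add, Prod.snd_add]; linarith
lemma C_N (u : L) : 0 < (Nv u).2 := by
  simp only [Nv]; linarith [s2_gt]
lemma z_F {p p' q : L} (F : Fc p p' q) (l : ℕ) : 0 < (Fn (p + p') q l).1.2.2 := by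
  have h1 := z_Q F.hq
  have h2 := z_d F
  have h3 := z_N F
  simp only [Fn, Prod.fst_add, Prod.snd_add, Prod.smul_fst, Prod.smul_snd, smul_eq_mul]
  positivity
lemma C_F (u q : L) (l : ℕ) : 1 < (Fn u q l).2 := by
  have h1 := C_Q q
  have h2 := C_d u q
  have h3 := C_N u
  simp only [Fn, Prod.snd_add, Prod.smul_snd, smul_eq_mul]
  have a1 : 0 ≤ (2 * (l:ℝ)) * (dl u q).2 := by positivity
  have a2 : 0 ≤ ((l:ℝ) ^ 2) * (Nv u).2 := by positivity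
  linarith

lemma Act.z {v : V} (h : Act D v) : 0 < (Xv v).1.2.2 := by
  rcases h.cases with ⟨p, hp, rfl⟩ | ⟨q, hq, rfl⟩ | ⟨p, p', q, l, F, h1, h2, rfl⟩
  · rw [Xv_ctr hp]; exact z_P hp
  · rw [Xv_cor hq]; exact z_Q hq
  · rw [Xv_fan h1]; exact z_F F l
lemma Act.C {v : V} (h : Act D v) : 1 < (Xv v).2 := by
  rcases h.cases with ⟨p, hp, rfl⟩ | ⟨q, hq, rfl⟩ | ⟨p, p', q, l, F, h1, h2, rfl⟩
  · rw [Xv_ctr hp]; exact C_P p
  · rw [Xv_cor hq]; exact C_Q q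
  · rw [Xv_fan h1]; exact C_F _ _ l
lemma Act.cv {v : V} (h : Act D v) : 0 < cv (Xv v) := by
  have := h.z
  have := h.C
  simp only [CP.cv]; linarith

lemma fan_ext {a b a' b' : L} {l l' : ℕ} (h : ((a, b, l) : V) ≠ (a', b', l')) :
    (a ≠ a' ∨ b ≠ b') ∨ (a = a' ∧ b = b' ∧ l ≠ l') := by
  by_contra hcon
  push Not at hcon
  apply h
  obtain ⟨⟨h1, h2⟩, h3⟩ := hcon
  rw [h1, h2, h3 h1 h2]

/-- all distinct active circles are disjoint or tangent -/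
lemma Act.pair {v w : V} (hv : Act D v) (hw : Act D w) (hne : v ≠ w) : B4 (Xv v) (Xv w) ≤ -1 := by
  rcases hv.cases with ⟨p, hp, rfl⟩ | ⟨q, hq, rfl⟩ | ⟨p, p', q, l, F, h1, h2, rfl⟩ <;>
  rcases hw.cases with ⟨r, hr, rfl⟩ | ⟨k, hk, rfl⟩ | ⟨r, r', k, m, G, h3, h4, rfl⟩
  · rw [Xv_ctr hp, Xv_ctr hr]
    exact PP_le hp hr fun h => hne (by rw [h])
  · rw [Xv_ctr hp, Xv_cor hk]; exact PQ_le hp hk
  · rw [Xv_ctr hp, Xv_fan h3]
    by_cases a : p = r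
    · rw [a, G.PF]
    by_cases b : p = r'
    · rw [b, G.PF']
    exact (G.PF_lt hp a b h3).le
  · rw [Xv_cor hq, Xv_ctr hr, B4_comm]; exact PQ_le hr hq
  · rw [Xv_cor hq, Xv_cor hk]
    exact (QQ_le hq hk fun h => hne (by rw [h])).le
  · rw [Xv_cor hq, Xv_fan h3]
    by_cases a : q = k
    · rw [a, G.QF_self]
      have : (1:ℝ) ≤ m := by exact_mod_cast h3
      nlinarith
    exact (G.QF_lt hq a m).le
  · rw [Xv_fan h1, Xv_ctr hr, B4_comm]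
    by_cases a : r = p
    · rw [a, F.PF]
    by_cases b : r = p'
    · rw [b, F.PF']
    exact (F.PF_lt hr a b h1).le
  · rw [Xv_fan h1, Xv_cor hk, B4_comm]
    by_cases a : k = q
    · rw [a, F.QF_self]
      have : (1:ℝ) ≤ l := by exact_mod_cast h1
      nlinarith
    exact (F.QF_lt hk a l).le
  · rw [Xv_fan h1, Xv_fan h3]
    rcases fan_ext hne with h | ⟨e1, e2, h⟩
    · exact (F.FF_lt G h h1 h3).le
    · rw [← e1, ← e2, F.FF_self]
      rcases Nat.lt_or_gt_of_ne h with h' | h'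
      · have : (l:ℝ) + 1 ≤ m := by exact_mod_cast h'
        nlinarith
      · have : (m:ℝ) + 1 ≤ l := by exact_mod_cast h'
        nlinarith

/-- the tangency graph -/
def Gr (D : L → ℕ) : SimpleGraph V where
  Adj v w := v ≠ w ∧ Act D v ∧ Act D w ∧ B4 (Xv v) (Xv w) = -1
  symm := ⟨fun v w ⟨h1, h2, h3, h4⟩ => ⟨h1.symm, h3, h2, by rw [B4_comm]; exact h4⟩⟩
  loopless := ⟨fun v h => h.1 rfl⟩

lemma adj_def {v w : V} : (Gr D).Adj v w ↔ v ≠ w ∧ Act D v ∧ Act D w ∧ B4 (Xv v) (Xv w) = -1 :=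
  Iff.rfl

lemma bv_inj {p q : L} : bv p = bv q ↔ p = q := by
  simp only [bv, Prod.mk.injEq]; tauto

lemma bv_ne_fan {p u q : L} {l : ℕ} (h : 1 ≤ l) : bv p ≠ (u, q, l) := by
  intro h'
  simp only [bv, Prod.mk.injEq] at h'
  omega

lemma adj_cc {p p' : L} (hp : Ctr p) (hp' : Ctr p') : (Gr D).Adj (bv p) (bv p') ↔ B p p' = -3 := by
  rw [adj_def, Xv_ctr hp, Xv_ctr hp', PP_iff]
  refine ⟨fun h => h.2.2.2, fun h => ⟨fun h' => ?_, act_ctr hp, act_ctr hp', h⟩⟩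
  rw [bv_inj.1 h', hp'.1] at h
  norm_num at h

lemma adj_cq {p q : L} (hp : Ctr p) (hq : Cor q) : (Gr D).Adj (bv p) (bv q) ↔ B p q = -3 := by
  rw [adj_def, Xv_ctr hp, Xv_cor hq, PQ_iff]
  refine ⟨fun h => h.2.2.2, fun h => ⟨fun h' => ?_, act_ctr hp, act_cor hq, h⟩⟩
  rw [bv_inj] at h'
  rw [h'] at hp
  exact hp.ne_cor hq

lemma adj_qq {p q : L} (hp : Cor p) (hq : Cor q) : ¬ (Gr D).Adj (bv p) (bv q) := by
  rw [adj_def, Xv_cor hp, Xv_cor hq]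
  rintro ⟨h1, -, -, h2⟩
  have := QQ_le hp hq fun h => h1 (by rw [h])
  linarith

lemma adj_cf {p p' q y : L} (F : Fc p p' q) (hy : Ctr y) {l : ℕ} :
    (Gr D).Adj (bv y) (p + p', q, l) ↔ (y = p ∨ y = p') ∧ 1 ≤ l ∧ l ≤ D (p + p') := by
  constructor
  · rintro ⟨h1, h2, h3, h4⟩
    have hl : 1 ≤ l ∧ l ≤ D (p + p') := by
      rcases h3 with ⟨a, b, c⟩ | ⟨a, b, -⟩
      · simp only at a b c
        exfalso
        have := F.Buu
        rw [← b] at this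
        rw [F.hq.1] at this
        norm_num at this
      · exact ⟨a, b⟩
    refine ⟨?_, hl⟩
    rw [Xv_ctr hy, Xv_fan hl.1] at h4
    by_contra hcon
    push Not at hcon
    have := F.PF_lt hy hcon.1 hcon.2 hl.1
    linarith
  · rintro ⟨h1, h2, h3⟩
    refine ⟨bv_ne_fan h2, act_ctr hy, act_fan F h2 h3, ?_⟩
    rw [Xv_ctr hy, Xv_fan h2]
    rcases h1 with rfl | rfl
    · exact F.PF l
    · exact F.PF' l

lemma adj_qf {p p' q y : L} (F : Fc p p' q) (hy : Cor y) {l : ℕ} (hl : 1 ≤ l)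
    (h : (Gr D).Adj (bv y) (p + p', q, l)) : y = q ∧ l = 1 := by
  obtain ⟨h1, h2, h3, h4⟩ := h
  rw [Xv_cor hy, Xv_fan hl] at h4
  have hyq : y = q := by
    by_contra hne
    have := F.QF_lt hy hne l
    linarith
  refine ⟨hyq, ?_⟩
  rw [hyq, F.QF_self] at h4
  have h5 : (l:ℝ) ^ 2 = 1 := by linarith
  have h6 : (l:ℝ) = 1 := by nlinarith [show (1:ℝ) ≤ l by exact_mod_cast hl]
  exact_mod_cast h6

lemma adj_ff {p p' q r r' k : L} (F : Fc p p' q) (G : Fc r r' k) {l m : ℕ} (hl : 1 ≤ l)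
    (hm : 1 ≤ m) (h : (Gr D).Adj (p + p', q, l) (r + r', k, m)) :
    p + p' = r + r' ∧ q = k ∧ (m = l + 1 ∨ l = m + 1) := by
  obtain ⟨h1, h2, h3, h4⟩ := h
  rw [Xv_fan hl, Xv_fan hm] at h4
  rcases fan_ext h1 with h | ⟨e1, e2, h⟩
  · have := F.FF_lt G h hl hm
    linarith
  · refine ⟨e1, e2, ?_⟩
    rw [← e1, ← e2, F.FF_self] at h4
    have h5 : ((l:ℝ) - m) ^ 2 = 1 := by linarith
    have h6 : ((l:ℤ) - m) ^ 2 = 1 := by exact_mod_cast h5
    have h7 : ((l:ℤ) - m - 1) * (l - m + 1) = 0 := by linarith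
    rcases mul_eq_zero.1 h7 with h8 | h8
    · right; omega
    · left; omega

/-- consecutive chain vertices are adjacent -/
lemma adj_chain {p p' q : L} (F : Fc p p' q) {l : ℕ} (h : l + 1 ≤ D (p + p')) :
    (Gr D).Adj (xv (p + p') q l) (xv (p + p') q (l + 1)) := by
  refine ⟨?_, act_xv F (by omega), act_xv F h, ?_⟩
  · rcases Nat.eq_zero_or_pos l with rfl | h0
    · simp only [xv, if_pos rfl, zero_add, if_neg one_ne_zero]; exact bv_ne_fan le_rfl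
    · simp only [xv, if_neg (by omega : ¬ l = 0), if_neg (by omega : ¬ l + 1 = 0)]
      intro h'
      simp only [Prod.mk.injEq] at h'
      omega
  · rw [Xv_xv F.hq, Xv_xv F.hq, F.FF_self]
    push_cast; ring

lemma adj_cx {p p' q : L} (F : Fc p p' q) {l : ℕ} (h : l ≤ D (p + p')) :
    (Gr D).Adj (bv p) (xv (p + p') q l) := by
  refine ⟨?_, act_ctr F.hp, act_xv F h, ?_⟩
  · rcases Nat.eq_zero_or_pos l with rfl | h0
    · simp only [xv, if_pos rfl]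
      intro h'
      have := bv_inj.1 h'
      have h1 := F.hp
      rw [this] at h1
      exact h1.ne_cor F.hq
    · simp only [xv, if_neg (by omega : ¬ l = 0)]; exact bv_ne_fan h0
  · rw [Xv_ctr F.hp, Xv_xv F.hq, F.PF]

end Pool.Agent.H49.CP
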