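import Pool.Agent.H49.CP.Arc

set_option autoImplicit false

namespace Pool.Agent.H49.CP

open Finset MeasureTheory Filter Topology
open scoped ENNReal

/-- high layers cover an edge with small probability -/
lemma lay_prob (k : Γ) (a : ZMod 6) (m : ℕ) :
    Pm {ω | ∃ l, m ≤ l ∧ Lay ω (k • p0 + k • nb a) l} ≤ 2 * c1 * (8 ^ m)⁻¹ := by
  classical
  have hp : Ctr (k • p0) := ctr_p0.act k
  have hp' : Ctr (k • nb a) := (ctr_nb a).act k
  have hB : B (k • p0) (k • nb a) = -3 := by rw [B_act]; exact B_p0_nb a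
  set x := k • p0
  set y := k • nb a
  have hsub : {ω : Om | ∃ l, m ≤ l ∧ Lay ω (x + y) l} ⊆ ⋃ l : ℕ, ⋃ s : ℕ,
      (({ω : Om | m ≤ l ∧ s < l ^ 3 ∧ ω (l, bk^[s] (x, y)) = true}) ∪
        {ω : Om | m ≤ l ∧ s < l ^ 3 ∧ ω (l, bk^[s] (y, x)) = true}) := by
    rintro ω ⟨l, hl, p, hp1, s, hs, hω⟩
    simp only [Set.mem_iUnion, Set.mem_union, Set.mem_setOf_eq]
    rcases (dir_iff hp hp' hB p).1 hp1 with rfl | rfl
    · rw [add_sub_cancel_left] at hω
      exact ⟨l, s, Or.inl ⟨hl, hs, hω⟩⟩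
    · rw [add_sub_cancel_right] at hω
      exact ⟨l, s, Or.inr ⟨hl, hs, hω⟩⟩
  have hq : ∀ (l s : ℕ) (e : L × L), Pm {ω : Om | m ≤ l ∧ s < l ^ 3 ∧ ω (l, bk^[s] e) = true} ≤
      if m ≤ l ∧ s < l ^ 3 then qq l else 0 := by
    intro l s e
    by_cases h : m ≤ l ∧ s < l ^ 3
    · rw [if_pos h, ← Pm_true (l, bk^[s] e)]
      exact measure_mono fun ω hω => hω.2.2
    · rw [if_neg h]
      have : {ω : Om | m ≤ l ∧ s < l ^ 3 ∧ ω (l, bk^[s] e) = true} = ∅ := by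
        ext ω
        simp only [Set.mem_setOf_eq, Set.mem_empty_iff_false, iff_false]
        exact fun h' => h ⟨h'.1, h'.2.1⟩
      rw [this]; simp
  refine (measure_mono hsub).trans ?_
  refine (measure_iUnion_le _).trans ?_
  have h1 : ∀ l : ℕ, Pm (⋃ s : ℕ, (({ω : Om | m ≤ l ∧ s < l ^ 3 ∧ ω (l, bk^[s] (x, y)) = true}) ∪
        {ω : Om | m ≤ l ∧ s < l ^ 3 ∧ ω (l, bk^[s] (y, x)) = true})) ≤
      2 * ((l ^ 3 : ℕ) * (2 ^ l)⁻¹) * (8 ^ m)⁻¹ := by
    intro l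
    refine (measure_iUnion_le _).trans ?_
    calc ∑' s : ℕ, Pm (({ω : Om | m ≤ l ∧ s < l ^ 3 ∧ ω (l, bk^[s] (x, y)) = true}) ∪
          {ω : Om | m ≤ l ∧ s < l ^ 3 ∧ ω (l, bk^[s] (y, x)) = true})
        ≤ ∑' s : ℕ, 2 * (if m ≤ l ∧ s < l ^ 3 then qq l else 0) := by
          refine ENNReal.tsum_le_tsum fun s => ?_
          refine (measure_union_le _ _).trans ?_
          rw [two_mul]
          exact add_le_add (hq l s _) (hq l s _)
      _ ≤ 2 * ((l ^ 3 : ℕ) * (2 ^ l)⁻¹) * (8 ^ m)⁻¹ := by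
          rw [ENNReal.tsum_mul_left, mul_assoc]
          refine mul_le_mul_right ?_ _
          rw [tsum_eq_sum (s := range (l ^ 3)) (fun s hs => by
            rw [if_neg]; rintro ⟨-, h⟩; exact hs (mem_range.2 h))]
          calc ∑ s ∈ range (l ^ 3), (if m ≤ l ∧ s < l ^ 3 then qq l else 0)
              ≤ ∑ s ∈ range (l ^ 3), (2 ^ l)⁻¹ * (8 ^ m)⁻¹ := by
                refine sum_le_sum fun s _ => ?_
                split_ifs with h
                · unfold qq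
                  rw [show (16:ℝ≥0∞) = 2 * 8 by norm_num, mul_pow,
                    ENNReal.mul_inv (Or.inl (by positivity)) (Or.inl (by finiteness))]
                  refine mul_le_mul_right ?_ _
                  rw [ENNReal.inv_le_inv]
                  exact pow_le_pow_right₀ (by norm_num) h.1
                · exact zero_le
            _ = _ := by
                rw [sum_const, card_range, nsmul_eq_mul, mul_assoc]
  refine (ENNReal.tsum_le_tsum h1).trans ?_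
  rw [ENNReal.tsum_mul_right, ENNReal.tsum_mul_left]
  exact le_rfl

/-- bad environments near the root -/
def Nbad (r : ℕ) : Set Om := {ω | ∃ i < 8 * r, ∃ w' : Fin i → Bool, ∃ a : ZMod 6, ∃ l, 4 * r ≤ l ∧
  Lay ω (gw i w' • p0 + gw i w' • nb a) l}

/-- stray corridors along the main one -/
def Ybad (r : ℕ) (g : Γ) : Set Om := {ω | ∃ s ≤ (2 * r) ^ 3, ∃ a : ZMod 6, ∃ i, r ≤ i ∧
    ∃ p, Dir ((g * XT ^ s) • p0 + (g * XT ^ s) • nb a) p ∧ ∃ t < i ^ 3,
    (i, bk^[t] (p, (g * XT ^ s) • p0 + (g * XT ^ s) • nb a - p)) ≠ (2 * r, e0 g) ∧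
    ω (i, bk^[t] (p, (g * XT ^ s) • p0 + (g * XT ^ s) • nb a - p)) = true}

/-- exactly one corridor -/
def Exa (r : ℕ) (w : Fin (8 * r) → Bool) : Set Om := {ω | ω (2 * r, e0 (gw (8 * r) w)) = true ∧
  ∀ w', w' ≠ w → ω (2 * r, e0 (gw (8 * r) w')) = false}

/-- escape after the corridor -/
def Cgd (ε : ℝ≥0∞) (r : ℕ) (w : Fin (8 * r) → Bool) : Set Om :=
  {ω | ε < Es (DD ω) (gw (8 * r) w * XT ^ ((2 * r) ^ 3 + 1))}

def Act1 (r : ℕ) (w : Fin (8 * r) → Bool) : Set Om := {ω | ω (2 * r, e0 (gw (8 * r) w)) = true}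

lemma meas_Nbad (r : ℕ) : MeasurableSet (Nbad r) := by
  have : Nbad r = ⋃ i : ℕ, ⋃ w' : Fin i → Bool, ⋃ a : ZMod 6, ⋃ l : ℕ,
      ({ω : Om | i < 8 * r ∧ 4 * r ≤ l} ∩ {ω | Lay ω (gw i w' • p0 + gw i w' • nb a) l}) := by
    ext ω
    simp only [Nbad, Set.mem_setOf_eq, Set.mem_iUnion, Set.mem_inter_iff]
    constructor
    · rintro ⟨i, hi, w', a, l, hl, h⟩; exact ⟨i, w', a, l, ⟨hi, hl⟩, h⟩
    · rintro ⟨i, w', a, l, ⟨hi, hl⟩, h⟩; exact ⟨i, hi, w', a, l, hl, h⟩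
  rw [this]
  exact MeasurableSet.iUnion fun i => MeasurableSet.iUnion fun w' => MeasurableSet.iUnion fun a =>
    MeasurableSet.iUnion fun l => (MeasurableSet.const _).inter (meas_Lay _ _)

lemma meas_Ybad (r : ℕ) (g : Γ) : MeasurableSet (Ybad r g) := by
  have : Ybad r g = ⋃ s : ℕ, ⋃ a : ZMod 6, ⋃ i : ℕ, ⋃ p : L, ⋃ t : ℕ,
      ({ω : Om | s ≤ (2 * r) ^ 3 ∧ r ≤ i ∧ Dir ((g * XT ^ s) • p0 + (g * XT ^ s) • nb a) p ∧
        t < i ^ 3 ∧ (i, bk^[t] (p, (g * XT ^ s) • p0 + (g * XT ^ s) • nb a - p)) ≠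
          (2 * r, e0 g)} ∩
        {ω | ω (i, bk^[t] (p, (g * XT ^ s) • p0 + (g * XT ^ s) • nb a - p)) = true}) := by
    ext ω
    simp only [Ybad, Set.mem_setOf_eq, Set.mem_iUnion, Set.mem_inter_iff]
    constructor
    · rintro ⟨s, hs, a, i, hi, p, hp, t, ht, h1, h2⟩
      exact ⟨s, a, i, p, t, ⟨hs, hi, hp, ht, h1⟩, h2⟩
    · rintro ⟨s, a, i, p, t, ⟨hs, hi, hp, ht, h1⟩, h2⟩
      exact ⟨s, hs, a, i, hi, p, hp, t, ht, h1, h2⟩
  rw [this]
  exact MeasurableSet.iUnion fun s => MeasurableSet.iUnion fun a => MeasurableSet.iUnion fun i =>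
    MeasurableSet.iUnion fun p => MeasurableSet.iUnion fun t =>
      (MeasurableSet.const _).inter (meas_coord _ _)

lemma meas_Exa (r : ℕ) (w : Fin (8 * r) → Bool) : MeasurableSet (Exa r w) := by
  have : Exa r w = {ω | ω (2 * r, e0 (gw (8 * r) w)) = true} ∩ ⋂ w', ⋂ (_ : w' ≠ w),
      {ω : Om | ω (2 * r, e0 (gw (8 * r) w')) = false} := by
    ext ω
    simp only [Exa, Set.mem_setOf_eq, Set.mem_inter_iff, Set.mem_iInter]
  rw [this]
  exact (meas_coord _ _).inter (MeasurableSet.iInter fun w' => MeasurableSet.iInter fun _ =>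
    meas_coord _ _)

lemma meas_Cgd (ε : ℝ≥0∞) (r : ℕ) (w : Fin (8 * r) → Bool) : MeasurableSet (Cgd ε r w) :=
  measurableSet_lt measurable_const (meas_Es _)

lemma sum_pow2 (n : ℕ) : ∑ i ∈ range n, (2:ℝ≥0∞) ^ i ≤ 2 ^ n := sum_two n

lemma Nbad_le (r : ℕ) : Pm (Nbad r) ≤ 12 * c1 * (2 ^ (4 * r))⁻¹ := by
  classical
  have hsub : Nbad r ⊆ ⋃ i ∈ range (8 * r), ⋃ w' : Fin i → Bool, ⋃ a : ZMod 6,
      {ω | ∃ l, 4 * r ≤ l ∧ Lay ω (gw i w' • p0 + gw i w' • nb a) l} := by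
    rintro ω ⟨i, hi, w', a, h⟩
    simp only [Set.mem_iUnion]
    exact ⟨i, mem_range.2 hi, w', a, h⟩
  refine (measure_mono hsub).trans ?_
  refine (measure_biUnion_finset_le _ _).trans ?_
  calc ∑ i ∈ range (8 * r), Pm (⋃ w' : Fin i → Bool, ⋃ a : ZMod 6,
          {ω | ∃ l, 4 * r ≤ l ∧ Lay ω (gw i w' • p0 + gw i w' • nb a) l})
      ≤ ∑ i ∈ range (8 * r), 2 ^ i * (12 * c1 * (8 ^ (4 * r))⁻¹) := by
        refine sum_le_sum fun i _ => ?_
        refine (measure_iUnion_fintype_le _ _).trans ?_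
        calc ∑ w' : Fin i → Bool, Pm (⋃ a : ZMod 6,
              {ω | ∃ l, 4 * r ≤ l ∧ Lay ω (gw i w' • p0 + gw i w' • nb a) l})
            ≤ ∑ w' : Fin i → Bool, 12 * c1 * (8 ^ (4 * r))⁻¹ := by
              refine sum_le_sum fun w' _ => ?_
              refine (measure_iUnion_fintype_le _ _).trans ?_
              refine (sum_le_sum fun a _ => lay_prob (gw i w') a (4 * r)).trans ?_
              rw [sum_const, card_univ, ZMod.card, nsmul_eq_mul]
              refine le_of_eq ?_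
              push_cast; ring
          _ = _ := by
              rw [sum_const, card_univ, Fintype.card_fun, Fintype.card_bool, Fintype.card_fin,
                nsmul_eq_mul]
              push_cast; rfl
    _ = (∑ i ∈ range (8 * r), 2 ^ i) * (12 * c1 * (8 ^ (4 * r))⁻¹) := by rw [sum_mul]
    _ ≤ 2 ^ (8 * r) * (12 * c1 * (8 ^ (4 * r))⁻¹) := mul_le_mul_left (sum_pow2 _) _
    _ = 12 * c1 * (2 ^ (4 * r))⁻¹ := by
        have h1 : (8:ℝ≥0∞) ^ (4 * r) = 2 ^ (8 * r) * 2 ^ (4 * r) := by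
          rw [show (8:ℝ≥0∞) = 2 ^ 3 by norm_num, ← pow_mul, ← pow_add]
          congr 1; ring
        rw [h1, ENNReal.mul_inv (Or.inl (by positivity)) (Or.inl (by finiteness))]
        calc (2:ℝ≥0∞) ^ (8 * r) * (12 * c1 * ((2 ^ (8 * r))⁻¹ * (2 ^ (4 * r))⁻¹)) =
            ((2:ℝ≥0∞) ^ (8 * r) * (2 ^ (8 * r))⁻¹) * (12 * c1 * (2 ^ (4 * r))⁻¹) := by ring
          _ = _ := by rw [ENNReal.mul_inv_cancel (by positivity) (by finiteness), one_mul]

lemma Ybad_le (r : ℕ) (g : Γ) : Pm (Ybad r g) ≤ (((2 * r) ^ 3 + 1 : ℕ) : ℝ≥0∞) *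
    (12 * c1 * (8 ^ r)⁻¹) := by
  classical
  have hsub : Ybad r g ⊆ ⋃ s ∈ range ((2 * r) ^ 3 + 1), ⋃ a : ZMod 6,
      {ω | ∃ l, r ≤ l ∧ Lay ω ((g * XT ^ s) • p0 + (g * XT ^ s) • nb a) l} := by
    rintro ω ⟨s, hs, a, i, hi, p, hp, t, ht, h1, h2⟩
    simp only [Set.mem_iUnion]
    exact ⟨s, mem_range.2 (by omega), a, i, hi, p, hp, t, ht, h2⟩
  refine (measure_mono hsub).trans ?_
  refine (measure_biUnion_finset_le _ _).trans ?_
  calc _ ≤ ∑ s ∈ range ((2 * r) ^ 3 + 1), 12 * c1 * (8 ^ r)⁻¹ := by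
        refine sum_le_sum fun s _ => ?_
        refine (measure_iUnion_fintype_le _ _).trans ?_
        refine (sum_le_sum fun a _ => lay_prob (g * XT ^ s) a r).trans ?_
        rw [sum_const, card_univ, ZMod.card, nsmul_eq_mul]
        refine le_of_eq ?_
        push_cast; ring
    _ = _ := by rw [sum_const, card_range, nsmul_eq_mul]

lemma e0_inj {r : ℕ} {w w' : Fin (8 * r) → Bool} (h : e0 (gw (8 * r) w) = e0 (gw (8 * r) w')) :
    w = w' := by
  by_contra hne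
  have h1 : gw (8 * r) w • p0 = gw (8 * r) w' • p0 := congrArg Prod.fst h
  have h2 := InH_self (gw (8 * r) w)
  have h3 := InH_self (gw (8 * r) w')
  rw [← h1] at h3
  refine disj_gw (8 * r) w w' 1 hne (ctr_p0.act (gw (8 * r) w)).fut ?_ ?_
  · rw [one_mul]; exact h2
  · rw [one_mul]; exact h3

lemma qq_eq (r : ℕ) : qq (2 * r) = ((2:ℝ≥0∞) ^ (8 * r))⁻¹ := by
  unfold qq
  rw [show (16:ℝ≥0∞) = 2 ^ 4 by norm_num, ← pow_mul]
  congr 2; ring

lemma Exa_prob (r : ℕ) (w : Fin (8 * r) → Bool) :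
    Pm (Exa r w) = qq (2 * r) * (1 - qq (2 * r)) ^ (2 ^ (8 * r) - 1) := by
  classical
  set κ : (Fin (8 * r) → Bool) → Ix := fun w' => (2 * r, e0 (gw (8 * r) w')) with hκ
  have hinj : Function.Injective κ := fun a b h => e0_inj (congrArg Prod.snd h)
  have h1 := Pm_cyl (univ.image κ) fun k => decide (k = κ w)
  have e1 : {ω : Om | ∀ k ∈ univ.image κ, ω k = decide (k = κ w)} = Exa r w := by
    ext ω
    simp only [Set.mem_setOf_eq, mem_image, mem_univ, true_and, forall_exists_index,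
      forall_apply_eq_imp_iff, Exa]
    constructor
    · intro h
      refine ⟨?_, fun w' hw' => ?_⟩
      · have := h w; simpa using this
      · have := h w'
        rw [this, decide_eq_false_iff_not]
        exact fun e => hw' (hinj e)
    · rintro ⟨h2, h3⟩ w'
      by_cases h : w' = w
      · rw [h]; simpa using h2
      · have h4 := h3 w' h
        have h5 : κ w' ≠ κ w := fun e => h (hinj e)
        simp only [hκ] at h5 ⊢
        rw [h4, eq_comm, decide_eq_false_iff_not]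
        exact h5
  rw [e1, prod_image hinj.injOn] at h1
  rw [h1]
  have e2 : ∀ w', bern (κ w').1 {decide (κ w' = κ w)} = if w' = w then qq (2 * r) else
      (1 - qq (2 * r)) := by
    intro w'
    by_cases h : w' = w
    · rw [if_pos h, h]; simp only [decide_true, bern_true, hκ]
    · rw [if_neg h]
      have h5 : κ w' ≠ κ w := fun e => h (hinj e)
      rw [decide_eq_false h5, bern_false]
  rw [prod_congr rfl fun w' _ => e2 w', ← mul_prod_erase univ _ (mem_univ w), if_pos rfl]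
  congr 1
  rw [prod_congr rfl (g := fun _ => 1 - qq (2 * r)) fun w' hw' => by
    rw [if_neg (ne_of_mem_erase hw')], prod_const, card_erase_of_mem (mem_univ w), card_univ,
    Fintype.card_fun, Fintype.card_bool, Fintype.card_fin]

lemma Cgd_prob (ε : ℝ≥0∞) (r : ℕ) (w : Fin (8 * r) → Bool) :
    Pm (Cgd ε r w) = Pm {ω | ε < Es (DD ω) 1} := Es_law _ _

lemma Cgd_dep (ε : ℝ≥0∞) (r : ℕ) (w : Fin (8 * r) → Bool) (ω ω' : Om)
    (h : ∀ k, k ∉ Set.range (fun w' : Fin (8 * r) → Bool => ((2 * r, e0 (gw (8 * r) w')) : Ix)) →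
      ω k = ω' k) : ω ∈ Cgd ε r w ↔ ω' ∈ Cgd ε r w := by
  set g := gw (8 * r) w with hg
  set K := (2 * r) ^ 3 with hK
  set ν := -((g * XT ^ (K + 1)) • n0) with hν
  have hNu : Nu ν := (show Nu ((g * XT ^ (K + 1)) • n0) from ⟨_, rfl⟩).neg
  have key : ∀ u, Tch ν u → ∀ i, Lay ω u i ↔ Lay ω' u i := by
    rintro u ⟨x, x', hx, hx', hxx, rfl, hxν⟩ i
    have hidx : ∀ p, Dir (x + x') p → ∀ s < i ^ 3,
        ω (i, bk^[s] (p, x + x' - p)) = ω' (i, bk^[s] (p, x + x' - p)) := by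
      intro p hp s hs
      apply h
      rintro ⟨w', hw'⟩
      simp only [Prod.mk.injEq] at hw'
      obtain ⟨rfl, hw'⟩ := hw'
      have h5 := cor_of (k := gw (8 * r) w') (s := s) (e := (p, x + x' - p)) hw'.symm
      simp only [Prod.mk.injEq] at h5
      obtain ⟨h6, h7⟩ := h5
      -- `x` is a vertex of the corridor
      obtain ⟨t, ht, hxt⟩ : ∃ t ≤ K, x = (gw (8 * r) w' * XT ^ t) • p0 := by
        rcases (dir_iff hx hx' hxx p).1 hp with h8 | h8
        · exact ⟨s, hs.le, h8.symm.trans h6⟩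
        · rw [h8, add_sub_cancel_right] at h7
          exact ⟨s + 1, hs, h7⟩
      have hin : InH (g * XT ^ (K + 1)) x := hxν
      by_cases hw : w' = w
      · rw [hw, ← hg] at hxt
        rw [hxt, show K + 1 = t + ((K - t) + 1) by omega, pow_add, ← mul_assoc] at hin
        exact out_T (g * XT ^ t) (K - t) hin
      · have h9 := nest_T g (K + 1) hx.fut hin
        have h10 := InH_self (gw (8 * r) w' * XT ^ t)
        rw [← hxt] at h10
        have h11 := nest_T _ t hx.fut h10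
        exact disj_gw (8 * r) w' w 1 hw hx.fut (by rw [one_mul]; exact h11)
          (by rw [one_mul]; exact h9)
    constructor
    · rintro ⟨p, hp, s, hs, h1⟩
      exact ⟨p, hp, s, hs, by rw [← hidx p hp s hs]; exact h1⟩
    · rintro ⟨p, hp, s, hs, h1⟩
      exact ⟨p, hp, s, hs, by rw [hidx p hp s hs]; exact h1⟩
  have hDD : ∀ u, Tch ν u → DD ω u = DD ω' u := by
    intro u hu
    unfold DD SS
    congr 2
    refine tsum_congr fun i => ?_
    by_cases h1 : Lay ω u i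
    · rw [if_pos h1, if_pos ((key u hu i).1 h1)]
    · rw [if_neg h1, if_neg fun h2 => h1 ((key u hu i).2 h2)]
  have hEs : Es (DD ω) (g * XT ^ (K + 1)) = Es (DD ω') (g * XT ^ (K + 1)) :=
    stp_agree hNu hDD _
  unfold Cgd
  simp only [Set.mem_setOf_eq]
  rw [hEs]

lemma ex_esc (ε : ℝ≥0∞) (r : ℕ) (w : Fin (8 * r) → Bool) :
    Pm (Exa r w ∩ Cgd ε r w) = Pm (Exa r w) * Pm {ω | ε < Es (DD ω) 1} := by
  rw [← Cgd_prob ε r w]
  refine indep (Set.range (fun w' : Fin (8 * r) → Bool => ((2 * r, e0 (gw (8 * r) w')) : Ix)))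
    (meas_Exa r w) (meas_Cgd ε r w) ?_ (Cgd_dep ε r w)
  intro ω ω' h
  have h1 : ∀ w', ω (2 * r, e0 (gw (8 * r) w')) = ω' (2 * r, e0 (gw (8 * r) w')) := fun w' =>
    h _ ⟨w', rfl⟩
  simp only [Exa, Set.mem_setOf_eq, h1]

lemma act_stray (r : ℕ) (w : Fin (8 * r) → Bool) :
    Pm (Act1 r w ∩ Ybad r (gw (8 * r) w)) = qq (2 * r) * Pm (Ybad r (gw (8 * r) w)) := by
  have h1 : Pm (Act1 r w) = qq (2 * r) := Pm_true _
  rw [← h1]
  refine indep {(2 * r, e0 (gw (8 * r) w))} (meas_coord _ _) (meas_Ybad _ _) ?_ ?_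
  · intro ω ω' h
    have := h _ (Set.mem_singleton _)
    simp only [Act1, Set.mem_setOf_eq, this]
  · intro ω ω' h
    have key : ∀ ω ω' : Om, (∀ k, k ∉ ({(2 * r, e0 (gw (8 * r) w))} : Set Ix) → ω k = ω' k) →
        ω ∈ Ybad r (gw (8 * r) w) → ω' ∈ Ybad r (gw (8 * r) w) := by
      rintro ω ω' h ⟨s, hs, a, i, hi, p, hp, t, ht, h1, h2⟩
      refine ⟨s, hs, a, i, hi, p, hp, t, ht, h1, ?_⟩
      rw [← h _ (by simpa using h1)]
      exact h2
    exact ⟨key ω ω' h, key ω' ω fun k hk => (h k hk).symm⟩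

end Pool.Agent.H49.CP
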