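import Pool.Agent.H49.CP.Prob

set_option autoImplicit false

namespace Pool.Agent.H49.CP

open Finset MeasureTheory Filter Topology
open scoped ENNReal

/-- good environments at scale `r` -/
def Gd (ε : ℝ≥0∞) (r : ℕ) : Set Om :=
  (⋃ w : Fin (8 * r) → Bool, (Exa r w ∩ Cgd ε r w)) \
    (Nbad r ∪ ⋃ w : Fin (8 * r) → Bool, (Act1 r w ∩ Ybad r (gw (8 * r) w)))

lemma meas_Gd (ε : ℝ≥0∞) (r : ℕ) : MeasurableSet (Gd ε r) :=
  (MeasurableSet.iUnion fun w => (meas_Exa r w).inter (meas_Cgd ε r w)).diff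
    ((meas_Nbad r).union (MeasurableSet.iUnion fun w => (meas_coord _ _).inter (meas_Ybad _ _)))

lemma Gd_good {ε : ℝ≥0∞} {r : ℕ} {ω : Om} (h : ω ∈ Gd ε r) (hF : ∀ u, SS ω u ≠ ⊤) :
    ∃ w : Fin (8 * r) → Bool, GoodEv ε r ω (gw (8 * r) w) := by
  obtain ⟨h1, h2⟩ := h
  obtain ⟨w, hw1, hw2⟩ := Set.mem_iUnion.1 h1
  simp only [Set.mem_union, Set.mem_iUnion, not_or, not_exists] at h2
  obtain ⟨h3, h4⟩ := h2
  refine ⟨w, hF, hw1.1, ?_, ?_, hw2⟩
  · intro i hi w' a l hl hL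
    exact h3 ⟨i, hi, w', a, l, hl, hL⟩
  · intro s hs a i hi p hp t ht hω
    by_contra hne
    exact h4 w ⟨hw1.1, s, hs, a, i, hi, p, hp, t, ht, hne, hω⟩

lemma third (n : ℕ) : ENNReal.ofReal (1 / 3) ≤ (1 - ((2:ℝ≥0∞) ^ (n + 1))⁻¹) ^ (2 ^ (n + 1) - 1) := by
  set N : ℕ := 2 ^ (n + 1) with hN
  have hN2 : 2 ≤ N := by
    rw [hN, pow_succ]
    have := Nat.one_le_two_pow (n := n)
    omega
  obtain ⟨M, hM⟩ : ∃ M, N = M + 1 := ⟨N - 1, by omega⟩
  have hM1 : 1 ≤ M := by omega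
  have hMR : (1:ℝ) ≤ M := by exact_mod_cast hM1
  have e1 : (1 - ((2:ℝ≥0∞) ^ (n + 1))⁻¹) = ENNReal.ofReal ((M:ℝ) / (M + 1)) := by
    have h1 : (2:ℝ≥0∞) ^ (n + 1) = ENNReal.ofReal ((M:ℝ) + 1) := by
      have : ((N : ℕ) : ℝ≥0∞) = (2:ℝ≥0∞) ^ (n + 1) := by rw [hN]; push_cast; rfl
      rw [← this, hM]
      rw [ENNReal.ofReal_add (by positivity) (by norm_num), ENNReal.ofReal_natCast,
        ENNReal.ofReal_one]
      push_cast; rfl
    rw [h1, ← ENNReal.ofReal_inv_of_pos (by positivity), ← ENNReal.ofReal_one,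
      ← ENNReal.ofReal_sub _ (by positivity)]
    congr 1
    field_simp
    ring
  rw [e1, ← ENNReal.ofReal_pow (by positivity), hM, Nat.add_sub_cancel]
  apply ENNReal.ofReal_le_ofReal
  have h2 : (1 + 1 / (M:ℝ)) ^ M ≤ 3 := by
    have h3 : 1 + 1 / (M:ℝ) ≤ Real.exp (1 / M) := by
      have := Real.add_one_le_exp (1 / (M:ℝ))
      linarith
    calc (1 + 1 / (M:ℝ)) ^ M ≤ Real.exp (1 / M) ^ M := pow_le_pow_left₀ (by positivity) h3 M
      _ = Real.exp 1 := by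
          rw [← Real.exp_nat_mul]
          congr 1
          field_simp
      _ ≤ 3 := by linarith [Real.exp_one_lt_d9]
  have h4 : (M:ℝ) / (M + 1) = (1 + 1 / (M:ℝ))⁻¹ := by field_simp
  rw [h4, inv_pow, one_div]
  exact inv_anti₀ (by positivity) h2

lemma main_prob (ε : ℝ≥0∞) {r : ℕ} (hr : 1 ≤ r) :
    ENNReal.ofReal (1 / 3) * Pm {ω | ε < Es (DD ω) 1} ≤
      Pm (⋃ w : Fin (8 * r) → Bool, (Exa r w ∩ Cgd ε r w)) := by
  classical
  rw [measure_iUnion]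
  · rw [tsum_fintype]
    simp only [ex_esc, Exa_prob]
    rw [sum_const, card_univ, Fintype.card_fun, Fintype.card_bool, Fintype.card_fin,
      nsmul_eq_mul, qq_eq]
    obtain ⟨n, hn⟩ : ∃ n, 8 * r = n + 1 := ⟨8 * r - 1, by omega⟩
    have h1 := third n
    rw [← hn] at h1
    have h2 : ((2 ^ (8 * r) : ℕ) : ℝ≥0∞) * (((2:ℝ≥0∞) ^ (8 * r))⁻¹ *
        (1 - ((2:ℝ≥0∞) ^ (8 * r))⁻¹) ^ (2 ^ (8 * r) - 1) * Pm {ω | ε < Es (DD ω) 1}) =
        (1 - ((2:ℝ≥0∞) ^ (8 * r))⁻¹) ^ (2 ^ (8 * r) - 1) * Pm {ω | ε < Es (DD ω) 1} := by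
      rw [mul_assoc, ← mul_assoc]
      push_cast
      rw [ENNReal.mul_inv_cancel (by positivity) (by finiteness), one_mul]
    rw [h2]
    exact mul_le_mul_left h1 _
  · intro w w' hne
    simp only [Function.onFun]
    rw [Set.disjoint_left]
    rintro ω ⟨h1, -⟩ ⟨h2, -⟩
    have h3 := h2.2 w hne
    rw [h1.1] at h3
    exact Bool.noConfusion h3
  · exact fun w => (meas_Exa r w).inter (meas_Cgd ε r w)

/-- the error term -/
noncomputable def err (r : ℕ) : ℝ≥0∞ :=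
  12 * c1 * (2 ^ (4 * r))⁻¹ + (((2 * r) ^ 3 + 1 : ℕ) : ℝ≥0∞) * (12 * c1 * (8 ^ r)⁻¹)

lemma bad_prob (r : ℕ) : Pm (Nbad r ∪ ⋃ w : Fin (8 * r) → Bool,
    (Act1 r w ∩ Ybad r (gw (8 * r) w))) ≤ err r := by
  classical
  refine (measure_union_le _ _).trans (add_le_add (Nbad_le r) ?_)
  refine (measure_iUnion_fintype_le _ _).trans ?_
  simp only [act_stray]
  refine (sum_le_sum fun w _ => mul_le_mul_right (Ybad_le r (gw (8 * r) w)) _).trans ?_
  rw [sum_const, card_univ, Fintype.card_fun, Fintype.card_bool, Fintype.card_fin,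
    nsmul_eq_mul, qq_eq, ← mul_assoc]
  push_cast
  rw [ENNReal.mul_inv_cancel (by positivity) (by finiteness), one_mul]

lemma err_tendsto : Tendsto err atTop (𝓝 0) := by
  have h1 : ∀ r, err r = (12 * c1) * ENNReal.ofReal ((1 / 16 : ℝ) ^ r +
      (8 * ((r:ℝ) ^ 3 / 8 ^ r) + (1 / 8 : ℝ) ^ r)) := by
    intro r
    unfold err
    have e0 : (2:ℝ≥0∞) ^ (4 * r) = 16 ^ r := by
      rw [pow_mul]; norm_num
    have e1 : ((16:ℝ≥0∞) ^ r)⁻¹ = ENNReal.ofReal ((1 / 16 : ℝ) ^ r) := by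
      rw [ENNReal.ofReal_pow (by norm_num), one_div, ENNReal.ofReal_inv_of_pos (by norm_num),
        ENNReal.inv_pow]
      congr 2
      norm_num
    have e2 : ((8:ℝ≥0∞) ^ r)⁻¹ = ENNReal.ofReal ((1 / 8 : ℝ) ^ r) := by
      rw [ENNReal.ofReal_pow (by norm_num), one_div, ENNReal.ofReal_inv_of_pos (by norm_num),
        ENNReal.inv_pow]
      congr 2
      norm_num
    have e3 : (((2 * r) ^ 3 + 1 : ℕ) : ℝ≥0∞) = ENNReal.ofReal (8 * (r:ℝ) ^ 3 + 1) := by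
      rw [← ENNReal.ofReal_natCast]
      congr 1
      push_cast; ring
    have e4 : ENNReal.ofReal ((1 / 16 : ℝ) ^ r + (8 * ((r:ℝ) ^ 3 / 8 ^ r) + (1 / 8 : ℝ) ^ r)) =
        ENNReal.ofReal ((1 / 16 : ℝ) ^ r) +
          ENNReal.ofReal (8 * ((r:ℝ) ^ 3 / 8 ^ r) + (1 / 8 : ℝ) ^ r) :=
      ENNReal.ofReal_add (by positivity) (by positivity)
    rw [e0, e1, e2, e3, e4, mul_add]
    congr 1
    rw [show 8 * ((r:ℝ) ^ 3 / 8 ^ r) + (1 / 8 : ℝ) ^ r = (8 * (r:ℝ) ^ 3 + 1) * (1 / 8 : ℝ) ^ r by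
      rw [one_div, inv_pow]; field_simp, ENNReal.ofReal_mul (by positivity)]
    ring
  have h2 : Tendsto (fun r : ℕ => (1 / 16 : ℝ) ^ r + (8 * ((r:ℝ) ^ 3 / 8 ^ r) + (1 / 8 : ℝ) ^ r))
      atTop (𝓝 (0 + (8 * 0 + 0))) := by
    refine Tendsto.add (tendsto_pow_atTop_nhds_zero_of_lt_one (by norm_num) (by norm_num))
      (Tendsto.add (Tendsto.const_mul 8 ?_)
        (tendsto_pow_atTop_nhds_zero_of_lt_one (by norm_num) (by norm_num)))
    exact tendsto_pow_const_div_const_pow_of_one_lt 3 (by norm_num)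
  have h3 := ENNReal.tendsto_ofReal h2
  have h4 := ENNReal.Tendsto.const_mul (a := 12 * c1) h3 (Or.inr (by
    have := c1_ne_top; finiteness))
  rw [show (0:ℝ) + (8 * 0 + 0) = 0 by norm_num, ENNReal.ofReal_zero, mul_zero] at h4
  exact h4.congr fun r => (h1 r).symm

/-- infinitely many scales are good with positive probability -/
theorem limsup_pos : ∃ ε : ℝ≥0∞, 0 < ε ∧ ε < 1 ∧ ∃ A : Set Om, MeasurableSet A ∧ Pm A ≠ 0 ∧
    ∀ ω ∈ A, ∀ N : ℕ, ∃ r ≥ N, ω ∈ Gd ε r := by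
  obtain ⟨ε, hε0, hε1, hc⟩ := esc_pos
  refine ⟨ε, hε0, hε1, ?_⟩
  set c0 := Pm {ω | ε < Es (DD ω) 1} with hc0
  have hc0t : c0 ≠ ⊤ := measure_ne_top _ _
  set a := ENNReal.ofReal (1 / 6) * c0 with ha
  have ha0 : a ≠ 0 := mul_ne_zero (by simp) hc
  have hat : a ≠ ⊤ := ENNReal.mul_ne_top ENNReal.ofReal_ne_top hc0t
  have h6 : ENNReal.ofReal (1 / 3) * c0 = a + a := by
    rw [ha, ← add_mul, ← ENNReal.ofReal_add (by norm_num) (by norm_num)]
    norm_num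
  have h1 : ∀ᶠ r in atTop, a ≤ Pm (Gd ε r) := by
    filter_upwards [err_tendsto.eventually_lt_const (pos_iff_ne_zero.2 ha0),
      eventually_ge_atTop 1] with r hr hr1
    have h2 := main_prob ε hr1
    rw [← hc0, h6] at h2
    have h3 := bad_prob r
    calc a = (a + a) - a := by rw [ENNReal.add_sub_cancel_right hat]
      _ ≤ Pm (⋃ w : Fin (8 * r) → Bool, (Exa r w ∩ Cgd ε r w)) -
          Pm (Nbad r ∪ ⋃ w : Fin (8 * r) → Bool, (Act1 r w ∩ Ybad r (gw (8 * r) w))) :=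
          tsub_le_tsub h2 (h3.trans hr.le)
      _ ≤ _ := le_measure_diff
  obtain ⟨R, hR⟩ := eventually_atTop.1 h1
  set U : ℕ → Set Om := fun N => ⋃ r ∈ Set.Ici N, Gd ε r with hU
  have hUm : ∀ N, MeasurableSet (U N) := fun N =>
    MeasurableSet.biUnion (Set.to_countable _) fun r _ => meas_Gd ε r
  have hUa : Antitone U := by
    intro m n hmn ω hω
    simp only [hU, Set.mem_iUnion, Set.mem_Ici] at hω ⊢
    obtain ⟨r, hr, h⟩ := hω
    exact ⟨r, hmn.trans hr, h⟩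
  refine ⟨⋂ N, U N, MeasurableSet.iInter hUm, ?_, ?_⟩
  · have h4 := tendsto_measure_iInter_atTop (μ := Pm) (s := U)
      (fun N => (hUm N).nullMeasurableSet) hUa ⟨0, measure_ne_top _ _⟩
    have h5 : a ≤ Pm (⋂ N, U N) := by
      refine ge_of_tendsto h4 ?_
      filter_upwards [eventually_ge_atTop R] with N hN
      refine (hR N hN).trans (measure_mono ?_)
      intro ω hω
      simp only [hU, Set.mem_iUnion, Set.mem_Ici]
      exact ⟨N, le_rfl, hω⟩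
    intro h0
    rw [h0] at h5
    exact ha0 (le_antisymm h5 zero_le)
  · intro ω hω N
    have := Set.mem_iInter.1 hω N
    simp only [hU, Set.mem_iUnion, Set.mem_Ici] at this
    obtain ⟨r, hr, h⟩ := this
    exact ⟨r, hr, h⟩

end Pool.Agent.H49.CP
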