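import Pool.Agent.H49.CP.Circ

set_option autoImplicit false

namespace Pool.Agent.H49.CP

noncomputable def s2 : ℝ := Real.sqrt 2
noncomputable def s3 : ℝ := Real.sqrt 3
lemma e2 : s2 * s2 = 2 := Real.mul_self_sqrt (by norm_num)
lemma e3 : s3 * s3 = 3 := Real.mul_self_sqrt (by norm_num)
lemma s2_gt : 1 < s2 := by
  have h : (0:ℝ) ≤ s2 := Real.sqrt_nonneg _
  nlinarith [e2]
lemma s3_gt : 1 < s3 := by
  have h : (0:ℝ) ≤ s3 := Real.sqrt_nonneg _
  nlinarith [e3]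
lemma s2_lt : s2 < 3 / 2 := by
  have h := s2_gt
  nlinarith [e2]
lemma s3_lt : s3 < 2 := by
  have h := s3_gt
  nlinarith [e3]

noncomputable def P (p : L) : W := (ι p, s2)
noncomputable def Q (q : L) : W := ((1 + 2 * s3 / 3) • ι q, s2 * (1 + s3))
noncomputable def dl (u q : L) : W := ((s2 / 2) • ι u + (s2 * s3 / 3) • ι q, 2 + s3)
noncomputable def Nv (u : L) : W := (ι u, 2 * s2)
noncomputable def Fn (u q : L) (l : ℕ) : W := Q q + (2 * l : ℝ) • dl u q + ((l : ℝ) ^ 2) • Nv u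

lemma PP (p p' : L) : B4 (P p) (P p') = B p p' + 2 := by
  simp only [B4, P, BR_ι]; rw [e2]
lemma PQ (p q : L) : B4 (P p) (Q q) = (1 + 2 * s3 / 3) * B p q + 2 * (1 + s3) := by
  simp only [B4, P, Q, BR_smul_right, BR_ι]; linear_combination (1 + s3) * e2
lemma QQ (p q : L) : B4 (Q p) (Q q) = (7 + 4 * s3) / 3 * B p q + (8 + 4 * s3) := by
  simp only [B4, Q, BR_smul_right, BR_smul_left, BR_ι]
  linear_combination (1 + s3) ^ 2 * e2 + (4 / 9 * (B p q : ℝ) + 2) * e3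
lemma Pd (p u q : L) : B4 (P p) (dl u q) = s2 / 2 * B p u + s2 * s3 / 3 * B p q + s2 * (2 + s3) := by
  simp only [B4, P, dl, BR_add_right, BR_smul_right, BR_ι]
lemma Qd (q' u q : L) : B4 (Q q') (dl u q) =
    (1 + 2 * s3 / 3) * (s2 / 2 * B q' u + s2 * s3 / 3 * B q' q) + s2 * (1 + s3) * (2 + s3) := by
  simp only [B4, Q, dl, BR_add_right, BR_smul_right, BR_smul_left, BR_ι]; ring
lemma dd (u q u' q' : L) : B4 (dl u q) (dl u' q') =
    1 / 2 * B u u' + s3 / 3 * (B u q' + B q u') + 2 / 3 * B q q' + (7 + 4 * s3) := by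
  simp only [B4, dl, BR_add_right, BR_smul_right, BR_add_left, BR_smul_left, BR_ι]
  linear_combination (1 / 4 * (B u u' : ℝ) + s3 / 6 * ((B u q' : ℝ) + B q u') +
    s3 ^ 2 / 9 * (B q q' : ℝ)) * e2 + (2 / 9 * (B q q' : ℝ) + 1) * e3
lemma N_eq (p p' : L) : Nv (p + p') = P p + P p' := by
  simp only [Nv, P, ι_add]
  ext <;> simp; ring

/-- a base face -/
structure Fc (p p' q : L) : Prop where
  hp : Ctr p
  hp' : Ctr p'
  hq : Cor q
  hpp : B p p' = -3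
  hpq : B p q = -3
  hpq' : B p' q = -3

lemma Fc.symm {p p' q : L} (h : Fc p p' q) : Fc p' p q :=
  ⟨h.hp', h.hp, h.hq, by rw [B_comm]; exact h.hpp, h.hpq', h.hpq⟩

lemma Fc.act {p p' q : L} (h : Fc p p' q) (g : Γ) : Fc (g • p) (g • p') (g • q) :=
  ⟨h.hp.act g, h.hp'.act g, h.hq.act g, by rw [B_act, h.hpp], by rw [B_act, h.hpq],
    by rw [B_act, h.hpq']⟩

lemma fc0 : Fc p0 p1 q0 := ⟨ctr_p0, ctr_p1, cor_q0, by decide, by decide, by decide⟩

lemma Fc.ne {p p' q : L} (h : Fc p p' q) : p ≠ p' := by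
  rintro rfl
  have := h.hpp
  rw [h.hp.1] at this
  norm_num at this

lemma PP_self {p : L} (h : Ctr p) : B4 (P p) (P p) = 1 := by
  rw [PP, h.1]; norm_num
lemma QQ_self {q : L} (h : Cor q) : B4 (Q q) (Q q) = 1 := by
  rw [QQ, h.1]; push_cast; ring

lemma PP_le {p p' : L} (h : Ctr p) (h' : Ctr p') (hne : p ≠ p') : B4 (P p) (P p') ≤ -1 := by
  have := h.ctr h' hne
  have h1 : (B p p' : ℝ) ≤ -3 := by exact_mod_cast this
  rw [PP]; linarith
lemma PP_iff {p p' : L} : B4 (P p) (P p') = -1 ↔ B p p' = -3 := by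
  rw [PP]
  constructor
  · intro h
    have : (B p p' : ℝ) = -3 := by linarith
    exact_mod_cast this
  · intro h
    rw [h]; norm_num
lemma PQ_le {p q : L} (h : Ctr p) (h' : Cor q) : B4 (P p) (Q q) ≤ -1 := by
  have := h'.le h.fut
  rw [B_comm] at this
  have h1 : (B p q : ℝ) ≤ -3 := by exact_mod_cast this
  rw [PQ]; nlinarith [s3_gt]
lemma PQ_iff {p q : L} : B4 (P p) (Q q) = -1 ↔ B p q = -3 := by
  rw [PQ]
  have h3 := s3_gt
  constructor
  · intro h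
    have : (1 + 2 * s3 / 3) * ((B p q : ℝ) + 3) = 0 := by linarith
    rcases mul_eq_zero.1 this with h1 | h1
    · linarith
    · have : (B p q : ℝ) = -3 := by linarith
      exact_mod_cast this
  · intro h
    rw [h]; push_cast; ring
lemma QQ_le {p q : L} (h : Cor p) (h' : Cor q) (hne : p ≠ q) : B4 (Q p) (Q q) < -1 := by
  have := h.cor h' hne
  have h1 : (B p q : ℝ) ≤ -6 := by exact_mod_cast this
  rw [QQ]; nlinarith [s3_gt]

section
variable {p p' q : L} (F : Fc p p' q)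
include F

lemma Fc.Bpu : B p (p + p') = -4 := by rw [B_add_right, F.hp.1, F.hpp]; norm_num
lemma Fc.Bpu' : B p' (p + p') = -4 := by rw [B_add_right, F.hp'.1, B_comm, F.hpp]; norm_num
lemma Fc.Bqu : B q (p + p') = -6 := by
  rw [B_add_right, B_comm q p, B_comm q p', F.hpq, F.hpq']; norm_num
lemma Fc.Buu : B (p + p') (p + p') = -8 := by
  rw [B_add_left, F.Bpu, F.Bpu']; norm_num

lemma Fc.d_self : B4 (dl (p + p') q) (dl (p + p') q) = 1 := by
  rw [dd, F.Buu, F.Bqu, B_comm _ q, F.Bqu, F.hq.1]; push_cast; ring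
lemma Fc.Pd0 : B4 (P p) (dl (p + p') q) = 0 := by
  rw [Pd, F.Bpu, F.hpq]; push_cast; ring
lemma Fc.Pd0' : B4 (P p') (dl (p + p') q) = 0 := by
  rw [Pd, F.Bpu', F.hpq']; push_cast; ring
lemma Fc.Qd0 : B4 (Q q) (dl (p + p') q) = 0 := by
  rw [Qd, F.Bqu, F.hq.1]; push_cast
  linear_combination (-(s2 / 3) * 2 + s2) * e3 + s2 * (1 : ℝ) * 0
lemma Fc.Pd_le {y : L} (hy : Ctr y) (h1 : y ≠ p) (h2 : y ≠ p') :
    B4 (P y) (dl (p + p') q) ≤ -s2 := by
  have a1 := hy.ctr F.hp h1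
  have a2 := hy.ctr F.hp' h2
  have a3 := F.hq.le hy.fut
  rw [B_comm] at a3
  have b1 : (B y (p + p') : ℝ) ≤ -6 := by
    have : B y (p + p') ≤ -6 := by rw [B_add_right]; linarith
    exact_mod_cast this
  have b2 : (B y q : ℝ) ≤ -3 := by exact_mod_cast a3
  rw [Pd]
  have h3 := s3_gt
  have h2 := s2_gt
  have c1 : s2 / 2 * (B y (p + p') : ℝ) ≤ s2 / 2 * (-6) := mul_le_mul_of_nonneg_left b1 (by linarith)
  have c2 : s2 * s3 / 3 * (B y q : ℝ) ≤ s2 * s3 / 3 * (-3) :=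
    mul_le_mul_of_nonneg_left b2 (by positivity)
  linarith
lemma Fc.Qd_le {y : L} (hy : Cor y) (h1 : y ≠ q) : B4 (Q y) (dl (p + p') q) ≤ -2 * s2 := by
  have a1 := hy.le F.hp.fut
  have a2 := hy.le F.hp'.fut
  have a3 := hy.cor F.hq h1
  have b1 : (B y (p + p') : ℝ) ≤ -6 := by
    have : B y (p + p') ≤ -6 := by rw [B_add_right]; linarith
    exact_mod_cast this
  have b2 : (B y q : ℝ) ≤ -6 := by exact_mod_cast a3
  rw [Qd]
  have h3 := s3_gt
  have h2 := s2_gt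
  have c1 : s2 / 2 * (B y (p + p') : ℝ) ≤ s2 / 2 * (-6) := mul_le_mul_of_nonneg_left b1 (by linarith)
  have c2 : s2 * s3 / 3 * (B y q : ℝ) ≤ s2 * s3 / 3 * (-6) :=
    mul_le_mul_of_nonneg_left b2 (by positivity)
  have c3 : (1 + 2 * s3 / 3) * (s2 / 2 * (B y (p + p') : ℝ) + s2 * s3 / 3 * (B y q : ℝ)) ≤
      (1 + 2 * s3 / 3) * (s2 / 2 * (-6) + s2 * s3 / 3 * (-6)) :=
    mul_le_mul_of_nonneg_left (by linarith) (by linarith)
  nlinarith [e3, mul_pos (show 0 < s2 by linarith) (show 0 < s3 by linarith)]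
end

lemma Fc.ends {p p' q y : L} (F : Fc p p' q) (hy : Ctr y) (h : B y (p + p') = -4) :
    y = p ∨ y = p' := by
  by_contra hcon
  push Not at hcon
  have a1 := hy.ctr F.hp hcon.1
  have a2 := hy.ctr F.hp' hcon.2
  rw [B_add_right] at h
  linarith

lemma Fc.Buu_le {p p' q r r' k : L} (F : Fc p p' q) (G : Fc r r' k) (h : p + p' ≠ r + r') :
    B (p + p') (r + r') ≤ -10 := by
  have e : B (p + p') (r + r') = B p r + B p r' + B p' r + B p' r' := by
    rw [B_add_left, B_add_right, B_add_right]; ring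
  rw [e]
  have hp := F.hp.1
  have hp' := F.hp'.1
  by_cases h1 : p = r
  · subst h1
    have h2 : p' ≠ r' := fun h2 => h (by rw [h2])
    have a1 := F.hp.ctr G.hp' G.ne
    have a2 := F.hp'.ctr F.hp F.ne.symm
    have a3 := F.hp'.ctr G.hp' h2
    linarith
  by_cases h2 : p = r'
  · subst h2
    have h3 : p' ≠ r := fun h3 => h (by rw [h3, add_comm])
    have a1 := F.hp.ctr G.hp h1
    have a2 := F.hp'.ctr G.hp h3
    have a3 := F.hp'.ctr F.hp F.ne.symm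
    linarith
  have a1 := F.hp.ctr G.hp h1
  have a2 := F.hp.ctr G.hp' h2
  by_cases h3 : p' = r
  · subst h3
    have a3 := F.hp'.ctr G.hp' G.ne
    linarith
  by_cases h4 : p' = r'
  · subst h4
    have a3 := F.hp'.ctr G.hp h3
    linarith
  have a3 := F.hp'.ctr G.hp h3
  have a4 := F.hp'.ctr G.hp' h4
  linarith

lemma Fc.dd_le {p p' q r r' k : L} (F : Fc p p' q) (G : Fc r r' k)
    (h : p + p' ≠ r + r' ∨ q ≠ k) : B4 (dl (p + p') q) (dl (r + r') k) ≤ 0 := by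
  rw [dd]
  have b2 : (B (p + p') k : ℝ) ≤ -6 := by
    have a1 := G.hq.le F.hp.fut
    have a2 := G.hq.le F.hp'.fut
    rw [B_comm] at a1 a2
    have : B (p + p') k ≤ -6 := by rw [B_add_left]; linarith
    exact_mod_cast this
  have b3 : (B q (r + r') : ℝ) ≤ -6 := by
    have a1 := F.hq.le G.hp.fut
    have a2 := F.hq.le G.hp'.fut
    have : B q (r + r') ≤ -6 := by rw [B_add_right]; linarith
    exact_mod_cast this
  have h3 := s3_gt
  have c1 : s3 / 3 * ((B (p + p') k : ℝ) + B q (r + r')) ≤ s3 / 3 * (-12) :=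
    mul_le_mul_of_nonneg_left (by linarith) (by linarith)
  by_cases hu : p + p' = r + r'
  · have hqk : q ≠ k := by
      rcases h with h | h
      · exact absurd hu h
      · exact h
    have b4 : (B q k : ℝ) ≤ -6 := by exact_mod_cast F.hq.cor G.hq hqk
    have b1 : (B (p + p') (r + r') : ℝ) = -8 := by
      rw [← hu, F.Buu]; norm_num
    rw [b1]; linarith
  · have b1 : (B (p + p') (r + r') : ℝ) ≤ -10 := by exact_mod_cast F.Buu_le G hu
    have b4 : (B q k : ℝ) ≤ -3 := by exact_mod_cast F.hq.le G.hq.fut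
    linarith

lemma Fc.NN_le {p p' q r r' k : L} (F : Fc p p' q) (G : Fc r r' k) :
    B4 (Nv (p + p')) (Nv (r + r')) ≤ 0 := by
  have e : B4 (Nv (p + p')) (Nv (r + r')) = B (p + p') (r + r') + 8 := by
    simp only [B4, Nv, BR_ι]; linear_combination 4 * e2
  rw [e]
  by_cases hu : p + p' = r + r'
  · rw [← hu, F.Buu]; norm_num
  · have b1 : (B (p + p') (r + r') : ℝ) ≤ -10 := by exact_mod_cast F.Buu_le G hu
    linarith

lemma Fc.NN_self {p p' q : L} (F : Fc p p' q) : B4 (Nv (p + p')) (Nv (p + p')) = 0 := by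
  have e : B4 (Nv (p + p')) (Nv (p + p')) = B (p + p') (p + p') + 8 := by
    simp only [B4, Nv, BR_ι]; linear_combination 4 * e2
  rw [e, F.Buu]; norm_num

lemma Fc.NQ_le {p p' q k : L} (F : Fc p p' q) (hk : Cor k) : B4 (Nv (p + p')) (Q k) ≤ -2 := by
  rw [N_eq, B4_add_left]
  have := PQ_le F.hp hk
  have := PQ_le F.hp' hk
  linarith

lemma Fc.NQ_self {p p' q : L} (F : Fc p p' q) : B4 (Nv (p + p')) (Q q) = -2 := by
  rw [N_eq, B4_add_left, PQ_iff.2 F.hpq, PQ_iff.2 F.hpq']; norm_num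

lemma Fc.Nd_self {p p' q : L} (F : Fc p p' q) : B4 (Nv (p + p')) (dl (p + p') q) = 0 := by
  rw [N_eq, B4_add_left, F.Pd0, F.Pd0']; norm_num

lemma Fc.Pd_le0 {p p' q y : L} (F : Fc p p' q) (hy : Ctr y) : B4 (P y) (dl (p + p') q) ≤ 0 := by
  by_cases h1 : y = p
  · rw [h1, F.Pd0]
  by_cases h2 : y = p'
  · rw [h2, F.Pd0']
  have := F.Pd_le hy h1 h2
  linarith [s2_gt]

lemma Fc.Qd_le0 {p p' q y : L} (F : Fc p p' q) (hy : Cor y) : B4 (Q y) (dl (p + p') q) ≤ 0 := by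
  by_cases h1 : y = q
  · rw [h1, F.Qd0]
  have := F.Qd_le hy h1
  linarith [s2_gt]

lemma Fc.Nd_le {p p' q r r' k : L} (F : Fc p p' q) (G : Fc r r' k) :
    B4 (Nv (p + p')) (dl (r + r') k) ≤ 0 := by
  rw [N_eq, B4_add_left]
  have := G.Pd_le0 F.hp
  have := G.Pd_le0 F.hp'
  linarith

lemma Fc.Nd_lt {p p' q r r' k : L} (F : Fc p p' q) (G : Fc r r' k) (h : p + p' ≠ r + r') :
    B4 (Nv (p + p')) (dl (r + r') k) ≤ -s2 := by
  rw [N_eq, B4_add_left]
  have a1 := G.Pd_le0 F.hp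
  have a2 := G.Pd_le0 F.hp'
  by_cases h1 : p = r
  · have h2 : p' ≠ r := fun h2 => F.ne (h1.trans h2.symm)
    have h3 : p' ≠ r' := fun h3 => h (by rw [h1, h3])
    have := G.Pd_le F.hp' h2 h3
    linarith
  by_cases h1' : p = r'
  · have h2 : p' ≠ r' := fun h2 => F.ne (h1'.trans h2.symm)
    have h3 : p' ≠ r := fun h3 => h (by rw [h1', h3, add_comm])
    have := G.Pd_le F.hp' h3 h2
    linarith
  have := G.Pd_le F.hp h1 h1'
  linarith

/-! products with fan circles -/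

lemma Fn_zero (u q : L) : Fn u q 0 = Q q := by
  simp [Fn]

lemma Fc.PF {p p' q : L} (F : Fc p p' q) (l : ℕ) : B4 (P p) (Fn (p + p') q l) = -1 := by
  simp only [Fn, B4_add_right, B4_smul_right]
  rw [PQ_iff.2 F.hpq, F.Pd0, B4_comm, N_eq, B4_add_left, PP_self F.hp, B4_comm, PP_iff.2 F.hpp]
  ring
lemma Fc.PF' {p p' q : L} (F : Fc p p' q) (l : ℕ) : B4 (P p') (Fn (p + p') q l) = -1 := by
  have := F.symm.PF l
  rwa [add_comm] at this

lemma Fc.PF_lt {p p' q y : L} (F : Fc p p' q) (hy : Ctr y) (h1 : y ≠ p) (h2 : y ≠ p') {l : ℕ}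
    (hl : 1 ≤ l) : B4 (P y) (Fn (p + p') q l) < -1 := by
  simp only [Fn, B4_add_right, B4_smul_right]
  have a1 := PQ_le hy F.hq
  have a2 := F.Pd_le hy h1 h2
  have a3 : B4 (P y) (Nv (p + p')) ≤ -2 := by
    rw [N_eq, B4_add_right]
    have := PP_le hy F.hp h1
    have := PP_le hy F.hp' h2
    linarith
  have hl' : (1 : ℝ) ≤ l := by exact_mod_cast hl
  have h3 := s2_gt
  have b1 : (2 * l : ℝ) * B4 (P y) (dl (p + p') q) ≤ (2 * l : ℝ) * (-s2) :=
    mul_le_mul_of_nonneg_left a2 (by linarith)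
  have b2 : ((l : ℝ) ^ 2) * B4 (P y) (Nv (p + p')) ≤ ((l : ℝ) ^ 2) * (-2) :=
    mul_le_mul_of_nonneg_left a3 (by positivity)
  nlinarith

lemma Fc.QF_self {p p' q : L} (F : Fc p p' q) (l : ℕ) :
    B4 (Q q) (Fn (p + p') q l) = 1 - 2 * (l : ℝ) ^ 2 := by
  simp only [Fn, B4_add_right, B4_smul_right]
  rw [QQ_self F.hq, F.Qd0, B4_comm _ (Nv _), F.NQ_self]; ring

lemma Fc.QF_lt {p p' q y : L} (F : Fc p p' q) (hy : Cor y) (h1 : y ≠ q) (l : ℕ) :
    B4 (Q y) (Fn (p + p') q l) < -1 := by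
  simp only [Fn, B4_add_right, B4_smul_right]
  have a1 := QQ_le hy F.hq h1
  have a2 := F.Qd_le0 hy
  have a3 := F.NQ_le hy
  rw [B4_comm] at a3
  have b1 : (2 * l : ℝ) * B4 (Q y) (dl (p + p') q) ≤ 0 :=
    mul_nonpos_of_nonneg_of_nonpos (by positivity) a2
  have b2 : ((l : ℝ) ^ 2) * B4 (Q y) (Nv (p + p')) ≤ 0 :=
    mul_nonpos_of_nonneg_of_nonpos (by positivity) (by linarith)
  linarith

lemma Fc.FF_self {p p' q : L} (F : Fc p p' q) (l m : ℕ) :
    B4 (Fn (p + p') q l) (Fn (p + p') q m) = 1 - 2 * ((l : ℝ) - m) ^ 2 := by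
  simp only [Fn, B4_add_right, B4_smul_right, B4_add_left, B4_smul_left]
  rw [QQ_self F.hq, F.Qd0, B4_comm (Q q) (Nv _), F.NQ_self, B4_comm (dl _ _) (Q q), F.Qd0,
    F.d_self, B4_comm (dl _ _) (Nv _), F.Nd_self, F.NN_self]
  ring

lemma Fc.dF {p p' q : L} (F : Fc p p' q) (l : ℕ) :
    B4 (dl (p + p') q) (Fn (p + p') q l) = 2 * l := by
  simp only [Fn, B4_add_right, B4_smul_right]
  rw [B4_comm _ (Q q), F.Qd0, F.d_self, B4_comm _ (Nv _), F.Nd_self]; ring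

lemma Fc.dF_le {p p' q r r' k : L} (F : Fc p p' q) (G : Fc r r' k)
    (h : p + p' ≠ r + r' ∨ q ≠ k) (m : ℕ) : B4 (dl (p + p') q) (Fn (r + r') k m) ≤ 0 := by
  simp only [Fn, B4_add_right, B4_smul_right]
  have a1 := F.Qd_le0 G.hq
  rw [B4_comm] at a1
  have a2 := F.dd_le G h
  have a3 := G.Nd_le F
  rw [B4_comm] at a3
  have b1 : (2 * m : ℝ) * B4 (dl (p + p') q) (dl (r + r') k) ≤ 0 :=
    mul_nonpos_of_nonneg_of_nonpos (by positivity) a2
  have b2 : ((m : ℝ) ^ 2) * B4 (dl (p + p') q) (Nv (r + r')) ≤ 0 :=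
    mul_nonpos_of_nonneg_of_nonpos (by positivity) a3
  linarith

lemma Fc.dF_lt {p p' q r r' k : L} (F : Fc p p' q) (G : Fc r r' k)
    (h : p + p' ≠ r + r' ∨ q ≠ k) {m : ℕ} (hm : 1 ≤ m) :
    B4 (dl (p + p') q) (Fn (r + r') k m) ≤ -1 := by
  simp only [Fn, B4_add_right, B4_smul_right]
  have hm' : (1 : ℝ) ≤ m := by exact_mod_cast hm
  have h2 := s2_gt
  have a2 := F.dd_le G h
  have b1 : (2 * m : ℝ) * B4 (dl (p + p') q) (dl (r + r') k) ≤ 0 :=
    mul_nonpos_of_nonneg_of_nonpos (by positivity) a2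
  by_cases hu : p + p' = r + r'
  · have hqk : k ≠ q := by
      rcases h with h | h
      · exact absurd hu h
      · exact h.symm
    have a1 := F.Qd_le G.hq hqk
    rw [B4_comm] at a1
    have a3 := G.Nd_le F
    rw [B4_comm] at a3
    have b2 : ((m : ℝ) ^ 2) * B4 (dl (p + p') q) (Nv (r + r')) ≤ 0 :=
      mul_nonpos_of_nonneg_of_nonpos (by positivity) a3
    linarith
  · have a1 := F.Qd_le0 G.hq
    rw [B4_comm] at a1
    have a3 := G.Nd_lt F (Ne.symm hu)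
    rw [B4_comm] at a3
    have b2 : ((m : ℝ) ^ 2) * B4 (dl (p + p') q) (Nv (r + r')) ≤ ((m : ℝ) ^ 2) * (-s2) :=
      mul_le_mul_of_nonneg_left a3 (by positivity)
    nlinarith

lemma Fc.FF_lt {p p' q r r' k : L} (F : Fc p p' q) (G : Fc r r' k)
    (h : p + p' ≠ r + r' ∨ q ≠ k) {l m : ℕ} (hl : 1 ≤ l) (hm : 1 ≤ m) :
    B4 (Fn (p + p') q l) (Fn (r + r') k m) < -1 := by
  have e : B4 (Fn (p + p') q l) (Fn (r + r') k m) = B4 (Q q) (Fn (r + r') k m) +
      (2 * l : ℝ) * B4 (dl (p + p') q) (Fn (r + r') k m) +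
      ((l : ℝ) ^ 2) * B4 (Nv (p + p')) (Fn (r + r') k m) := by
    rw [Fn, B4_add_left, B4_add_left, B4_smul_left, B4_smul_left]
  rw [e]
  have hl' : (1 : ℝ) ≤ l := by exact_mod_cast hl
  have hm' : (1 : ℝ) ≤ m := by exact_mod_cast hm
  have a2 := F.dF_lt G h hm
  have b2 : (2 * l : ℝ) * B4 (dl (p + p') q) (Fn (r + r') k m) ≤ (2 * l : ℝ) * (-1) :=
    mul_le_mul_of_nonneg_left a2 (by linarith)
  have a1 : B4 (Q q) (Fn (r + r') k m) ≤ 1 := by
    by_cases hqk : q = k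
    · rw [hqk, G.QF_self]; nlinarith
    · have := G.QF_lt F.hq hqk m
      linarith
  have a3 : B4 (Nv (p + p')) (Fn (r + r') k m) ≤ -2 := by
    simp only [Fn, B4_add_right, B4_smul_right]
    have c1 := F.NQ_le G.hq
    have c2 := F.Nd_le G
    have c3 := F.NN_le G
    have d1 : (2 * m : ℝ) * B4 (Nv (p + p')) (dl (r + r') k) ≤ 0 :=
      mul_nonpos_of_nonneg_of_nonpos (by positivity) c2
    have d2 : ((m : ℝ) ^ 2) * B4 (Nv (p + p')) (Nv (r + r')) ≤ 0 :=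
      mul_nonpos_of_nonneg_of_nonpos (by positivity) c3
    linarith
  have b3 : ((l : ℝ) ^ 2) * B4 (Nv (p + p')) (Fn (r + r') k m) ≤ ((l : ℝ) ^ 2) * (-2) :=
    mul_le_mul_of_nonneg_left a3 (by positivity)
  nlinarith

end Pool.Agent.H49.CP
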