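import Pool.Agent.H49.CP.Lat

set_option autoImplicit false

namespace Pool.Agent.H49.CP

/-- real vectors -/
abbrev E := ℝ × ℝ × ℝ

noncomputable def BR (u v : E) : ℝ :=
  2 * u.1 * v.1 + u.1 * v.2.1 + u.2.1 * v.1 + 2 * u.2.1 * v.2.1 - u.2.2 * v.2.2

def ι (u : L) : E := ((u.1 : ℝ), (u.2.1 : ℝ), (u.2.2 : ℝ))

@[simp] lemma ι_1 (u : L) : (ι u).1 = u.1 := rfl
@[simp] lemma ι_2 (u : L) : (ι u).2.1 = u.2.1 := rfl
@[simp] lemma ι_3 (u : L) : (ι u).2.2 = u.2.2 := rfl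

lemma BR_ι (u v : L) : BR (ι u) (ι v) = B u v := by
  simp only [BR, B, ι_1, ι_2, ι_3]; push_cast; ring

lemma ι_add (u v : L) : ι (u + v) = ι u + ι v := by
  ext <;> simp
lemma ι_sub (u v : L) : ι (u - v) = ι u - ι v := by
  ext <;> simp
lemma ι_neg (u : L) : ι (-u) = - ι u := by
  ext <;> simp

lemma BR_comm (u v : E) : BR u v = BR v u := by simp only [BR]; ring
lemma BR_add_left (u v w : E) : BR (u + v) w = BR u w + BR v w := by
  simp only [BR, Prod.fst_add, Prod.snd_add]; ring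
lemma BR_add_right (u v w : E) : BR u (v + w) = BR u v + BR u w := by
  simp only [BR, Prod.fst_add, Prod.snd_add]; ring
lemma BR_sub_left (u v w : E) : BR (u - v) w = BR u w - BR v w := by
  simp only [BR, Prod.fst_sub, Prod.snd_sub]; ring
lemma BR_sub_right (u v w : E) : BR u (v - w) = BR u v - BR u w := by
  simp only [BR, Prod.fst_sub, Prod.snd_sub]; ring
lemma BR_smul_left (n : ℝ) (u v : E) : BR (n • u) v = n * BR u v := by
  simp only [BR, Prod.smul_fst, Prod.smul_snd, smul_eq_mul]; ring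
lemma BR_smul_right (n : ℝ) (u v : E) : BR u (n • v) = n * BR u v := by
  simp only [BR, Prod.smul_fst, Prod.smul_snd, smul_eq_mul]; ring

lemma csR (u v : E) : (2 * u.1 * v.1 + u.1 * v.2.1 + u.2.1 * v.1 + 2 * u.2.1 * v.2.1) ^ 2 ≤
    (2 * u.1 * u.1 + 2 * u.1 * u.2.1 + 2 * u.2.1 * u.2.1) *
      (2 * v.1 * v.1 + 2 * v.1 * v.2.1 + 2 * v.2.1 * v.2.1) := by
  nlinarith [sq_nonneg (u.1 * v.2.1 - u.2.1 * v.1)]

lemma nR_nonneg (x y : ℝ) : 0 ≤ 2 * x * x + 2 * x * y + 2 * y * y := by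
  nlinarith [sq_nonneg (x + y), sq_nonneg x, sq_nonneg y]

/-- real future timelike -/
def FutR (u : E) : Prop := BR u u < 0 ∧ 0 < u.2.2

lemma Fut.real {u : L} (h : Fut u) : FutR (ι u) :=
  ⟨by rw [BR_ι]; exact_mod_cast h.1, by simpa using h.2⟩

/-- quantitative negativity -/
lemma pair_le {x : E} (hx : FutR x) : ∃ c : ℝ, 0 < c ∧ ∀ v : E, BR v v ≤ 0 → 0 ≤ v.2.2 →
    c * v.2.2 ≤ -BR x v := by
  obtain ⟨h1, h2⟩ := hx
  simp only [BR] at h1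
  set n := 2 * x.1 * x.1 + 2 * x.1 * x.2.1 + 2 * x.2.1 * x.2.1 with hn
  have hn0 : 0 ≤ n := nR_nonneg _ _
  have hn1 : n < x.2.2 ^ 2 := by nlinarith
  have hs : Real.sqrt n < x.2.2 := by
    rw [← Real.sqrt_sq h2.le]
    exact Real.sqrt_lt_sqrt hn0 hn1
  refine ⟨x.2.2 - Real.sqrt n, by linarith, fun v h3 h4 => ?_⟩
  have c := csR x v
  simp only [BR] at h3 ⊢
  set s := 2 * x.1 * v.1 + x.1 * v.2.1 + x.2.1 * v.1 + 2 * x.2.1 * v.2.1 with hs'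
  set m := 2 * v.1 * v.1 + 2 * v.1 * v.2.1 + 2 * v.2.1 * v.2.1 with hm
  have hm0 : 0 ≤ m := nR_nonneg _ _
  have hm1 : m ≤ v.2.2 ^ 2 := by nlinarith
  have h5 : s ≤ Real.sqrt n * v.2.2 := by
    have h6 : s ^ 2 ≤ (Real.sqrt n * v.2.2) ^ 2 := by
      rw [mul_pow, Real.sq_sqrt hn0]
      exact c.trans (mul_le_mul_of_nonneg_left hm1 hn0)
    exact (abs_le.1 (abs_le_of_sq_le_sq h6 (by positivity))).2
  linarith

lemma FutR.neg {x v : E} (hx : FutR x) (hv : BR v v ≤ 0) (hv' : 0 < v.2.2) : BR x v < 0 := by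
  obtain ⟨c, hc, h⟩ := pair_le hx
  have := h v hv hv'.le
  have : 0 < c * v.2.2 := mul_pos hc hv'
  linarith

lemma box {v : L} (h : B v v ≤ 0) (h' : 0 ≤ v.2.2) : |v.1| ≤ v.2.2 ∧ |v.2.1| ≤ v.2.2 := by
  simp only [B] at h
  constructor
  · apply abs_le_of_sq_le_sq _ h'
    nlinarith [sq_nonneg (v.1 + 2 * v.2.1), sq_nonneg v.1]
  · apply abs_le_of_sq_le_sq _ h'
    nlinarith [sq_nonneg (2 * v.1 + v.2.1), sq_nonneg v.2.1]

lemma finite_box (N : ℤ) : {v : L | B v v ≤ 0 ∧ 0 ≤ v.2.2 ∧ v.2.2 ≤ N}.Finite := by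
  refine ((Set.finite_Icc (-N) N).prod ((Set.finite_Icc (-N) N).prod
    (Set.finite_Icc (-N) N))).subset ?_
  rintro v ⟨h1, h2, h3⟩
  obtain ⟨h4, h5⟩ := box h1 h2
  rw [abs_le] at h4 h5
  simp only [Set.mem_prod, Set.mem_Icc]
  omega

lemma finite_pair {x : E} (hx : FutR x) (M : ℝ) :
    {v : L | B v v ≤ 0 ∧ 0 ≤ v.2.2 ∧ -BR x (ι v) ≤ M}.Finite := by
  obtain ⟨c, hc, h⟩ := pair_le hx
  refine (finite_box ⌊M / c⌋).subset ?_
  rintro v ⟨h1, h2, h3⟩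
  refine ⟨h1, h2, ?_⟩
  have h4 := h (ι v) (by rw [BR_ι]; exact_mod_cast h1) (by simpa using h2)
  rw [Int.le_floor, le_div_iff₀ hc]
  simp only [ι_3] at h4
  linarith

def w0 : L := (2, 1, 6)
def n0 : L := (1, 0, 1)
def rT : L := (-1, 2, 0)
def rW : L := (1, -1, 0)

lemma exists_min {x : E} (hx : FutR x) :
    ∃ g : Γ, ∀ h : Γ, -BR x (ι (g • w0)) ≤ -BR x (ι (h • w0)) := by
  have hw : B w0 w0 = -22 := by simp [B, w0]
  have hfin : {v : L | ∃ g : Γ, v = g • w0 ∧ -BR x (ι v) ≤ -BR x (ι w0)}.Finite := by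
    refine (finite_pair hx (-BR x (ι w0))).subset ?_
    rintro v ⟨g, rfl, h⟩
    refine ⟨by rw [B_act, hw]; norm_num, ?_, h⟩
    exact ((fut_act g (u := w0) (by rw [hw]; norm_num)).2 (by simp [w0])).le
  obtain ⟨v, ⟨g, rfl, hg⟩, hmin⟩ := Set.exists_min_image _ (fun v => -BR x (ι v)) hfin
    ⟨w0, 1, by rw [one_smul], le_rfl⟩
  refine ⟨g, fun h => ?_⟩
  by_cases hh : -BR x (ι (h • w0)) ≤ -BR x (ι w0)
  · exact hmin _ ⟨h, rfl, hh⟩
  · exact hg.trans (le_of_not_ge hh)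

lemma decomp (v : L) : (6 : ℤ) • v = (-6 * B v n0 + 3 * B v rW) • p0 + (3 * B v rW) • p1 +
    (2 * B v rT) • q0 := by
  obtain ⟨x, y, z⟩ := v
  ext <;> simp [B, n0, rT, rW, p0, p1, q0] <;> ring

lemma decomp_g (g : Γ) (v : L) : (6 : ℤ) • v =
    (-6 * B v (g • n0) + 3 * B v (g • rW)) • (g • p0) + (3 * B v (g • rW)) • (g • p1) +
    (2 * B v (g • rT)) • (g • q0) := by
  have h := congrArg (fun u => g • u) (decomp (g⁻¹ • v))
  simp only [act_add, act_zsmul, smul_inv_smul] at h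
  have e : ∀ u, B (g⁻¹ • v) u = B v (g • u) := fun u => by
    rw [← B_act g, smul_inv_smul]
  rw [e, e, e] at h
  exact h

lemma decomp_R (g : Γ) (x : E) : x =
    (-BR x (ι (g • n0)) + 1/2 * BR x (ι (g • rW))) • ι (g • p0) +
    (1/2 * BR x (ι (g • rW))) • ι (g • p1) + (1/3 * BR x (ι (g • rT))) • ι (g • q0) := by
  have h1 := decomp_g g (1, 0, 0)
  have h2 := decomp_g g (0, 1, 0)
  have h3 := decomp_g g (0, 0, 1)
  have h11 := congrArg (fun u : L => (u.1 : ℝ)) h1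
  have h12 := congrArg (fun u : L => (u.2.1 : ℝ)) h1
  have h13 := congrArg (fun u : L => (u.2.2 : ℝ)) h1
  have h21 := congrArg (fun u : L => (u.1 : ℝ)) h2
  have h22 := congrArg (fun u : L => (u.2.1 : ℝ)) h2
  have h23 := congrArg (fun u : L => (u.2.2 : ℝ)) h2
  have h31 := congrArg (fun u : L => (u.1 : ℝ)) h3
  have h32 := congrArg (fun u : L => (u.2.1 : ℝ)) h3
  have h33 := congrArg (fun u : L => (u.2.2 : ℝ)) h3
  simp [B] at h11 h12 h13 h21 h22 h23 h31 h32 h33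
  obtain ⟨a, b, c⟩ := x
  ext
  · simp [BR]
    linear_combination (1/6) * a * h11 + (1/6) * b * h21 + (1/6) * c * h31
  · simp [BR]
    linear_combination (1/6) * a * h12 + (1/6) * b * h22 + (1/6) * c * h32
  · simp [BR]
    linear_combination (1/6) * a * h13 + (1/6) * b * h23 + (1/6) * c * h33

lemma rT_eq (g : Γ) : (g * tau) • w0 = g • w0 - g • rT := by
  rw [mul_smul, ← act_sub]; rfl
lemma rW_eq (g : Γ) : (g * sw) • w0 = g • w0 - g • rW := by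
  rw [mul_smul, ← act_sub]; rfl
lemma n0_eq (g : Γ) : (g * sig) • w0 = g • w0 + (2 : ℤ) • (g • n0) := by
  rw [mul_smul, ← act_zsmul, ← act_add]; rfl

/-- every future timelike real vector lies in the cone of some image of `p0, p1, q0` -/
theorem reduce {x : E} (hx : FutR x) : ∃ g : Γ, BR x (ι (g • n0)) ≤ 0 ∧
    0 ≤ BR x (ι (g • rW)) ∧ 0 ≤ BR x (ι (g • rT)) := by
  obtain ⟨g, hg⟩ := exists_min hx
  refine ⟨g, ?_, ?_, ?_⟩
  · have := hg (g * sig)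
    rw [n0_eq, ι_add, BR_add_right] at this
    have e : ι ((2 : ℤ) • (g • n0)) = (2 : ℝ) • ι (g • n0) := by ext <;> simp
    rw [e, BR_smul_right] at this
    linarith
  · have := hg (g * sw)
    rw [rW_eq, ι_sub, BR_sub_right] at this
    linarith
  · have := hg (g * tau)
    rw [rT_eq, ι_sub, BR_sub_right] at this
    linarith

/-- integral version -/
theorem reduceL {x : L} (hx : Fut x) : ∃ g : Γ, B (g • x) n0 ≤ 0 ∧ 0 ≤ B (g • x) rW ∧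
    0 ≤ B (g • x) rT := by
  obtain ⟨g, h1, h2, h3⟩ := reduce hx.real
  rw [BR_ι] at h1 h2 h3
  refine ⟨g⁻¹, ?_⟩
  have e : ∀ u, B (g⁻¹ • x) u = B x (g • u) := fun u => by
    rw [← B_act g, smul_inv_smul]
  rw [e, e, e]
  exact ⟨by exact_mod_cast h1, by exact_mod_cast h2, by exact_mod_cast h3⟩

lemma ctr_fund {v : L} (hc : Ctr v) (h1 : B v n0 ≤ 0) (h2 : 0 ≤ B v rW) (h3 : 0 ≤ B v rT) :
    v = p0 := by
  obtain ⟨h4, h5⟩ := hc
  obtain ⟨x, y, z⟩ := v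
  simp only [B, n0, rW, rT, p0] at *
  have hy : 0 ≤ y := by nlinarith
  have hx : y ≤ x := by nlinarith
  have h6 : 2 * x + y ≤ z := by nlinarith
  have h8 : (2 * x + y) * (2 * x + y) ≤ z * z := by nlinarith
  have h9 : 2 * x * x + 2 * x * y - y * y ≤ 1 := by nlinarith
  have hx0 : x = 0 := by nlinarith
  have hy0 : y = 0 := by omega
  subst hx0 hy0
  have : z = 1 := by nlinarith
  rw [this]

lemma ctr_trans {p : L} (hp : Ctr p) : ∃ g : Γ, g • p0 = p := by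
  obtain ⟨g, h1, h2, h3⟩ := reduceL hp.fut
  have := ctr_fund (hp.act g) h1 h2 h3
  exact ⟨g⁻¹, by rw [← this, inv_smul_smul]⟩

lemma cor_fund {v : L} (hc : Cor v) (h1 : B v n0 ≤ 0) (h2 : 0 ≤ B v rW) (h3 : 0 ≤ B v rT) :
    v = q0 := by
  have hm := hc.mod3
  obtain ⟨h4, h5⟩ := hc
  obtain ⟨x, y, z⟩ := v
  simp only [B, n0, rW, rT, q0] at *
  have hy : 0 ≤ y := by nlinarith
  have hx : y ≤ x := by nlinarith
  have h6 : 2 * x + y ≤ z := by nlinarith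
  have h8 : (2 * x + y) * (2 * x + y) ≤ z * z := by nlinarith
  have h9 : 2 * x * x + 2 * x * y - y * y ≤ 3 := by nlinarith
  obtain ⟨⟨a, ha⟩, ⟨c, hc⟩⟩ := hm
  have hz : 3 ≤ z := by omega
  have hx0 : x ≤ 1 := by nlinarith
  have hN : 9 ≤ z * z := by nlinarith
  have : x = 1 := by
    by_contra hx1
    have hx2 : x = 0 := by omega
    have hy2 : y = 0 := by omega
    subst hx2 hy2
    nlinarith
  subst this
  have hy1 : y = 1 := by omega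
  subst hy1
  have : z = 3 := by nlinarith
  rw [this]

lemma cor_trans {p : L} (hp : Cor p) : ∃ g : Γ, g • q0 = p := by
  obtain ⟨g, h1, h2, h3⟩ := reduceL hp.fut
  have := cor_fund (hp.act g) h1 h2 h3
  exact ⟨g⁻¹, by rw [← this, inv_smul_smul]⟩

/-- neighbours of `p0` among the centres -/
def nb (i : ZMod 6) : L := match i with
  | 0 => (2, 0, 3)
  | 1 => (0, 2, 3)
  | 2 => (-2, 2, 3)
  | 3 => (-2, 0, 3)
  | 4 => (0, -2, 3)
  | 5 => (2, -2, 3)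

/-- neighbours of `p0` among the corners; `nq i` lies between `nb i` and `nb (i+1)` -/
def nq (i : ZMod 6) : L := match i with
  | 0 => (1, 1, 3)
  | 1 => (-1, 2, 3)
  | 2 => (-2, 1, 3)
  | 3 => (-1, -1, 3)
  | 4 => (1, -2, 3)
  | 5 => (2, -1, 3)

lemma rot_nb (i : ZMod 6) : rot • nb i = nb (i + 1) := by
  fin_cases i <;> rfl
lemma rot_nq (i : ZMod 6) : rot • nq i = nq (i + 1) := by
  fin_cases i <;> rfl
lemma rot_p0 : rot • p0 = p0 := rfl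

lemma rot_pow_nb (n : ℕ) (i : ZMod 6) : rot ^ n • nb i = nb (i + n) := by
  induction n with
  | zero => simp
  | succ n ih => rw [pow_succ', mul_smul, ih, rot_nb]; push_cast; rw [add_assoc]
lemma rot_pow_nq (n : ℕ) (i : ZMod 6) : rot ^ n • nq i = nq (i + n) := by
  induction n with
  | zero => simp
  | succ n ih => rw [pow_succ', mul_smul, ih, rot_nq]; push_cast; rw [add_assoc]
lemma rot_pow_p0 (n : ℕ) : rot ^ n • p0 = p0 := by
  induction n with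
  | zero => simp
  | succ n ih => rw [pow_succ', mul_smul, ih, rot_p0]

lemma ctr_nb (i : ZMod 6) : Ctr (nb i) := by
  fin_cases i <;> (constructor <;> decide)
lemma cor_nq (i : ZMod 6) : Cor (nq i) := by
  fin_cases i <;> (constructor <;> decide)
lemma B_p0_nb (i : ZMod 6) : B p0 (nb i) = -3 := by
  fin_cases i <;> decide
lemma B_p0_nq (i : ZMod 6) : B p0 (nq i) = -3 := by
  fin_cases i <;> decide

lemma sixpts {x y : ℤ} (h : x * x + x * y + y * y = 1) :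
    (x = 1 ∧ y = 0) ∨ (x = 0 ∧ y = 1) ∨ (x = -1 ∧ y = 1) ∨ (x = -1 ∧ y = 0) ∨ (x = 0 ∧ y = -1) ∨
    (x = 1 ∧ y = -1) := by
  have hx : x ≤ 1 ∧ -1 ≤ x := by constructor <;> nlinarith [sq_nonneg (x + 2 * y)]
  have hy : y ≤ 1 ∧ -1 ≤ y := by constructor <;> nlinarith [sq_nonneg (2 * x + y)]
  obtain ⟨hx1, hx2⟩ := hx
  obtain ⟨hy1, hy2⟩ := hy
  have : x = -1 ∨ x = 0 ∨ x = 1 := by omega
  have : y = -1 ∨ y = 0 ∨ y = 1 := by omega
  rcases ‹x = -1 ∨ x = 0 ∨ x = 1› with rfl | rfl | rfl <;>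
  rcases ‹y = -1 ∨ y = 0 ∨ y = 1› with rfl | rfl | rfl <;> simp_all

lemma sixpts3 {x y : ℤ} (h : x * x + x * y + y * y = 3) :
    (x = 1 ∧ y = 1) ∨ (x = -1 ∧ y = 2) ∨ (x = -2 ∧ y = 1) ∨ (x = -1 ∧ y = -1) ∨ (x = 1 ∧ y = -2) ∨
    (x = 2 ∧ y = -1) := by
  have hx : x ≤ 2 ∧ -2 ≤ x := by constructor <;> nlinarith [sq_nonneg (x + 2 * y)]
  have hy : y ≤ 2 ∧ -2 ≤ y := by constructor <;> nlinarith [sq_nonneg (2 * x + y)]
  obtain ⟨hx1, hx2⟩ := hx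
  obtain ⟨hy1, hy2⟩ := hy
  have : x = -2 ∨ x = -1 ∨ x = 0 ∨ x = 1 ∨ x = 2 := by omega
  have : y = -2 ∨ y = -1 ∨ y = 0 ∨ y = 1 ∨ y = 2 := by omega
  rcases ‹x = -2 ∨ x = -1 ∨ x = 0 ∨ x = 1 ∨ x = 2› with rfl | rfl | rfl | rfl | rfl <;>
  rcases ‹y = -2 ∨ y = -1 ∨ y = 0 ∨ y = 1 ∨ y = 2› with rfl | rfl | rfl | rfl | rfl <;> simp_all

/-- centres adjacent to `p0` -/
lemma nb_of {u : L} (h : Ctr u) (h1 : B p0 u = -3) : ∃ i, u = nb i := by
  obtain ⟨⟨a, ha⟩, ⟨b, hb⟩, -⟩ := h.parity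
  obtain ⟨x, y, z⟩ := u
  obtain ⟨h2, -⟩ := h
  simp only [B, p0] at h1 h2 ha hb
  have hz : z = 3 := by linarith
  subst hz ha hb
  have : a * a + a * b + b * b = 1 := by nlinarith
  rcases sixpts this with ⟨rfl, rfl⟩ | ⟨rfl, rfl⟩ | ⟨rfl, rfl⟩ | ⟨rfl, rfl⟩ | ⟨rfl, rfl⟩ | ⟨rfl, rfl⟩
  exacts [⟨0, rfl⟩, ⟨1, rfl⟩, ⟨2, rfl⟩, ⟨3, rfl⟩, ⟨4, rfl⟩, ⟨5, rfl⟩]

/-- corners adjacent to `p0` -/
lemma nq_of {u : L} (h : Cor u) (h1 : B p0 u = -3) : ∃ i, u = nq i := by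
  obtain ⟨x, y, z⟩ := u
  obtain ⟨h2, -⟩ := h
  simp only [B, p0] at h1 h2
  have hz : z = 3 := by linarith
  subst hz
  have : x * x + x * y + y * y = 3 := by nlinarith
  rcases sixpts3 this with ⟨rfl, rfl⟩ | ⟨rfl, rfl⟩ | ⟨rfl, rfl⟩ | ⟨rfl, rfl⟩ | ⟨rfl, rfl⟩ | ⟨rfl, rfl⟩
  exacts [⟨0, rfl⟩, ⟨1, rfl⟩, ⟨2, rfl⟩, ⟨3, rfl⟩, ⟨4, rfl⟩, ⟨5, rfl⟩]

/-- transitivity on arcs -/
lemma arc_trans {p p' : L} (hp : Ctr p) (hp' : Ctr p') (h : B p p' = -3) :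
    ∃ g : Γ, g • p0 = p ∧ g • p1 = p' := by
  obtain ⟨g, rfl⟩ := ctr_trans hp
  have h1 : B p0 (g⁻¹ • p') = -3 := by rw [← B_act g, smul_inv_smul]; exact h
  obtain ⟨i, hi⟩ := nb_of (hp'.act g⁻¹) h1
  refine ⟨g * rot ^ i.val, ?_, ?_⟩
  · rw [mul_smul, rot_pow_p0]
  · rw [mul_smul, show p1 = nb 0 from rfl, rot_pow_nb]
    rw [show (0 : ZMod 6) + (i.val : ZMod 6) = i by simp, ← hi, smul_inv_smul]

/-- transitivity on faces -/
lemma face_trans {p p' q : L} (hp : Ctr p) (hp' : Ctr p') (h : B p p' = -3) (hq : Cor q)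
    (h1 : B p q = -3) (h2 : B p' q = -3) : ∃ g : Γ, g • p0 = p ∧ g • p1 = p' ∧ g • q0 = q := by
  obtain ⟨g, rfl, rfl⟩ := arc_trans hp hp' h
  have h3 : B p0 (g⁻¹ • q) = -3 := by rw [← B_act g, smul_inv_smul]; exact h1
  have h4 : B p1 (g⁻¹ • q) = -3 := by rw [← B_act g, smul_inv_smul]; exact h2
  obtain ⟨i, hi⟩ := nq_of (hq.act g⁻¹) h3
  rw [hi] at h4
  have key : ∀ i : ZMod 6, B p1 (nq i) = -3 → i = 0 ∨ i = 5 := by decide
  have : i = 0 ∨ i = 5 := key i h4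
  rcases this with rfl | rfl
  · refine ⟨g, rfl, rfl, ?_⟩
    rw [show q0 = nq 0 from rfl, ← hi, smul_inv_smul]
  · refine ⟨g * tau, ?_, ?_, ?_⟩
    · rw [mul_smul]; rfl
    · rw [mul_smul]; rfl
    · rw [mul_smul, show tau • q0 = nq 5 from rfl, ← hi, smul_inv_smul]

end Pool.Agent.H49.CP
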