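import Pool.Agent.H49.CP.Unim

set_option autoImplicit false

namespace Pool.Agent.H49.CP

open Finset MeasureTheory Filter Topology
open scoped ENNReal

lemma DD_tr' (g : Γ) (ω : Om) : ∀ u, DD (tr g ω) (g • u) = DD ω u := fun u => DD_tr g ω u

/-- the isomorphism of components -/
lemma same_gv {D D' : L → ℕ} {g : Γ} (hD : ∀ u, D' (g • u) = D u) {x y : V}
    (h : (Gr D).Reachable x y) : SameRooted (Gr D) x y (Gr D') (gv g x) (gv g y) := by
  have hr : ∀ z, (Gr D).Reachable x z ↔ (Gr D').Reachable (gv g x) (gv g z) := fun z =>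
    (gIso hD).reachable_iff.symm
  refine ⟨⟨⟨fun z => ⟨gv g z.1, (hr z.1).1 z.2⟩,
    fun z => ⟨gv g⁻¹ z.1, (hr _).2 (by rw [gv_inv']; exact z.2)⟩,
    fun z => Subtype.ext (gv_inv g z.1), fun z => Subtype.ext (gv_inv' g z.1)⟩, ?_⟩, h, rfl, rfl⟩
  intro z w
  exact adj_gv hD z.1 w.1

lemma lint_MM (F : Om × V → ℝ≥0∞) (hF : Measurable F) :
    ∫⁻ z, F z ∂MM = (M0 Set.univ)⁻¹ * ∑' τ, wt τ * ∫⁻ ω in {ω | Act (DD ω) τ}, F (ω, τ) ∂Pm := by
  unfold MM
  rw [lintegral_smul_measure, lint_M0 F hF, smul_eq_mul]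

/-- the random rooted graph is unimodular -/
theorem unimod : Unimodular MM (fun z => Gr (DD z.1)) (fun z => z.2) := by
  classical
  intro f hf1 hf2
  have hfm : ∀ x y, Measurable fun ω => f (Gr (DD ω)) x y := fun x y =>
    Measurable.comp (hf1 x y) meas_Gr
  set Φ : V → V → ℝ≥0∞ := fun x y => ∫⁻ ω, (if Act (DD ω) x ∧ Act (DD ω) y then
    f (Gr (DD ω)) x y else 0) ∂Pm with hΦ
  have hmΦ : ∀ x y x' y', Measurable fun ω => (if Act (DD ω) x ∧ Act (DD ω) y then
      f (Gr (DD ω)) x' y' else 0) := fun x y x' y' =>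
    Measurable.ite ((meas_act x).inter (meas_act y)) (hfm x' y') measurable_const
  have inv : ∀ (g : Γ) x y, Φ (gv g x) (gv g y) = Φ x y := by
    intro g x y
    simp only [hΦ]
    conv_lhs => rw [← Pm_tr g]
    rw [lintegral_map (hmΦ _ _ _ _) (meas_tr g)]
    refine lintegral_congr fun ω => ?_
    simp only [Act_gv (DD_tr' g ω)]
    by_cases h : Act (DD ω) x ∧ Act (DD ω) y
    · rw [if_pos h, if_pos h]
      exact (hf2 _ _ _ _ _ _ (same_gv (DD_tr' g ω) ((reach_iff h.1 y).2 h.2))).symm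
    · rw [if_neg h, if_neg h]
  have hP1 : ∀ x y, ¬ Pot y → Φ x y = 0 := by
    intro x y hy
    simp only [hΦ]
    rw [lintegral_eq_zero_iff (hmΦ _ _ _ _)]
    refine Eventually.of_forall fun ω => ?_
    simp only [Pi.zero_apply]
    rw [if_neg]
    exact fun h => hy h.2.pot
  have hP2 : ∀ x y, ¬ Pot x → Φ x y = 0 := by
    intro x y hy
    simp only [hΦ]
    rw [lintegral_eq_zero_iff (hmΦ _ _ _ _)]
    refine Eventually.of_forall fun ω => ?_
    simp only [Pi.zero_apply]
    rw [if_neg]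
    exact fun h => hy h.1.pot
  have key := mass Φ inv hP1 hP2
  have hreach : ∀ v w, MeasurableSet {ω : Om | (Gr (DD ω)).Reachable v w} := by
    intro v w
    have : {ω : Om | (Gr (DD ω)).Reachable v w} = {ω : Om | Act (DD ω) v} ∩ {ω : Om | Act (DD ω) w} ∪
        {ω | ¬ Act (DD ω) v} ∩ {ω | v = w} := by
      ext ω
      simp only [Set.mem_setOf_eq, Set.mem_union, Set.mem_inter_iff]
      by_cases h : Act (DD ω) v
      · rw [reach_iff h]; simp [h]
      · simp only [h, false_and, false_or, not_false_eq_true, true_and]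
        constructor
        · rintro ⟨p⟩
          cases p with
          | nil => rfl
          | cons h' _ => exact absurd h'.2.1 h
        · rintro rfl; exact .refl _
    rw [this]
    exact ((meas_act v).inter (meas_act w)).union ((meas_act v).compl.inter (MeasurableSet.const _))
  have hmF : ∀ (a : V → V → V × V), Measurable fun z : Om × V => ∑' v,
      (if (Gr (DD z.1)).Reachable z.2 v then f (Gr (DD z.1)) (a z.2 v).1 (a z.2 v).2 else 0) := by
    intro a
    refine measurable_from_prod_countable_left fun τ => ?_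
    refine Measurable.tsum fun v => ?_
    exact Measurable.ite (hreach τ v) (hfm (a τ v).1 (a τ v).2) measurable_const
  have e1 : ∀ τ : V, ∫⁻ ω in {ω | Act (DD ω) τ}, (∑' v, if (Gr (DD ω)).Reachable τ v then
      f (Gr (DD ω)) τ v else 0) ∂Pm = ∑' v, Φ τ v := by
    intro τ
    rw [← lintegral_indicator (meas_act τ)]
    simp only [hΦ]
    rw [← lintegral_tsum fun v => (hmΦ _ _ _ _).aemeasurable]
    refine lintegral_congr fun ω => ?_
    by_cases h : Act (DD ω) τ
    · rw [Set.indicator_of_mem (show ω ∈ {ω | Act (DD ω) τ} from h)]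
      refine tsum_congr fun v => ?_
      simp only [reach_iff h, h, true_and]
    · rw [Set.indicator_of_notMem (show ω ∉ {ω | Act (DD ω) τ} from h)]
      symm
      rw [ENNReal.tsum_eq_zero]
      intro v
      rw [if_neg fun h' => h h'.1]
  have e2 : ∀ τ : V, ∫⁻ ω in {ω | Act (DD ω) τ}, (∑' v, if (Gr (DD ω)).Reachable τ v then
      f (Gr (DD ω)) v τ else 0) ∂Pm = ∑' v, Φ v τ := by
    intro τ
    rw [← lintegral_indicator (meas_act τ)]
    simp only [hΦ]
    rw [← lintegral_tsum fun v => (hmΦ _ _ _ _).aemeasurable]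
    refine lintegral_congr fun ω => ?_
    by_cases h : Act (DD ω) τ
    · rw [Set.indicator_of_mem (show ω ∈ {ω | Act (DD ω) τ} from h)]
      refine tsum_congr fun v => ?_
      simp only [reach_iff h, h, and_true]
    · rw [Set.indicator_of_notMem (show ω ∉ {ω | Act (DD ω) τ} from h)]
      symm
      rw [ENNReal.tsum_eq_zero]
      intro v
      rw [if_neg fun h' => h h'.2]
  have m1 := hmF fun τ v => (τ, v)
  have m2 := hmF fun τ v => (v, τ)
  have l1 := lint_MM _ m1
  have l2 := lint_MM _ m2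
  simp only at l1 l2
  simp only [e1] at l1
  simp only [e2] at l2
  rw [l1, l2, key]

lemma ncard_tsum {D : L → ℕ} (v : V) : (((Gr D).neighborSet v).ncard : ℝ≥0∞) =
    ∑' w, (open Classical in if (Gr D).Adj v w then 1 else 0) := by
  classical
  rw [tsum_eq_sum (s := (locfin_graph v).toFinset) (fun w hw => by
    rw [if_neg]; simpa using hw), Set.ncard_eq_toFinset_card _ (locfin_graph v), card_eq_sum_ones]
  push_cast
  refine sum_congr rfl fun w hw => ?_
  rw [if_pos]
  simpa using hw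

lemma meas_ncard (v : V) : Measurable fun ω : Om =>
    (((Gr (DD ω)).neighborSet v).ncard : ℝ≥0∞) := by
  classical
  simp only [ncard_tsum]
  refine Measurable.tsum fun w => ?_
  exact Measurable.ite (meas_adj v w) measurable_const measurable_const

/-- the degree of the root has a finite second moment -/
theorem deg_moment : ∫⁻ z : Om × V, (((Gr (DD z.1)).neighborSet z.2).ncard : ℝ≥0∞) ^ 2 ∂MM < ⊤ := by
  classical
  rw [lint_MM _ (measurable_from_prod_countable_left fun τ => (meas_ncard τ).pow_const 2)]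
  refine ENNReal.mul_lt_top (ENNReal.inv_lt_top.2 (pos_iff_ne_zero.2 M0_univ_ne_zero)) ?_
  refine lt_of_le_of_lt (sum_rep _) ?_
  have hb : ∀ v : V, (∃ ω, Act (DD ω) v) → ¬ IsC v →
      ∫⁻ ω in {ω | Act (DD ω) v}, (((Gr (DD ω)).neighborSet v).ncard : ℝ≥0∞) ^ 2 ∂Pm ≤
        400 * Pm {ω | Act (DD ω) v} := by
    intro v _ hC
    calc _ ≤ ∫⁻ ω in {ω | Act (DD ω) v}, 400 ∂Pm := by
          refine setLIntegral_mono measurable_const fun ω hω => ?_
          have h1 := nc_20 (D := DD ω) hω hC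
          have h2 : ((Gr (DD ω)).neighborSet v).ncard ^ 2 ≤ 400 :=
            (Nat.pow_le_pow_left h1 2).trans (by norm_num)
          exact_mod_cast h2
      _ = _ := by rw [setLIntegral_const]
  have h1 : ∫⁻ ω in {ω | Act (DD ω) (bv p0)},
      (((Gr (DD ω)).neighborSet (bv p0)).ncard : ℝ≥0∞) ^ 2 ∂Pm ≤ C0 := by
    refine (setLIntegral_le_lintegral _ _).trans ?_
    refine le_trans (lintegral_mono fun ω => ?_) (int_w2 1)
    have := deg2_le (DD ω) 1
    rwa [one_smul] at this
  have h2 : ∫⁻ ω in {ω | Act (DD ω) (bv q0)},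
      (((Gr (DD ω)).neighborSet (bv q0)).ncard : ℝ≥0∞) ^ 2 ∂Pm ≤ 400 := by
    refine (hb (bv q0) ⟨fun _ => true, act_cor cor_q0⟩ ?_).trans ?_
    · rintro ⟨p, hp, h⟩
      rw [bv_inj] at h
      rw [← h] at hp
      exact hp.ne_cor cor_q0
    · calc (400:ℝ≥0∞) * Pm {ω | Act (DD ω) (bv q0)} ≤ 400 * 1 := mul_le_mul_right prob_le_one _
        _ = 400 := mul_one _
  have h3 : ∑' l : ℕ, ∫⁻ ω in {ω | Act (DD ω) (p0 + p1, q0, l + 1)},
      (((Gr (DD ω)).neighborSet (p0 + p1, q0, l + 1)).ncard : ℝ≥0∞) ^ 2 ∂Pm ≤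
      400 * (8 * c1 ^ 2) := by
    refine le_trans (ENNReal.tsum_le_tsum fun l => ?_) (le_trans (le_of_eq ENNReal.tsum_mul_left)
      (mul_le_mul_right tail_sum _))
    by_cases h : ∃ ω, Act (DD ω) (p0 + p1, q0, l + 1)
    · refine hb _ h ?_
      rintro ⟨p, hp, h⟩
      exact bv_ne_fan (by omega) h.symm
    · push Not at h
      have : {ω : Om | Act (DD ω) (p0 + p1, q0, l + 1)} = ∅ := by
        ext ω; simp [h ω]
      rw [this]; simp
  have h4 := c1_ne_top
  have h5 := C0_ne_top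
  refine ENNReal.add_lt_top.2 ⟨ENNReal.add_lt_top.2 ⟨lt_of_le_of_lt h1 (lt_top_iff_ne_top.2 h5),
    lt_of_le_of_lt h2 (by simp)⟩, lt_of_le_of_lt h3 ?_⟩
  finiteness

end Pool.Agent.H49.CP
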