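import Pool.Agent.H49.CP.Half
import Pool.Agent.H49.CP.Unim2

set_option autoImplicit false

namespace Pool.Agent.H49.CP

open Finset MeasureTheory Filter Topology Pool.Agent.H45.Chain Pool.Agent.H43.RW
  Pool.Agent.H49.CP.Walk
open scoped ENNReal

/-- paths staying in a set -/
def StS (S : Set V) : Set (ℕ → V) := {x | ∀ n, x n ∈ S}
/-- paths staying in a set for a while -/
def StN (S : Set V) (n : ℕ) : Set (ℕ → V) := {x | ∀ i ≤ n, x i ∈ S}

/-- probability of staying in a set forever -/
noncomputable def stp (D : L → ℕ) (S : Set V) (v : V) : ℝ≥0∞ := pathLaw (srw (Gr D)) v (StS S)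

open Classical in
noncomputable def stn (D : L → ℕ) (S : Set V) : ℕ → V → ℝ≥0∞
  | 0, v => if v ∈ S then 1 else 0
  | n + 1, v => if v ∈ S then ∑' w, srw (Gr D) v {w} * stn D S n w else 0

lemma meas_at' (n : ℕ) (S : Set V) : MeasurableSet {x : ℕ → V | x n ∈ S} :=
  (measurable_pi_apply n) (Set.to_countable S).measurableSet

lemma meas_StN (S : Set V) (n : ℕ) : MeasurableSet (StN S n) := by
  have : StN S n = ⋂ i ∈ Set.Iic n, {x : ℕ → V | x i ∈ S} := by
    ext x; simp [StN]
  rw [this]
  exact MeasurableSet.biInter (Set.to_countable _) fun i _ => meas_at' i S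

lemma meas_StS (S : Set V) : MeasurableSet (StS S) := by
  have : StS S = ⋂ i, {x : ℕ → V | x i ∈ S} := by
    ext x; simp [StS]
  rw [this]
  exact MeasurableSet.iInter fun i => meas_at' i S

lemma stn_eq (D : L → ℕ) (S : Set V) (n : ℕ) : ∀ v,
    pathLaw (srw (Gr D)) v (StN S n) = stn D S n v := by
  induction n with
  | zero =>
    intro v
    by_cases hv : v ∈ S
    · simp only [stn, if_pos hv]
      rw [← mem_ae_iff_prob_eq_one (meas_StN S 0)]
      filter_upwards [ae_start (srw (Gr D)) v] with x hx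
      intro i hi
      have : i = 0 := by omega
      rw [this, hx]; exact hv
    · simp only [stn, if_neg hv]
      refine measure_mono_null ?_ (ae_iff.1 (ae_start (srw (Gr D)) v))
      intro x hx hx'
      have := hx 0 le_rfl
      rw [hx'] at this
      exact hv this
  | succ n ih =>
    intro v
    by_cases hv : v ∈ S
    · simp only [stn, if_pos hv]
      rw [measure_first_step _ v _ (meas_StN S (n + 1))]
      refine tsum_congr fun w => ?_
      rw [← ih w]
      congr 2
      ext x
      simp only [Set.mem_preimage, StN, Set.mem_setOf_eq]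
      constructor
      · intro h i hi
        exact h (i + 1) (by omega)
      · intro h i hi
        cases i with
        | zero => exact hv
        | succ i => exact h i (by omega)
    · simp only [stn, if_neg hv]
      refine measure_mono_null ?_ (ae_iff.1 (ae_start (srw (Gr D)) v))
      intro x hx hx'
      have := hx 0 (Nat.zero_le _)
      rw [hx'] at this
      exact hv this

lemma stp_eq (D : L → ℕ) (S : Set V) (v : V) : stp D S v = ⨅ n, stn D S n v := by
  have h1 : StS S = ⋂ n, StN S n := by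
    ext x
    simp only [StS, StN, Set.mem_setOf_eq, Set.mem_iInter]
    exact ⟨fun h n i _ => h i, fun h n => h n n le_rfl⟩
  have h2 : Antitone fun n => StN S n := fun m n hmn x hx i hi => hx i (hi.trans hmn)
  unfold stp
  rw [h1, h2.measure_iInter (fun n => (meas_StN S n).nullMeasurableSet)
    ⟨0, measure_ne_top _ _⟩]
  exact iInf_congr fun n => stn_eq D S n v

lemma stp_pos_mem {D : L → ℕ} {S : Set V} {v : V} (h : stp D S v ≠ 0) : v ∈ S := by
  by_contra hv
  apply h
  refine measure_mono_null ?_ (ae_iff.1 (ae_start (srw (Gr D)) v))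
  intro x hx hx'
  have := hx 0
  rw [hx'] at this
  exact hv this

lemma stp_step {D : L → ℕ} {S : Set V} {v w : V} (hv : v ∈ S) :
    srw (Gr D) v {w} * stp D S w ≤ stp D S v := by
  unfold stp
  rw [measure_first_step _ v _ (meas_StS S)]
  have e : cons v ⁻¹' StS S = StS S := by
    ext x
    simp only [Set.mem_preimage, StS, Set.mem_setOf_eq]
    constructor
    · intro h i
      exact h (i + 1)
    · intro h i
      cases i with
      | zero => exact hv
      | succ i => exact h i
  rw [e]
  exact ENNReal.le_tsum (f := fun w => srw (Gr D) v {w} * pathLaw (srw (Gr D)) w (StS S)) w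

lemma srw_eq {D D' : L → ℕ} {v v' w w' : V}
    (hc : ((Gr D).neighborSet v).ncard = ((Gr D').neighborSet v').ncard)
    (ha : (Gr D).Adj v w ↔ (Gr D').Adj v' w') (he : v = w ↔ v' = w') :
    srw (Gr D) v {w} = srw (Gr D') v' {w'} := by
  classical
  rw [srw_ap (Gr D) locfin_graph, srw_ap (Gr D') locfin_graph]
  have h1 : (nf (Gr D) locfin_graph v).card = (nf (Gr D') locfin_graph v').card := by
    rw [nf_card, nf_card, hc]
  have h2 : (nf (Gr D) locfin_graph v).Nonempty ↔ (nf (Gr D') locfin_graph v').Nonempty := by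
    rw [← card_pos, ← card_pos, h1]
  by_cases c1 : (nf (Gr D) locfin_graph v).Nonempty
  · rw [if_pos c1, if_pos (h2.1 c1)]
    by_cases c2 : (Gr D).Adj v w
    · rw [if_pos c2, if_pos (ha.1 c2), h1]
    · rw [if_neg c2, if_neg fun h => c2 (ha.2 h)]
  · rw [if_neg c1, if_neg fun h => c1 (h2.2 h)]
    by_cases c2 : v = w
    · rw [if_pos c2, if_pos (he.1 c2)]
    · rw [if_neg c2, if_neg fun h => c2 (he.2 h)]

lemma nb_gv {D D' : L → ℕ} {g : Γ} (hD : ∀ u, D' (g • u) = D u) (v : V) :
    ((Gr D').neighborSet (gv g v)).ncard = ((Gr D).neighborSet v).ncard := by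
  have : (Gr D').neighborSet (gv g v) = gv g '' (Gr D).neighborSet v := by
    ext w
    simp only [SimpleGraph.mem_neighborSet, Set.mem_image]
    constructor
    · intro h
      refine ⟨gv g⁻¹ w, ?_, gv_inv' g w⟩
      rw [← adj_gv hD, gv_inv']; exact h
    · rintro ⟨w, h, rfl⟩
      exact (adj_gv hD v w).2 h
  rw [this]
  exact Set.ncard_image_of_injective _ (gve g).injective

lemma srw_gv {D D' : L → ℕ} {g : Γ} (hD : ∀ u, D' (g • u) = D u) (v w : V) :
    srw (Gr D') (gv g v) {gv g w} = srw (Gr D) v {w} :=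
  srw_eq (nb_gv hD v) (adj_gv hD v w) (gve g).injective.eq_iff

lemma Sd_gv (g : Γ) (ν : L) (v : V) : gv g v ∈ Sd (g • ν) ↔ v ∈ Sd ν := by
  simp only [mem_Sd, gv, B_act]

lemma stn_gv {D D' : L → ℕ} {g : Γ} (hD : ∀ u, D' (g • u) = D u) (ν : L) (n : ℕ) : ∀ v,
    stn D' (Sd (g • ν)) n (gv g v) = stn D (Sd ν) n v := by
  induction n with
  | zero =>
    intro v
    simp only [stn]
    by_cases hv : v ∈ Sd ν
    · rw [if_pos hv, if_pos ((Sd_gv g ν v).2 hv)]
    · rw [if_neg hv, if_neg fun h => hv ((Sd_gv g ν v).1 h)]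
  | succ n ih =>
    intro v
    simp only [stn]
    by_cases hv : v ∈ Sd ν
    · rw [if_pos hv, if_pos ((Sd_gv g ν v).2 hv), ← Equiv.tsum_eq (gve g)]
      refine tsum_congr fun w => ?_
      have e : gve g w = gv g w := rfl
      rw [e, srw_gv hD, ih]
    · rw [if_neg hv, if_neg fun h => hv ((Sd_gv g ν v).1 h)]

/-- escape probability for a state -/
noncomputable def Es (D : L → ℕ) (g : Γ) : ℝ≥0∞ := stp D (Sd (-(g • n0))) (bv (g • p0))

lemma bv_gv (g : Γ) (p : L) : gv g (bv p) = bv (g • p) := rfl

lemma Es_gv {D D' : L → ℕ} {g : Γ} (hD : ∀ u, D' (g • u) = D u) (k : Γ) :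
    Es D' (g * k) = Es D k := by
  unfold Es
  rw [stp_eq, stp_eq]
  refine iInf_congr fun n => ?_
  rw [← stn_gv hD (-(k • n0)) n (bv (k • p0)), bv_gv, act_neg, mul_smul, mul_smul]

lemma Es_tr (g k : Γ) (ω : Om) : Es (DD (tr g ω)) (g * k) = Es (DD ω) k :=
  Es_gv (DD_tr' g ω) k

lemma meas_srw (v w : V) : Measurable fun ω : Om => srw (Gr (DD ω)) v {w} := by
  classical
  have h1 : ∀ ω : Om, srw (Gr (DD ω)) v {w} = if (∃ y, (Gr (DD ω)).Adj v y) then
      (if (Gr (DD ω)).Adj v w then (((Gr (DD ω)).neighborSet v).ncard : ℝ≥0∞)⁻¹ else 0) else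
      (if v = w then 1 else 0) := by
    intro ω
    rw [srw_ap (Gr (DD ω)) locfin_graph, nf_card]
    have : (nf (Gr (DD ω)) locfin_graph v).Nonempty ↔ ∃ y, (Gr (DD ω)).Adj v y :=
      ⟨fun ⟨y, hy⟩ => ⟨y, (mem_nf _ _).1 hy⟩, fun ⟨y, hy⟩ => ⟨y, (mem_nf _ _).2 hy⟩⟩
    by_cases c1 : (nf (Gr (DD ω)) locfin_graph v).Nonempty
    · rw [if_pos c1, if_pos (this.1 c1)]
    · rw [if_neg c1, if_neg fun h => c1 (this.2 h)]
      congr
  simp only [h1]
  refine Measurable.ite ?_ (Measurable.ite (meas_adj v w) (meas_ncard v).inv measurable_const)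
    measurable_const
  have : {ω : Om | ∃ y, (Gr (DD ω)).Adj v y} = ⋃ y, {ω : Om | (Gr (DD ω)).Adj v y} := by
    ext ω; simp
  rw [this]
  exact MeasurableSet.iUnion fun y => meas_adj v y

lemma meas_stn (S : Set V) (n : ℕ) : ∀ v, Measurable fun ω : Om => stn (DD ω) S n v := by
  induction n with
  | zero => intro v; simp only [stn]; exact measurable_const
  | succ n ih =>
    intro v
    simp only [stn]
    split_ifs
    · exact Measurable.tsum fun w => (meas_srw v w).mul (ih w)
    · exact measurable_const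

lemma meas_stp (S : Set V) (v : V) : Measurable fun ω : Om => stp (DD ω) S v := by
  simp only [stp_eq]
  exact Measurable.iInf fun n => meas_stn S n v

lemma meas_Es (g : Γ) : Measurable fun ω : Om => Es (DD ω) g := meas_stp _ _

/-- the escape probability depends only on the part of the graph in the half plane -/
lemma stp_agree {D D' : L → ℕ} {ν : L} (hν : Nu ν) (h : ∀ u, Tch ν u → D u = D' u) (v : V) :
    stp D (Sd ν) v = stp D' (Sd ν) v := by
  have hadj : ∀ v ∈ Sd ν, ∀ w, (Gr D).Adj v w ↔ (Gr D').Adj v w := fun v hv w =>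
    ⟨fun ha => agree hν h hv ha, fun ha => agree hν (fun u hu => (h u hu).symm) hv ha⟩
  rw [stp_eq, stp_eq]
  refine iInf_congr fun n => ?_
  induction n generalizing v with
  | zero => simp only [stn]
  | succ n ih =>
    simp only [stn]
    split_ifs with hv
    · refine tsum_congr fun w => ?_
      rw [ih w]
      congr 1
      refine srw_eq ?_ (hadj v hv w) Iff.rfl
      congr 1
      ext w
      exact hadj v hv w
    · rfl

end Pool.Agent.H49.CP
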