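import Pool.Agent.H49.CP.Deg

set_option autoImplicit false

namespace Pool.Agent.H49.CP

open Finset MeasureTheory Filter Topology
open scoped ENNReal

/-- action on labels -/
def gv (g : Γ) (v : V) : V := (g • v.1, g • v.2.1, v.2.2)

lemma gv_one (v : V) : gv 1 v = v := by simp [gv]
lemma gv_mul (g h : Γ) (v : V) : gv (g * h) v = gv g (gv h v) := by
  simp [gv, mul_smul]
lemma gv_inv (g : Γ) (v : V) : gv g⁻¹ (gv g v) = v := by rw [← gv_mul, inv_mul_cancel, gv_one]
lemma gv_inv' (g : Γ) (v : V) : gv g (gv g⁻¹ v) = v := by rw [← gv_mul, mul_inv_cancel, gv_one]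

/-- the permutation of labels -/
def gve (g : Γ) : V ≃ V := ⟨gv g, gv g⁻¹, gv_inv g, gv_inv' g⟩

/-- general vectors -/
noncomputable def YY (a b c : ℝ) (u q : L) : W := (a • ι u + b • ι q, c)

lemma B4_YY (a b c a' b' c' : ℝ) (u q u' q' : L) : B4 (YY a b c u q) (YY a' b' c' u' q') =
    a * a' * B u u' + a * b' * B u q' + b * a' * B q u' + b * b' * B q q' + c * c' := by
  simp only [B4, YY, BR_add_left, BR_add_right, BR_smul_left, BR_smul_right, BR_ι]
  ring

lemma Xv_form (v : V) : ∃ a b c : ℝ, ∀ g : Γ, Xv (gv g v) = YY a b c (g • v.1) (g • v.2.1) := by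
  classical
  obtain ⟨u, q, l⟩ := v
  by_cases hl : l = 0
  · by_cases hc : Ctr u
    · refine ⟨1, 0, s2, fun g => ?_⟩
      have : Ctr (g • u) := hc.act g
      simp only [Xv, gv, hl, if_true, this, P, YY]
      ext <;> simp
    · refine ⟨1 + 2 * s3 / 3, 0, s2 * (1 + s3), fun g => ?_⟩
      have : ¬ Ctr (g • u) := fun h => hc ((ctr_act g u).1 h)
      simp only [Xv, gv, hl, if_true, this, if_false, Q, YY]
      ext <;> simp
  · refine ⟨(2 * l : ℝ) * (s2 / 2) + (l:ℝ) ^ 2, (1 + 2 * s3 / 3) + (2 * l : ℝ) * (s2 * s3 / 3),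
      s2 * (1 + s3) + (2 * l : ℝ) * (2 + s3) + (l : ℝ) ^ 2 * (2 * s2), fun g => ?_⟩
    rw [show gv g (u, q, l) = (g • u, g • q, l) from rfl, Xv_fan (by omega)]
    simp only [Fn, Q, dl, Nv, YY]
    ext <;> simp <;> ring

lemma B4_gv (g : Γ) (v w : V) : B4 (Xv (gv g v)) (Xv (gv g w)) = B4 (Xv v) (Xv w) := by
  obtain ⟨a, b, c, h⟩ := Xv_form v
  obtain ⟨a', b', c', h'⟩ := Xv_form w
  have h1 := h 1
  have h1' := h' 1
  rw [gv_one] at h1 h1'
  rw [h, h', h1, h1', B4_YY, B4_YY]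
  simp only [one_smul, B_act]

lemma Act_gv {D D' : L → ℕ} {g : Γ} (hD : ∀ u, D' (g • u) = D u) (v : V) :
    Act D' (gv g v) ↔ Act D v := by
  unfold Act
  simp only [gv, hD, ctr_act, cor_act]
  have e1 : g • v.2.1 = g • v.1 ↔ v.2.1 = v.1 := (MulAction.injective g).eq_iff
  rw [e1]
  have e2 : (∃ p p', Fc p p' (g • v.2.1) ∧ g • v.1 = p + p') ↔
      ∃ p p', Fc p p' v.2.1 ∧ v.1 = p + p' := by
    constructor
    · rintro ⟨p, p', F, h⟩
      refine ⟨g⁻¹ • p, g⁻¹ • p', ?_, ?_⟩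
      · have := F.act g⁻¹; rwa [inv_smul_smul] at this
      · rw [← act_add, ← h, inv_smul_smul]
    · rintro ⟨p, p', F, h⟩
      exact ⟨g • p, g • p', F.act g, by rw [h, act_add]⟩
  rw [e2]

lemma adj_gv {D D' : L → ℕ} {g : Γ} (hD : ∀ u, D' (g • u) = D u) (v w : V) :
    (Gr D').Adj (gv g v) (gv g w) ↔ (Gr D).Adj v w := by
  have e : gv g v = gv g w ↔ v = w := (gve g).injective.eq_iff
  rw [adj_def, adj_def, Act_gv hD, Act_gv hD, B4_gv, Ne, Ne, e]

/-- the isomorphism of tangency graphs -/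
def gIso {D D' : L → ℕ} {g : Γ} (hD : ∀ u, D' (g • u) = D u) : Gr D ≃g Gr D' :=
  ⟨gve g, fun {v w} => adj_gv hD v w⟩

/-- finiteness of stabilisers -/
lemma stab_fin {v : L} (hv : Fut v) : {g : Γ | g • v = v}.Finite := by
  set F : ℤ → Set L := fun M => {w : L | B w w ≤ 0 ∧ 0 ≤ w.2.2 ∧ -BR (ι v) (ι w) ≤ M} with hF
  have hFf : ∀ M, (F M).Finite := fun M => finite_pair hv.real M
  have hinj : Set.InjOn (fun g : Γ => (g • p0, g • p1, g • q0)) {g : Γ | g • v = v} := by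
    intro g _ h _ e
    simp only [Prod.mk.injEq] at e
    obtain ⟨e1, e2, e3⟩ := e
    apply Subtype.ext
    apply LinearEquiv.ext
    intro w
    have h1 := congrArg (fun x => g • x) (decomp w)
    have h2 := congrArg (fun x => h • x) (decomp w)
    simp only [act_add, act_zsmul, e1, e2, e3] at h1 h2
    have h3 : (6:ℤ) • (g • w) = (6:ℤ) • (h • w) := h1.trans h2.symm
    have h4 : g • w = h • w := by
      have := smul_right_injective L (show (6:ℤ) ≠ 0 by norm_num) h3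
      exact this
    exact h4
  refine Set.Finite.of_finite_image (f := fun g : Γ => (g • p0, g • p1, g • q0)) ?_ hinj
  refine ((hFf (-B v p0)).prod ((hFf (-B v p1)).prod (hFf (-B v q0)))).subset ?_
  rintro _ ⟨g, hg, rfl⟩
  have key : ∀ w : L, Fut w → g • w ∈ F (-B v w) := by
    intro w hw
    have hw' := hw.act g
    refine ⟨hw'.1.le, hw'.2.le, ?_⟩
    rw [BR_ι]
    have : B v (g • w) = B v w := by
      conv_lhs => rw [← show g • v = v from hg]
      exact B_act g v w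
    rw [this]; push_cast; exact le_rfl
  exact ⟨key _ ctr_p0.fut, key _ ctr_p1.fut, key _ cor_q0.fut⟩

/-- representatives of the orbits of labels -/
def Rep (v : V) : Prop := v = bv p0 ∨ v = bv q0 ∨ ∃ l, 1 ≤ l ∧ v = (p0 + p1, q0, l)

/-- labels which may be active -/
def Pot (v : V) : Prop := Act (fun _ => v.2.2) v

lemma Act.pot {D : L → ℕ} {v : V} (h : Act D v) : Pot v := by
  rcases h with h | ⟨h1, h2, h3⟩
  · exact Or.inl h
  · exact Or.inr ⟨h1, le_rfl, h3⟩

lemma exists_rep {v : V} (h : Pot v) : ∃ τ g, Rep τ ∧ gv g τ = v := by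
  rcases Act.cases h with ⟨p, hp, rfl⟩ | ⟨q, hq, rfl⟩ | ⟨p, p', q, l, F, h1, h2, rfl⟩
  · obtain ⟨g, rfl⟩ := ctr_trans hp
    exact ⟨bv p0, g, Or.inl rfl, rfl⟩
  · obtain ⟨g, rfl⟩ := cor_trans hq
    exact ⟨bv q0, g, Or.inr (Or.inl rfl), rfl⟩
  · obtain ⟨g, rfl, rfl, rfl⟩ := face_trans F.hp F.hp' F.hpp F.hq F.hpq F.hpq'
    refine ⟨(p0 + p1, q0, l), g, Or.inr (Or.inr ⟨l, h1, rfl⟩), ?_⟩
    simp only [gv, act_add]

lemma rep_unique {τ τ' : V} (h : Rep τ) (h' : Rep τ') {g : Γ} (e : gv g τ = τ') : τ = τ' := by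
  have hl : τ.2.2 = τ'.2.2 := by rw [← e]; rfl
  have h1 : g • τ.1 = τ'.1 := by rw [← e]; rfl
  rcases h with rfl | rfl | ⟨l, hl1, rfl⟩ <;> rcases h' with rfl | rfl | ⟨l', hl1', rfl⟩
  · rfl
  · exfalso
    have h2 : Ctr (g • p0) := ctr_p0.act g
    simp only [bv] at h1
    rw [h1] at h2
    exact h2.ne_cor cor_q0
  · simp only [bv] at hl; omega
  · exfalso
    have h2 : Cor (g • q0) := cor_q0.act g
    simp only [bv] at h1
    rw [h1] at h2
    exact ctr_p0.ne_cor h2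
  · rfl
  · simp only [bv] at hl; omega
  · simp only [bv] at hl; omega
  · simp only [bv] at hl; omega
  · simp only at hl; rw [hl]

open Classical in
/-- order of the stabiliser of a label -/
noncomputable def NS (τ : V) : ℝ≥0∞ := ∑' g : Γ, if gv g τ = τ then 1 else 0

lemma Rep.fut {τ : V} (h : Rep τ) : Fut τ.2.1 := by
  rcases h with rfl | rfl | ⟨l, -, rfl⟩
  · exact ctr_p0.fut
  · exact cor_q0.fut
  · exact cor_q0.fut

lemma NS_ne_top {τ : V} (h : Rep τ) : NS τ ≠ ⊤ := by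
  classical
  have hfin : {g : Γ | gv g τ = τ}.Finite := by
    refine (stab_fin h.fut).subset ?_
    intro g hg
    have : gv g τ = τ := hg
    exact congrArg (fun v : V => v.2.1) this
  unfold NS
  rw [tsum_eq_sum (s := hfin.toFinset) (fun g hg => by
    rw [if_neg]; simpa using hg)]
  exact ENNReal.sum_ne_top.2 fun g _ => by split_ifs <;> simp

lemma NS_ne_zero (τ : V) : NS τ ≠ 0 := by
  classical
  unfold NS
  intro h
  rw [ENNReal.tsum_eq_zero] at h
  have := h 1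
  rw [if_pos (gv_one τ)] at this
  exact one_ne_zero this

open Classical in
lemma fiber (τ v : V) : (∑' g : Γ, if gv g τ = v then (1:ℝ≥0∞) else 0) =
    if ∃ g, gv g τ = v then NS τ else 0 := by
  split_ifs with h
  · obtain ⟨g0, rfl⟩ := h
    rw [← Equiv.tsum_eq (Equiv.mulLeft g0)]
    refine tsum_congr fun g => ?_
    simp only [Equiv.coe_mulLeft, gv_mul]
    have : gv g0 (gv g τ) = gv g0 τ ↔ gv g τ = τ := (gve g0).injective.eq_iff
    simp only [this]
  · push Not at h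
    rw [ENNReal.tsum_eq_zero]
    intro g
    rw [if_neg (h g)]

open Classical in
/-- weight of a representative -/
noncomputable def wt (τ : V) : ℝ≥0∞ := if Rep τ then (NS τ)⁻¹ else 0

/-- sums over labels are sums over the group -/
lemma sum_orbit (F : V → ℝ≥0∞) (hF : ∀ v, ¬ Pot v → F v = 0) :
    ∑' τ, wt τ * ∑' g : Γ, F (gv g τ) = ∑' v, F v := by
  classical
  have h1 : ∀ τ, ∑' g : Γ, F (gv g τ) = ∑' v, F v * if ∃ g, gv g τ = v then NS τ else 0 := by
    intro τ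
    calc ∑' g : Γ, F (gv g τ) = ∑' g : Γ, ∑' v, F v * if gv g τ = v then (1:ℝ≥0∞) else 0 := by
          refine tsum_congr fun g => ?_
          rw [tsum_eq_single (gv g τ) (fun v hv => by rw [if_neg (Ne.symm hv), mul_zero]), if_pos rfl,
            mul_one]
      _ = ∑' v, ∑' g : Γ, F v * if gv g τ = v then (1:ℝ≥0∞) else 0 := ENNReal.tsum_comm
      _ = _ := by
          refine tsum_congr fun v => ?_
          rw [ENNReal.tsum_mul_left, fiber]
  simp only [h1, ← ENNReal.tsum_mul_left]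
  rw [ENNReal.tsum_comm]
  refine tsum_congr fun v => ?_
  by_cases hv : Pot v
  · obtain ⟨τ0, g0, hr, rfl⟩ := exists_rep hv
    rw [tsum_eq_single τ0]
    · rw [if_pos ⟨g0, rfl⟩, wt, if_pos hr, mul_comm, mul_assoc,
        ENNReal.mul_inv_cancel (NS_ne_zero _) (NS_ne_top hr), mul_one]
    · intro τ hτ
      by_cases hr' : Rep τ
      · rw [if_neg, mul_zero, mul_zero]
        rintro ⟨g, hg⟩
        apply hτ
        refine rep_unique hr' hr (g := g0⁻¹ * g) ?_
        rw [gv_mul, hg, gv_inv]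
      · rw [wt, if_neg hr', zero_mul]
  · rw [hF v hv, ENNReal.tsum_eq_zero]
    intro τ
    rw [zero_mul, mul_zero]

/-- mass transport for the group -/
theorem mass (Φ : V → V → ℝ≥0∞) (hΦ : ∀ (g : Γ) x y, Φ (gv g x) (gv g y) = Φ x y)
    (h1 : ∀ x y, ¬ Pot y → Φ x y = 0) (h2 : ∀ x y, ¬ Pot x → Φ x y = 0) :
    ∑' τ, wt τ * ∑' v, Φ τ v = ∑' τ, wt τ * ∑' v, Φ v τ := by
  calc ∑' τ, wt τ * ∑' v, Φ τ v
      = ∑' τ, wt τ * ∑' τ', wt τ' * ∑' g : Γ, Φ τ (gv g τ') := by
        refine tsum_congr fun τ => ?_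
        rw [sum_orbit (fun v => Φ τ v) fun v hv => h1 τ v hv]
    _ = ∑' τ, ∑' τ', wt τ * (wt τ' * ∑' g : Γ, Φ τ (gv g τ')) := by
        refine tsum_congr fun τ => ?_
        rw [ENNReal.tsum_mul_left]
    _ = ∑' τ', ∑' τ, wt τ * (wt τ' * ∑' g : Γ, Φ τ (gv g τ')) := ENNReal.tsum_comm
    _ = ∑' τ', wt τ' * ∑' τ, wt τ * ∑' g : Γ, Φ (gv g τ) τ' := by
        refine tsum_congr fun τ' => ?_
        rw [← ENNReal.tsum_mul_left]
        refine tsum_congr fun τ => ?_
        have e : ∑' g : Γ, Φ τ (gv g τ') = ∑' g : Γ, Φ (gv g τ) τ' := by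
          rw [← Equiv.tsum_eq (Equiv.inv Γ)]
          refine tsum_congr fun g => ?_
          simp only [Equiv.inv_apply]
          rw [← hΦ g, gv_inv']
        rw [e]; ring
    _ = _ := by
        refine tsum_congr fun τ' => ?_
        rw [sum_orbit (fun v => Φ v τ') fun v hv => h2 v τ' hv]

end Pool.Agent.H49.CP
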