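import Pool.Agent.H49.CP.Defs
import Pool.Agent.H49.CP.Trans

set_option autoImplicit false

namespace Pool.Agent.H49.CP

open Finset MeasureTheory Filter Topology
open scoped ENNReal

lemma meas_act (v : V) : MeasurableSet {ω : Om | Act (DD ω) v} := by
  have h : Measurable fun ω => DD ω v.1 := meas_DD v.1
  exact h (Set.to_countable {n : ℕ | Act (fun _ => n) v}).measurableSet

lemma meas_adj (v w : V) : MeasurableSet {ω : Om | (Gr (DD ω)).Adj v w} := by
  have : {ω : Om | (Gr (DD ω)).Adj v w} = {ω | v ≠ w} ∩ ({ω : Om | Act (DD ω) v} ∩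
      ({ω : Om | Act (DD ω) w} ∩ {ω | B4 (Xv v) (Xv w) = -1})) := rfl
  rw [this]
  exact MeasurableSet.const _ |>.inter ((meas_act v).inter ((meas_act w).inter
    (MeasurableSet.const _)))

lemma meas_Gr : @Measurable Om (SimpleGraph V) _
    (MeasurableSpace.comap SimpleGraph.Adj inferInstance) fun ω => Gr (DD ω) := by
  rw [measurable_comap_iff]
  refine measurable_pi_lambda _ fun v => measurable_pi_lambda _ fun w => ?_
  exact measurable_to_prop (by
    have := meas_adj v w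
    convert this using 1
    ext ω
    simp)

/-- the mass measure on environments and roots -/
noncomputable def M0 : Measure (Om × V) :=
  Measure.sum fun τ : V => wt τ • ((Pm.restrict {ω | Act (DD ω) τ}).map fun ω => (ω, τ))

/-- the law of environment and root -/
noncomputable def MM : Measure (Om × V) := (M0 Set.univ)⁻¹ • M0

lemma lint_M0 (F : Om × V → ℝ≥0∞) (hF : Measurable F) :
    ∫⁻ z, F z ∂M0 = ∑' τ, wt τ * ∫⁻ ω in {ω | Act (DD ω) τ}, F (ω, τ) ∂Pm := by
  unfold M0
  rw [lintegral_sum_measure]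
  refine tsum_congr fun τ => ?_
  rw [lintegral_smul_measure, lintegral_map hF (by fun_prop), smul_eq_mul]

lemma wt_le (τ : V) : wt τ ≤ 1 := by
  classical
  unfold wt
  split_ifs with h
  · rw [ENNReal.inv_le_one]
    unfold NS
    calc (1:ℝ≥0∞) = if gv (1:Γ) τ = τ then 1 else 0 := by rw [if_pos (gv_one τ)]
      _ ≤ _ := ENNReal.le_tsum (1:Γ)
  · exact zero_le

lemma sum_rep (H : V → ℝ≥0∞) : ∑' τ, wt τ * H τ ≤ H (bv p0) + H (bv q0) +
    ∑' l : ℕ, H (p0 + p1, q0, l + 1) := by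
  classical
  have h1 : ∀ τ, wt τ * H τ ≤ ((if τ = bv p0 then H τ else 0) + (if τ = bv q0 then H τ else 0)) +
      ∑' l : ℕ, if τ = (p0 + p1, q0, l + 1) then H τ else 0 := by
    intro τ
    by_cases h : Rep τ
    · have h2 : wt τ * H τ ≤ H τ := by
        calc wt τ * H τ ≤ 1 * H τ := mul_le_mul_left (wt_le τ) _
          _ = H τ := one_mul _
      refine h2.trans ?_
      rcases h with h | h | ⟨l, hl, h⟩
      · rw [if_pos h, add_assoc]; exact le_self_add
      · rw [if_pos h, add_right_comm]; exact le_add_self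
      · obtain ⟨k, rfl⟩ : ∃ k, l = k + 1 := ⟨l - 1, by omega⟩
        refine le_trans ?_ le_add_self
        calc H τ = if τ = (p0 + p1, q0, k + 1) then H τ else 0 := by rw [if_pos h]
          _ ≤ _ := ENNReal.le_tsum k
    · rw [wt, if_neg h, zero_mul]; exact zero_le
  refine (ENNReal.tsum_le_tsum h1).trans ?_
  rw [ENNReal.tsum_add, ENNReal.tsum_add, tsum_ite_eq, tsum_ite_eq, ENNReal.tsum_comm]
  refine add_le_add_right (ENNReal.tsum_le_tsum fun l => ?_) _
  rw [tsum_ite_eq]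

lemma tail_sum : ∑' l : ℕ, Pm {ω | Act (DD ω) (p0 + p1, q0, l + 1)} ≤ 8 * c1 ^ 2 := by
  classical
  have h1 : ∀ l : ℕ, Pm {ω | Act (DD ω) (p0 + p1, q0, l + 1)} ≤
      ∫⁻ ω, (if l + 1 ≤ DD ω (p0 + p1) then 1 else 0) ∂Pm := by
    intro l
    rw [← lintegral_indicator_one (meas_act _)]
    refine lintegral_mono fun ω => ?_
    simp only [Set.indicator, Set.mem_setOf_eq]
    split_ifs with h h'
    · simp
    · exfalso
      rcases h with ⟨h, -⟩ | ⟨-, h, -⟩
      · simp at h
      · exact h' h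
    · exact zero_le
    · exact zero_le
  refine (ENNReal.tsum_le_tsum h1).trans ?_
  have hm : ∀ l : ℕ, Measurable fun ω : Om => (if l + 1 ≤ DD ω (p0 + p1) then (1:ℝ≥0∞) else 0) := by
    intro l
    have h : Measurable fun n : ℕ => (if l + 1 ≤ n then (1:ℝ≥0∞) else 0) :=
      measurable_of_countable _
    exact h.comp (meas_DD (p0 + p1))
  rw [← lintegral_tsum fun l => (hm l).aemeasurable]
  refine le_trans (lintegral_mono fun ω => ?_) (int_DD2 ctr_p0 ctr_p1 (by decide))
  have h2 : ∀ n : ℕ, (∑' l : ℕ, if l + 1 ≤ n then (1:ℝ≥0∞) else 0) ≤ (n : ℝ≥0∞) ^ 2 := by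
    intro n
    rw [tsum_eq_sum (s := range n) (fun l hl => by
      rw [if_neg]; simpa using hl)]
    calc ∑ l ∈ range n, (if l + 1 ≤ n then (1:ℝ≥0∞) else 0) ≤ ∑ l ∈ range n, 1 :=
          sum_le_sum fun l _ => by split_ifs <;> simp
      _ = (n : ℝ≥0∞) := by simp
      _ ≤ _ := by exact_mod_cast Nat.le_self_pow two_ne_zero n
  exact h2 _

lemma M0_univ_ne_top : M0 Set.univ ≠ ⊤ := by
  have h1 : M0 Set.univ = ∑' τ, wt τ * Pm {ω | Act (DD ω) τ} := by
    rw [← lintegral_one, lint_M0 _ measurable_const]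
    refine tsum_congr fun τ => ?_
    simp
  rw [h1]
  refine ne_top_of_le_ne_top ?_ (sum_rep _)
  have h2 := ne_top_of_le_ne_top (by have := c1_ne_top; finiteness) tail_sum
  have h3 : ∀ v, Pm {ω | Act (DD ω) v} ≠ ⊤ := fun v => measure_ne_top _ _
  exact ENNReal.add_ne_top.2 ⟨ENNReal.add_ne_top.2 ⟨h3 _, h3 _⟩, h2⟩

lemma rep_p0 : Rep (bv p0) := Or.inl rfl

lemma M0_p0 {A : Set Om} (hA : MeasurableSet A) : M0 (A ×ˢ {bv p0}) = (NS (bv p0))⁻¹ * Pm A := by
  classical
  rw [← lintegral_indicator_one (hA.prod (measurableSet_singleton _)),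
    lint_M0 _ (measurable_one.indicator (hA.prod (measurableSet_singleton _)))]
  rw [tsum_eq_single (bv p0)]
  · rw [wt, if_pos rep_p0]
    congr 1
    have : {ω : Om | Act (DD ω) (bv p0)} = Set.univ := by
      ext ω; simp [act_ctr ctr_p0]
    rw [this, Measure.restrict_univ, ← lintegral_indicator_one hA]
    refine lintegral_congr fun ω => ?_
    simp [Set.indicator]
  · intro τ hτ
    have : ∀ ω : Om, (A ×ˢ {bv p0}).indicator (1 : Om × V → ℝ≥0∞) (ω, τ) = 0 := by
      intro ω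
      simp [Set.indicator, hτ]
    simp [this]

lemma M0_univ_ne_zero : M0 Set.univ ≠ 0 := by
  intro h
  have h1 := M0_p0 MeasurableSet.univ
  rw [measure_univ, mul_one] at h1
  have h2 : M0 (Set.univ ×ˢ {bv p0}) = 0 := measure_mono_null (Set.subset_univ _) h
  rw [h2] at h1
  exact (ENNReal.inv_ne_zero.2 (NS_ne_top rep_p0)) h1.symm

instance : IsProbabilityMeasure MM := ⟨by
  unfold MM
  rw [Measure.smul_apply, smul_eq_mul]
  exact ENNReal.inv_mul_cancel M0_univ_ne_zero M0_univ_ne_top⟩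

/-- positive probability at `p0` gives positive mass -/
lemma MM_pos {A : Set Om} (hA : MeasurableSet A) (h : Pm A ≠ 0) : MM (A ×ˢ {bv p0}) ≠ 0 := by
  unfold MM
  rw [Measure.smul_apply, smul_eq_mul, M0_p0 hA]
  exact mul_ne_zero (ENNReal.inv_ne_zero.2 M0_univ_ne_top)
    (mul_ne_zero (ENNReal.inv_ne_zero.2 (NS_ne_top rep_p0)) h)

lemma ae_MM {p : Om × V → Prop} (h : ∀ τ, ∀ᵐ ω ∂Pm, Act (DD ω) τ → p (ω, τ)) : ∀ᵐ z ∂MM, p z := by
  unfold MM
  refine Measure.ae_smul_measure ?_ _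
  unfold M0
  rw [ae_iff]
  have hnull : ∀ τ : V, ∃ T, MeasurableSet T ∧ Pm T = 0 ∧ ∀ ω, ω ∉ T → Act (DD ω) τ → p (ω, τ) := by
    intro τ
    obtain ⟨T, hT1, hT2, hT3⟩ := exists_measurable_superset_of_null (ae_iff.1 (h τ))
    refine ⟨T, hT2, hT3, fun ω hω hA => ?_⟩
    by_contra hcon
    exact hω (hT1 (by simp only [Set.mem_setOf_eq, Classical.not_imp]; exact ⟨hA, hcon⟩))
  choose T hT1 hT2 hT3 using hnull
  set U : Set (Om × V) := {z | z.1 ∈ T z.2 ∨ ¬ Act (DD z.1) z.2} with hU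
  have hUm : MeasurableSet U := by
    have h1 : MeasurableSet {z : Om × V | z.1 ∈ T z.2} := by
      have e : {z : Om × V | z.1 ∈ T z.2} = ⋃ τ : V, (T τ) ×ˢ {τ} := by
        ext z; simp [Set.mem_iUnion, Set.mem_prod]
      rw [e]
      exact MeasurableSet.iUnion fun τ => (hT1 τ).prod (measurableSet_singleton _)
    have h2 : MeasurableSet {z : Om × V | ¬ Act (DD z.1) z.2} := by
      have e : {z : Om × V | ¬ Act (DD z.1) z.2} = ⋃ τ : V, ({ω | Act (DD ω) τ}ᶜ) ×ˢ {τ} := by
        ext z; simp [Set.mem_iUnion, Set.mem_prod]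
      rw [e]
      exact MeasurableSet.iUnion fun τ => (meas_act τ).compl.prod (measurableSet_singleton _)
    exact h1.union h2
  refine measure_mono_null (t := U) ?_ ?_
  · intro z hz
    simp only [Set.mem_setOf_eq] at hz
    by_contra hcon
    simp only [hU, Set.mem_setOf_eq, not_or, not_not] at hcon
    exact hz (hT3 z.2 z.1 hcon.1 hcon.2)
  · rw [Measure.sum_apply _ hUm, ENNReal.tsum_eq_zero]
    intro τ
    rw [Measure.smul_apply, Measure.map_apply (by fun_prop) hUm, smul_eq_mul,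
      Measure.restrict_apply' (meas_act τ)]
    refine mul_eq_zero_of_right _ (measure_mono_null ?_ (hT2 τ))
    rintro ω ⟨h1, h2⟩
    rcases h1 with h1 | h1
    · exact h1
    · exact absurd h2 h1

end Pool.Agent.H49.CP
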