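import Pool.Agent.H49.CP.Net
import Pool.Graph.R_pool_sql_team_ae5b0c61.H43.RW

set_option autoImplicit false

namespace Pool.Agent.H49.CP.Walk

open MeasureTheory ProbabilityTheory Finset Filter Topology Pool.Agent.H45.Chain
  Pool.Agent.H43.RW Pool.Agent.H49.CP.Net
open scoped ENNReal

variable {V : Type} [MeasurableSpace V] [Countable V] [MeasurableSingletonClass V]

/-- law at time `n` -/
noncomputable def pn (K : Kernel V V) [IsMarkovKernel K] (n : ℕ) (v w : V) : ℝ≥0∞ :=
  pathLaw K v {x | x n = w}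

omit [Countable V] in
lemma meas_at (n : ℕ) (w : V) : MeasurableSet {x : ℕ → V | x n = w} := by
  have h : Measurable fun x : ℕ → V => x n := by fun_prop
  exact h (measurableSet_singleton w)

lemma pn_le_one (K : Kernel V V) [IsMarkovKernel K] (n : ℕ) (v w : V) : pn K n v w ≤ 1 :=
  prob_le_one

lemma pn_zero_self (K : Kernel V V) [IsMarkovKernel K] (v : V) : pn K 0 v v = 1 := by
  have h := ae_start K v
  rw [ae_iff] at h
  have h2 := prob_add_prob_compl (μ := pathLaw K v) (meas_at (V := V) 0 v)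
  have h3 : pathLaw K v {x : ℕ → V | x 0 = v}ᶜ = 0 := h
  rw [h3, add_zero] at h2
  exact h2

lemma pn_zero_ne (K : Kernel V V) [IsMarkovKernel K] {v w : V} (hvw : v ≠ w) : pn K 0 v w = 0 := by
  have h := ae_start K v
  rw [ae_iff] at h
  refine measure_mono_null ?_ h
  intro x hx hx'
  exact hvw (hx'.symm.trans hx)

lemma pn_succ (K : Kernel V V) [IsMarkovKernel K] (n : ℕ) (v w : V) :
    pn K (n + 1) v w = ∑' u, K v {u} * pn K n u w := by
  unfold pn
  rw [measure_first_step K v _ (meas_at (n + 1) w)]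
  rfl

lemma pn_succ' (K : Kernel V V) [IsMarkovKernel K] (n : ℕ) : ∀ v w : V,
    pn K (n + 1) v w = ∑' u, pn K n v u * K u {w} := by
  induction n with
  | zero =>
    intro v w
    rw [pn_succ, tsum_eq_single w (fun u hu => by rw [pn_zero_ne K hu, mul_zero]),
      tsum_eq_single v (fun u hu => by rw [pn_zero_ne K hu.symm, zero_mul]),
      pn_zero_self, pn_zero_self, mul_one, one_mul]
  | succ n ih =>
    intro v w
    rw [pn_succ]
    calc ∑' u, K v {u} * pn K (n + 1) u w = ∑' u, ∑' y, K v {u} * (pn K n u y * K y {w}) := by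
          refine tsum_congr fun u => ?_
          rw [ih u w, ENNReal.tsum_mul_left]
      _ = ∑' y, ∑' u, K v {u} * (pn K n u y * K y {w}) := ENNReal.tsum_comm
      _ = ∑' y, pn K (n + 1) v y * K y {w} := by
          refine tsum_congr fun y => ?_
          rw [pn_succ, ← ENNReal.tsum_mul_right]
          exact tsum_congr fun u => by ring

variable (G : SimpleGraph V) (hfin : ∀ v, (G.neighborSet v).Finite)

/-- neighbours as a finset -/
noncomputable def nf (v : V) : Finset V := (hfin v).toFinset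

lemma mem_nf {v w : V} : w ∈ nf G hfin v ↔ G.Adj v w := by
  simp [nf]

open Classical in
lemma srw_ap (v w : V) : srw G v {w} = if (nf G hfin v).Nonempty then
    (if G.Adj v w then ((nf G hfin v).card : ℝ≥0∞)⁻¹ else 0) else (if v = w then 1 else 0) := by
  by_cases hne : (nf G hfin v).Nonempty
  · rw [if_pos hne]
    haveI : Fintype (G.neighborSet v) := (hfin v).fintype
    have hdeg : G.degree v = (nf G hfin v).card := by
      rw [← SimpleGraph.card_neighborFinset_eq_degree]
      congr 1
      ext w; simp [mem_nf]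
    have hpos : 0 < G.degree v := by rw [hdeg]; exact card_pos.2 hne
    have := srw_sum G v hpos (fun y => if y = w then 1 else 0)
    rw [tsum_eq_single w (fun y hy => by simp [hy])] at this
    simp only [if_true, mul_one] at this
    rw [this, ← hdeg]
    by_cases hw : G.Adj v w
    · rw [if_pos hw, sum_ite_eq' , if_pos (by simpa using hw), ENNReal.div_eq_inv_mul, mul_one]
    · rw [if_neg hw, sum_ite_eq', if_neg (by simpa using hw), ENNReal.zero_div]
  · rw [if_neg hne]
    have h0 : ¬ (G.neighborSet v).Nonempty := by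
      rintro ⟨y, hy⟩
      exact hne ⟨y, (mem_nf G hfin).2 hy⟩
    simp only [srw, Kernel.ofFunOfCountable, Kernel.coe_mk]
    rw [if_neg (fun h => h0 h.2), Measure.dirac_apply' _ (measurableSet_singleton _)]
    simp [Set.indicator]

lemma srw_step_sum {v : V} (hne : (nf G hfin v).Nonempty) (g : V → ℝ≥0∞) :
    ∑' w, srw G v {w} * g w = (∑ w ∈ nf G hfin v, g w) / (nf G hfin v).card := by
  classical
  rw [tsum_eq_sum (s := nf G hfin v) fun w hw => by
    rw [srw_ap G hfin, if_pos hne, if_neg (fun h => hw ((mem_nf G hfin).2 h)), zero_mul],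
    ENNReal.div_eq_inv_mul, mul_sum]
  refine sum_congr rfl fun w hw => ?_
  rw [srw_ap G hfin, if_pos hne, if_pos ((mem_nf G hfin).1 hw)]

lemma srw_step_iso {v : V} (hne : ¬ (nf G hfin v).Nonempty) (g : V → ℝ≥0∞) :
    ∑' w, srw G v {w} * g w = g v := by
  classical
  rw [tsum_eq_single v fun w hw => by
    rw [srw_ap G hfin, if_neg hne, if_neg hw.symm, zero_mul], srw_ap G hfin, if_neg hne,
    if_pos rfl, one_mul]

lemma deg_step (v : V) (g : V → ℝ≥0∞) :
    ((nf G hfin v).card : ℝ≥0∞) * ∑' w, srw G v {w} * g w = ∑ w ∈ nf G hfin v, g w := by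
  by_cases hne : (nf G hfin v).Nonempty
  · rw [srw_step_sum G hfin hne, ENNReal.mul_div_cancel]
    · simpa using hne.ne_empty
    · exact ENNReal.natCast_ne_top _
  · rw [not_nonempty_iff_eq_empty] at hne
    rw [hne]; simp

lemma rev1 (v w : V) : ((nf G hfin v).card : ℝ≥0∞) * srw G v {w} =
    ((nf G hfin w).card : ℝ≥0∞) * srw G w {v} := by
  classical
  have key : ∀ v w : V, ((nf G hfin v).card : ℝ≥0∞) * srw G v {w} = if G.Adj v w then 1 else 0 := by
    intro v w
    by_cases hne : (nf G hfin v).Nonempty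
    · rw [srw_ap G hfin, if_pos hne]
      split_ifs with h
      · exact ENNReal.mul_inv_cancel (by simpa using hne.ne_empty) (ENNReal.natCast_ne_top _)
      · rw [mul_zero]
    · rw [if_neg (fun h => hne ⟨w, (mem_nf G hfin).2 h⟩)]
      rw [not_nonempty_iff_eq_empty] at hne
      rw [hne]; simp
  rw [key, key]
  simp only [G.adj_comm]

lemma rev (n : ℕ) : ∀ v w : V, ((nf G hfin v).card : ℝ≥0∞) * pn (srw G) n v w =
    ((nf G hfin w).card : ℝ≥0∞) * pn (srw G) n w v := by
  induction n with
  | zero =>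
    intro v w
    by_cases h : v = w
    · rw [h]
    · rw [pn_zero_ne _ h, pn_zero_ne _ (Ne.symm h)]; simp
  | succ n ih =>
    intro v w
    rw [pn_succ, pn_succ', ← ENNReal.tsum_mul_left, ← ENNReal.tsum_mul_left]
    refine tsum_congr fun u => ?_
    rw [← mul_assoc, rev1, mul_comm _ (srw G u {v}), mul_assoc, ih u w]
    ring

/-- partial Green function -/
noncomputable def gE (o : V) (n : ℕ) (x : V) : ℝ≥0∞ := ∑ t ∈ range n, pn (srw G) t x o

open Classical in
lemma gE_succ (o : V) (n : ℕ) (x : V) : gE G o (n + 1) x = (if x = o then 1 else 0) +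
    ∑' w, srw G x {w} * gE G o n w := by
  unfold gE
  rw [sum_range_succ']
  have h0 : pn (srw G) 0 x o = if x = o then 1 else 0 := by
    split_ifs with h
    · rw [h, pn_zero_self]
    · exact pn_zero_ne _ h
  rw [h0, add_comm]
  congr 1
  simp only [mul_sum]
  rw [Summable.tsum_finsetSum fun _ _ => ENNReal.summable]
  exact sum_congr rfl fun t _ => pn_succ _ _ _ _

lemma gE_mono (o : V) (x : V) {m n : ℕ} (h : m ≤ n) : gE G o m x ≤ gE G o n x :=
  sum_le_sum_of_subset (range_mono h)

lemma gE_le (o : V) (n : ℕ) : ∀ x, gE G o n x ≤ gE G o n o := by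
  classical
  induction n with
  | zero => intro x; simp [gE]
  | succ n ih =>
    intro x
    by_cases h : x = o
    · rw [h]
    · rw [gE_succ, if_neg h, zero_add]
      calc ∑' w, srw G x {w} * gE G o n w ≤ ∑' w, srw G x {w} * gE G o n o :=
            ENNReal.tsum_le_tsum fun w => mul_le_mul_right (ih w) _
        _ = gE G o n o := by rw [ENNReal.tsum_mul_right, tsum_kernel, one_mul]
        _ ≤ _ := gE_mono G o o (Nat.le_succ n)

lemma gE_ne_top (o : V) (n : ℕ) (x : V) : gE G o n x ≠ ⊤ :=
  ENNReal.sum_ne_top.2 fun t _ => ne_top_of_le_ne_top ENNReal.one_ne_top (pn_le_one _ _ _ _)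

open Classical in
/-- neighbourhood closure of a finite set -/
noncomputable def cl (S : Finset V) : Finset V := S ∪ S.biUnion (nf G hfin)

lemma subset_cl (S : Finset V) : S ⊆ cl G hfin S := by
  classical
  intro w hw
  unfold cl
  exact mem_union_left _ hw

lemma nf_sub_cl {S : Finset V} {x : V} (hx : x ∈ S) : nf G hfin x ⊆ cl G hfin S := by
  classical
  intro w hw
  unfold cl
  exact mem_union_right _ (mem_biUnion.2 ⟨x, hx, hw⟩)

include hfin in
lemma supp_pn (o : V) (n : ℕ) : ∃ S : Finset V, ∀ x, x ∉ S → pn (srw G) n x o = 0 := by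
  classical
  induction n with
  | zero => exact ⟨{o}, fun x hx => pn_zero_ne _ (by simpa using hx)⟩
  | succ n ih =>
    obtain ⟨S, hS⟩ := ih
    refine ⟨cl G hfin S, fun x hx => ?_⟩
    rw [pn_succ, ENNReal.tsum_eq_zero]
    intro w
    by_cases hw : w ∈ S
    · have h1 : x ≠ w := fun e => hx (subset_cl G hfin S (e ▸ hw))
      have h2 : ¬ G.Adj x w := fun h => hx (nf_sub_cl G hfin hw ((mem_nf G hfin).2 h.symm))
      rw [srw_ap G hfin]
      simp [h1, h2]
    · rw [hS w hw, mul_zero]

include hfin in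
lemma supp_gE (o : V) (n : ℕ) : ∃ S : Finset V, ∀ x, x ∉ S → gE G o n x = 0 := by
  classical
  choose S hS using supp_pn G hfin o
  refine ⟨(range n).biUnion S, fun x hx => ?_⟩
  refine sum_eq_zero fun t ht => hS t x fun h => hx (mem_biUnion.2 ⟨t, ht, h⟩)

lemma LK_full {K : Finset V} {x : V} (hx : nf G hfin x ⊆ K) (f : V → ℝ) :
    LK G K f x = ∑ w ∈ nf G hfin x, (f w - f x) := by
  classical
  unfold LK
  rw [← sum_filter]
  refine sum_congr ?_ fun _ _ => rfl
  ext w
  simp only [mem_filter, mem_nf]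
  exact ⟨fun h => h.2, fun h => ⟨hx ((mem_nf G hfin).2 h), h⟩⟩

/-- energy bound implies a bound for the Green function -/
theorem green_bound (o : V) (κ : ℝ) (hκ : 0 ≤ κ)
    (HK : ∀ (φ : V → ℝ) (S : Finset V), (∀ x, x ∉ S → φ x = 0) →
      φ o ^ 2 ≤ κ * DK G (cl G hfin S) φ φ) (n : ℕ) :
    gE G o n o ≤ ENNReal.ofReal (2 * κ * (nf G hfin o).card) := by
  classical
  obtain ⟨S, hS⟩ := supp_gE G hfin o n
  set φ : V → ℝ := fun x => (gE G o n x).toReal with hφ
  have hφ0 : ∀ x, 0 ≤ φ x := fun x => ENNReal.toReal_nonneg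
  have h1 := HK φ (S ∪ {o}) (fun x hx => by
    simp only [hφ]; rw [hS x (fun h => hx (mem_union_left _ h))]; simp)
  set K := cl G hfin (S ∪ {o}) with hK
  have h2 : DK G K φ φ ≤ 2 * (φ o * (nf G hfin o).card) := by
    rw [DK_eq]
    have h3 : ∀ x ∈ K, -(φ x * LK G K φ x) ≤ if x = o then φ o * (nf G hfin o).card else 0 := by
      intro x hx
      by_cases hxS : x ∈ S ∪ {o}
      · rw [LK_full G hfin (nf_sub_cl G hfin hxS)]
        have h4 : ((nf G hfin x).card : ℝ≥0∞) * gE G o (n + 1) x =
            ((nf G hfin x).card : ℝ≥0∞) * (if x = o then 1 else 0) +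
              ∑ w ∈ nf G hfin x, gE G o n w := by
          rw [gE_succ, mul_add, deg_step]
        have h5 := congrArg ENNReal.toReal h4
        rw [ENNReal.toReal_mul, ENNReal.toReal_add (ENNReal.mul_ne_top (ENNReal.natCast_ne_top _)
          (by split_ifs <;> simp)) (ENNReal.sum_ne_top.2 fun w _ => gE_ne_top G o n w),
          ENNReal.toReal_mul, ENNReal.toReal_sum fun w _ => gE_ne_top G o n w,
          ENNReal.toReal_natCast] at h5
        have h6 : φ x ≤ (gE G o (n + 1) x).toReal :=
          ENNReal.toReal_mono (gE_ne_top G o _ x) (gE_mono G o x (Nat.le_succ n))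
        rw [sum_sub_distrib, sum_const, nsmul_eq_mul]
        have h7 : (∑ w ∈ nf G hfin x, φ w) = (nf G hfin x).card * (gE G o (n + 1) x).toReal -
            (nf G hfin x).card * (if x = o then (1:ℝ≥0∞) else 0).toReal := by linarith
        rw [h7]
        have hc : (0:ℝ) ≤ (nf G hfin x).card := Nat.cast_nonneg _
        by_cases hxo : x = o
        · subst hxo
          simp only [if_true, ENNReal.toReal_one, mul_one]
          nlinarith [mul_nonneg (hφ0 x) (mul_nonneg hc (sub_nonneg.2 h6))]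
        · simp only [if_neg hxo, ENNReal.toReal_zero, mul_zero, sub_zero]
          nlinarith [mul_nonneg (hφ0 x) (mul_nonneg hc (sub_nonneg.2 h6))]
      · have h0 : φ x = 0 := by
          simp only [hφ]; rw [hS x (fun h => hxS (mem_union_left _ h))]; simp
        have hxo : x ≠ o := fun e => hxS (by simp [e])
        rw [h0, if_neg hxo]; simp
    have h8 : ∑ x ∈ K, -(φ x * LK G K φ x) ≤ φ o * (nf G hfin o).card := by
      refine (sum_le_sum h3).trans ?_
      rw [sum_ite_eq' K o]
      split_ifs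
      · exact le_rfl
      · exact mul_nonneg (hφ0 o) (Nat.cast_nonneg _)
    rw [sum_neg_distrib] at h8
    linarith
  have h9 : φ o ≤ 2 * κ * (nf G hfin o).card := by
    rcases (hφ0 o).eq_or_lt with h0 | h0
    · rw [← h0]; positivity
    · have : φ o * φ o ≤ (2 * κ * (nf G hfin o).card) * φ o := by nlinarith
      exact le_of_mul_le_mul_right this h0
  rw [← ENNReal.ofReal_toReal (gE_ne_top G o n o)]
  exact ENNReal.ofReal_le_ofReal h9

/-- bound for the full Green function -/
theorem green_tsum (o : V) (κ : ℝ) (hκ : 0 ≤ κ)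
    (HK : ∀ (φ : V → ℝ) (S : Finset V), (∀ x, x ∉ S → φ x = 0) →
      φ o ^ 2 ≤ κ * DK G (cl G hfin S) φ φ) (x : V) :
    ((nf G hfin o).card : ℝ≥0∞) * ∑' t, pn (srw G) t o x ≤
      ((nf G hfin x).card : ℝ≥0∞) * ENNReal.ofReal (2 * κ * (nf G hfin o).card) := by
  rw [← ENNReal.tsum_mul_left]
  have e : ∀ t, ((nf G hfin o).card : ℝ≥0∞) * pn (srw G) t o x =
      ((nf G hfin x).card : ℝ≥0∞) * pn (srw G) t x o := fun t => rev G hfin t o x
  simp only [e]
  rw [ENNReal.tsum_mul_left]
  refine mul_le_mul_right ?_ _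
  rw [ENNReal.tsum_eq_iSup_nat]
  exact iSup_le fun n => (gE_le G o n x).trans (green_bound G hfin o κ hκ HK n)

/-- the walk leaves every vertex for good -/
theorem transient (o : V) (ho : (nf G hfin o).Nonempty) (κ : ℝ) (hκ : 0 ≤ κ)
    (HK : ∀ (φ : V → ℝ) (S : Finset V), (∀ x, x ∉ S → φ x = 0) →
      φ o ^ 2 ≤ κ * DK G (cl G hfin S) φ φ) :
    ∀ᵐ x ∂pathLaw (srw G) o, ∀ v, ∀ᶠ n in atTop, x n ≠ v := by
  rw [ae_all_iff]
  intro v
  have h := green_tsum G hfin o κ hκ HK v
  have hne : ∑' t, pathLaw (srw G) o {x : ℕ → V | x t = v} ≠ ⊤ := by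
    intro htop
    have h' : ((nf G hfin o).card : ℝ≥0∞) * ⊤ ≤
      ((nf G hfin v).card : ℝ≥0∞) * ENNReal.ofReal (2 * κ * (nf G hfin o).card) := by
      rw [← htop]; exact h
    rw [ENNReal.mul_top (by simpa using ho.ne_empty)] at h'
    exact (ENNReal.mul_ne_top (ENNReal.natCast_ne_top _) ENNReal.ofReal_ne_top)
      (top_le_iff.1 h')
  filter_upwards [ae_eventually_notMem hne] with x hx
  exact hx

end Pool.Agent.H49.CP.Walk
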