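import Pool.Agent.H49.CP.Corr
import Pool.Agent.H49.CP.Mom

set_option autoImplicit false

namespace Pool.Agent.H49.CP

open Finset

/-- labels in the half plane of a state -/
def InH (k : Γ) (u : L) : Prop := 0 < B u (-(k • n0))

lemma InH_self (k : Γ) : InH k (k • p0) := by
  unfold InH
  rw [B_neg_right, B_act]; decide

lemma nest_X (k : Γ) {i : ZMod 6} (hi : i = 2 ∨ i = 3 ∨ i = 4) {u : L} (hu : Fut u)
    (h : InH (k * Xs i) u) : InH k u := by
  unfold InH at h ⊢
  rw [mul_smul, Xs_n0, act_neg, neg_neg] at h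
  have hf : Fut (n0 + nn i) := by
    rcases hi with rfl | rfl | rfl <;> constructor <;> decide
  have h1 := hu.neg (hf.act k)
  rw [act_add, B_add_right] at h1
  rw [B_neg_right]
  omega

lemma nest_T (k : Γ) (m : ℕ) {u : L} (hu : Fut u) (h : InH (k * XT ^ m) u) : InH k u := by
  induction m with
  | zero => simpa using h
  | succ m ih =>
    rw [pow_succ, ← mul_assoc] at h
    exact ih (nest_X _ (Or.inr (Or.inl rfl)) hu h)

lemma lt_cases (b : Bool) : lt b = 2 ∨ lt b = 3 ∨ lt b = 4 := by
  cases b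
  · exact Or.inr (Or.inr rfl)
  · exact Or.inl rfl

lemma nest_gw (n : ℕ) : ∀ (w : Fin n → Bool) (k : Γ) {u : L}, Fut u → InH (k * gw n w) u →
    InH k u := by
  induction n with
  | zero => intro w k u _ h; simpa [gw] using h
  | succ n ih =>
    intro w k u hu h
    simp only [gw, ← mul_assoc] at h
    exact nest_X _ (lt_cases _) hu (ih _ _ hu h)

lemma disj_gw (n : ℕ) : ∀ (w w' : Fin n → Bool) (k : Γ) {u : L}, w ≠ w' → Fut u →
    InH (k * gw n w) u → InH (k * gw n w') u → False := by
  induction n with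
  | zero =>
    intro w w' k u hne
    exact absurd (Subsingleton.elim w w') hne
  | succ n ih =>
    intro w w' k u hne hu h h'
    simp only [gw, ← mul_assoc] at h h'
    by_cases h0 : w 0 = w' 0
    · rw [← h0] at h'
      refine ih (Fin.tail w) (Fin.tail w') _ (fun e => hne ?_) hu h h'
      rw [← Fin.cons_self_tail w, ← Fin.cons_self_tail w', h0, e]
    · have h1 := nest_gw n _ _ hu h
      have h2 := nest_gw n _ _ hu h'
      unfold InH at h1 h2
      rw [mul_smul, Xs_n0, act_neg, neg_neg] at h1 h2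
      have hf : Fut (nn 2 + nn 4) := by constructor <;> decide
      have h3 := hu.neg (hf.act k)
      rw [act_add, B_add_right] at h3
      cases hw : w 0 <;> cases hw' : w' 0
      · exact h0 (by rw [hw, hw'])
      · rw [hw] at h1; rw [hw'] at h2
        simp only [lt] at h1 h2
        simp only [if_true, Bool.false_eq_true, if_false] at h1 h2
        omega
      · rw [hw] at h1; rw [hw'] at h2
        simp only [lt] at h1 h2
        simp only [if_true, Bool.false_eq_true, if_false] at h1 h2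
        omega
      · exact h0 (by rw [hw, hw'])

/-- `a_t` is outside the later half planes -/
lemma out_T (k : Γ) (m : ℕ) : ¬ InH (k * XT ^ (m + 1)) (k • p0) := by
  intro h
  have hu := (ctr_p0.act k).fut
  rw [pow_succ', ← mul_assoc] at h
  have h1 := nest_T _ m hu h
  unfold InH at h1
  rw [mul_smul, XT, Xs_n0, act_neg, neg_neg, B_act] at h1
  revert h1; decide

/-- heights -/
def nz (k : Γ) : ℤ := (-(k • n0)).2.2
def az (k : Γ) : ℤ := (k • p0).2.2

lemma az_pos (k : Γ) : 0 < az k := (ctr_p0.act k).2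

lemma nz_X (k : Γ) {i : ZMod 6} (hi : i = 2 ∨ i = 3 ∨ i = 4) : nz k + 1 ≤ nz (k * Xs i) := by
  have hf : Fut (n0 + nn i) := by
    rcases hi with rfl | rfl | rfl <;> constructor <;> decide
  have h1 := (hf.act k).2
  rw [act_add] at h1
  unfold nz
  rw [mul_smul, Xs_n0, act_neg, neg_neg]
  simp only [Prod.snd_add, Prod.snd_neg] at h1 ⊢
  omega

lemma nz_gw (n : ℕ) : ∀ (w : Fin n → Bool) (k : Γ), nz k + n ≤ nz (k * gw n w) := by
  induction n with
  | zero => intro w k; simp [gw]
  | succ n ih =>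
    intro w k
    simp only [gw, ← mul_assoc]
    have h1 := ih (Fin.tail w) (k * Xs (lt (w 0)))
    have h2 := nz_X k (lt_cases (w 0))
    push_cast
    omega

lemma nz_T (k : Γ) : nz (k * XT) = 2 * az k + nz k := by
  unfold nz az
  have h : nn 3 = (2:ℤ) • p0 - n0 := rfl
  rw [mul_smul, XT, Xs_n0, act_neg, neg_neg, h, act_sub, act_zsmul]
  simp only [Prod.snd_sub, Prod.smul_snd, Prod.snd_neg, smul_eq_mul]
  ring

lemma az_T (k : Γ) : az (k * XT) = az k + 2 * nz (k * XT) := by
  unfold nz az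
  have h : nb 3 = p0 + (2:ℤ) • nn 3 := nb_nn 3
  rw [mul_smul, mul_smul, XT_p0, XT, Xs_n0, act_neg, neg_neg, h, act_add, act_zsmul]
  simp only [Prod.snd_add, Prod.smul_snd, smul_eq_mul]

lemma nz_nonneg {k : Γ} (hk : 0 ≤ nz k) (m : ℕ) : 0 ≤ nz (k * XT ^ m) := by
  induction m with
  | zero => simpa using hk
  | succ m ih =>
    rw [pow_succ, ← mul_assoc, nz_T]
    have := az_pos (k * XT ^ m)
    linarith

lemma az_lt {k : Γ} (hk : 0 ≤ nz k) {s t : ℕ} (h : s < t) : az (k * XT ^ s) < az (k * XT ^ t) := by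
  induction t, h using Nat.le_induction with
  | base =>
    rw [pow_succ, ← mul_assoc, az_T, nz_T]
    have := az_pos (k * XT ^ s)
    have := nz_nonneg hk s
    linarith
  | succ t _ ih =>
    refine ih.trans ?_
    rw [pow_succ, ← mul_assoc, az_T, nz_T]
    have := az_pos (k * XT ^ t)
    have := nz_nonneg hk t
    linarith

lemma az_pow {k : Γ} (hk : 0 ≤ nz k) (m : ℕ) : 5 ^ m ≤ az (k * XT ^ m) := by
  induction m with
  | zero =>
    have := az_pos k
    simp only [pow_zero, mul_one]
    omega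
  | succ m ih =>
    rw [pow_succ, pow_succ, ← mul_assoc, az_T, nz_T]
    have := nz_nonneg hk m
    linarith

lemma nz_pow {k : Γ} (hk : 0 ≤ nz k) (m : ℕ) : 5 ^ m ≤ nz (k * XT ^ (m + 1)) := by
  rw [pow_succ XT, ← mul_assoc, nz_T]
  have := nz_nonneg hk m
  have := az_pow hk m
  have := az_pos (k * XT ^ m)
  linarith

lemma a_inj {k : Γ} (hk : 0 ≤ nz k) {s t : ℕ} (h : (k * XT ^ s) • p0 = (k * XT ^ t) • p0) :
    s = t := by
  have h1 : az (k * XT ^ s) = az (k * XT ^ t) := by unfold az; rw [h]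
  rcases lt_trichotomy s t with h2 | h2 | h2
  · have := az_lt hk h2; omega
  · exact h2
  · have := az_lt hk h2; omega

/-- the starting edge of the corridor of a state -/
def e0 (k : Γ) : L × L := (k • p0, (k * XT) • p0)

lemma fw_e0 (k : Γ) (s : ℕ) : fw^[s] (e0 k) = ((k * XT ^ s) • p0, (k * XT ^ (s + 1)) • p0) := by
  induction s with
  | zero => simp [e0]
  | succ s ih =>
    rw [Function.iterate_succ_apply', ih]
    simp only [fw]
    congr 1
    have h1 : XT • XT • p0 = (6:ℤ) • (XT • p0) - p0 := rfl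
    rw [pow_succ XT (s + 1), pow_succ XT s]
    simp only [← mul_assoc]
    rw [mul_smul (k * XT ^ s * XT), mul_smul (k * XT ^ s) XT (XT • p0), h1, act_sub, act_zsmul,
      ← mul_smul]

lemma fw_bk_iter (s : ℕ) (e : L × L) : fw^[s] (bk^[s] e) = e := by
  have h : Function.LeftInverse fw bk := fw_bk
  exact h.iterate s e
lemma bk_fw_iter (s : ℕ) (e : L × L) : bk^[s] (fw^[s] e) = e := by
  have h : Function.LeftInverse bk fw := bk_fw
  exact h.iterate s e

/-- `e` is in the corridor of the state `k` if going back one finds its start -/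
lemma cor_of {k : Γ} {s : ℕ} {e : L × L} (h : bk^[s] e = e0 k) :
    e = ((k * XT ^ s) • p0, (k * XT ^ (s + 1)) • p0) := by
  rw [← fw_e0, ← h, fw_bk_iter]

lemma bk_cor (k : Γ) (s : ℕ) : bk^[s] ((k * XT ^ s) • p0, (k * XT ^ (s + 1)) • p0) = e0 k := by
  rw [← fw_e0, bk_fw_iter]

lemma B_cor (k : Γ) (s : ℕ) : B ((k * XT ^ s) • p0) ((k * XT ^ (s + 1)) • p0) = -3 := by
  rw [← st_next, B_act]; decide

end Pool.Agent.H49.CP
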